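import Pool.Agent.Helper44.Gkdv.Pos4

set_option autoImplicit false
set_option maxHeartbeats 4000000

open MeasureTheory Set Filter Topology Real
open scoped ENNReal ContDiff

namespace Pool.Agent.Helper44.Gkdv

/-- the localized energy controls the localized gradient -/
theorem lower_En {u du r dr ψ : ℝ → ℝ} {p : ℝ} (hu : IsH1 u du) (hr : IsH1 r dr)
    (hm : Monotone ψ) (hc : Continuous ψ) (h0 : ∀ x ≤ p, ψ x = 0) (h1 : ∀ x, ψ x ≤ 1)
    (hs : ∫ x in Ioi p, (u x - r x) ^ 2 ≤ 1 / 20) :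
    ∫ x, du x ^ 2 * ψ x ≤ 2 * En ψ u du + 22 * (∫ x, r x ^ 6) + ∫ x, dr x ^ 2 := by
  have hnn : ∀ x, 0 ≤ ψ x := by
    intro x
    rcases le_total x p with hx | hx
    · rw [h0 x hx]
    · rw [← h0 p le_rfl]; exact hm hx
  have hb : ∀ x, |ψ x| ≤ 1 := fun x => by rw [abs_of_nonneg (hnn x)]; exact h1 x
  have hd := hu.sub hr
  have e1 := int_add_six hr hd hc hnn hb
  have e2 : ∀ x, r x + (u x - r x) = u x := fun x => by ring
  simp only [e2] at e1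
  have e3 := hd.six_w hm hc h0 h1
  have e4 : ∫ x, r x ^ 6 * ψ x ≤ ∫ x, r x ^ 6 := by
    refine integral_mono (intw (hr.pow_int (by norm_num)) hc hb) (hr.pow_int (by norm_num))
      (fun x => ?_)
    have h2 : 0 ≤ r x ^ 6 := by positivity
    simp only
    nlinarith [h1 x]
  have e5 : ∫ x, (du x - dr x) ^ 2 * ψ x ≤ 2 * (∫ x, du x ^ 2 * ψ x) + 2 * ∫ x, dr x ^ 2 := by
    have i1 := intw hu.mem'.integrable_sq hc hb
    rw [← integral_const_mul, ← integral_const_mul,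
      ← integral_add (i1.const_mul 2) (hr.mem'.integrable_sq.const_mul 2)]
    refine integral_mono (intw hd.mem'.integrable_sq hc hb)
      ((i1.const_mul 2).add (hr.mem'.integrable_sq.const_mul 2)) (fun x => ?_)
    simp only
    have h2 : (du x - dr x) ^ 2 ≤ 2 * du x ^ 2 + 2 * dr x ^ 2 := by
      nlinarith [sq_nonneg (du x + dr x)]
    have h3 := mul_le_mul_of_nonneg_right h2 (hnn x)
    have h4 : 2 * dr x ^ 2 * ψ x ≤ 2 * dr x ^ 2 * 1 :=
      mul_le_mul_of_nonneg_left (h1 x) (by positivity)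
    linarith
  have hs0 : 0 ≤ ∫ x in Ioi p, (u x - r x) ^ 2 := integral_nonneg fun x => sq_nonneg _
  have hD0 : 0 ≤ ∫ x, (du x - dr x) ^ 2 * ψ x :=
    integral_nonneg fun x => mul_nonneg (sq_nonneg _) (hnn x)
  have hs2 : (∫ x in Ioi p, (u x - r x) ^ 2) ^ 2 ≤ (1 / 20) ^ 2 := pow_le_pow_left₀ hs0 hs 2
  have e6 : ∫ x, (u x - r x) ^ 6 * ψ x ≤ (1 / 100) *
      (2 * (∫ x, du x ^ 2 * ψ x) + 2 * ∫ x, dr x ^ 2) := by
    refine e3.trans ?_
    refine mul_le_mul ?_ e5 hD0 (by norm_num)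
    linarith
  have hX0 : 0 ≤ ∫ x, du x ^ 2 * ψ x := integral_nonneg fun x => mul_nonneg (sq_nonneg _) (hnn x)
  have hdr0 : 0 ≤ ∫ x, dr x ^ 2 := integral_nonneg fun x => sq_nonneg _
  have hr0 : 0 ≤ ∫ x, r x ^ 6 := integral_nonneg fun x => by positivity
  have e7 : En ψ u du = (∫ x, du x ^ 2 * ψ x) + (-(1 / 3)) * ∫ x, u x ^ 6 * ψ x := rfl
  linarith

theorem upper_En {u du ψ : ℝ → ℝ} {p : ℝ} (hu : IsH1 u du)
    (hm : Monotone ψ) (hc : Continuous ψ) (h0 : ∀ x ≤ p, ψ x = 0) (h1 : ∀ x, ψ x ≤ 1) :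
    En ψ u du ≤ ∫ x in Ioi p, du x ^ 2 := by
  have hnn : ∀ x, 0 ≤ ψ x := by
    intro x
    rcases le_total x p with hx | hx
    · rw [h0 x hx]
    · rw [← h0 p le_rfl]; exact hm hx
  have hb : ∀ x, |ψ x| ≤ 1 := fun x => by rw [abs_of_nonneg (hnn x)]; exact h1 x
  have e1 : 0 ≤ ∫ x, u x ^ 6 * ψ x := integral_nonneg fun x => mul_nonneg (by positivity) (hnn x)
  have e2 : ∫ x, du x ^ 2 * ψ x ≤ ∫ x in Ioi p, du x ^ 2 := by
    rw [← integral_indicator measurableSet_Ioi]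
    refine integral_mono (intw hu.mem'.integrable_sq hc hb)
      (hu.mem'.integrable_sq.indicator measurableSet_Ioi) (fun x => ?_)
    simp only
    rcases le_or_gt x p with hx | hx
    · rw [h0 x hx, indicator_of_notMem (by simpa using hx), mul_zero]
    · rw [indicator_of_mem (by simpa using hx)]
      nlinarith [h1 x, sq_nonneg (du x)]
  unfold En
  linarith

theorem sharp_le {du ψ : ℝ → ℝ} {p : ℝ} (hu : MemLp du 2 volume) (hc : Continuous ψ)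
    (hnn : ∀ x, 0 ≤ ψ x) (h1 : ∀ x, ψ x ≤ 1) (hp : ∀ x, p ≤ x → ψ x = 1) :
    ∫ x in Ioi p, du x ^ 2 ≤ ∫ x, du x ^ 2 * ψ x := by
  have hb : ∀ x, |ψ x| ≤ 1 := fun x => by rw [abs_of_nonneg (hnn x)]; exact h1 x
  rw [← integral_indicator measurableSet_Ioi]
  refine integral_mono (hu.integrable_sq.indicator measurableSet_Ioi)
    (intw hu.integrable_sq hc hb) (fun x => ?_)
  simp only
  rcases le_or_gt x p with hx | hx
  · rw [indicator_of_notMem (by simpa using hx)]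
    exact mul_nonneg (sq_nonneg _) (hnn x)
  · rw [indicator_of_mem (by simpa using hx), hp x hx.le, mul_one]

/-- one step of the induction on cuts, on the time interval `[s, t]` -/
theorem H1Sol.onestep {T : ℝ} {u du : ℝ → ℝ → ℝ} (h : H1Sol T u du) {r dr : ℝ → ℝ} (hr : IsH1 r dr)
    {Ψ Ψ1 Ψ2 Ψ3 θ θ1 : ℝ → ℝ}
    {c m p b M P F : ℝ} (st : Step Ψ Ψ1 Ψ2 Ψ3 θ θ1 c m) (hb : 0 < b) (hb1 : b ≤ 1)
    (hM1 : 1 ≤ M) (hP1 : 1 ≤ P) {s t : ℝ} (hs : 0 ≤ s) (hst : s ≤ t) (ht : t < T)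
    (hM : ∀ r ∈ Icc s t, ∫ x, u r x ^ 2 ≤ M)
    (hP : ∀ r ∈ Icc s t, ∫ x in Ioi (p - b), du r x ^ 2 ≤ P)
    (hη : ∀ r ∈ Icc s t, ∫ x in Ioo (p - b) p, u r x ^ 2 ≤ 1 / 20)
    (hw : ∀ t' ∈ Icc s t, ∫ x in Ioi (p - b), (u t' x - r x) ^ 2 ≤ 1 / 20)
    (hF : ∫ x in Ioi (p - b), du s x ^ 2 ≤ F) :
    ∀ t' ∈ Icc s t, ∫ x in Ioi p, du t' x ^ 2 ≤
      2 * F + 8 * CE c m (2 * M + 2) * (b⁻¹ ^ 3 * (t - s)) * P
        + (22 * (∫ x, r x ^ 6) + ∫ x, dr x ^ 2) := by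
  intro t' ht'
  have ht'T : t' ∈ Ico 0 T := ⟨hs.trans ht'.1, ht'.2.trans_lt ht⟩
  have hsT : s ∈ Ico 0 T := ⟨hs, (hst.trans_lt ht)⟩
  have hu := h.h1 t' ht'T
  have hc := st.hc
  have hm0 : 0 ≤ m := (abs_nonneg _).trans (st.tm 0)
  have hib : 0 < b⁻¹ := inv_pos.2 hb
  have sub : ∀ r ∈ Icc s t', r ∈ Icc s t := fun r hr => ⟨hr.1, hr.2.trans ht'.2⟩
  have hmono : Monotone (fun x => Ψ ((x - p) / b)) := by
    intro x y hxy
    exact st.mono (div_le_div_of_nonneg_right (by linarith) hb.le)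
  have hcont : Continuous (fun x => Ψ ((x - p) / b)) := by
    have := st.cut.c0
    fun_prop
  have h0 : ∀ x ≤ p - b, Ψ ((x - p) / b) = 0 := fun x hx => st.z0 _ (by
    rw [div_le_iff₀ hb]; linarith)
  have h1 : ∀ x, Ψ ((x - p) / b) ≤ 1 := by
    intro x
    rcases le_total 0 ((x - p) / b) with h2 | h2
    · rw [st.z1 _ h2]
    · have := st.mono h2
      rwa [st.z1 0 le_rfl] at this
  have hnn : ∀ x, 0 ≤ Ψ ((x - p) / b) := by
    intro x
    rcases le_total ((x - p) / b) (-1) with h2 | h2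
    · rw [st.z0 _ h2]
    · have := st.mono h2
      rwa [st.z0 (-1) le_rfl] at this
  have hp1 : ∀ x, p ≤ x → Ψ ((x - p) / b) = 1 := fun x hx => st.z1 _ (by
    apply div_nonneg _ hb.le; linarith)
  have e1 := h.estep (p := p) (M := M) (P := P) st hb hb1 hM1 hP1 hs ht'.1 ht'T.2
    (fun r hr => hM r (sub r hr)) (fun r hr => hP r (sub r hr)) (fun r hr => hη r (sub r hr))
  have e2 := lower_En hu hr hmono hcont h0 h1 (hw t' ht')
  have e3 := (upper_En (h.h1 s hsT) hmono hcont h0 h1).trans hF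
  have e4 := sharp_le hu.mem' hcont hnn h1 hp1
  have e5 : CE c m (2 * M + 2) * (b⁻¹ ^ 3 * (2 * P + 2)) * (t' - s) ≤
      4 * CE c m (2 * M + 2) * (b⁻¹ ^ 3 * (t - s)) * P := by
    have hCE : 0 ≤ CE c m (2 * M + 2) := by unfold CE; positivity
    have h2 : t' - s ≤ t - s := by linarith [ht'.2]
    have h3 : 0 ≤ t' - s := by linarith [ht'.1]
    have h4 : (2 * P + 2) * (t' - s) ≤ (4 * P) * (t - s) :=
      mul_le_mul (by linarith) h2 h3 (by linarith)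
    have h5 := mul_le_mul_of_nonneg_left h4
      (by positivity : 0 ≤ CE c m (2 * M + 2) * b⁻¹ ^ 3)
    linarith
  linarith

end Pool.Agent.Helper44.Gkdv
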