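import Pool.Agent.Helper44.Gkdv.Ahead1

set_option autoImplicit false
set_option maxHeartbeats 4000000

open MeasureTheory Set Filter Topology Real
open scoped ENNReal ContDiff

namespace Pool.Agent.Helper44.Gkdv

/-- a linear recursion -/
theorem chain {A μ : ℝ} {P : ℕ → ℝ} (hA : 0 ≤ A) (hμ0 : 0 ≤ μ) (hμ : μ ≤ 1 / 2)
    (hP : ∀ j, P (j + 1) = A + μ * P j) (N : ℕ) : P N ≤ 2 * A + μ ^ N * P 0 := by
  induction N with
  | zero => simp; linarith
  | succ n ih =>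
    rw [hP, pow_succ]
    have h1 := mul_le_mul_of_nonneg_left ih hμ0
    have h2 : μ * (2 * A) ≤ (1 / 2) * (2 * A) := mul_le_mul_of_nonneg_right hμ (by linarith)
    nlinarith

namespace Setup

variable {T ν x0 : ℝ} {u du : ℝ → ℝ → ℝ} {lam sig : ℝ → ℝ} {r dr : ℝ → ℝ}

theorem ev_tail (S : Setup T ν x0 u du lam sig r dr) {c1 cl Cl B ε t' y : ℝ} (hc1 : 0 < c1)
    (hCl : 0 < Cl) (hε : 0 < ε)
    (N : Near T ν x0 u du lam sig r dr cl Cl B ε t')
    (hpos : c1 * (T - t') ^ (1 - 2 * ν) ≤ x0 - sig t')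
    (hy : x0 - y ≤ (c1 / 2) * (T - t') ^ (1 - 2 * ν)) :
    ∫ x in Ioi y, (u t' x - r x) ^ 2 ≤ 16 * Ce * Cl * ε / c1 + 2 * ε ^ 2 := by
  have hl := S.lpos t'
  have hu := S.sol.h1 t' N.tI
  have hd : 0 < T - t' := sub_pos.2 N.tI.2
  have hρ : 0 < (T - t') ^ (1 - 2 * ν) := rpow_pos_of_pos hd _
  obtain ⟨g1, -⟩ := tail_small S.hν1 S.hν2 hCl (le_refl t') N.tI.2 N.d1 hl N.l2 N.sm le_rfl
  have hf : MemLp (fun x => u t' x - r x) 2 volume := hu.mem.sub S.hr.mem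
  have hR := memLp_R hl (sig t')
  have e1 := int_sq_le_of_dst (hf.restrict (Ioi y)) (hR.restrict (Ioi y))
  set d := (c1 / 2) * (T - t') ^ (1 - 2 * ν) with hdd
  have hd0 : 0 < d := by positivity
  have e2 : ∫ x in Ioi y, R (lam t') (sig t') x ^ 2 ≤ 4 * Ce * exp (-(d / lam t')) := by
    refine tail_R hl _ measurableSet_Ioi (fun x hx => ?_)
    have hx' : y < x := hx
    refine le_trans ?_ (le_abs_self _)
    linarith
  have e3 : 4 * Ce * exp (-(d / lam t')) ≤ 8 * Ce * Cl * ε / c1 := by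
    have h1 := exp_neg_le (div_pos hd0 hl)
    rw [inv_div] at h1
    have h2 : lam t' / d ≤ 2 * (Cl * ε) / c1 := by
      rw [div_le_div_iff₀ hd0 hc1, hdd]
      nlinarith
    have hCe := Ce_nonneg
    calc 4 * Ce * exp (-(d / lam t')) ≤ 4 * Ce * (2 * (Cl * ε) / c1) :=
          mul_le_mul_of_nonneg_left (h1.trans h2) (by positivity)
      _ = _ := by ring
  have e4 : ∫ x in Ioi y, (u t' x - r x - R (lam t') (sig t') x) ^ 2 ≤ ε ^ 2 := by
    have h1 : ∀ x, (u t' x - r x - R (lam t') (sig t') x) ^ 2 =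
      (u t' x - R (lam t') (sig t') x - r x) ^ 2 := fun x => by ring
    simp only [h1]
    refine (setIntegral_le_integral ?_ (ae_of_all _ fun x => sq_nonneg _)).trans N.e
    exact ((hu.mem.sub hR).sub S.hr.mem).integrable_sq
  have e5 : 16 * Ce * Cl * ε / c1 = 2 * (8 * Ce * Cl * ε / c1) := by ring
  linarith

/-- The `H^1` size ahead of the soliton is controlled by that at a much earlier time. -/
theorem ahead_step (S : Setup T ν x0 u du lam sig r dr) :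
    ∃ κ Cs : ℝ, 0 < κ ∧ 0 < Cs ∧ ∀ᶠ t in 𝓝[<] T,
      ∫ x in Ioi (x0 - κ * (T - t) ^ (1 - 2 * ν)), du t x ^ 2 ≤
        Cs * ((∫ x in Ioi (x0 - κ * (T - (T - (T - t) ^ ((3 * (1 - 2 * ν) + 1) / 2))) ^ (1 - 2 * ν)),
          du (T - (T - t) ^ ((3 * (1 - 2 * ν) + 1) / 2)) x ^ 2) + 1) := by
  obtain ⟨cl, Cl, hcl, hCl, hlam⟩ := S.lam_bounds
  obtain ⟨B, hB0, hB⟩ := S.hr.bdd
  obtain ⟨c1, C1, hc1, hC1, hpos⟩ := S.pos_law
  obtain ⟨cr, Cr, hcr, hCr, hrate⟩ := S.rate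
  obtain ⟨Ψ, Ψ1, Ψ2, Ψ3, θ, θ1, c, m, st⟩ := exists_step
  have hν1 := S.hν1
  have hν2 := S.hν2
  have hCe := Ce_nonneg
  set k := 1 - 2 * ν with hk
  have hk0 : 0 < k := by rw [hk]; linarith
  have hk3 : 3 * k < 1 := by rw [hk]; linarith
  set a := (3 * k + 1) / 2 with ha
  set ε0 := (1 - 3 * k) / 2 with hε0
  have hε00 : 0 < ε0 := by rw [hε0]; linarith
  have ha0 : 0 < a := by rw [ha]; linarith
  have ha1 : a < 1 := by rw [ha]; linarith
  have haε : a = 3 * k + ε0 := by rw [ha, hε0]; ring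
  obtain ⟨N, hN⟩ := exists_nat_ge (2 * ν / ε0)
  have hN' : 2 * ν ≤ N * ε0 := by rwa [div_le_iff₀ hε00] at hN
  set κ := min (1 / (N + 1 : ℝ)) (c1 / (2 * (N + 1))) with hκ
  have hN1 : (0 : ℝ) < N + 1 := by positivity
  have hκ0 : 0 < κ := lt_min (by positivity) (by positivity)
  have hκ1 : (N + 1) * κ ≤ 1 := by
    have : κ ≤ 1 / (N + 1 : ℝ) := min_le_left _ _
    rw [le_div_iff₀ hN1] at this
    linarith
  have hκ2 : (N + 1) * κ ≤ c1 / 2 := by
    have : κ ≤ c1 / (2 * (N + 1)) := min_le_right _ _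
    rw [le_div_iff₀ (by positivity)] at this
    linarith
  have hκle1 : κ ≤ 1 := by
    have : (1 : ℝ) ≤ N + 1 := by
      have : (0 : ℝ) ≤ N := Nat.cast_nonneg N
      linarith
    exact (le_mul_of_one_le_left hκ0.le this).trans hκ1
  set M := (∫ x, u 0 x ^ 2) + 1 with hM
  have hM1 : 1 ≤ M := by
    have : 0 ≤ ∫ x, u 0 x ^ 2 := integral_nonneg fun x => sq_nonneg _
    linarith
  have hc := st.hc
  have hm0 : 0 ≤ m := (abs_nonneg _).trans (st.tm 0)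
  have hCE : 0 ≤ CE c m (2 * M + 2) := by unfold CE; positivity
  set D := 8 * CE c m (2 * M + 2) * κ⁻¹ ^ 3 with hD
  have hD0 : 0 ≤ D := by positivity
  set C0 := 22 * (∫ x, r x ^ 6) + ∫ x, dr x ^ 2 with hC0
  have hC00 : 0 ≤ C0 := by
    have h1 : 0 ≤ ∫ x, r x ^ 6 := integral_nonneg fun x => by positivity
    have h2 : 0 ≤ ∫ x, dr x ^ 2 := integral_nonneg fun x => sq_nonneg _
    linarith
  -- the small parameter
  set Kt := 16 * Ce * Cl / c1 + 2 with hKt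
  have hKt0 : 0 < Kt := by positivity
  set ε := min 1 (1 / (100 * Kt)) with hε
  have hεpos : 0 < ε := lt_min one_pos (by positivity)
  have hε1 : ε ≤ 1 := min_le_left _ _
  have hKtε : 16 * Ce * Cl * ε / c1 + 2 * ε ^ 2 ≤ 1 / 100 := by
    have h1 : ε ≤ 1 / (100 * Kt) := min_le_right _ _
    rw [le_div_iff₀ (by positivity)] at h1
    have h2 : 16 * Ce * Cl * ε / c1 + 2 * ε ^ 2 ≤ Kt * ε := by
      have : ε ^ 2 ≤ ε := by nlinarith
      have e : Kt * ε = 16 * Ce * Cl * ε / c1 + 2 * ε := by rw [hKt]; ring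
      linarith
    linarith
  refine ⟨κ, 4 + 2 * C0 + 2 + (D ^ N * Cr ^ 2 + 1), hκ0, by positivity, ?_⟩
  obtain ⟨t1, ht10, ht1T, hnear⟩ := ev_to_Ico S.hT
    ((S.near (cl := cl) (B := B) hCl hlam hεpos).and (hpos.and hrate))
  -- eventual conditions on `t`
  have ev1 : ∀ᶠ t in 𝓝[<] T, (T - t) ^ a ≤ T - t1 :=
    ev_rpow_le T ha0 (sub_pos.2 ht1T)
  have ev2 : ∀ᶠ t in 𝓝[<] T, (T - t) ^ (k * (1 - a)) ≤ 1 / (N + 1 : ℝ) :=
    ev_rpow_le T (by have : 0 < 1 - a := by linarith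
                     positivity) (by positivity)
  have ev3 : ∀ᶠ t in 𝓝[<] T, (T - t) ^ k ≤ 1 / (200 * (B ^ 2 + 1)) :=
    ev_rpow_le T hk0 (by positivity)
  have ev4 : ∀ᶠ t in 𝓝[<] T, (T - t) ^ ε0 ≤ 1 / (2 * (D + 1)) :=
    ev_rpow_le T hε00 (by positivity)
  filter_upwards [Ico_mem_nhdsLT ht1T, ev1, ev2, ev3, ev4] with t ht h1 h2 h3 h4
  obtain ⟨Nt, -, hrt⟩ := hnear t ht
  have htT : t < T := ht.2
  set δ := T - t with hδ
  have hδ0 : 0 < δ := sub_pos.2 htT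
  have hδ1 : δ ≤ 1 := Nt.d1
  set τ := T - δ ^ a with hτ
  have hTτ : T - τ = δ ^ a := by rw [hτ]; ring
  have hδa : δ ≤ δ ^ a := by
    calc δ = δ ^ (1 : ℝ) := (rpow_one _).symm
      _ ≤ δ ^ a := rpow_le_rpow_of_exponent_ge hδ0 hδ1 ha1.le
  have hτt : τ ≤ t := by rw [hτ]; linarith
  have hτ1 : t1 ≤ τ := by rw [hτ]; linarith
  have hτ0 : 0 ≤ τ := ht10.trans hτ1
  set ρ := δ ^ k with hρ
  have hρ0 : 0 < ρ := rpow_pos_of_pos hδ0 _
  have hρ1 : ρ ≤ 1 := rpow_le_one hδ0.le hδ1 hk0.le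
  set b := κ * ρ with hb
  have hb0 : 0 < b := by positivity
  have hb1 : b ≤ 1 := by
    calc κ * ρ ≤ 1 * 1 := mul_le_mul hκle1 hρ1 hρ0.le zero_le_one
      _ = 1 := one_mul 1
  have hρτ : (N + 1) * ρ ≤ (T - τ) ^ k := by
    rw [hTτ, ← rpow_mul hδ0.le]
    have e1 : ρ = δ ^ (a * k) * δ ^ (k * (1 - a)) := by
      rw [← rpow_add hδ0, hρ]; congr 1; ring
    have e2 : 0 < δ ^ (a * k) := rpow_pos_of_pos hδ0 _
    rw [e1]
    rw [le_div_iff₀ hN1] at h2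
    calc (N + 1) * (δ ^ (a * k) * δ ^ (k * (1 - a))) =
          δ ^ (a * k) * (δ ^ (k * (1 - a)) * (N + 1)) := by ring
      _ ≤ δ ^ (a * k) * 1 := mul_le_mul_of_nonneg_left h2 e2.le
      _ = _ := mul_one _
  have hnearI : ∀ t' ∈ Icc τ t, Near T ν x0 u du lam sig r dr cl Cl B ε t' ∧
      (c1 * (T - t') ^ k ≤ x0 - sig t' ∧ |sig t' - x0| ≤ C1 * (T - t') ^ k) ∧
      (cr * (T - t') ^ (-ν) ≤ √(∫ x, du t' x ^ 2) ∧ √(∫ x, du t' x ^ 2) ≤ Cr * (T - t') ^ (-ν)) :=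
    fun t' ht' => hnear t' ⟨hτ1.trans ht'.1, ht'.2.trans_lt htT⟩
  -- tail smallness
  have hw : ∀ y, x0 - (N + 1) * b ≤ y → ∀ t' ∈ Icc τ t,
      ∫ x in Ioi y, (u t' x - r x) ^ 2 ≤ 1 / 100 := by
    intro y hy t' ht'
    obtain ⟨Nt', hp', -⟩ := hnearI t' ht'
    refine (S.ev_tail hc1 hCl hεpos Nt' hp'.1 ?_).trans hKtε
    have e1 : ρ ≤ (T - t') ^ k := rpow_le_rpow hδ0.le (by linarith [ht'.2]) hk0.le
    have e2 : (N + 1) * b ≤ (c1 / 2) * ρ := by
      calc (N + 1) * b = ((N + 1) * κ) * ρ := by rw [hb]; ring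
        _ ≤ (c1 / 2) * ρ := mul_le_mul_of_nonneg_right hκ2 hρ0.le
    have e3 : (c1 / 2) * ρ ≤ (c1 / 2) * (T - t') ^ k :=
      mul_le_mul_of_nonneg_left e1 (by positivity)
    linarith
  have hη : ∀ p, x0 - (N + 1) * b ≤ p - b → ∀ t' ∈ Icc τ t,
      ∫ x in Ioo (p - b) p, u t' x ^ 2 ≤ 1 / 20 := by
    intro p hp t' ht'
    have hu := S.sol.h1 t' (hnearI t' ht').1.tI
    have e1 := int_sq_le_of_dst (hu.mem.restrict (Ioo (p - b) p)) (S.hr.mem.restrict (Ioo (p - b) p))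
    have e2 : ∫ x in Ioo (p - b) p, (u t' x - r x) ^ 2 ≤ 1 / 100 := by
      refine le_trans ?_ (hw (p - b) hp t' ht')
      exact setIntegral_mono_set ((hu.mem.sub S.hr.mem).integrable_sq).integrableOn
        (ae_of_all _ fun x => sq_nonneg _) (HasSubset.Subset.eventuallyLE Ioo_subset_Ioi_self)
    have e3 : ∫ x in Ioo (p - b) p, r x ^ 2 ≤ B ^ 2 * b := by
      calc ∫ x in Ioo (p - b) p, r x ^ 2 ≤ ∫ x in Ioo (p - b) p, B ^ 2 := by
            refine integral_mono S.hr.mem.integrable_sq.integrableOn ?_ (fun x => ?_)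
            · exact integrable_const _
            · simp only
              rw [← sq_abs]
              exact pow_le_pow_left₀ (abs_nonneg _) (hB x) 2
        _ = B ^ 2 * b := by
            rw [setIntegral_const, Real.volume_real_Ioo_of_le (by linarith), smul_eq_mul]
            ring
    have e4 : B ^ 2 * b ≤ 1 / 200 := by
      have h5 : b ≤ ρ := by
        calc κ * ρ ≤ 1 * ρ := mul_le_mul_of_nonneg_right hκle1 hρ0.le
          _ = ρ := one_mul _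
      have h6 : B ^ 2 * b ≤ (B ^ 2 + 1) * ρ :=
        mul_le_mul (by linarith) h5 hb0.le (by positivity)
      rw [le_div_iff₀ (by positivity)] at h3
      linarith
    linarith
  -- the recursion
  set F := ∫ x in Ioi (x0 - κ * (T - τ) ^ k), du τ x ^ 2 with hF
  have hF0 : 0 ≤ F := integral_nonneg fun x => sq_nonneg _
  set A := 2 * F + C0 + 1 with hA
  set μ := D * δ ^ ε0 with hμ
  have hδε : 0 < δ ^ ε0 := rpow_pos_of_pos hδ0 _
  have hμ0 : 0 ≤ μ := by positivity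
  have hμ1 : μ ≤ 1 / 2 := by
    rw [le_div_iff₀ (by positivity)] at h4
    have h5 : D * δ ^ ε0 ≤ (D + 1) * δ ^ ε0 := mul_le_mul_of_nonneg_right (by linarith) hδε.le
    have h6 : (D + 1) * δ ^ ε0 = (δ ^ ε0 * (2 * (D + 1))) / 2 := by ring
    rw [hμ]
    linarith
  let P : ℕ → ℝ := fun n => Nat.rec (Cr ^ 2 * δ ^ (-(2 * ν)) + 1) (fun _ q => A + μ * q) n
  have hP0 : P 0 = Cr ^ 2 * δ ^ (-(2 * ν)) + 1 := rfl
  have hPs : ∀ j, P (j + 1) = A + μ * P j := fun j => rfl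
  have hPge : ∀ j, 1 ≤ P j := by
    intro j
    induction j with
    | zero =>
      rw [hP0]
      have : 0 < δ ^ (-(2 * ν)) := rpow_pos_of_pos hδ0 _
      have : 0 ≤ Cr ^ 2 * δ ^ (-(2 * ν)) := by positivity
      linarith
    | succ j ih =>
      rw [hPs, hA]
      have : 0 ≤ μ * P j := mul_nonneg hμ0 (by linarith)
      linarith
  have hmu : 8 * CE c m (2 * M + 2) * (b⁻¹ ^ 3 * (t - τ)) ≤ μ := by
    have e1 : t - τ ≤ δ ^ a := by rw [hτ, hδ]; linarith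
    have e2 : δ ^ a = ρ ^ 3 * δ ^ ε0 := by
      rw [haε, rpow_add hδ0, hρ, ← rpow_natCast, ← rpow_mul hδ0.le]
      congr 2
      push_cast
      ring
    have e3 : b⁻¹ ^ 3 * (t - τ) ≤ κ⁻¹ ^ 3 * δ ^ ε0 := by
      calc b⁻¹ ^ 3 * (t - τ) ≤ b⁻¹ ^ 3 * (ρ ^ 3 * δ ^ ε0) := by
            refine mul_le_mul_of_nonneg_left ?_ (by positivity)
            rw [← e2]; exact e1
        _ = _ := by rw [hb]; field_simp
    calc 8 * CE c m (2 * M + 2) * (b⁻¹ ^ 3 * (t - τ)) ≤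
          8 * CE c m (2 * M + 2) * (κ⁻¹ ^ 3 * δ ^ ε0) :=
          mul_le_mul_of_nonneg_left e3 (by positivity)
      _ = μ := by rw [hμ, hD]; ring
  have claim : ∀ j : ℕ, j ≤ N → ∀ t' ∈ Icc τ t,
      ∫ x in Ioi (x0 - (N + 1 - j) * b), du t' x ^ 2 ≤ P j := by
    intro j
    induction j with
    | zero =>
      intro _ t' ht'
      obtain ⟨Nt', -, hr'⟩ := hnearI t' ht'
      have hu := S.sol.h1 t' Nt'.tI
      have e1 : ∫ x in Ioi (x0 - (N + 1 - (0 : ℕ)) * b), du t' x ^ 2 ≤ ∫ x, du t' x ^ 2 :=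
        setIntegral_le_integral hu.mem'.integrable_sq (ae_of_all _ fun x => sq_nonneg _)
      have e2 : ∫ x, du t' x ^ 2 ≤ (Cr * (T - t') ^ (-ν)) ^ 2 := by
        have h0 : 0 ≤ ∫ x, du t' x ^ 2 := integral_nonneg fun x => sq_nonneg _
        calc ∫ x, du t' x ^ 2 = √(∫ x, du t' x ^ 2) ^ 2 := (sq_sqrt h0).symm
          _ ≤ _ := pow_le_pow_left₀ (sqrt_nonneg _) hr'.2 2
      have e3 : (T - t') ^ (-ν) ≤ δ ^ (-ν) :=
        rpow_le_rpow_of_nonpos hδ0 (by linarith [ht'.2]) (by linarith)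
      have e4 : (T - t') ^ (-ν) ≥ 0 := (rpow_pos_of_pos (by linarith [ht'.2]) _).le
      have e5 : (Cr * (T - t') ^ (-ν)) ^ 2 ≤ (Cr * δ ^ (-ν)) ^ 2 :=
        pow_le_pow_left₀ (by positivity) (mul_le_mul_of_nonneg_left e3 hCr.le) 2
      have e6 : (Cr * δ ^ (-ν)) ^ 2 = Cr ^ 2 * δ ^ (-(2 * ν)) := by
        rw [mul_pow, ← rpow_natCast (δ ^ (-ν)), ← rpow_mul hδ0.le]
        congr 2
        push_cast
        ring
      rw [hP0]
      linarith
    | succ j ih =>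
      intro hj t' ht'
      have ih' := ih (by omega)
      have hjN : (j : ℝ) + 1 ≤ N := by exact_mod_cast hj
      set p := x0 - (N + 1 - ((j + 1 : ℕ) : ℝ)) * b with hp
      have hpb : p - b = x0 - (N + 1 - (j : ℝ)) * b := by rw [hp]; push_cast; ring
      have hj0 : (0 : ℝ) ≤ j := Nat.cast_nonneg j
      have hge : x0 - (N + 1) * b ≤ p - b := by
        rw [hpb]
        have h5 : ((N : ℝ) + 1 - j) * b ≤ (N + 1) * b :=
          mul_le_mul_of_nonneg_right (by linarith) hb0.le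
        linarith
      have hF' : ∫ x in Ioi (p - b), du τ x ^ 2 ≤ F := by
        have hu := S.sol.h1 τ ⟨hτ0, hτt.trans_lt htT⟩
        refine setIntegral_mono_set hu.mem'.integrable_sq.integrableOn
          (ae_of_all _ fun x => sq_nonneg _) (HasSubset.Subset.eventuallyLE (Ioi_subset_Ioi ?_))
        have : (N + 1) * b ≤ κ * (T - τ) ^ k := by
          calc (N + 1) * b = κ * ((N + 1) * ρ) := by rw [hb]; ring
            _ ≤ _ := mul_le_mul_of_nonneg_left hρτ hκ0.le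
        linarith
      have key := S.sol.onestep S.hr (p := p) (b := b) (M := M) (P := P j) (F := F) st hb0 hb1 hM1
        (hPge j) hτ0 hτt htT
        (fun r hr => by
          have h0 := S.sol.mass (t := r) ⟨hτ0.trans hr.1, hr.2.trans_lt htT⟩
          rw [h0, hM]; linarith)
        (fun r hr => by rw [hpb]; exact ih' r hr)
        (hη p hge) (fun r hr => (hw (p - b) hge r hr).trans (by norm_num)) hF' t' ht'
      refine key.trans ?_
      rw [hPs, hA]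
      have h5 : 8 * CE c m (2 * M + 2) * (b⁻¹ ^ 3 * (t - τ)) * P j ≤ μ * P j :=
        mul_le_mul_of_nonneg_right hmu (by linarith [hPge j])
      linarith
  have fin := claim N le_rfl t ⟨hτt, le_rfl⟩
  have hch := chain (A := A) (μ := μ) (P := P) (by positivity) hμ0 hμ1 hPs N
  have e1 : x0 - ((N : ℝ) + 1 - (N : ℕ)) * b = x0 - κ * ρ := by rw [hb]; ring
  rw [e1] at fin
  have e2 : μ ^ N * P 0 ≤ D ^ N * Cr ^ 2 + 1 := by
    rw [hP0, mul_add, mul_one]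
    have h5 : μ ^ N ≤ 1 := pow_le_one₀ hμ0 (by linarith)
    have h6 : μ ^ N * (Cr ^ 2 * δ ^ (-(2 * ν))) = D ^ N * Cr ^ 2 * δ ^ (N * ε0 - 2 * ν) := by
      rw [hμ, mul_pow, ← rpow_natCast (δ ^ ε0), ← rpow_mul hδ0.le]
      have : δ ^ (N * ε0 - 2 * ν) = δ ^ (ε0 * (N : ℝ)) * δ ^ (-(2 * ν)) := by
        rw [← rpow_add hδ0]; congr 1; ring
      rw [this]
      ring
    have h7 : δ ^ (N * ε0 - 2 * ν) ≤ 1 := rpow_le_one hδ0.le hδ1 (by linarith)
    rw [h6]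
    have h8 : D ^ N * Cr ^ 2 * δ ^ (N * ε0 - 2 * ν) ≤ D ^ N * Cr ^ 2 * 1 :=
      mul_le_mul_of_nonneg_left h7 (by positivity)
    linarith
  have e3 : 0 ≤ D ^ N * Cr ^ 2 := by positivity
  calc ∫ x in Ioi (x0 - κ * ρ), du t x ^ 2 ≤ P N := fin
    _ ≤ 2 * A + (D ^ N * Cr ^ 2 + 1) := by linarith
    _ ≤ _ := by
        rw [hA]
        have h5 : 0 ≤ (2 + 2 * C0 + (D ^ N * Cr ^ 2 + 1)) * F := by positivity
        have h6 : (4 + 2 * C0 + 2 + (D ^ N * Cr ^ 2 + 1)) * (F + 1) =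
          (2 + 2 * C0 + (D ^ N * Cr ^ 2 + 1)) * F + 4 * F +
            (4 + 2 * C0 + 2 + (D ^ N * Cr ^ 2 + 1)) := by ring
        rw [h6]
        linarith

end Setup

end Pool.Agent.Helper44.Gkdv
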