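import Pool.Agent.Helper44.Gkdv.Ahead2

set_option autoImplicit false
set_option maxHeartbeats 4000000

open MeasureTheory Set Filter Topology Real
open scoped ENNReal ContDiff

namespace Pool.Agent.Helper44.Gkdv

/-- iteration of an estimate that links the time `t` to the much earlier time `T - (T-t)^a`. -/
theorem iterate_bound {T a Cs : ℝ} {F : ℝ → ℝ} (hT : 0 < T) (ha0 : 0 < a) (ha1 : a < 1)
    (hCs : 0 < Cs) (hF : ∀ t, 0 ≤ F t)
    (h1 : ∀ᶠ t in 𝓝[<] T, F t ≤ Cs * (F (T - (T - t) ^ a) + 1))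
    (h2 : ∀ t2 ∈ Ico 0 T, ∃ K, ∀ t ∈ Icc 0 t2, F t ≤ K) {s0 : ℝ} (hs0 : 0 < s0) :
    ∃ C, 0 < C ∧ ∀ᶠ t in 𝓝[<] T, F t ≤ C * (T - t) ^ (-s0) := by
  obtain ⟨t1, ht10, ht1T, hstep⟩ := ev_to_Ico hT h1
  have e1 : ∀ᶠ t in 𝓝[<] T, (T - t) ^ a ≤ T - t1 := ev_rpow_le T ha0 (sub_pos.2 ht1T)
  have e2 : ∀ᶠ t in 𝓝[<] T, (T - t) ^ (s0 * (1 - a)) ≤ 1 / (2 * Cs) :=
    ev_rpow_le T (by have : 0 < 1 - a := by linarith
                     positivity) (by positivity)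
  have e3 : ∀ᶠ t in 𝓝[<] T, (T - t) ^ s0 ≤ 1 / (2 * Cs) := ev_rpow_le T hs0 (by positivity)
  have e4 : ∀ᶠ t in 𝓝[<] T, T - t ≤ 1 := ev_sub_le T one_pos
  obtain ⟨t2, ht20, ht2T, hsm⟩ := ev_to_Ico hT (e1.and (e2.and (e3.and e4)))
  obtain ⟨K, hK⟩ := h2 (max t1 t2) ⟨ht10.trans (le_max_left _ _), max_lt ht1T ht2T⟩
  have hK0 : 0 ≤ K := (hF _).trans (hK (max t1 t2) ⟨ht10.trans (le_max_left _ _), le_rfl⟩)
  set A := max 1 (T ^ s0 * K) with hA
  have hA1 : 1 ≤ A := le_max_left _ _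
  have hTs : ∀ t, 0 ≤ t → t < T → (T - t) ^ s0 ≤ T ^ s0 := fun t h0 h =>
    rpow_le_rpow (sub_pos.2 h).le (by linarith) hs0.le
  have claim : ∀ ts ∈ Ico t1 T, (T - ts) ^ s0 * F ts ≤ A := by
    intro ts hts
    obtain ⟨Ks, hKs⟩ := h2 ts ⟨ht10.trans hts.1, hts.2⟩
    set I := (fun t => (T - t) ^ s0 * F t) '' Icc t1 ts with hI
    have hbdd : BddAbove I := by
      refine ⟨T ^ s0 * Ks, ?_⟩
      rintro _ ⟨t, ht, rfl⟩
      exact mul_le_mul (hTs t (ht10.trans ht.1) (ht.2.trans_lt hts.2)) (hKs t ⟨ht10.trans ht.1, ht.2⟩)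
        (hF t) (by positivity)
    have hne : I.Nonempty := ⟨_, ts, ⟨hts.1, le_rfl⟩, rfl⟩
    have hall : ∀ y ∈ I, y ≤ max A ((1 / 2) * sSup I + 1 / 2) := by
      rintro _ ⟨t, ht, rfl⟩
      have htT : t < T := ht.2.trans_lt hts.2
      have hd : 0 < T - t := sub_pos.2 htT
      rcases le_total t (max t1 t2) with hc | hc
      · refine le_trans ?_ (le_max_left _ _)
        refine le_trans ?_ (le_max_right _ _)
        exact mul_le_mul (hTs t (ht10.trans ht.1) htT) (hK t ⟨ht10.trans ht.1, hc⟩) (hF t)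
          (by positivity)
      · refine le_trans ?_ (le_max_right _ _)
        obtain ⟨g1, g2, g3, hd1⟩ := hsm t ⟨(le_max_right _ _).trans hc, htT⟩
        have g4 := hstep t ⟨ht.1, htT⟩
        set τ := T - (T - t) ^ a with hτ
        have hTτ : T - τ = (T - t) ^ a := by rw [hτ]; ring
        have hda : T - t ≤ (T - t) ^ a := by
          calc T - t = (T - t) ^ (1 : ℝ) := (rpow_one _).symm
            _ ≤ (T - t) ^ a := rpow_le_rpow_of_exponent_ge hd hd1 ha1.le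
        have hτI : τ ∈ Icc t1 ts := ⟨by rw [hτ]; linarith, by rw [hτ]; linarith [ht.2]⟩
        have g5 : (T - τ) ^ s0 * F τ ≤ sSup I := le_csSup hbdd ⟨τ, hτI, rfl⟩
        have g6 : (T - t) ^ s0 = (T - t) ^ (s0 * (1 - a)) * (T - τ) ^ s0 := by
          rw [hTτ, ← rpow_mul hd.le, ← rpow_add hd]; congr 1; ring
        have g7 : 0 ≤ (T - τ) ^ s0 * F τ := mul_nonneg (by rw [hTτ]; positivity) (hF τ)
        have hS0 : 0 ≤ sSup I := g7.trans g5
        rw [le_div_iff₀ (by positivity)] at g2 g3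
        calc (T - t) ^ s0 * F t ≤ (T - t) ^ s0 * (Cs * (F τ + 1)) :=
              mul_le_mul_of_nonneg_left g4 (by positivity)
          _ = (Cs * (T - t) ^ (s0 * (1 - a))) * ((T - τ) ^ s0 * F τ) + Cs * (T - t) ^ s0 := by
              rw [mul_add, mul_add, mul_one]
              nth_rewrite 1 [g6]
              ring
          _ ≤ (1 / 2) * sSup I + 1 / 2 := by
              refine add_le_add ?_ (by linarith)
              exact mul_le_mul (by linarith) g5 g7 (by norm_num)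
    have hS := csSup_le hne hall
    have hS' : sSup I ≤ A := by
      rcases le_max_iff.1 hS with h | h
      · exact h
      · linarith
    exact (le_csSup hbdd ⟨ts, ⟨hts.1, le_rfl⟩, rfl⟩).trans hS'
  refine ⟨A, by linarith, ?_⟩
  filter_upwards [Ico_mem_nhdsLT ht1T] with t ht
  have hd : 0 < T - t := sub_pos.2 ht.2
  have h3 := claim t ht
  rw [rpow_neg hd.le, ← div_eq_mul_inv, le_div_iff₀ (rpow_pos_of_pos hd _)]
  linarith

namespace Setup

variable {T ν x0 : ℝ} {u du : ℝ → ℝ → ℝ} {lam sig : ℝ → ℝ} {r dr : ℝ → ℝ}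

theorem ahead_bound (S : Setup T ν x0 u du lam sig r dr) :
    ∃ κ : ℝ, 0 < κ ∧ ∀ s0 : ℝ, 0 < s0 → ∃ C, 0 < C ∧ ∀ᶠ t in 𝓝[<] T,
      ∫ x in Ioi (x0 - κ * (T - t) ^ (1 - 2 * ν)), du t x ^ 2 ≤ C * (T - t) ^ (-s0) := by
  obtain ⟨κ, Cs, hκ, hCs, hstep⟩ := S.ahead_step
  refine ⟨κ, hκ, fun s0 hs0 => ?_⟩
  have hν1 := S.hν1
  have hν2 := S.hν2
  refine iterate_bound (a := (3 * (1 - 2 * ν) + 1) / 2) (Cs := Cs)
    (F := fun t => ∫ x in Ioi (x0 - κ * (T - t) ^ (1 - 2 * ν)), du t x ^ 2) S.hT (by linarith)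
    (by linarith) hCs (fun t => integral_nonneg fun x => sq_nonneg _) hstep ?_ hs0
  intro t2 ht2
  obtain ⟨K, hK⟩ := S.sol.bdd ht2
  refine ⟨K, fun t ht => ?_⟩
  have hu := S.sol.h1 t ⟨ht.1, ht.2.trans_lt ht2.2⟩
  have h1 : ∫ x in Ioi (x0 - κ * (T - t) ^ (1 - 2 * ν)), du t x ^ 2 ≤ ∫ x, du t x ^ 2 :=
    setIntegral_le_integral hu.mem'.integrable_sq (ae_of_all _ fun x => sq_nonneg _)
  have h2 := hK t ht
  unfold sz at h2
  have h3 : 0 ≤ ∫ y, u t y ^ 2 := integral_nonneg fun x => sq_nonneg _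
  linarith

end Setup

end Pool.Agent.Helper44.Gkdv
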