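import Pool.Agent.Helper44.Gkdv.GN

set_option autoImplicit false
set_option maxHeartbeats 4000000

open MeasureTheory Set Filter Topology Real
open scoped ENNReal ContDiff

namespace Pool.Agent.Helper44.Gkdv

/-- A smooth monotone step from `0` (on `z ≤ -1`) to `1` (on `z ≥ 0`) whose derivative is a
multiple of an eighth power. -/
structure Step (Ψ Ψ1 Ψ2 Ψ3 θ θ1 : ℝ → ℝ) (c m : ℝ) : Prop where
  cut : Cut Ψ Ψ1 Ψ2 Ψ3 m
  mono : Monotone Ψ
  z0 : ∀ z, z ≤ -1 → Ψ z = 0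
  z1 : ∀ z, 0 ≤ z → Ψ z = 1
  hc : 0 ≤ c
  e1 : ∀ z, Ψ1 z = c * θ z ^ 8
  dθ : ∀ z, HasDerivAt θ (θ1 z) z
  cθ1 : Continuous θ1
  t0 : ∀ z, 0 ≤ θ z
  t1 : ∀ z, θ z ≤ 1
  tm : ∀ z, |θ1 z| ≤ m
  ts : ∀ z, z ∉ Ioo (-1 : ℝ) 0 → θ z = 0
  s3 : ∀ z, z ∉ Ioo (-1 : ℝ) 0 → Ψ3 z = 0

/-- a smooth bump supported in an interval -/
theorem exists_bump (α β : ℝ) (hαβ : α < β) : ∃ (θ θ1 θ2 : ℝ → ℝ) (m : ℝ),
    (∀ z, HasDerivAt θ (θ1 z) z) ∧ (∀ z, HasDerivAt θ1 (θ2 z) z) ∧ Continuous θ2 ∧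
    (∀ z, 0 ≤ θ z) ∧ (∀ z, θ z ≤ 1) ∧ (∀ z, |θ1 z| ≤ m) ∧ (∀ z, |θ2 z| ≤ m) ∧
    (∀ z, z ∉ Ioo α β → θ z = 0) ∧ 0 ≤ m ∧ (∀ z ∈ Icc ((3 * α + β) / 4) ((α + 3 * β) / 4), θ z = 1) := by
  let f : ContDiffBump ((α + β) / 2 : ℝ) :=
    ⟨(β - α) / 4, (β - α) / 2, by linarith, by linarith⟩
  have hf : ContDiff ℝ ∞ f := f.contDiff
  have h1 : ContDiff ℝ ∞ (deriv f) := ((contDiff_infty_iff_deriv (𝕜 := ℝ)).1 hf).2
  have h2 : ContDiff ℝ ∞ (deriv (deriv f)) := ((contDiff_infty_iff_deriv (𝕜 := ℝ)).1 h1).2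
  have k0 : HasCompactSupport f := f.hasCompactSupport
  have k1 : HasCompactSupport (deriv f) := k0.deriv
  have k2 : HasCompactSupport (deriv (deriv f)) := k1.deriv
  obtain ⟨m1, hm1⟩ := h1.continuous.bounded_above_of_compact_support k1
  obtain ⟨m2, hm2⟩ := h2.continuous.bounded_above_of_compact_support k2
  refine ⟨f, deriv f, deriv (deriv f), |m1| + |m2|, fun z => ?_, fun z => ?_, h2.continuous,
    fun z => f.nonneg, fun z => f.le_one, fun z => ?_, fun z => ?_, fun z hz => ?_, by positivity,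
    fun z hz => ?_⟩
  · exact (hf.differentiable (by simp) z).hasDerivAt
  · exact (h1.differentiable (by simp) z).hasDerivAt
  · have := hm1 z
    rw [norm_eq_abs] at this
    linarith [le_abs_self m1, abs_nonneg m2]
  · have := hm2 z
    rw [norm_eq_abs] at this
    linarith [le_abs_self m2, abs_nonneg m1]
  · by_contra hne
    have : z ∈ Function.support f := hne
    rw [f.support_eq, Real.ball_eq_Ioo] at this
    apply hz
    have e1 : (α + β) / 2 - (β - α) / 2 = α := by ring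
    have e2 : (α + β) / 2 + (β - α) / 2 = β := by ring
    change z ∈ Ioo ((α + β) / 2 - (β - α) / 2) ((α + β) / 2 + (β - α) / 2) at this
    rwa [e1, e2] at this
  · refine f.one_of_mem_closedBall ?_
    rw [Real.closedBall_eq_Icc]
    change z ∈ Icc ((α + β) / 2 - (β - α) / 4) ((α + β) / 2 + (β - α) / 4)
    constructor <;> [linarith [hz.1]; linarith [hz.2]]

theorem exists_step : ∃ (Ψ Ψ1 Ψ2 Ψ3 θ θ1 : ℝ → ℝ) (c m : ℝ), Step Ψ Ψ1 Ψ2 Ψ3 θ θ1 c m := by
  obtain ⟨θ, θ1, θ2, m, hd, hd1, hc2, h0, h1, hm1, hm2, hs, hm0, hone⟩ :=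
    exists_bump (-1) 0 (by norm_num)
  have cθ : Continuous θ := continuous_iff_continuousAt.2 fun x => (hd x).continuousAt
  have cθ1 : Continuous θ1 := continuous_iff_continuousAt.2 fun x => (hd1 x).continuousAt
  have c8 : Continuous (fun z => θ z ^ 8) := cθ.pow 8
  have hsupp : ∀ z, 0 ≤ z → Function.support (fun z => θ z ^ 8) ⊆ Ioc (-1) z := by
    intro z hz y hy
    by_contra hny
    apply hy
    have : y ∉ Ioo (-1 : ℝ) 0 := fun h => hny ⟨h.1, h.2.le.trans hz⟩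
    simp [hs y this]
  set I := ∫ z in (-1 : ℝ)..0, θ z ^ 8 with hI
  have hIpos : 0 < I := by
    refine intervalIntegral.integral_pos (by norm_num) c8.continuousOn
      (fun x _ => pow_nonneg (h0 x) _) ⟨-1 / 2, by constructor <;> norm_num, ?_⟩
    have : θ (-1 / 2) = 1 := hone _ (by constructor <;> norm_num)
    rw [this]; norm_num
  have hval : ∀ z, 0 ≤ z → ∫ y in (-1 : ℝ)..z, θ y ^ 8 = I := by
    intro z hz
    rw [intervalIntegral.integral_eq_integral_of_support_subset (hsupp z hz), hI,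
      intervalIntegral.integral_eq_integral_of_support_subset (hsupp 0 le_rfl)]
  set c := I⁻¹ with hc
  have hc0 : 0 < c := inv_pos.2 hIpos
  have hmono : Monotone (fun z => c * ∫ y in (-1 : ℝ)..z, θ y ^ 8) := by
    intro x y hxy
    refine mul_le_mul_of_nonneg_left ?_ hc0.le
    rw [← sub_nonneg, intervalIntegral.integral_interval_sub_left (c8.intervalIntegrable _ _)
      (c8.intervalIntegrable _ _)]
    exact intervalIntegral.integral_nonneg hxy (fun z _ => pow_nonneg (h0 z) _)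
  have hz0 : ∀ z, z ≤ -1 → c * ∫ y in (-1 : ℝ)..z, θ y ^ 8 = 0 := by
    intro z hz
    have : ∫ y in (-1 : ℝ)..z, θ y ^ 8 = 0 := by
      rw [intervalIntegral.integral_symm, neg_eq_zero]
      rw [intervalIntegral.integral_congr (g := fun _ => (0 : ℝ))]
      · simp
      · intro y hy
        rw [uIcc_of_le hz] at hy
        have : y ∉ Ioo (-1 : ℝ) 0 := fun h => absurd h.1 (not_lt.2 hy.2)
        simp [hs y this]
    rw [this, mul_zero]
  have hz1 : ∀ z, 0 ≤ z → c * ∫ y in (-1 : ℝ)..z, θ y ^ 8 = 1 := by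
    intro z hz
    rw [hval z hz, hc, inv_mul_cancel₀ hIpos.ne']
  have hb : ∀ z, 0 ≤ (c * ∫ y in (-1 : ℝ)..z, θ y ^ 8) ∧
      (c * ∫ y in (-1 : ℝ)..z, θ y ^ 8) ≤ 1 := by
    intro z
    constructor
    · rcases le_total z (-1) with h | h
      · rw [hz0 z h]
      · have := hmono h
        simp only at this
        rwa [hz0 (-1) le_rfl] at this
    · rcases le_total z 0 with h | h
      · have := hmono h
        simp only at this
        rwa [hz1 0 le_rfl] at this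
      · rw [hz1 z h]
  have habs : ∀ z, |θ z| ≤ 1 := fun z => by rw [abs_of_nonneg (h0 z)]; exact h1 z
  have hpow : ∀ n : ℕ, ∀ z, |θ z ^ n| ≤ 1 := fun n z => by
    rw [abs_pow]; exact pow_le_one₀ (abs_nonneg _) (habs z)
  refine ⟨fun z => c * ∫ y in (-1 : ℝ)..z, θ y ^ 8, fun z => c * θ z ^ 8,
    fun z => c * (8 * (θ z ^ 7 * θ1 z)),
    fun z => c * (8 * (7 * (θ z ^ 6 * θ1 z ^ 2) + θ z ^ 7 * θ2 z)), θ, θ1, c,
    1 + m + c * (1 + 8 * m + 56 * m ^ 2), ?_⟩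
  refine ⟨⟨?_, ?_, ?_, ?_, ?_, ?_, ?_, ?_⟩, hmono, hz0, hz1, hc0.le, fun z => rfl, hd, cθ1, h0, h1,
    ?_, hs, ?_⟩
  · intro z
    have := intervalIntegral.integral_hasDerivAt_right (c8.intervalIntegrable (-1) z)
      (c8.stronglyMeasurableAtFilter _ _) c8.continuousAt
    exact this.const_mul c
  · intro z
    refine (((hd z).pow 8).const_mul c).congr_deriv ?_
    simp only [Nat.cast_ofNat]
    ring
  · intro z
    refine (((((hd z).pow 7).mul (hd1 z)).const_mul 8).const_mul c).congr_deriv ?_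
    simp only [Nat.cast_ofNat, Pi.pow_apply]
    ring
  · fun_prop
  · intro z
    rw [abs_of_nonneg (hb z).1]
    have := (hb z).2
    have : 0 ≤ c * (1 + 8 * m + 56 * m ^ 2) := by positivity
    linarith [(hb z).2]
  · intro z
    rw [abs_mul, abs_of_pos hc0]
    have h3 : c * |θ z ^ 8| ≤ c * 1 := mul_le_mul_of_nonneg_left (hpow 8 z) hc0.le
    have : 0 ≤ c * (8 * m + 56 * m ^ 2) := by positivity
    nlinarith
  · intro z
    rw [abs_mul, abs_of_pos hc0, abs_mul, abs_mul]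
    have h3 : |θ z ^ 7| * |θ1 z| ≤ 1 * m := mul_le_mul (hpow 7 z) (hm1 z) (abs_nonneg _) zero_le_one
    have h4 : c * (|8| * (|θ z ^ 7| * |θ1 z|)) ≤ c * (8 * (1 * m)) := by
      refine mul_le_mul_of_nonneg_left ?_ hc0.le
      rw [abs_of_pos (by norm_num : (0 : ℝ) < 8)]
      linarith
    have : 0 ≤ c * (1 + 56 * m ^ 2) := by positivity
    nlinarith
  · intro z
    rw [abs_mul, abs_of_pos hc0, abs_mul]
    have h3 : |θ z ^ 6 * θ1 z ^ 2| ≤ 1 * m ^ 2 := by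
      rw [abs_mul, abs_pow (θ1 z)]
      exact mul_le_mul (hpow 6 z) (pow_le_pow_left₀ (abs_nonneg _) (hm1 z) 2) (by positivity)
        zero_le_one
    have h4 : |θ z ^ 7 * θ2 z| ≤ 1 * m := by
      rw [abs_mul]
      exact mul_le_mul (hpow 7 z) (hm2 z) (abs_nonneg _) zero_le_one
    have h5 : |7 * (θ z ^ 6 * θ1 z ^ 2) + θ z ^ 7 * θ2 z| ≤ 7 * m ^ 2 + m := by
      refine (abs_add_le _ _).trans ?_
      rw [abs_mul, abs_of_pos (by norm_num : (0 : ℝ) < 7)]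
      linarith
    have h6 : c * (|8| * |7 * (θ z ^ 6 * θ1 z ^ 2) + θ z ^ 7 * θ2 z|) ≤ c * (8 * (7 * m ^ 2 + m)) := by
      refine mul_le_mul_of_nonneg_left ?_ hc0.le
      rw [abs_of_pos (by norm_num : (0 : ℝ) < 8)]
      linarith
    nlinarith
  · intro z
    have : 0 ≤ c * (1 + 8 * m + 56 * m ^ 2) := by positivity
    linarith [hm1 z]
  · intro z hz
    simp [hs z hz]

/-- scaling of weights -/
theorem Cut.scale {φ φ1 φ2 φ3 : ℝ → ℝ} {B : ℝ} (h : Cut φ φ1 φ2 φ3 B) (p : ℝ) {b : ℝ} (hb : 0 < b)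
    (hb1 : b ≤ 1) :
    Cut (fun x => φ ((x - p) / b)) (fun x => b⁻¹ * φ1 ((x - p) / b))
      (fun x => b⁻¹ ^ 2 * φ2 ((x - p) / b)) (fun x => b⁻¹ ^ 3 * φ3 ((x - p) / b))
      (b⁻¹ ^ 3 * B) := by
  have hB : 0 ≤ B := (abs_nonneg _).trans (h.b0 0)
  have h1 : 1 ≤ b⁻¹ := (one_le_inv₀ hb).2 hb1
  have lin : ∀ x, HasDerivAt (fun x => (x - p) / b) b⁻¹ x := fun x => by
    simpa using ((hasDerivAt_id x).sub_const p).div_const b
  have hp : ∀ n : ℕ, n ≤ 3 → b⁻¹ ^ n ≤ b⁻¹ ^ 3 := fun n hn => pow_le_pow_right₀ h1 hn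
  have key : ∀ n : ℕ, n ≤ 3 → ∀ y : ℝ, |y| ≤ B → |b⁻¹ ^ n * y| ≤ b⁻¹ ^ 3 * B := by
    intro n hn y hy
    rw [abs_mul, abs_of_nonneg (by positivity)]
    exact mul_le_mul (hp n hn) hy (abs_nonneg _) (by positivity)
  refine ⟨?_, ?_, ?_, ?_, ?_, ?_, ?_, ?_⟩
  · intro x
    refine ((h.d0 _).comp x (lin x)).congr_deriv (by ring)
  · intro x
    refine (((h.d1 _).comp x (lin x)).const_mul b⁻¹).congr_deriv (by ring)
  · intro x
    refine (((h.d2 _).comp x (lin x)).const_mul (b⁻¹ ^ 2)).congr_deriv (by ring)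
  · have := h.c3
    fun_prop
  · intro x
    have := key 0 (by norm_num) _ (h.b0 ((x - p) / b))
    simpa using this
  · intro x
    have := key 1 (by norm_num) _ (h.b1 ((x - p) / b))
    simpa using this
  · intro x
    exact key 2 (by norm_num) _ (h.b2 _)
  · intro x
    exact key 3 (by norm_num) _ (h.b3 _)

end Pool.Agent.Helper44.Gkdv
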