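import Pool.Agent.Helper44.Gkdv.Limit

set_option autoImplicit false
set_option maxHeartbeats 4000000

open MeasureTheory Set Filter Topology Real
open scoped ENNReal ContDiff

namespace Pool.Agent.Helper44.Gkdv

theorem cont_of_dec {τ : ℝ} {P : ℝ → ℝ → ℝ} (bP : Dec τ P)
    (cP : ∀ t ∈ Icc 0 τ, Continuous (P t))
    (cPt : ∀ x, ContinuousOn (fun t => P t x) (Icc 0 τ)) :
    ContinuousOn (fun t => ∫ x, P t x) (Icc 0 τ) := by
  obtain ⟨C, hC, b⟩ := bP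
  refine continuousOn_of_dominated (bound := fun x => C * (1 + x ^ 2)⁻¹) ?_ ?_ ?_ ?_
  · intro t ht
    exact (cP t ht).aestronglyMeasurable
  · intro t ht
    exact ae_of_all _ fun x => by simpa [norm_eq_abs] using b t ht x
  · exact int_dec.const_mul C
  · exact ae_of_all _ fun x => cPt x

namespace SD

variable {τ : ℝ} {W Wt : ℕ → ℝ → ℝ → ℝ} {φ : ℝ → ℝ} {B : ℝ}

theorem cont_pow (h : SD τ W Wt) (n : ℕ) (k : ℕ) (hφ : Continuous φ) (hb : ∀ x, |φ x| ≤ B) :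
    ContinuousOn (fun t => ∫ x, W k t x ^ (n + 1) * φ x) (Icc 0 τ) := by
  refine cont_of_dec (((h.Dec' k).pow n).bmul hb) (fun t ht => ?_) (fun x => ?_)
  · exact ((h.cx k t).pow _).mul hφ
  · exact (((h.ct k x).pow _).mul continuous_const).continuousOn

end SD

theorem cut_one : Cut (fun _ => 1) (fun _ => 0) (fun _ => 0) (fun _ => 0) 1 where
  d0 x := hasDerivAt_const x _
  d1 x := hasDerivAt_const x _
  d2 x := hasDerivAt_const x _
  c3 := continuous_const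
  b0 x := by simp
  b1 x := by simp
  b2 x := by simp
  b3 x := by simp

variable {T : ℝ} {u du : ℝ → ℝ → ℝ} {φ φ1 φ2 φ3 : ℝ → ℝ} {B : ℝ}

/-- local mass identity for `H^1` solutions -/
theorem H1Sol.flux (h : H1Sol T u du) (hφ : Cut φ φ1 φ2 φ3 B) {a b : ℝ} (ha : 0 ≤ a)
    (hab : a ≤ b) (hb : b < T) :
    (∫ x, u b x ^ 2 * φ x) - ∫ x, u a x ^ 2 * φ x =
      ∫ s in a..b, ((5 / 3) * (∫ x, u s x ^ 6 * φ1 x) + ((-3) * (∫ x, du s x ^ 2 * φ1 x)
        + ∫ x, u s x ^ 2 * φ3 x)) ∧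
    ContinuousOn (fun s => (5 / 3) * (∫ x, u s x ^ 6 * φ1 x) + ((-3) * (∫ x, du s x ^ 2 * φ1 x)
        + ∫ x, u s x ^ 2 * φ3 x)) (Icc a b) := by
  have L1 : LipF (fun f _ => ∫ x, f x ^ 2 * φ x) := lipF_pow 0 hφ.c0 hφ.b0
  have L2 : LipF (fun f g => (5 / 3) * (∫ x, f x ^ 6 * φ1 x) + ((-3) * (∫ x, g x ^ 2 * φ1 x)
        + ∫ x, f x ^ 2 * φ3 x)) :=
    ((lipF_pow 4 hφ.c1 hφ.b1).cmul (5 / 3)).add (((lipF_gsq hφ.c1 hφ.b1).cmul (-3)).add
      (lipF_pow 0 hφ.c3 hφ.b3))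
  refine h.limit L1 L2 ha hab hb ?_ ?_
  · intro W Wt hW
    rw [hW.mass_law hφ ha hab le_rfl]
    refine intervalIntegral.integral_congr (fun s hs => ?_)
    rw [uIcc_of_le hab] at hs
    have hs' : s ∈ Icc 0 b := ⟨ha.trans hs.1, hs.2⟩
    have hH := hW.isH1 0 hs'
    have i1 := intw (hH.pow_int (k := 6) (by norm_num)) hφ.c1 hφ.b1
    have i2 := intw hH.mem'.integrable_sq hφ.c1 hφ.b1
    have i3 := intw hH.mem.integrable_sq hφ.c3 hφ.b3
    have j1 : Integrable (fun x => (5 / 3 : ℝ) * (W 0 s x ^ 6 * φ1 x)) := i1.const_mul _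
    have j2 : Integrable (fun x => (3 : ℝ) * (W 1 s x ^ 2 * φ1 x)) := i2.const_mul _
    have j12 : Integrable (fun x => (5 / 3 : ℝ) * (W 0 s x ^ 6 * φ1 x)
      - 3 * (W 1 s x ^ 2 * φ1 x)) := j1.sub j2
    rw [integral_add j12 i3, integral_sub j1 j2, integral_const_mul, integral_const_mul]
    ring
  · intro W Wt hW
    have c1 := hW.cont_pow 5 0 hφ.c1 hφ.b1
    have c2 := hW.cont_pow 1 1 hφ.c1 hφ.b1
    have c3 := hW.cont_pow 1 0 hφ.c3 hφ.b3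
    have := (c1.const_smul (5 / 3 : ℝ)).add ((c2.const_smul (-3 : ℝ)).add c3)
    exact this.mono (Icc_subset_Icc ha le_rfl)

/-- weak form of the equation -/
theorem H1Sol.weak (h : H1Sol T u du) (hφ : Cut φ φ1 φ2 φ3 B) (hφ2 : MemLp φ 2 volume)
    (hφ32 : MemLp φ3 2 volume) {a b : ℝ} (ha : 0 ≤ a)
    (hab : a ≤ b) (hb : b < T) :
    (∫ x, u b x * φ x) - ∫ x, u a x * φ x =
      ∫ s in a..b, ((∫ x, u s x ^ 5 * φ1 x) + ∫ x, u s x * φ3 x) ∧
    ContinuousOn (fun s => (∫ x, u s x ^ 5 * φ1 x) + ∫ x, u s x * φ3 x) (Icc a b) := by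
  have L1 : LipF (fun f _ => ∫ x, f x * φ x) := lipF_lin hφ2
  have L2 : LipF (fun f _ => (∫ x, f x ^ 5 * φ1 x) + ∫ x, f x * φ3 x) :=
    (lipF_pow 3 hφ.c1 hφ.b1).add (lipF_lin hφ32)
  refine h.limit L1 L2 ha hab hb ?_ ?_
  · intro W Wt hW
    rw [hW.lin_law hφ ha hab le_rfl]
    refine intervalIntegral.integral_congr (fun s hs => ?_)
    rw [uIcc_of_le hab] at hs
    have hs' : s ∈ Icc 0 b := ⟨ha.trans hs.1, hs.2⟩
    have hH := hW.isH1 0 hs'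
    have i1 := intw (hH.pow_int (k := 5) (by norm_num)) hφ.c1 hφ.b1
    have i3 := mul_int hH.mem hφ32
    rw [integral_add i1 i3]
  · intro W Wt hW
    have c1 := hW.cont_pow 4 0 hφ.c1 hφ.b1
    have c3 := hW.cont_pow 0 0 hφ.c3 hφ.b3
    have := c1.add c3
    simp only [zero_add, pow_one] at this
    exact this.mono (Icc_subset_Icc ha le_rfl)

theorem H1Sol.mass (h : H1Sol T u du) {t : ℝ} (ht : t ∈ Ico 0 T) :
    ∫ x, u t x ^ 2 = ∫ x, u 0 x ^ 2 := by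
  have h1 := (h.flux cut_one le_rfl ht.1 ht.2).1
  simp only [mul_one, mul_zero, integral_zero, add_zero, intervalIntegral.integral_zero] at h1
  linarith

theorem H1Sol.energy (h : H1Sol T u du) {t : ℝ} (ht : t ∈ Ico 0 T) :
    (∫ x, du t x ^ 2) - (1 / 3) * ∫ x, u t x ^ 6 =
      (∫ x, du 0 x ^ 2) - (1 / 3) * ∫ x, u 0 x ^ 6 := by
  have hφ := cut_one
  have L1 : LipF (fun f g => (∫ x, g x ^ 2 * 1) + (-(1 / 3)) * (∫ x, f x ^ 6 * 1)) :=
    (lipF_gsq hφ.c0 hφ.b0).add ((lipF_pow 4 hφ.c0 hφ.b0).cmul _)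
  have L2 : LipF (fun _ _ => (0 : ℝ)) := by
    intro K
    exact ⟨0, le_rfl, fun f g a b ε _ _ _ _ _ => by simp⟩
  have h1 := (h.limit L1 L2 le_rfl ht.1 ht.2 ?_ ?_).1
  · simp only [mul_one, intervalIntegral.integral_zero] at h1
    linarith
  · intro W Wt hW
    have h2 := hW.energy_law hφ le_rfl ht.1 le_rfl
    simp only [mul_one, mul_zero, add_zero, integral_zero, intervalIntegral.integral_zero] at h2 ⊢
    have e : ∀ s ∈ Icc 0 t, ∫ x, (W 1 s x ^ 2 - (1 / 3) * W 0 s x ^ 6) =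
        (∫ x, W 1 s x ^ 2) - (1 / 3) * ∫ x, W 0 s x ^ 6 := by
      intro s hs
      have hH := hW.isH1 0 hs
      rw [integral_sub hH.mem'.integrable_sq ((hH.pow_int (by norm_num)).const_mul _),
        integral_const_mul]
    rw [e t ⟨ht.1, le_rfl⟩, e 0 ⟨le_rfl, ht.1⟩] at h2
    linarith
  · intro W Wt hW
    exact continuousOn_const

end Pool.Agent.Helper44.Gkdv
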