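import Pool.Agent.Helper44.Gkdv.Bump

set_option autoImplicit false
set_option maxHeartbeats 4000000

open MeasureTheory Set Filter Topology Real
open scoped ENNReal ContDiff

namespace Pool.Agent.Helper44.Gkdv

theorem IsH1.mem_pow {f g : ℝ → ℝ} (h : IsH1 f g) (n : ℕ) : MemLp (fun x => f x ^ (n + 1)) 2 := by
  obtain ⟨B, hB, hb⟩ := h.bdd
  refine MemLp.of_le (h.mem.const_mul (B ^ n)) (h.cont.pow _).aestronglyMeasurable
    (ae_of_all _ fun x => ?_)
  rw [norm_eq_abs, norm_eq_abs, abs_pow, abs_mul, abs_of_nonneg (pow_nonneg hB n), pow_succ]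
  exact mul_le_mul_of_nonneg_right (pow_le_pow_left₀ (abs_nonneg _) (hb x) n) (abs_nonneg _)

/-- The constant of the energy step. -/
noncomputable def CE (c m M : ℝ) : ℝ := 36992 * c * m ^ 4 + 16 * c * M ^ 2 + m * (1 + M)

theorem prod_le {f g k Ψ Ψ1 Ψ2 Ψ3 θ θ1 : ℝ → ℝ} {c m p b M P η : ℝ}
    (hf : ∀ x, HasDerivAt f (g x) x) (hg : ∀ x, HasDerivAt g (k x) x)
    (H : IsH1 f g) (H' : IsH1 g k) (st : Step Ψ Ψ1 Ψ2 Ψ3 θ θ1 c m) (hb : 0 < b) (hb1 : b ≤ 1)
    (hM : ∫ x, f x ^ 2 ≤ M) (hM1 : 1 ≤ M) (hP : ∫ x in Ioi (p - b), g x ^ 2 ≤ P) (hP1 : 1 ≤ P)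
    (hη : ∫ x in Ioo (p - b) p, f x ^ 2 ≤ η) (hη1 : η ≤ 1 / 5) :
    ∫ x, (-((k x + f x ^ 5) * (3 * k x + f x ^ 5)) * (b⁻¹ * Ψ1 ((x - p) / b))
      + (g x ^ 2 + (1 / 3) * f x ^ 6) * (b⁻¹ ^ 3 * Ψ3 ((x - p) / b))) ≤
      CE c m M * (b⁻¹ ^ 3 * P) := by
  have hib : 0 < b⁻¹ := inv_pos.2 hb
  have hib1 : 1 ≤ b⁻¹ := (one_le_inv₀ hb).2 hb1
  have hc := st.hc
  have hm0 : 0 ≤ m := (abs_nonneg _).trans (st.tm 0)
  have cΨ1 := st.cut.c1
  have cΨ3 := st.cut.c3
  set S := Ioo (p - b) p with hSdef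
  have hS : MeasurableSet S := measurableSet_Ioo
  have hη0 : 0 ≤ η := (integral_nonneg fun x => sq_nonneg (f x)).trans hη
  have hM0 : 0 ≤ M := by linarith
  have hP0 : 0 ≤ P := by linarith
  have hnotS : ∀ x, x ∉ S → (x - p) / b ∉ Ioo (-1 : ℝ) 0 := by
    intro x hx hx'
    apply hx
    rw [mem_Ioo, lt_div_iff₀ hb, div_lt_iff₀ hb] at hx'
    constructor <;> nlinarith [hx'.1, hx'.2]
  set ϑ : ℝ → ℝ := fun x => θ ((x - p) / b) with hϑ
  have dϑ : ∀ x, HasDerivAt ϑ (b⁻¹ * θ1 ((x - p) / b)) x := by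
    intro x
    have lin : HasDerivAt (fun x => (x - p) / b) b⁻¹ x := by
      simpa using ((hasDerivAt_id x).sub_const p).div_const b
    exact ((st.dθ _).comp x lin).congr_deriv (by ring)
  have cθ1 := st.cθ1
  have cϑ1 : Continuous (fun x => b⁻¹ * θ1 ((x - p) / b)) := by fun_prop
  have h0 : ∀ x, 0 ≤ ϑ x := fun x => st.t0 _
  have h1 : ∀ x, ϑ x ≤ 1 := fun x => st.t1 _
  have hs : ∀ x, x ∉ S → ϑ x = 0 := fun x hx => st.ts _ (hnotS x hx)
  have hbd : ∀ x, |b⁻¹ * θ1 ((x - p) / b)| ≤ b⁻¹ * m := fun x => by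
    rw [abs_mul, abs_of_pos hib]
    exact mul_le_mul_of_nonneg_left (st.tm _) hib.le
  have cϑ : Continuous ϑ := continuous_iff_continuousAt.2 fun x => (dϑ x).continuousAt
  have bϑ8 : ∀ x, |ϑ x ^ 8| ≤ 1 := fun x => by
    rw [abs_of_nonneg (pow_nonneg (h0 x) _)]
    exact pow_le_one₀ (h0 x) (h1 x)
  -- the sup bound
  have sup4 : ∀ x ∈ S, f x ^ 4 ≤ 4 * (M * P) := by
    intro x hx
    have e1 := H.sq_le_cs x
    have a1 : ∫ y in Ioi x, f y ^ 2 ≤ M :=
      (setIntegral_le_integral H.mem.integrable_sq (ae_of_all _ fun y => sq_nonneg _)).trans hM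
    have a2 : ∫ y in Ioi x, g y ^ 2 ≤ P :=
      (setIntegral_mono_set H.mem'.integrable_sq.integrableOn (ae_of_all _ fun y => sq_nonneg _)
        (Ioi_subset_Ioi hx.1.le).eventuallyLE).trans hP
    have e2 : f x ^ 2 ≤ 2 * (√M * √P) := e1.trans (by gcongr)
    calc f x ^ 4 = (f x ^ 2) ^ 2 := by ring
      _ ≤ (2 * (√M * √P)) ^ 2 := pow_le_pow_left₀ (sq_nonneg _) e2 2
      _ = 4 * (M * P) := by rw [mul_pow, mul_pow, sq_sqrt hM0, sq_sqrt hP0]; ring
  set Z := ∫ x, k x ^ 2 * ϑ x ^ 8 with hZ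
  set T := ∫ x, f x ^ 10 * ϑ x ^ 8 with hT
  have iZ : Integrable (fun x => k x ^ 2 * ϑ x ^ 8) := intw H'.mem'.integrable_sq (cϑ.pow 8) bϑ8
  have iT : Integrable (fun x => f x ^ 10 * ϑ x ^ 8) :=
    intw (H.pow_int (by norm_num)) (cϑ.pow 8) bϑ8
  have hZ0 : 0 ≤ Z := integral_nonneg fun x => mul_nonneg (sq_nonneg _) (pow_nonneg (h0 x) _)
  -- the last term
  have iG : Integrable (fun x => S.indicator (fun x => g x ^ 2 + (1 / 3) * f x ^ 6) x) :=
    ((H.mem'.integrable_sq).add ((H.pow_int (k := 6) (by norm_num)).const_mul (1 / 3))).indicator hS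
  have hG : ∫ x, S.indicator (fun x => g x ^ 2 + (1 / 3) * f x ^ 6) x ≤ P * (1 + M) := by
    rw [integral_indicator hS]
    have i1 : IntegrableOn (fun x => g x ^ 2) S := H.mem'.integrable_sq.integrableOn
    have i2 : IntegrableOn (fun x => (1 / 3) * f x ^ 6) S :=
      ((H.pow_int (k := 6) (by norm_num)).const_mul (1 / 3)).integrableOn
    rw [integral_add i1 i2, integral_const_mul]
    have a1 : ∫ x in S, g x ^ 2 ≤ P :=
      (setIntegral_mono_set H.mem'.integrable_sq.integrableOn (ae_of_all _ fun y => sq_nonneg _)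
        (HasSubset.Subset.eventuallyLE Ioo_subset_Ioi_self)).trans hP
    have a2 : ∫ x in S, f x ^ 6 ≤ 4 * (M * P) * η := by
      calc ∫ x in S, f x ^ 6 ≤ ∫ x in S, 4 * (M * P) * f x ^ 2 := by
            refine setIntegral_mono_on (H.pow_int (by norm_num)).integrableOn
              (H.mem.integrable_sq.const_mul _).integrableOn hS (fun x hx => ?_)
            calc f x ^ 6 = f x ^ 4 * f x ^ 2 := by ring
              _ ≤ _ := mul_le_mul_of_nonneg_right (sup4 x hx) (sq_nonneg _)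
        _ = 4 * (M * P) * ∫ x in S, f x ^ 2 := integral_const_mul _ _
        _ ≤ _ := mul_le_mul_of_nonneg_left hη (by positivity)
    have a3 : 4 * (M * P) * η ≤ 4 * (M * P) * (1 / 5) :=
      mul_le_mul_of_nonneg_left hη1 (by positivity)
    have a4 : 0 ≤ M * P := by positivity
    nlinarith
  -- pointwise bound
  have mk5 : MemLp (fun x => k x + f x ^ 5) 2 volume := H'.mem'.add (H.mem_pow 4)
  have mk35 : MemLp (fun x => 3 * k x + f x ^ 5) 2 volume := (H'.mem'.const_mul 3).add (H.mem_pow 4)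
  have iL : Integrable (fun x => -((k x + f x ^ 5) * (3 * k x + f x ^ 5)) * (b⁻¹ * Ψ1 ((x - p) / b))
      + (g x ^ 2 + (1 / 3) * f x ^ 6) * (b⁻¹ ^ 3 * Ψ3 ((x - p) / b))) := by
    refine (intw (C := b⁻¹ * m) (mul_int mk5 mk35).neg (by fun_prop) (fun x => ?_)).add
      (intw (C := b⁻¹ ^ 3 * m) ((H.mem'.integrable_sq).add
        ((H.pow_int (k := 6) (by norm_num)).const_mul (1 / 3))) (by fun_prop) (fun x => ?_))
    · rw [abs_mul, abs_of_pos hib]
      exact mul_le_mul_of_nonneg_left (st.cut.b1 _) hib.le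
    · rw [abs_mul, abs_of_pos (by positivity)]
      exact mul_le_mul_of_nonneg_left (st.cut.b3 _) (by positivity)
  have iR : Integrable (fun x => b⁻¹ * c * (f x ^ 10 * ϑ x ^ 8) - b⁻¹ * c * (k x ^ 2 * ϑ x ^ 8)) :=
    (iT.const_mul _).sub (iZ.const_mul _)
  have main : ∫ x, (-((k x + f x ^ 5) * (3 * k x + f x ^ 5)) * (b⁻¹ * Ψ1 ((x - p) / b))
      + (g x ^ 2 + (1 / 3) * f x ^ 6) * (b⁻¹ ^ 3 * Ψ3 ((x - p) / b))) ≤
      (b⁻¹ * c * T - b⁻¹ * c * Z) + b⁻¹ ^ 3 * m * (P * (1 + M)) := by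
    calc _ ≤ ∫ x, ((b⁻¹ * c * (f x ^ 10 * ϑ x ^ 8) - b⁻¹ * c * (k x ^ 2 * ϑ x ^ 8)) +
          b⁻¹ ^ 3 * m * S.indicator (fun x => g x ^ 2 + (1 / 3) * f x ^ 6) x) := by
          refine integral_mono iL (iR.add (iG.const_mul _)) (fun x => ?_)
          simp only
          refine add_le_add ?_ ?_
          · have e1 : Ψ1 ((x - p) / b) = c * ϑ x ^ 8 := st.e1 _
            rw [e1]
            have e2 : b⁻¹ * c * (f x ^ 10 * ϑ x ^ 8) - b⁻¹ * c * (k x ^ 2 * ϑ x ^ 8) =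
              (f x ^ 10 - k x ^ 2) * (b⁻¹ * (c * ϑ x ^ 8)) := by ring
            rw [e2]
            refine mul_le_mul_of_nonneg_right ?_ (by
              have := pow_nonneg (h0 x) 8
              positivity)
            nlinarith [sq_nonneg (k x + f x ^ 5)]
          · by_cases hx : x ∈ S
            · rw [indicator_of_mem hx]
              have e3 : b⁻¹ ^ 3 * Ψ3 ((x - p) / b) ≤ b⁻¹ ^ 3 * m :=
                mul_le_mul_of_nonneg_left ((le_abs_self _).trans (st.cut.b3 _)) (by positivity)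
              have e4 : 0 ≤ g x ^ 2 + (1 / 3) * f x ^ 6 := by positivity
              calc _ ≤ (g x ^ 2 + (1 / 3) * f x ^ 6) * (b⁻¹ ^ 3 * m) :=
                    mul_le_mul_of_nonneg_left e3 e4
                _ = _ := by ring
            · rw [indicator_of_notMem hx, st.s3 _ (hnotS x hx)]
              simp
      _ = (b⁻¹ * c * T - b⁻¹ * c * Z) + b⁻¹ ^ 3 * m *
          ∫ x, S.indicator (fun x => g x ^ 2 + (1 / 3) * f x ^ 6) x := by
          rw [integral_add iR (iG.const_mul _), integral_sub (iT.const_mul _) (iZ.const_mul _),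
            integral_const_mul, integral_const_mul, integral_const_mul]
      _ ≤ _ := by
          have := mul_le_mul_of_nonneg_left hG (by positivity : 0 ≤ b⁻¹ ^ 3 * m)
          linarith
  refine main.trans ?_
  have key : b⁻¹ * c * T - b⁻¹ * c * Z ≤
      (36992 * c * m ^ 4 + 16 * c * M ^ 2) * (b⁻¹ ^ 3 * P) := by
    rcases le_total P (b⁻¹ ^ 2) with hcase | hcase
    · have t1 : T ≤ 16 * (M ^ 2 * P ^ 2) * η := by
        calc T ≤ ∫ x, 16 * (M ^ 2 * P ^ 2) * S.indicator (fun x => f x ^ 2) x := by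
              refine integral_mono iT ((H.mem.integrable_sq.indicator hS).const_mul _)
                (fun x => ?_)
              simp only
              by_cases hx : x ∈ S
              · rw [indicator_of_mem hx]
                have e1 := sup4 x hx
                have e2 : f x ^ 8 ≤ 16 * (M ^ 2 * P ^ 2) := by
                  calc f x ^ 8 = (f x ^ 4) ^ 2 := by ring
                    _ ≤ (4 * (M * P)) ^ 2 := pow_le_pow_left₀ (by positivity) e1 2
                    _ = _ := by ring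
                calc f x ^ 10 * ϑ x ^ 8 = f x ^ 8 * f x ^ 2 * ϑ x ^ 8 := by ring
                  _ ≤ f x ^ 8 * f x ^ 2 * 1 := by
                      refine mul_le_mul_of_nonneg_left ?_ (by positivity)
                      exact (le_abs_self _).trans (bϑ8 x)
                  _ ≤ _ := by
                      rw [mul_one]
                      exact mul_le_mul_of_nonneg_right e2 (sq_nonneg _)
              · rw [indicator_of_notMem hx, hs x hx]
                simp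
          _ = 16 * (M ^ 2 * P ^ 2) * ∫ x in S, f x ^ 2 := by
              rw [integral_const_mul, integral_indicator hS]
          _ ≤ _ := mul_le_mul_of_nonneg_left hη (by positivity)
      have t2 : T ≤ 16 * (M ^ 2 * P ^ 2) := t1.trans (by
        have : 0 ≤ 16 * (M ^ 2 * P ^ 2) := by positivity
        nlinarith)
      have t3 : b⁻¹ * c * T ≤ b⁻¹ * c * (16 * (M ^ 2 * P ^ 2)) :=
        mul_le_mul_of_nonneg_left t2 (by positivity)
      have t4 : b⁻¹ * c * (16 * (M ^ 2 * P ^ 2)) ≤ 16 * c * M ^ 2 * (b⁻¹ ^ 3 * P) := by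
        have : b⁻¹ * c * (16 * (M ^ 2 * P ^ 2)) = 16 * c * M ^ 2 * (b⁻¹ * P * P) := by ring
        rw [this]
        refine mul_le_mul_of_nonneg_left ?_ (by positivity)
        calc b⁻¹ * P * P ≤ b⁻¹ * P * b⁻¹ ^ 2 := mul_le_mul_of_nonneg_left hcase (by positivity)
          _ = _ := by ring
      have t5 : 0 ≤ b⁻¹ * c * Z := by positivity
      have t6 : 0 ≤ 36992 * c * m ^ 4 * (b⁻¹ ^ 3 * P) := by positivity
      linarith
    · have t1 := gn hS hf hg H H' dϑ cϑ1 h0 h1 hbd hs hη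
      have t2 : 512 * η ^ 4 ≤ 1 := by
        have : η ^ 4 ≤ (1 / 5 : ℝ) ^ 4 := pow_le_pow_left₀ hη0 hη1 4
        norm_num at this
        linarith
      have t3 : η ^ 5 ≤ 1 := pow_le_one₀ hη0 (by linarith)
      have t4 : T ≤ Z + 36992 * (b⁻¹ * m) ^ 4 := by
        have a1 : 512 * η ^ 4 * Z ≤ 1 * Z := mul_le_mul_of_nonneg_right t2 hZ0
        have a2 : 36992 * (b⁻¹ * m) ^ 4 * η ^ 5 ≤ 36992 * (b⁻¹ * m) ^ 4 * 1 :=
          mul_le_mul_of_nonneg_left t3 (by positivity)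
        linarith
      have t5 : b⁻¹ * c * T ≤ b⁻¹ * c * (Z + 36992 * (b⁻¹ * m) ^ 4) :=
        mul_le_mul_of_nonneg_left t4 (by positivity)
      have t6 : b⁻¹ * c * (36992 * (b⁻¹ * m) ^ 4) ≤ 36992 * c * m ^ 4 * (b⁻¹ ^ 3 * P) := by
        have : b⁻¹ * c * (36992 * (b⁻¹ * m) ^ 4) = 36992 * c * m ^ 4 * (b⁻¹ ^ 3 * b⁻¹ ^ 2) := by
          ring
        rw [this]
        refine mul_le_mul_of_nonneg_left ?_ (by positivity)
        exact mul_le_mul_of_nonneg_left hcase (by positivity)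
      have t7 : 0 ≤ 16 * c * M ^ 2 * (b⁻¹ ^ 3 * P) := by positivity
      linarith
  have : CE c m M * (b⁻¹ ^ 3 * P) = (36992 * c * m ^ 4 + 16 * c * M ^ 2) * (b⁻¹ ^ 3 * P)
      + b⁻¹ ^ 3 * m * (P * (1 + M)) := by unfold CE; ring
  linarith

theorem intervalIntegral_le_const {h : ℝ → ℝ} {K a b : ℝ} (hK : 0 ≤ K) (hab : a ≤ b)
    (hh : ∀ s ∈ Icc a b, h s ≤ K) : ∫ s in a..b, h s ≤ K * (b - a) := by
  by_cases hi : IntervalIntegrable h volume a b
  · calc ∫ s in a..b, h s ≤ ∫ s in a..b, K :=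
          intervalIntegral.integral_mono_on hab hi intervalIntegrable_const hh
      _ = K * (b - a) := by simp [mul_comm]
  · rw [intervalIntegral.integral_undef hi]
    exact mul_nonneg hK (sub_nonneg.2 hab)

/-- energy step for smooth solutions -/
theorem SD.estep {τ : ℝ} {W Wt : ℕ → ℝ → ℝ → ℝ} (h : SD τ W Wt) {Ψ Ψ1 Ψ2 Ψ3 θ θ1 : ℝ → ℝ}
    {c m p b M P η : ℝ} (st : Step Ψ Ψ1 Ψ2 Ψ3 θ θ1 c m) (hb : 0 < b) (hb1 : b ≤ 1)
    (hM1 : 1 ≤ M) (hP1 : 1 ≤ P) (hη1 : η ≤ 1 / 5) {s t : ℝ} (hs : 0 ≤ s) (hst : s ≤ t) (ht : t ≤ τ)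
    (hM : ∀ r ∈ Icc s t, ∫ x, W 0 r x ^ 2 ≤ M)
    (hP : ∀ r ∈ Icc s t, ∫ x in Ioi (p - b), W 1 r x ^ 2 ≤ P)
    (hη : ∀ r ∈ Icc s t, ∫ x in Ioo (p - b) p, W 0 r x ^ 2 ≤ η) :
    (∫ x, (W 1 t x ^ 2 - (1 / 3) * W 0 t x ^ 6) * Ψ ((x - p) / b)) ≤
      (∫ x, (W 1 s x ^ 2 - (1 / 3) * W 0 s x ^ 6) * Ψ ((x - p) / b)) +
        CE c m M * (b⁻¹ ^ 3 * P) * (t - s) := by
  have hcut := st.cut.scale p hb hb1
  have h1 := h.energy_law hcut hs hst ht
  have hc := st.hc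
  have hm0 : 0 ≤ m := (abs_nonneg _).trans (st.tm 0)
  have hib : 0 < b⁻¹ := inv_pos.2 hb
  have hCE : 0 ≤ CE c m M * (b⁻¹ ^ 3 * P) := by unfold CE; positivity
  have h2 : (∫ r in s..t, ∫ x, (-((W 2 r x + W 0 r x ^ 5) * (3 * W 2 r x + W 0 r x ^ 5)) *
        (b⁻¹ * Ψ1 ((x - p) / b))
        + (W 1 r x ^ 2 + (1 / 3) * W 0 r x ^ 6) * (b⁻¹ ^ 3 * Ψ3 ((x - p) / b)))) ≤
      CE c m M * (b⁻¹ ^ 3 * P) * (t - s) := by
    refine intervalIntegral_le_const hCE hst (fun r hr => ?_)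
    have hr' : r ∈ Icc 0 τ := ⟨hs.trans hr.1, hr.2.trans ht⟩
    exact prod_le (h.dx 0 r) (h.dx 1 r) (h.isH1 0 hr') (h.isH1 1 hr') st hb hb1 (hM r hr) hM1
      (hP r hr) hP1 (hη r hr) hη1
  linarith

end Pool.Agent.Helper44.Gkdv
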