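import Pool.Agent.Helper44.Gkdv.EStep

set_option autoImplicit false
set_option maxHeartbeats 4000000

open MeasureTheory Set Filter Topology Real
open scoped ENNReal ContDiff

namespace Pool.Agent.Helper44.Gkdv

theorem exists_small {L δ δ' : ℝ} (hL : 0 ≤ L) (hδ : 0 < δ) (hδ' : 0 < δ') :
    ∃ ε, 0 < ε ∧ ε ≤ δ' ∧ L * √ε ≤ δ := by
  refine ⟨min δ' ((δ / (L + 1)) ^ 2), by positivity, min_le_left _ _, ?_⟩
  have h1 : √(min δ' ((δ / (L + 1)) ^ 2)) ≤ δ / (L + 1) := by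
    calc √(min δ' ((δ / (L + 1)) ^ 2)) ≤ √((δ / (L + 1)) ^ 2) :=
          sqrt_le_sqrt (min_le_right _ _)
      _ = _ := sqrt_sq (by positivity)
  calc L * √(min δ' ((δ / (L + 1)) ^ 2)) ≤ L * (δ / (L + 1)) :=
        mul_le_mul_of_nonneg_left h1 hL
    _ ≤ (L + 1) * (δ / (L + 1)) :=
        mul_le_mul_of_nonneg_right (by linarith) (by positivity)
    _ = δ := by field_simp

/-- localized energy -/
noncomputable def En (ψ f g : ℝ → ℝ) : ℝ := (∫ x, g x ^ 2 * ψ x) + (-(1 / 3)) * ∫ x, f x ^ 6 * ψ x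

theorem lipF_En {ψ : ℝ → ℝ} {C : ℝ} (hψ : Continuous ψ) (hb : ∀ x, |ψ x| ≤ C) :
    LipF (fun f g => En ψ f g) :=
  (lipF_gsq hψ hb).add ((lipF_pow 4 hψ hb).cmul _)

theorem En_eq {ψ f g : ℝ → ℝ} {C : ℝ} (H : IsH1 f g) (hψ : Continuous ψ) (hb : ∀ x, |ψ x| ≤ C) :
    ∫ x, (g x ^ 2 - (1 / 3) * f x ^ 6) * ψ x = En ψ f g := by
  have i1 := intw H.mem'.integrable_sq hψ hb
  have i2 := intw (H.pow_int (k := 6) (by norm_num)) hψ hb
  have e : ∀ x, (g x ^ 2 - (1 / 3) * f x ^ 6) * ψ x =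
      g x ^ 2 * ψ x + (-(1 / 3)) * (f x ^ 6 * ψ x) := fun x => by ring
  simp only [e]
  rw [integral_add i1 (i2.const_mul _), integral_const_mul]
  rfl

variable {T : ℝ} {u du : ℝ → ℝ → ℝ}

/-- energy step for `H^1` solutions -/
theorem H1Sol.estep (h : H1Sol T u du) {Ψ Ψ1 Ψ2 Ψ3 θ θ1 : ℝ → ℝ}
    {c m p b M P : ℝ} (st : Step Ψ Ψ1 Ψ2 Ψ3 θ θ1 c m) (hb : 0 < b) (hb1 : b ≤ 1)
    (hM1 : 1 ≤ M) (hP1 : 1 ≤ P) {s t : ℝ} (hs : 0 ≤ s) (hst : s ≤ t) (ht : t < T)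
    (hM : ∀ r ∈ Icc s t, ∫ x, u r x ^ 2 ≤ M)
    (hP : ∀ r ∈ Icc s t, ∫ x in Ioi (p - b), du r x ^ 2 ≤ P)
    (hη : ∀ r ∈ Icc s t, ∫ x in Ioo (p - b) p, u r x ^ 2 ≤ 1 / 20) :
    En (fun x => Ψ ((x - p) / b)) (u t) (du t) ≤ En (fun x => Ψ ((x - p) / b)) (u s) (du s) +
        CE c m (2 * M + 2) * (b⁻¹ ^ 3 * (2 * P + 2)) * (t - s) := by
  have htI : t ∈ Ico 0 T := ⟨hs.trans hst, ht⟩
  obtain ⟨K, hK⟩ := h.bdd htI
  have hcut := st.cut.scale p hb hb1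
  obtain ⟨L, hL, hLip⟩ := lipF_En hcut.c0 hcut.b0 (2 * K + 2)
  have hK0 : 0 ≤ K := (sz_nonneg _ _).trans (hK t ⟨htI.1, le_rfl⟩)
  refine le_of_forall_pos_le_add (fun δ hδ => ?_)
  obtain ⟨ε, he, he1, hlt⟩ := exists_small (L := 2 * L) (by positivity) hδ
    (by norm_num : (0 : ℝ) < 1 / 20)
  obtain ⟨W, Wt, hW, hd⟩ := h.sd htI he
  have sub : Icc s t ⊆ Icc 0 t := Icc_subset_Icc hs le_rfl
  have bound : ∀ r ∈ Icc s t, ∀ A : Set ℝ, MeasurableSet A →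
      (∫ x in A, W 0 r x ^ 2 ≤ 2 * (∫ x in A, u r x ^ 2) + 2 * ε) ∧
      (∫ x in A, W 1 r x ^ 2 ≤ 2 * (∫ x in A, du r x ^ 2) + 2 * ε) := by
    intro r hr A hA
    have hr' := sub hr
    have hrT : r ∈ Ico 0 T := ⟨hr'.1, hr'.2.trans_lt ht⟩
    have h1 := hW.isH1 0 hr'
    have h2 := h.h1 r hrT
    have h3 := hd r hr'
    have hs1 := h1.sub h2
    constructor
    · refine (int_sq_le_of_dst (h1.mem.restrict A) (h2.mem.restrict A)).trans ?_
      have : ∫ x in A, (W 0 r x - u r x) ^ 2 ≤ ε :=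
        (setIntegral_le_integral hs1.mem.integrable_sq (ae_of_all _ fun y => sq_nonneg _)).trans
          (dst_l h3)
      linarith
    · refine (int_sq_le_of_dst (h1.mem'.restrict A) (h2.mem'.restrict A)).trans ?_
      have : ∫ x in A, (W 1 r x - du r x) ^ 2 ≤ ε :=
        (setIntegral_le_integral hs1.mem'.integrable_sq (ae_of_all _ fun y => sq_nonneg _)).trans
          (dst_r h3)
      simp only [zero_add]
      linarith
  have main := hW.estep (p := p) (M := 2 * M + 2) (P := 2 * P + 2) (η := 1 / 5) st hb hb1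
    (by linarith) (by linarith) le_rfl hs hst le_rfl
    (fun r hr => by
      have := (bound r hr univ MeasurableSet.univ).1
      simp only [Measure.restrict_univ] at this
      linarith [hM r hr])
    (fun r hr => by
      have := (bound r hr (Ioi (p - b)) measurableSet_Ioi).2
      linarith [hP r hr])
    (fun r hr => by
      have := (bound r hr (Ioo (p - b) p) measurableSet_Ioo).1
      linarith [hη r hr])
  have near : ∀ r ∈ Icc s t, |En (fun x => Ψ ((x - p) / b)) (W 0 r) (W 1 r) -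
      En (fun x => Ψ ((x - p) / b)) (u r) (du r)| ≤ L * √ε := by
    intro r hr
    have hr' := sub hr
    have hrT : r ∈ Ico 0 T := ⟨hr'.1, hr'.2.trans_lt ht⟩
    have h4 := sz_le_of_dst (hW.isH1 0 hr') (h.h1 r hrT)
    simp only [zero_add] at h4
    exact hLip _ _ _ _ ε (hW.isH1 0 hr') (h.h1 r hrT) (by linarith [hd r hr', hK r hr'])
      (by linarith [hK r hr']) (hd r hr')
  rw [En_eq (hW.isH1 0 (sub ⟨hst, le_rfl⟩)) hcut.c0 hcut.b0,
    En_eq (hW.isH1 0 (sub ⟨le_rfl, hst⟩)) hcut.c0 hcut.b0] at main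
  have n1 := abs_le.1 (near t ⟨hst, le_rfl⟩)
  have n2 := abs_le.1 (near s ⟨le_rfl, hst⟩)
  simp only [zero_add] at main
  linarith [n1.1, n1.2, n2.1, n2.2]

end Pool.Agent.Helper44.Gkdv
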