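import Pool.Agent.Helper44.Gkdv.Ahead3

set_option autoImplicit false
set_option maxHeartbeats 4000000

open MeasureTheory Set Filter Topology Real
open scoped ENNReal ContDiff

namespace Pool.Agent.Helper44.Gkdv

/-- a smooth bump with an arbitrary plateau -/
theorem exists_bump2 (α β η : ℝ) (hη : 0 < η) (hαβ : 2 * η < β - α) : ∃ (θ θ1 θ2 : ℝ → ℝ) (m : ℝ),
    (∀ z, HasDerivAt θ (θ1 z) z) ∧ (∀ z, HasDerivAt θ1 (θ2 z) z) ∧ Continuous θ2 ∧
    (∀ z, 0 ≤ θ z) ∧ (∀ z, θ z ≤ 1) ∧ (∀ z, |θ1 z| ≤ m) ∧ (∀ z, |θ2 z| ≤ m) ∧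
    (∀ z, z ∉ Ioo α β → θ z = 0) ∧ (∀ z, z ∉ Icc α β → θ2 z = 0) ∧ 0 ≤ m ∧
    (∀ z ∈ Icc (α + η) (β - η), θ z = 1) := by
  let f : ContDiffBump ((α + β) / 2 : ℝ) :=
    ⟨(β - α) / 2 - η, (β - α) / 2, by linarith, by linarith⟩
  have hf : ContDiff ℝ ∞ f := f.contDiff
  have h1 : ContDiff ℝ ∞ (deriv f) := ((contDiff_infty_iff_deriv (𝕜 := ℝ)).1 hf).2
  have h2 : ContDiff ℝ ∞ (deriv (deriv f)) := ((contDiff_infty_iff_deriv (𝕜 := ℝ)).1 h1).2
  have k0 : HasCompactSupport f := f.hasCompactSupport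
  have k1 : HasCompactSupport (deriv f) := k0.deriv
  have k2 : HasCompactSupport (deriv (deriv f)) := k1.deriv
  obtain ⟨m1, hm1⟩ := h1.continuous.bounded_above_of_compact_support k1
  obtain ⟨m2, hm2⟩ := h2.continuous.bounded_above_of_compact_support k2
  have hsup : ∀ z, z ∉ Ioo α β → f z = 0 := by
    intro z hz
    by_contra hne
    have : z ∈ Function.support f := hne
    rw [f.support_eq, Real.ball_eq_Ioo] at this
    apply hz
    have e1 : (α + β) / 2 - (β - α) / 2 = α := by ring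
    have e2 : (α + β) / 2 + (β - α) / 2 = β := by ring
    change z ∈ Ioo ((α + β) / 2 - (β - α) / 2) ((α + β) / 2 + (β - α) / 2) at this
    rwa [e1, e2] at this
  refine ⟨f, deriv f, deriv (deriv f), |m1| + |m2|, fun z => ?_, fun z => ?_, h2.continuous,
    fun z => f.nonneg, fun z => f.le_one, fun z => ?_, fun z => ?_, hsup, fun z hz => ?_,
    by positivity, fun z hz => ?_⟩
  · exact (hf.differentiable (by simp) z).hasDerivAt
  · exact (h1.differentiable (by simp) z).hasDerivAt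
  · have := hm1 z
    rw [norm_eq_abs] at this
    linarith [le_abs_self m1, abs_nonneg m2]
  · have := hm2 z
    rw [norm_eq_abs] at this
    linarith [le_abs_self m2, abs_nonneg m1]
  · -- outside the closed interval everything vanishes locally
    have hopen : (Icc α β)ᶜ ∈ 𝓝 z := isClosed_Icc.isOpen_compl.mem_nhds hz
    have e0 : (f : ℝ → ℝ) =ᶠ[𝓝 z] fun _ => 0 := by
      filter_upwards [hopen] with y hy
      exact hsup y (fun h => hy ⟨h.1.le, h.2.le⟩)
    have e1 : deriv f =ᶠ[𝓝 z] fun _ => 0 := by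
      have := e0.deriv
      simpa using this
    have e2 := e1.deriv_eq
    simpa using e2
  · refine f.one_of_mem_closedBall ?_
    rw [Real.closedBall_eq_Icc]
    change z ∈ Icc ((α + β) / 2 - ((β - α) / 2 - η)) ((α + β) / 2 + ((β - α) / 2 - η))
    constructor <;> [linarith [hz.1]; linarith [hz.2]]

/-- The test function. -/
structure Tst (Φ Φ' Φ'' Φ''' Ψ : ℝ → ℝ) (κ η m : ℝ) : Prop where
  cut : Cut Φ Φ' Φ'' Φ''' m
  s0 : ∀ z, z ∉ Icc (-1 : ℝ) 7 → Φ z = 0
  s3 : ∀ z, z ∉ Icc (-1 : ℝ) 7 → Φ''' z = 0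
  dif : ∀ z, Φ z = Ψ z - Ψ (z - 4)
  cΨ : Continuous Ψ
  Ψ0 : ∀ z, 0 ≤ Ψ z
  Ψ1 : ∀ z, Ψ z ≤ 1
  Ψs : ∀ z, z ∉ Ioo (-κ) 3 → Ψ z = 0
  pos : ∀ z, z ≤ 1 → 0 ≤ Φ' z
  one : ∀ z ∈ Icc (-κ + η) (-η), Φ' z = 1
  hm : 1 ≤ m

theorem exists_tst {κ η : ℝ} (hη : 0 < η) (hκ : 2 * η < κ) (hκ1 : κ ≤ 1) :
    ∃ (Φ Φ' Φ'' Φ''' Ψ : ℝ → ℝ) (m : ℝ), Tst Φ Φ' Φ'' Φ''' Ψ κ η m := by
  obtain ⟨θ, θ1, θ2, m, hd, hd1, hc2, h0, h1, hm1, hm2, hs, hs2, hm0, hone⟩ :=
    exists_bump2 (-κ) 0 η hη (by linarith)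
  have cθ : Continuous θ := continuous_iff_continuousAt.2 fun x => (hd x).continuousAt
  have cθ1 : Continuous θ1 := continuous_iff_continuousAt.2 fun x => (hd1 x).continuousAt
  set b : ℝ → ℝ := fun z => ∫ y in (-1 : ℝ)..z, θ y with hb
  have hbd : ∀ z, HasDerivAt b (θ z) z := fun z =>
    intervalIntegral.integral_hasDerivAt_right (cθ.intervalIntegrable (-1) z)
      (cθ.stronglyMeasurableAtFilter _ _) cθ.continuousAt
  have cb : Continuous b := continuous_iff_continuousAt.2 fun x => (hbd x).continuousAt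
  have bmono : Monotone b := by
    intro x y hxy
    simp only [hb]
    rw [← sub_nonneg, intervalIntegral.integral_interval_sub_left (cθ.intervalIntegrable _ _)
      (cθ.intervalIntegrable _ _)]
    exact intervalIntegral.integral_nonneg hxy (fun z _ => h0 z)
  have b0 : ∀ z, z ≤ -κ → b z = 0 := by
    intro z hz
    simp only [hb]
    rw [intervalIntegral.integral_congr (g := fun _ => (0 : ℝ))]
    · simp
    · intro y hy
      have hy' : y ≤ -κ := by
        rcases le_total (-1) z with h | h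
        · rw [uIcc_of_le h] at hy; exact hy.2.trans hz
        · rw [uIcc_of_ge h] at hy; exact hy.2.trans (by linarith)
      exact hs y (fun h => absurd h.1 (not_lt.2 hy'))
  have b1 : ∀ z, 0 ≤ z → b z = b 0 := by
    intro z hz
    simp only [hb]
    rw [← sub_eq_zero, intervalIntegral.integral_interval_sub_left (cθ.intervalIntegrable _ _)
      (cθ.intervalIntegrable _ _)]
    rw [intervalIntegral.integral_congr (g := fun _ => (0 : ℝ))]
    · simp
    · intro y hy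
      rw [uIcc_of_le hz] at hy
      exact hs y (fun h => absurd h.2 (not_lt.2 hy.1))
  have b01 : b 0 ≤ 1 := by
    simp only [hb]
    calc ∫ y in (-1 : ℝ)..0, θ y ≤ ∫ y in (-1 : ℝ)..0, (1 : ℝ) :=
          intervalIntegral.integral_mono_on (by norm_num) (cθ.intervalIntegrable _ _)
            (by simp) (fun y _ => h1 y)
      _ = 1 := by simp
  have bnn : ∀ z, 0 ≤ b z := by
    intro z
    rcases le_total z (-κ) with h | h
    · rw [b0 z h]
    · rw [← b0 (-κ) le_rfl]; exact bmono h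
  have ble : ∀ z, b z ≤ b 0 := by
    intro z
    rcases le_total z 0 with h | h
    · exact bmono h
    · rw [b1 z h]
  set Ψ : ℝ → ℝ := fun z => b z - b (z - 3) with hΨ
  have Ψ0 : ∀ z, 0 ≤ Ψ z := fun z => sub_nonneg.2 (bmono (by linarith))
  have Ψ1 : ∀ z, Ψ z ≤ 1 := fun z => by
    simp only [hΨ]
    linarith [ble z, bnn (z - 3)]
  have Ψs : ∀ z, z ∉ Ioo (-κ) 3 → Ψ z = 0 := by
    intro z hz
    simp only [hΨ]
    rcases le_or_gt z (-κ) with h | h
    · rw [b0 z h, b0 (z - 3) (by linarith), sub_zero]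
    · have : 3 ≤ z := by
        by_contra hlt
        exact hz ⟨h, not_le.1 hlt⟩
      rw [b1 z (by linarith), b1 (z - 3) (by linarith), sub_self]
  have shift : ∀ (f f' : ℝ → ℝ) (c : ℝ), (∀ z, HasDerivAt f (f' z) z) →
      ∀ z, HasDerivAt (fun z => f (z - c)) (f' (z - c)) z := by
    intro f f' c hf z
    have := (hf (z - c)).comp z ((hasDerivAt_id z).sub_const c)
    refine (this.congr_deriv (by simp) : HasDerivAt _ (f' (z - c)) z)
  refine ⟨fun z => Ψ z - Ψ (z - 4),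
    fun z => (θ z - θ (z - 3)) - (θ (z - 4) - θ (z - 4 - 3)),
    fun z => (θ1 z - θ1 (z - 3)) - (θ1 (z - 4) - θ1 (z - 4 - 3)),
    fun z => (θ2 z - θ2 (z - 3)) - (θ2 (z - 4) - θ2 (z - 4 - 3)), Ψ, 4 + 4 * m, ?_⟩
  have comb : ∀ (f f' : ℝ → ℝ), (∀ z, HasDerivAt f (f' z) z) →
      ∀ z, HasDerivAt (fun z => (f z - f (z - 3)) - (f (z - 4) - f (z - 4 - 3)))
        ((f' z - f' (z - 3)) - (f' (z - 4) - f' (z - 4 - 3))) z := by
    intro f f' hf z
    have e : ∀ y : ℝ, y - 4 - 3 = y - 7 := fun y => by ring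
    simp only [e]
    exact ((hf z).sub (shift f f' 3 hf z)).sub ((shift f f' 4 hf z).sub (shift f f' 7 hf z))
  have bnd : ∀ (f : ℝ → ℝ) (K : ℝ), (∀ z, |f z| ≤ K) → ∀ z,
      |(f z - f (z - 3)) - (f (z - 4) - f (z - 4 - 3))| ≤ 4 * K := by
    intro f K hf z
    have a1 := abs_le.1 (hf z)
    have a2 := abs_le.1 (hf (z - 3))
    have a3 := abs_le.1 (hf (z - 4))
    have a4 := abs_le.1 (hf (z - 4 - 3))
    rw [abs_le]
    constructor <;> linarith [a1.1, a1.2, a2.1, a2.2, a3.1, a3.2, a4.1, a4.2]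
  refine ⟨⟨?_, ?_, ?_, ?_, ?_, ?_, ?_, ?_⟩, ?_, ?_, fun z => rfl, ?_, Ψ0, Ψ1, Ψs, ?_, ?_, by linarith⟩
  · exact comb b θ hbd
  · exact comb θ θ1 hd
  · exact comb θ1 θ2 hd1
  · fun_prop
  · intro z
    have a1 := Ψ0 z
    have a2 := Ψ1 z
    have a3 := Ψ0 (z - 4)
    have a4 := Ψ1 (z - 4)
    rw [abs_le]
    constructor <;> linarith
  · intro z
    have := bnd θ 1 (fun z => by rw [abs_of_nonneg (h0 z)]; exact h1 z) z
    linarith
  · intro z
    have := bnd θ1 m hm1 z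
    linarith
  · intro z
    have := bnd θ2 m hm2 z
    linarith
  · intro z hz
    rw [Ψs z (fun h => hz ⟨by linarith [h.1], by linarith [h.2]⟩),
      Ψs (z - 4) (fun h => hz ⟨by linarith [h.1], by linarith [h.2]⟩), sub_self]
  · intro z hz
    rw [hs2 z (fun h => hz ⟨by linarith [h.1], by linarith [h.2]⟩),
      hs2 (z - 3) (fun h => hz ⟨by linarith [h.1], by linarith [h.2]⟩),
      hs2 (z - 4) (fun h => hz ⟨by linarith [h.1], by linarith [h.2]⟩),
      hs2 (z - 4 - 3) (fun h => hz ⟨by linarith [h.1], by linarith [h.2]⟩)]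
    simp
  · simp only [hΨ]
    fun_prop
  · intro z hz
    rw [hs (z - 3) (fun h => by linarith [h.1]), hs (z - 4) (fun h => by linarith [h.1]),
      hs (z - 4 - 3) (fun h => by linarith [h.1])]
    simpa using h0 z
  · intro z hz
    rw [hs (z - 3) (fun h => by linarith [h.1, hz.2]), hs (z - 4) (fun h => by linarith [h.1, hz.2]),
      hs (z - 4 - 3) (fun h => by linarith [h.1, hz.2]), hone z ⟨hz.1, by linarith [hz.2]⟩]
    simp

end Pool.Agent.Helper44.Gkdv
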