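import Pool.Agent.Helper44.Gkdv.Fin1

set_option autoImplicit false
set_option maxHeartbeats 4000000

open MeasureTheory Set Filter Topology Real
open scoped ENNReal ContDiff

namespace Pool.Agent.Helper44.Gkdv

variable {Φ Φ' Φ'' Φ''' Ψ : ℝ → ℝ} {κ η m : ℝ}

/-- the test function only sees the derivative ahead -/
theorem Tst.lhs (S : Tst Φ Φ' Φ'' Φ''' Ψ κ η m) {g g' : ℝ → ℝ} (h : IsH1 g g') (x0 : ℝ) {ρ : ℝ}
    (hρ : 0 < ρ) (hκ : 0 < κ) (hκ1 : κ ≤ 1) :
    |∫ x, g x * Φ ((x - x0) / ρ)| ≤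
      8 * (ρ * √ρ) * √(∫ x in Ioi (x0 - κ * ρ), g' x ^ 2) := by
  have cΨ := S.cΨ
  set F := ∫ x in Ioi (x0 - κ * ρ), g' x ^ 2 with hF
  set I : Set ℝ := Ioo (x0 - κ * ρ) (x0 + 3 * ρ) with hI
  have bI : volume I ≠ ⊤ := by rw [hI]; simp
  have supp : ∀ x, x ∉ I → Ψ ((x - x0) / ρ) = 0 := by
    intro x hx
    apply S.Ψs
    rintro ⟨h1, h2⟩
    apply hx
    rw [lt_div_iff₀ hρ] at h1
    rw [div_lt_iff₀ hρ] at h2
    exact ⟨by linarith, by linarith⟩
  have hcs : HasCompactSupport (fun x => Ψ ((x - x0) / ρ)) := by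
    refine HasCompactSupport.of_support_subset_isCompact
      (isCompact_Icc (a := x0 - κ * ρ) (b := x0 + 3 * ρ)) ?_
    intro x hx
    by_contra hn
    exact hx (supp x (fun h => hn ⟨h.1.le, h.2.le⟩))
  have i1 : Integrable (fun x => g x * Ψ ((x - x0) / ρ)) := by
    refine Continuous.integrable_of_hasCompactSupport ?_ hcs.mul_left
    have := h.cont
    fun_prop
  have i2 : Integrable (fun x => g (x + 4 * ρ) * Ψ ((x - x0) / ρ)) := by
    refine Continuous.integrable_of_hasCompactSupport ?_ hcs.mul_left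
    have := h.cont
    fun_prop
  have e2 : ∀ x, g (x + 4 * ρ) * Ψ ((x - x0) / ρ) =
      (fun y => g y * Ψ ((y - x0) / ρ - 4)) (x + 4 * ρ) := by
    intro x
    simp only
    congr 2
    field_simp
    ring
  have i3 : Integrable (fun y => g y * Ψ ((y - x0) / ρ - 4)) := by
    have h3 : Integrable (fun x => (fun y => g y * Ψ ((y - x0) / ρ - 4)) (x + 4 * ρ)) := by
      refine i2.congr (ae_of_all _ fun x => e2 x)
    have h4 := h3.comp_sub_right (4 * ρ)
    refine h4.congr (ae_of_all _ fun x => ?_)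
    simp only [sub_add_cancel]
  have e3 : ∫ x, g (x + 4 * ρ) * Ψ ((x - x0) / ρ) = ∫ y, g y * Ψ ((y - x0) / ρ - 4) := by
    simp_rw [e2]
    exact integral_add_right_eq_self (fun y => g y * Ψ ((y - x0) / ρ - 4)) (4 * ρ)
  have key : ∫ x, g x * Φ ((x - x0) / ρ) =
      ∫ x, (g x - g (x + 4 * ρ)) * Ψ ((x - x0) / ρ) := by
    have e4 : ∀ x, (g x - g (x + 4 * ρ)) * Ψ ((x - x0) / ρ) =
        g x * Ψ ((x - x0) / ρ) - g (x + 4 * ρ) * Ψ ((x - x0) / ρ) := fun x => by ring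
    simp_rw [e4]
    rw [integral_sub i1 i2, e3, ← integral_sub i1 i3]
    refine integral_congr_ae (ae_of_all _ fun x => ?_)
    simp only
    rw [S.dif]
    ring
  have hpt : ∀ x, |(g x - g (x + 4 * ρ)) * Ψ ((x - x0) / ρ)| ≤
      I.indicator (fun _ => √F * (2 * √ρ)) x := by
    intro x
    by_cases hx : x ∈ I
    · rw [indicator_of_mem hx, abs_mul, abs_of_nonneg (S.Ψ0 _)]
      have h1 : |g x - g (x + 4 * ρ)| ≤ √F * (2 * √ρ) := by
        rw [abs_sub_comm, h.ftc]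
        rw [intervalIntegral.integral_of_le (by linarith)]
        have mm : MemLp (fun _ : ℝ => (1 : ℝ)) 2 (volume.restrict (Ioc x (x + 4 * ρ))) :=
          memLp_const 1
        have h2 := cs' (μ := volume.restrict (Ioc x (x + 4 * ρ))) (h.mem'.restrict _) mm
        simp only [mul_one, one_pow] at h2
        refine h2.trans ?_
        have h3 : ∫ y in Ioc x (x + 4 * ρ), g' y ^ 2 ≤ F := by
          refine setIntegral_mono_set h.mem'.integrable_sq.integrableOn
            (ae_of_all _ fun y => sq_nonneg _) (HasSubset.Subset.eventuallyLE ?_)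
          intro y hy
          exact hx.1.trans hy.1
        have h4 : ∫ _ in Ioc x (x + 4 * ρ), (1 : ℝ) = 4 * ρ := by
          rw [setIntegral_const, Real.volume_real_Ioc_of_le (by linarith), smul_eq_mul]
          ring
        rw [h4]
        have h5 : √(4 * ρ) = 2 * √ρ := by
          rw [sqrt_mul (by norm_num)]
          congr 1
          rw [show (4 : ℝ) = 2 ^ 2 by norm_num, sqrt_sq (by norm_num)]
        rw [h5]
        exact mul_le_mul_of_nonneg_right (sqrt_le_sqrt h3) (by positivity)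
      calc |g x - g (x + 4 * ρ)| * Ψ ((x - x0) / ρ) ≤ √F * (2 * √ρ) * 1 :=
            mul_le_mul h1 (S.Ψ1 _) (S.Ψ0 _) (by positivity)
        _ = _ := mul_one _
    · rw [indicator_of_notMem hx, supp x hx]
      simp
  rw [key]
  have i4 : Integrable (fun x => (g x - g (x + 4 * ρ)) * Ψ ((x - x0) / ρ)) := by
    refine (i1.sub i2).congr (ae_of_all _ fun x => ?_)
    simp only [Pi.sub_apply]
    ring
  calc |∫ x, (g x - g (x + 4 * ρ)) * Ψ ((x - x0) / ρ)| ≤
        ∫ x, |(g x - g (x + 4 * ρ)) * Ψ ((x - x0) / ρ)| := abs_integral_le_integral_abs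
    _ ≤ ∫ x, I.indicator (fun _ => √F * (2 * √ρ)) x := by
        refine integral_mono i4.abs ?_ hpt
        exact (integrable_indicator_iff measurableSet_Ioo).2
          (integrableOn_const (hs := bI))
    _ = (3 + κ) * ρ * (√F * (2 * √ρ)) := by
        rw [integral_indicator measurableSet_Ioo, setIntegral_const,
          Real.volume_real_Ioo_of_le (by nlinarith), smul_eq_mul]
        ring
    _ ≤ 4 * ρ * (√F * (2 * √ρ)) := by
        refine mul_le_mul_of_nonneg_right ?_ (by positivity)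
        exact mul_le_mul_of_nonneg_right (by linarith) hρ.le
    _ = _ := by ring

theorem quint_diff {a w : ℝ} (ha : 0 ≤ a) :
    |(a + w) ^ 5 - a ^ 5| ≤ 33 * (a ^ 4 * |w| + |w| ^ 5) := by
  have hw := abs_nonneg w
  have e : (a + w) ^ 5 - a ^ 5 = 5 * (a ^ 4 * w) + 10 * (a ^ 3 * w ^ 2) + 10 * (a ^ 2 * w ^ 3) +
      5 * (a * w ^ 4) + w ^ 5 := by ring
  have mix : ∀ i j : ℕ, i + j = 3 → a ^ (i + 1) * |w| ^ (j + 1) ≤ a ^ 4 * |w| + |w| ^ 5 := by
    intro i j hij
    rcases le_total |w| a with h | h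
    · have : a ^ (i + 1) * |w| ^ (j + 1) ≤ a ^ 4 * |w| := by
        calc a ^ (i + 1) * |w| ^ (j + 1) = a ^ (i + 1) * |w| ^ j * |w| := by ring
          _ ≤ a ^ (i + 1) * a ^ j * |w| := by
              have := pow_le_pow_left₀ hw h j
              gcongr
          _ = a ^ 4 * |w| := by rw [← pow_add]; congr 2; omega
      have : 0 ≤ |w| ^ 5 := by positivity
      linarith
    · have : a ^ (i + 1) * |w| ^ (j + 1) ≤ |w| ^ 5 := by
        calc a ^ (i + 1) * |w| ^ (j + 1) ≤ |w| ^ (i + 1) * |w| ^ (j + 1) := by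
              have := pow_le_pow_left₀ ha h (i + 1)
              gcongr
          _ = |w| ^ 5 := by rw [← pow_add]; congr 1; omega
      have : 0 ≤ a ^ 4 * |w| := by positivity
      linarith
  have m1 := mix 2 1 rfl
  have m2 := mix 1 2 rfl
  have m3 := mix 0 3 rfl
  norm_num at m1 m2 m3
  have n1 : |a ^ 3 * w ^ 2| = a ^ 3 * |w| ^ 2 := by
    rw [abs_mul, abs_pow, abs_pow, abs_of_nonneg ha]
  have n2 : |a ^ 2 * w ^ 3| = a ^ 2 * |w| ^ 3 := by
    rw [abs_mul, abs_pow, abs_pow, abs_of_nonneg ha]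
  have n3 : |a * w ^ 4| = a * |w| ^ 4 := by
    rw [abs_mul, abs_pow, abs_of_nonneg ha]
  have n0 : |a ^ 4 * w| = a ^ 4 * |w| := by
    rw [abs_mul, abs_pow, abs_of_nonneg ha]
  have n4 : |w ^ 5| = |w| ^ 5 := abs_pow _ _
  have s1 := abs_le.1 (le_of_eq n1)
  have s2 := abs_le.1 (le_of_eq n2)
  have s3 := abs_le.1 (le_of_eq n3)
  have s0 := abs_le.1 (le_of_eq n0)
  have s4 := abs_le.1 (le_of_eq n4)
  have p0 : 0 ≤ a ^ 4 * |w| := by positivity
  have p1 : 0 ≤ |w| ^ 5 := by positivity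
  rw [e, abs_le]
  simp only [sq_abs] at *
  constructor
  · linarith [s0.1, s1.1, s2.1, s3.1, s4.1]
  · linarith [s0.2, s1.2, s2.2, s3.2, s4.2]

variable {l : ℝ}

theorem R_eq (s x : ℝ) : R l s x = Q ((x - s) / l) * (√l)⁻¹ := by
  unfold R
  rw [div_eq_mul_inv]

theorem inv_sqrt_sq (hl : 0 < l) : (√l)⁻¹ ^ 2 * l = 1 := by
  have h1 := sqrt_pos.2 hl
  rw [inv_pow, sq_sqrt hl.le]
  field_simp

theorem R_cube_le (hl : 0 < l) (s x : ℝ) : R l s x ^ 3 ≤ 4 * (√l)⁻¹ ^ 3 := by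
  have h1 := sqrt_pos.2 hl
  rw [R_eq, mul_pow]
  refine mul_le_mul_of_nonneg_right ?_ (by positivity)
  have q4 := Q_four_le ((x - s) / l)
  have q0 := Q_pos ((x - s) / l)
  set q := Q ((x - s) / l)
  by_contra hlt
  push Not at hlt
  have h2 : q ≤ 3 / 2 := by
    by_contra h3
    push Not at h3
    have : (3 / 2 : ℝ) ^ 4 < q ^ 4 := pow_lt_pow_left₀ h3 (by norm_num) (by norm_num)
    norm_num at this
    linarith
  have h4 : q ^ 3 ≤ (3 / 2) ^ 3 := pow_le_pow_left₀ q0.le h2 3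
  norm_num at h4
  linarith

theorem int_R_five (hl : 0 < l) (s : ℝ) : ∫ x, R l s x ^ 5 = (√l)⁻¹ ^ 3 * ∫ y, Q y ^ 5 := by
  have e : ∀ x, R l s x ^ 5 = (√l)⁻¹ ^ 5 * Q ((x - s) / l) ^ 5 := fun x => by
    rw [R_eq, mul_pow, mul_comm]
  simp only [e]
  rw [integral_const_mul, int_scale (fun y => Q y ^ 5) hl s]
  have := inv_sqrt_sq hl
  calc (√l)⁻¹ ^ 5 * (l * ∫ y, Q y ^ 5) = (√l)⁻¹ ^ 3 * ((√l)⁻¹ ^ 2 * l) * ∫ y, Q y ^ 5 := by ring
    _ = _ := by rw [this, mul_one]

theorem tail_R5 (hl : 0 < l) (s : ℝ) {d : ℝ} {A : Set ℝ} (hA : MeasurableSet A)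
    (hd : ∀ x ∈ A, d ≤ |x - s|) :
    ∫ x in A, R l s x ^ 5 ≤ 32 * Ce * exp (-(d / l)) * (√l)⁻¹ ^ 3 := by
  have i1 : Integrable (fun x : ℝ => exp (-|(x - s) / l|)) := integrable_scale int_exp1 hl s
  have hs := sqrt_pos.2 hl
  calc ∫ x in A, R l s x ^ 5 ≤
        ∫ x in A, (32 * exp (-(d / l)) * (√l)⁻¹ ^ 5) * exp (-|(x - s) / l|) := by
        refine setIntegral_mono_on ((isH1_R hl s).pow_int (by norm_num)).integrableOn
          (i1.const_mul _).integrableOn hA (fun x hx => ?_)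
        have e1 : Q ((x - s) / l) ^ 5 ≤ 32 * (exp (-(d / l)) * exp (-|(x - s) / l|)) := by
          have q1 := Q_le ((x - s) / l)
          have q2 : Q ((x - s) / l) ^ 5 ≤ (2 * exp (-|(x - s) / l|)) ^ 5 :=
            pow_le_pow_left₀ (Q_pos _).le q1 5
          have q3 : exp (-|(x - s) / l|) ≤ exp (-(d / l)) := by
            rw [exp_le_exp, abs_div, abs_of_pos hl]
            have := div_le_div_of_nonneg_right (hd x hx) hl.le
            linarith
          have q5 : exp (-|(x - s) / l|) ≤ 1 := by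
            rw [exp_le_one_iff]
            linarith [abs_nonneg ((x - s) / l)]
          have q6 : exp (-|(x - s) / l|) ^ 3 ≤ 1 := pow_le_one₀ (exp_pos _).le q5
          calc Q ((x - s) / l) ^ 5 ≤ (2 * exp (-|(x - s) / l|)) ^ 5 := q2
            _ = 32 * (exp (-|(x - s) / l|) * exp (-|(x - s) / l|)) *
                exp (-|(x - s) / l|) ^ 3 := by ring
            _ ≤ 32 * (exp (-(d / l)) * exp (-|(x - s) / l|)) * 1 := by gcongr
            _ = _ := mul_one _
        rw [R_eq, mul_pow]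
        calc Q ((x - s) / l) ^ 5 * (√l)⁻¹ ^ 5 ≤
              32 * (exp (-(d / l)) * exp (-|(x - s) / l|)) * (√l)⁻¹ ^ 5 :=
              mul_le_mul_of_nonneg_right e1 (by positivity)
          _ = _ := by ring
    _ ≤ ∫ x, (32 * exp (-(d / l)) * (√l)⁻¹ ^ 5) * exp (-|(x - s) / l|) :=
        setIntegral_le_integral (i1.const_mul _) (ae_of_all _ fun x => by positivity)
    _ = _ := by
        rw [integral_const_mul, int_scale (fun y => exp (-|y|)) hl s]
        have := inv_sqrt_sq hl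
        change 32 * exp (-(d / l)) * (√l)⁻¹ ^ 5 * (l * Ce) = _
        calc 32 * exp (-(d / l)) * (√l)⁻¹ ^ 5 * (l * Ce) =
              32 * exp (-(d / l)) * (√l)⁻¹ ^ 3 * ((√l)⁻¹ ^ 2 * l) * Ce := by ring
          _ = _ := by rw [this]; ring

/-- the flux seen by the soliton -/
theorem flux_R (hl : 0 < l) (s : ℝ) {ψ : ℝ → ℝ} {d χ : ℝ} (hψ : Continuous ψ)
    (hb : ∀ x, |ψ x| ≤ m) (hχ1 : χ ≤ 1) (hm : 0 ≤ m)
    (h : ∀ x, |x - s| < d → χ ≤ ψ x) :
    (χ * (∫ y, Q y ^ 5) - (1 + m) * (32 * Ce * exp (-(d / l)))) * (√l)⁻¹ ^ 3 ≤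
      ∫ x, R l s x ^ 5 * ψ x := by
  set A : Set ℝ := {x | d ≤ |x - s|} with hA
  have mA : MeasurableSet A := by
    have : IsClosed A := isClosed_le continuous_const (by fun_prop)
    exact this.measurableSet
  have hT := tail_R5 hl s mA (fun x hx => hx)
  have iR := (isH1_R hl s).pow_int (k := 5) (by norm_num)
  have h1 : χ * (∫ x, R l s x ^ 5) - (1 + m) * (∫ x in A, R l s x ^ 5) ≤ ∫ x, R l s x ^ 5 * ψ x := by
    rw [← integral_indicator mA, ← integral_const_mul, ← integral_const_mul,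
      ← integral_sub (iR.const_mul _) ((iR.indicator mA).const_mul _)]
    refine integral_mono ((iR.const_mul _).sub ((iR.indicator mA).const_mul _)) (intw iR hψ hb)
      (fun x => ?_)
    simp only
    have hp := pow_pos (R_pos hl s x) 5
    by_cases hx : x ∈ A
    · rw [indicator_of_mem hx]
      have h2 := (abs_le.1 (hb x)).1
      nlinarith
    · rw [indicator_of_notMem hx]
      have h2 := h x (not_le.1 hx)
      nlinarith
  rw [int_R_five hl s] at h1
  have h2 : (1 + m) * (∫ x in A, R l s x ^ 5) ≤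
      (1 + m) * (32 * Ce * exp (-(d / l)) * (√l)⁻¹ ^ 3) :=
    mul_le_mul_of_nonneg_left hT (by linarith)
  calc _ = χ * ((√l)⁻¹ ^ 3 * ∫ y, Q y ^ 5) -
        (1 + m) * (32 * Ce * exp (-(d / l)) * (√l)⁻¹ ^ 3) := by ring
    _ ≤ _ := by linarith

/-- constant -/
noncomputable def K5 (B nr nd : ℝ) : ℝ :=
  33 * (4 * (1 + √(∫ y, Q y ^ 2)) + 16 * (B ^ 3 * nr) + 16 * (1 + 2 * √(2 + 2 * nd)) ^ 2)

theorem flux5 {u du r dr ψ : ℝ → ℝ} {s ε B C : ℝ} (hu : IsH1 u du) (hr : IsH1 r dr) (hl : 0 < l)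
    (hl1 : l ≤ 1) (hε : 0 < ε) (hε1 : ε ≤ 1) (hle : √l ≤ ε)
    (he : ∫ x, (u x - R l s x - r x) ^ 2 ≤ ε ^ 2)
    (hB : ∀ x, |r x| ≤ B) (hB2 : B * (√l * ∫ y, Q y) ≤ ε)
    (hdw : l ^ 2 * ∫ x, (du x - dR l s x) ^ 2 ≤ ε) (hψ : Continuous ψ) (hC : ∀ x, |ψ x| ≤ C) :
    |(∫ x, u x ^ 5 * ψ x) - ∫ x, R l s x ^ 5 * ψ x| ≤
      C * (K5 B (∫ x, r x ^ 2) (∫ x, dr x ^ 2) * ε * (√l)⁻¹ ^ 3) := by
  have hC0 : 0 ≤ C := (abs_nonneg _).trans (hC 0)
  have hB0 : 0 ≤ B := (abs_nonneg _).trans (hB 0)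
  have hR := isH1_R hl s
  have hw := hu.sub hR
  have hE := hw.sub hr
  have hs := sqrt_pos.2 hl
  have ha : 0 < (√l)⁻¹ := inv_pos.2 hs
  set a := (√l)⁻¹ with had
  have ha2 : a ^ 2 * l = 1 := inv_sqrt_sq hl
  set w : ℝ → ℝ := fun x => u x - R l s x with hwd
  set e : ℝ → ℝ := fun x => w x - r x with hed
  have he' : √(∫ x, e x ^ 2) ≤ ε := by
    rw [← sqrt_sq hε.le]
    exact sqrt_le_sqrt he
  have iu := hu.pow_int (k := 5) (by norm_num)
  have iR := hR.pow_int (k := 5) (by norm_num)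
  have iw5 := (hw.pow_int (k := 5) (by norm_num)).abs
  have ir5 := (hr.pow_int (k := 5) (by norm_num)).abs
  have ie5 := (hE.pow_int (k := 5) (by norm_num)).abs
  have iRw : Integrable (fun x => |R l s x * w x|) := (mul_int hR.mem hw.mem).abs
  have bRb : ∀ x, |R l s x ^ 3| ≤ 4 * a ^ 3 := fun x => by
    rw [abs_of_pos (pow_pos (R_pos hl s x) 3)]
    exact R_cube_le hl s x
  have iR4w : Integrable (fun x => R l s x ^ 4 * |w x|) := by
    refine (intw iRw ((cont_R s).pow 3) bRb).congr (ae_of_all _ fun x => ?_)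
    simp only [Pi.pow_apply]
    rw [abs_mul, abs_of_pos (R_pos hl s x)]
    ring
  -- the two pieces
  have g1 : ∫ x, R l s x ^ 4 * |w x| ≤ 4 * a ^ 3 * ((1 + √(∫ y, Q y ^ 2)) * ε) := by
    have h1 : ∫ x, R l s x ^ 4 * |w x| ≤ 4 * a ^ 3 * ∫ x, |R l s x * w x| := by
      rw [← integral_const_mul]
      refine integral_mono iR4w (iRw.const_mul _) (fun x => ?_)
      simp only
      rw [abs_mul, abs_of_pos (R_pos hl s x)]
      calc R l s x ^ 4 * |w x| = R l s x ^ 3 * (R l s x * |w x|) := by ring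
        _ ≤ _ := mul_le_mul_of_nonneg_right (R_cube_le hl s x)
            (mul_nonneg (R_pos hl s x).le (abs_nonneg _))
    have h2 : ∫ x, |R l s x * w x| ≤ (∫ x, |R l s x * r x|) + ∫ x, |R l s x * e x| := by
      have i1 := (mul_int hR.mem hr.mem).abs
      have i2 := (mul_int hR.mem hE.mem).abs
      rw [← integral_add i1 i2]
      refine integral_mono iRw (i1.add i2) (fun x => ?_)
      simp only
      have : R l s x * w x = R l s x * r x + R l s x * e x := by simp only [hed]; ring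
      rw [this]
      exact abs_add_le _ _
    have h3 := int_R_mul_le hl s hr hB
    have h4 := cs hR.mem hE.mem
    rw [int_R_sq hl s] at h4
    have h5 : √(∫ y, Q y ^ 2) * √(∫ x, e x ^ 2) ≤ √(∫ y, Q y ^ 2) * ε :=
      mul_le_mul_of_nonneg_left he' (sqrt_nonneg _)
    refine h1.trans (mul_le_mul_of_nonneg_left ?_ (by positivity))
    linarith
  set K := 2 + 2 * ∫ x, dr x ^ 2 with hK
  have hdr0 : 0 ≤ ∫ x, dr x ^ 2 := integral_nonneg fun x => sq_nonneg _
  have hK0 : 0 < K := by linarith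
  set L := 1 + 2 * √K with hL
  have hL1 : 1 ≤ L := by have := sqrt_nonneg K; linarith
  have hLs : √L ≤ L := by
    rw [sqrt_le_left (by linarith)]
    nlinarith
  have g2 : ∀ x, |e x| ^ 3 ≤ L ^ 2 * a ^ 3 := by
    intro x
    have h1 := hE.sq_le_glob x
    have h2 : ∫ x, (du x - dR l s x - dr x) ^ 2 ≤ K * a ^ 4 := by
      have h3 : ∫ x, (du x - dR l s x - dr x) ^ 2 ≤
          2 * (∫ x, (du x - dR l s x) ^ 2) + 2 * ∫ x, dr x ^ 2 := by
        have i1 := hw.mem'.integrable_sq.const_mul 2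
        have i2 := hr.mem'.integrable_sq.const_mul 2
        rw [← integral_const_mul, ← integral_const_mul, ← integral_add i1 i2]
        refine integral_mono hE.mem'.integrable_sq (i1.add i2) (fun x => ?_)
        simp only
        nlinarith [sq_nonneg (du x - dR l s x + dr x)]
      have h4 : l ^ 2 * ∫ x, (du x - dR l s x - dr x) ^ 2 ≤ K := by
        have h5 := mul_le_mul_of_nonneg_left h3 (sq_nonneg l)
        have h6 : l ^ 2 * ∫ x, dr x ^ 2 ≤ 1 * ∫ x, dr x ^ 2 :=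
          mul_le_mul_of_nonneg_right (pow_le_one₀ hl.le hl1) hdr0
        linarith
      calc ∫ x, (du x - dR l s x - dr x) ^ 2 =
            (a ^ 2 * l) ^ 2 * ∫ x, (du x - dR l s x - dr x) ^ 2 := by rw [ha2]; ring
        _ = a ^ 4 * (l ^ 2 * ∫ x, (du x - dR l s x - dr x) ^ 2) := by ring
        _ ≤ a ^ 4 * K := mul_le_mul_of_nonneg_left h4 (by positivity)
        _ = _ := mul_comm _ _
    have h3 : √(∫ x, (du x - dR l s x - dr x) ^ 2) ≤ √K * a ^ 2 := by
      have : √(K * a ^ 4) = √K * a ^ 2 := by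
        rw [sqrt_mul hK0.le]
        congr 1
        rw [show a ^ 4 = (a ^ 2) ^ 2 by ring, sqrt_sq (by positivity)]
      rw [← this]
      exact sqrt_le_sqrt h2
    have h4 : e x ^ 2 ≤ L * a ^ 2 := by
      have h5 : √(∫ y, e y ^ 2) * √(∫ x, (du x - dR l s x - dr x) ^ 2) ≤ 1 * (√K * a ^ 2) :=
        mul_le_mul (he'.trans hε1) h3 (sqrt_nonneg _) zero_le_one
      have h6 : e x ^ 2 ≤ 2 * (√(∫ y, e y ^ 2) * √(∫ x, (du x - dR l s x - dr x) ^ 2)) := h1
      have h7 : 0 ≤ a ^ 2 := by positivity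
      have h8 : L * a ^ 2 = a ^ 2 + 2 * (√K * a ^ 2) := by rw [hL]; ring
      rw [h8]
      linarith
    have h5 : |e x| ≤ √L * a := by
      rw [← sqrt_sq_eq_abs]
      have : √(L * a ^ 2) = √L * a := by
        rw [sqrt_mul (by linarith), sqrt_sq ha.le]
      rw [← this]
      exact sqrt_le_sqrt h4
    calc |e x| ^ 3 ≤ (√L * a) ^ 3 := pow_le_pow_left₀ (abs_nonneg _) h5 3
      _ = √L ^ 2 * √L * a ^ 3 := by ring
      _ = L * √L * a ^ 3 := by rw [sq_sqrt (by linarith)]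
      _ ≤ L * L * a ^ 3 := by
          have := ha.le
          gcongr
      _ = _ := by ring
  have g3 : ∫ x, |e x ^ 5| ≤ L ^ 2 * a ^ 3 * ε ^ 2 := by
    calc ∫ x, |e x ^ 5| ≤ ∫ x, L ^ 2 * a ^ 3 * e x ^ 2 := by
          refine integral_mono ie5 (hE.mem.integrable_sq.const_mul _) (fun x => ?_)
          simp only
          rw [abs_pow]
          calc |e x| ^ 5 = |e x| ^ 3 * |e x| ^ 2 := by ring
            _ ≤ L ^ 2 * a ^ 3 * |e x| ^ 2 := mul_le_mul_of_nonneg_right (g2 x) (by positivity)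
            _ = _ := by rw [sq_abs]
      _ = L ^ 2 * a ^ 3 * ∫ x, e x ^ 2 := integral_const_mul _ _
      _ ≤ _ := mul_le_mul_of_nonneg_left he (by positivity)
  have hr0 : 0 ≤ ∫ x, r x ^ 2 := integral_nonneg fun x => sq_nonneg _
  have g4 : ∫ x, |r x ^ 5| ≤ B ^ 3 * ∫ x, r x ^ 2 := by
    rw [← integral_const_mul]
    refine integral_mono ir5 (hr.mem.integrable_sq.const_mul _) (fun x => ?_)
    simp only
    rw [abs_pow]
    calc |r x| ^ 5 = |r x| ^ 3 * |r x| ^ 2 := by ring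
      _ ≤ B ^ 3 * |r x| ^ 2 :=
          mul_le_mul_of_nonneg_right (pow_le_pow_left₀ (abs_nonneg _) (hB x) 3) (by positivity)
      _ = _ := by rw [sq_abs]
  have g5 : ∫ x, |w x ^ 5| ≤ 16 * (∫ x, |r x ^ 5|) + 16 * ∫ x, |e x ^ 5| := by
    rw [← integral_const_mul, ← integral_const_mul,
      ← integral_add (ir5.const_mul _) (ie5.const_mul _)]
    refine integral_mono iw5 ((ir5.const_mul _).add (ie5.const_mul _)) (fun x => ?_)
    simp only
    have h1 := add_pow_le (abs_nonneg (r x)) (abs_nonneg (e x)) 5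
    have h2 : |w x| ≤ |r x| + |e x| := by
      have : w x = r x + e x := by simp only [hed]; ring
      rw [this]
      exact abs_add_le _ _
    have h3 : |w x| ^ 5 ≤ (|r x| + |e x|) ^ 5 := pow_le_pow_left₀ (abs_nonneg _) h2 5
    rw [abs_pow, abs_pow, abs_pow]
    norm_num at h1
    linarith
  have g6 : (1 : ℝ) ≤ ε * a ^ 3 := by
    have h1 : l * √l ≤ ε := by
      calc l * √l ≤ 1 * √l := mul_le_mul_of_nonneg_right hl1 hs.le
        _ ≤ ε := by rw [one_mul]; exact hle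
    have h2 : l * √l * a ^ 3 = 1 := by
      have h3 : √l * a = 1 := mul_inv_cancel₀ hs.ne'
      calc l * √l * a ^ 3 = (a ^ 2 * l) * (√l * a) := by ring
        _ = 1 := by rw [ha2, h3, one_mul]
    rw [← h2]
    exact mul_le_mul_of_nonneg_right h1 (by positivity)
  have hdiff : |(∫ x, u x ^ 5 * ψ x) - ∫ x, R l s x ^ 5 * ψ x| ≤
      C * (33 * ((∫ x, R l s x ^ 4 * |w x|) + ∫ x, |w x ^ 5|)) := by
    have e1 : (∫ x, u x ^ 5 * ψ x) - ∫ x, R l s x ^ 5 * ψ x =
        ∫ x, (u x ^ 5 - R l s x ^ 5) * ψ x := by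
      rw [← integral_sub (intw iu hψ hC) (intw iR hψ hC)]
      exact integral_congr_ae (ae_of_all _ fun x => by simp only; ring)
    rw [e1]
    refine (abs_intw_le (iu.sub iR) hC).trans (mul_le_mul_of_nonneg_left ?_ hC0)
    rw [← integral_add iR4w iw5, ← integral_const_mul]
    refine integral_mono (iu.sub iR).abs ((iR4w.add iw5).const_mul _) (fun x => ?_)
    simp only [Pi.sub_apply]
    have h1 := quint_diff (w := w x) (R_pos hl s x).le
    have h2 : R l s x + w x = u x := by simp only [hwd]; ring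
    rw [h2, ← abs_pow] at h1
    exact h1
  refine hdiff.trans (mul_le_mul_of_nonneg_left ?_ hC0)
  have f1 : B ^ 3 * (∫ x, r x ^ 2) ≤ B ^ 3 * (∫ x, r x ^ 2) * (ε * a ^ 3) :=
    le_mul_of_one_le_right (by positivity) g6
  have f2 : L ^ 2 * a ^ 3 * ε ^ 2 ≤ L ^ 2 * a ^ 3 * ε := by
    refine mul_le_mul_of_nonneg_left ?_ (by positivity)
    nlinarith
  have fin : K5 B (∫ x, r x ^ 2) (∫ x, dr x ^ 2) * ε * a ^ 3 =
      33 * (4 * a ^ 3 * ((1 + √(∫ y, Q y ^ 2)) * ε) + (16 * (B ^ 3 * (∫ x, r x ^ 2) * (ε * a ^ 3)) +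
        16 * (L ^ 2 * a ^ 3 * ε))) := by
    unfold K5
    rw [hL, hK]
    ring
  rw [fin]
  linarith

end Pool.Agent.Helper44.Gkdv
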