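import Pool.Agent.Helper44.Gkdv.Fin2

set_option autoImplicit false
set_option maxHeartbeats 4000000

open MeasureTheory Set Filter Topology Real
open scoped ENNReal ContDiff

namespace Pool.Agent.Helper44.Gkdv

theorem a3_bounds {X ν l cl Cl : ℝ} (hX : 0 < X) (hl : 0 < l) (hcl : 0 < cl) (hCl : 0 < Cl)
    (h1 : cl * X ^ ν ≤ l) (h2 : l ≤ Cl * X ^ ν) :
    (√Cl)⁻¹ ^ 3 * X ^ (-(2 * (3 * ν / 4))) ≤ (√l)⁻¹ ^ 3 ∧
    (√l)⁻¹ ^ 3 ≤ (√cl)⁻¹ ^ 3 * X ^ (-(2 * (3 * ν / 4))) := by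
  have hXν : 0 < X ^ ν := rpow_pos_of_pos hX _
  have e : X ^ (-(2 * (3 * ν / 4))) = (√(X ^ ν))⁻¹ ^ 3 := by
    rw [sqrt_eq_rpow, ← rpow_mul hX.le, ← rpow_neg hX.le, ← rpow_natCast, ← rpow_mul hX.le]
    congr 1
    push_cast
    ring
  have hs := sqrt_pos.2 hl
  have h3 : √l ≤ √Cl * √(X ^ ν) := by
    rw [← sqrt_mul hCl.le]
    exact sqrt_le_sqrt h2
  have h4 : √cl * √(X ^ ν) ≤ √l := by
    rw [← sqrt_mul hcl.le]
    exact sqrt_le_sqrt h1
  rw [e]
  have hc := sqrt_pos.2 hcl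
  have hC := sqrt_pos.2 hCl
  have hx := sqrt_pos.2 hXν
  constructor
  · rw [← mul_pow, ← mul_inv]
    exact pow_le_pow_left₀ (by positivity) (inv_anti₀ hs h3) 3
  · rw [← mul_pow, ← mul_inv]
    exact pow_le_pow_left₀ (by positivity) (inv_anti₀ (by positivity) h4) 3

theorem time_lower {f : ℝ → ℝ} {T t T' ta tb G E p H : ℝ} (hp : p < 1 / 2) (hG : 0 ≤ G)
    (hE : 0 ≤ E) (hf : ContinuousOn f (Icc t T')) (h1 : t ≤ ta) (h2 : ta ≤ tb) (h3 : tb ≤ T')
    (h4 : T' < T) (hlow : ∀ s ∈ Icc t T', -(G * (T - s) ^ (-(2 * p))) - E ≤ f s)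
    (hgood : ∀ s ∈ Icc ta tb, H - G * (T - s) ^ (-(2 * p)) - E ≤ f s) :
    (tb - ta) * H - G * ((T - t) ^ (1 - 2 * p) / (1 - 2 * p)) - E * (T - t) ≤
      ∫ s in t..T', f s := by
  have htT' : t ≤ T' := h1.trans (h2.trans h3)
  obtain ⟨ti, te⟩ := time_integral (ν := p) hp htT' h4
  have fi : IntervalIntegrable f volume t T' := by
    refine ContinuousOn.intervalIntegrable ?_
    rw [uIcc_of_le htT']; exact hf
  have hint : IntervalIntegrable (fun s => f s + G * (T - s) ^ (-(2 * p)) + E) volume t T' :=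
    (fi.add (ti.const_mul G)).add (by simp)
  have e1 : ∫ s in t..T', (f s + G * (T - s) ^ (-(2 * p)) + E) =
      (∫ s in t..T', f s) + G * (((T - t) ^ (1 - 2 * p) - (T - T') ^ (1 - 2 * p)) / (1 - 2 * p)) +
        E * (T' - t) := by
    rw [intervalIntegral.integral_add (fi.add (ti.const_mul G)) (by simp),
      intervalIntegral.integral_add fi (ti.const_mul G), intervalIntegral.integral_const_mul, te,
      intervalIntegral.integral_const, smul_eq_mul, mul_comm (T' - t) E]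
  have e2 : ∫ s in ta..tb, (f s + G * (T - s) ^ (-(2 * p)) + E) ≤
      ∫ s in t..T', (f s + G * (T - s) ^ (-(2 * p)) + E) := by
    refine intervalIntegral.integral_mono_interval h1 h2 h3 ?_ hint
    refine (ae_restrict_iff' measurableSet_Ioc).2 (ae_of_all _ fun s hs => ?_)
    have := hlow s ⟨hs.1.le, hs.2⟩
    simp only [Pi.zero_apply]
    linarith
  have hint' : IntervalIntegrable (fun s => f s + G * (T - s) ^ (-(2 * p)) + E) volume ta tb := by
    refine hint.mono_set ?_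
    rw [uIcc_of_le htT', uIcc_of_le h2]
    exact Icc_subset_Icc h1 h3
  have e3 : (tb - ta) * H ≤ ∫ s in ta..tb, (f s + G * (T - s) ^ (-(2 * p)) + E) := by
    calc (tb - ta) * H = ∫ s in ta..tb, H := by simp
      _ ≤ _ := by
        refine intervalIntegral.integral_mono_on h2 (by simp) hint' (fun s hs => ?_)
        have := hgood s hs
        linarith
  have e4 : 0 ≤ (T - T') ^ (1 - 2 * p) := rpow_nonneg (sub_pos.2 h4).le _
  have e5 : G * (((T - t) ^ (1 - 2 * p) - (T - T') ^ (1 - 2 * p)) / (1 - 2 * p)) ≤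
      G * ((T - t) ^ (1 - 2 * p) / (1 - 2 * p)) := by
    refine mul_le_mul_of_nonneg_left ?_ hG
    exact div_le_div_of_nonneg_right (by linarith) (by linarith)
  have e6 : E * (T' - t) ≤ E * (T - t) := mul_le_mul_of_nonneg_left (by linarith) hE
  linarith

/-- the third derivative term -/
theorem Tst.third {Φ Φ' Φ'' Φ''' Ψ : ℝ → ℝ} {κ η m : ℝ} (S : Tst Φ Φ' Φ'' Φ''' Ψ κ η m)
    {g g' : ℝ → ℝ} (h : IsH1 g g') (x0 : ℝ) {ρ M : ℝ} (hρ : 0 < ρ) (hM : ∫ x, g x ^ 2 ≤ M) :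
    |∫ x, g x * (ρ⁻¹ ^ 3 * Φ''' ((x - x0) / ρ))| ≤ √M * (ρ⁻¹ ^ 3 * (3 * m * √ρ)) := by
  have hm0 : 0 ≤ m := by linarith [S.hm]
  have c3 := S.cut.c3
  have supp : ∀ x, x ∉ Icc (x0 - ρ) (x0 + 7 * ρ) → Φ''' ((x - x0) / ρ) = 0 := by
    intro x hx
    apply S.s3
    rintro ⟨h1, h2⟩
    apply hx
    rw [le_div_iff₀ hρ] at h1
    rw [div_le_iff₀ hρ] at h2
    exact ⟨by linarith, by linarith⟩
  have cc : Continuous (fun x => ρ⁻¹ ^ 3 * Φ''' ((x - x0) / ρ)) := by fun_prop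
  have hcs : HasCompactSupport (fun x => ρ⁻¹ ^ 3 * Φ''' ((x - x0) / ρ)) := by
    refine HasCompactSupport.of_support_subset_isCompact
      (isCompact_Icc (a := x0 - ρ) (b := x0 + 7 * ρ)) ?_
    intro x hx
    by_contra hn
    apply hx
    simp only [supp x hn, mul_zero]
  have mem : MemLp (fun x => ρ⁻¹ ^ 3 * Φ''' ((x - x0) / ρ)) 2 volume :=
    cc.memLp_of_hasCompactSupport hcs
  refine (cs' h.mem mem).trans ?_
  refine mul_le_mul (sqrt_le_sqrt hM) ?_ (sqrt_nonneg _) (sqrt_nonneg _)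
  have h1 : ∫ x, (ρ⁻¹ ^ 3 * Φ''' ((x - x0) / ρ)) ^ 2 ≤ (ρ⁻¹ ^ 3 * (3 * m * √ρ)) ^ 2 := by
    have bI : volume (Icc (x0 - ρ) (x0 + 7 * ρ)) ≠ ⊤ := by simp
    calc ∫ x, (ρ⁻¹ ^ 3 * Φ''' ((x - x0) / ρ)) ^ 2 ≤
          ∫ x, (Icc (x0 - ρ) (x0 + 7 * ρ)).indicator (fun _ => (ρ⁻¹ ^ 3 * m) ^ 2) x := by
          refine integral_mono mem.integrable_sq ?_ (fun x => ?_)
          · exact (integrable_indicator_iff measurableSet_Icc).2
              (integrableOn_const (hs := bI))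
          · simp only
            by_cases hx : x ∈ Icc (x0 - ρ) (x0 + 7 * ρ)
            · rw [indicator_of_mem hx, ← sq_abs]
              refine pow_le_pow_left₀ (abs_nonneg _) ?_ 2
              rw [abs_mul, abs_of_nonneg (by positivity)]
              exact mul_le_mul_of_nonneg_left (S.cut.b3 _) (by positivity)
            · rw [indicator_of_notMem hx, supp x hx]
              simp
      _ = 8 * ρ * (ρ⁻¹ ^ 3 * m) ^ 2 := by
          rw [integral_indicator measurableSet_Icc, setIntegral_const,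
            Real.volume_real_Icc_of_le (by linarith), smul_eq_mul]
          ring
      _ ≤ 9 * ρ * (ρ⁻¹ ^ 3 * m) ^ 2 := by
          refine mul_le_mul_of_nonneg_right ?_ (sq_nonneg _)
          linarith
      _ = _ := by
          have := sq_sqrt hρ.le
          calc 9 * ρ * (ρ⁻¹ ^ 3 * m) ^ 2 = 9 * (√ρ ^ 2) * (ρ⁻¹ ^ 3 * m) ^ 2 := by rw [this]
            _ = _ := by ring
  calc √(∫ x, (ρ⁻¹ ^ 3 * Φ''' ((x - x0) / ρ)) ^ 2) ≤ √((ρ⁻¹ ^ 3 * (3 * m * √ρ)) ^ 2) :=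
        sqrt_le_sqrt h1
    _ = _ := sqrt_sq (by positivity)

namespace Setup

variable {T ν x0 : ℝ} {u du : ℝ → ℝ → ℝ} {lam sig : ℝ → ℝ} {r dr : ℝ → ℝ}

theorem lim_test (S : Setup T ν x0 u du lam sig r dr) {φ : ℝ → ℝ} {C : ℝ} (hφ : Continuous φ)
    (hb : ∀ x, |φ x| ≤ C) (hm : MemLp φ 2 volume) :
    Tendsto (fun t => ∫ x, u t x * φ x) (𝓝[<] T) (𝓝 (∫ x, r x * φ x)) := by
  rw [tendsto_iff_dist_tendsto_zero]
  have hlim : Tendsto (fun t => C * (√(lam t) * ∫ y, Q y) +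
      √(∫ x, (u t x - R (lam t) (sig t) x - r x) ^ 2) * √(∫ x, φ x ^ 2)) (𝓝[<] T) (𝓝 0) := by
    have h2 : Tendsto (fun t => √(lam t)) (𝓝[<] T) (𝓝 (√0)) :=
      (continuous_sqrt.tendsto 0).comp S.l0
    have h3 : Tendsto (fun t => √(∫ x, (u t x - R (lam t) (sig t) x - r x) ^ 2)) (𝓝[<] T)
        (𝓝 (√0)) := (continuous_sqrt.tendsto 0).comp S.conv
    have h4 := ((h2.mul_const (∫ y, Q y)).const_mul C).add (h3.mul_const (√(∫ x, φ x ^ 2)))
    simpa using h4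
  refine squeeze_zero' (Eventually.of_forall fun t => dist_nonneg) ?_ hlim
  filter_upwards [ev_Ico S.hT] with t ht
  have hu := S.sol.h1 t ht
  have hl := S.lpos t
  have hR := isH1_R hl (sig t)
  have hE := (hu.sub hR).sub S.hr
  have i0 := mul_int hu.mem hm
  have i1 := intw (integrable_R hl (sig t)) hφ hb
  have i2 := mul_int hE.mem hm
  have i3 := mul_int S.hr.mem hm
  have e1 : (∫ x, u t x * φ x) - ∫ x, r x * φ x = (∫ x, R (lam t) (sig t) x * φ x) +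
      ∫ x, (u t x - R (lam t) (sig t) x - r x) * φ x := by
    rw [← integral_sub i0 i3, ← integral_add i1 i2]
    exact integral_congr_ae (ae_of_all _ fun x => by simp only; ring)
  rw [Real.dist_eq, e1]
  refine (abs_add_le _ _).trans (add_le_add ?_ (cs' hE.mem hm))
  refine (abs_intw_le (integrable_R hl (sig t)) hb).trans (le_of_eq ?_)
  have : ∫ x, |R (lam t) (sig t) x| = ∫ x, R (lam t) (sig t) x :=
    integral_congr_ae (ae_of_all _ fun x => abs_of_pos (R_pos hl _ x))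
  rw [this, int_R hl]

end Setup

end Pool.Agent.Helper44.Gkdv
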