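import Pool.Agent.Helper44.Gkdv.Fin3

set_option autoImplicit false
set_option maxHeartbeats 4000000

open MeasureTheory Set Filter Topology Real
open scoped ENNReal ContDiff

namespace Pool.Agent.Helper44.Gkdv

/-- the integrand in the weak form -/
noncomputable def fl (Φ' Φ''' : ℝ → ℝ) (x0 ρ : ℝ) (g : ℝ → ℝ) : ℝ :=
  (∫ x, g x ^ 5 * (ρ⁻¹ * Φ' ((x - x0) / ρ))) + ∫ x, g x * (ρ⁻¹ ^ 3 * Φ''' ((x - x0) / ρ))

/-- lower bound of the flux at a time close to `T` -/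
theorem fl_low {Φ Φ' Φ'' Φ''' Ψ : ℝ → ℝ} {κ η m : ℝ} (S : Tst Φ Φ' Φ'' Φ''' Ψ κ η m)
    {u du r dr : ℝ → ℝ} {l s ε B M x0 ρ d χ om : ℝ} (hu : IsH1 u du) (hr : IsH1 r dr) (hl : 0 < l)
    (hl1 : l ≤ 1) (hε : 0 < ε) (hε1 : ε ≤ 1) (hle : √l ≤ ε)
    (he : ∫ x, (u x - R l s x - r x) ^ 2 ≤ ε ^ 2)
    (hB : ∀ x, |r x| ≤ B) (hB2 : B * (√l * ∫ y, Q y) ≤ ε)
    (hdw : l ^ 2 * ∫ x, (du x - dR l s x) ^ 2 ≤ ε) (hM : ∫ x, u x ^ 2 ≤ M) (hρ : 0 < ρ)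
    (hχ1 : χ ≤ 1) (hχ : ∀ x, |x - s| < d → χ ≤ Φ' ((x - x0) / ρ))
    (hom : (1 + m) * (32 * Ce * exp (-(d / l))) + m * (K5 B (∫ x, r x ^ 2) (∫ x, dr x ^ 2) * ε) ≤ om) :
    ρ⁻¹ * ((χ * (∫ y, Q y ^ 5) - om) * (√l)⁻¹ ^ 3) - √M * (ρ⁻¹ ^ 3 * (3 * m * √ρ)) ≤
      fl Φ' Φ''' x0 ρ u := by
  have hm0 : 0 ≤ m := by linarith [S.hm]
  have c1 := S.cut.c1
  have cψ : Continuous (fun x => Φ' ((x - x0) / ρ)) := by fun_prop
  have bψ : ∀ x, |Φ' ((x - x0) / ρ)| ≤ m := fun x => S.cut.b1 _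
  have h1 := flux_R (m := m) hl s cψ bψ hχ1 hm0 hχ
  have h2 := flux5 hu hr hl hl1 hε hε1 hle he hB hB2 hdw cψ bψ
  have h3 := S.third hu x0 hρ hM
  have e1 : ∫ x, u x ^ 5 * (ρ⁻¹ * Φ' ((x - x0) / ρ)) = ρ⁻¹ * ∫ x, u x ^ 5 * Φ' ((x - x0) / ρ) := by
    rw [← integral_const_mul]
    exact integral_congr_ae (ae_of_all _ fun x => by simp only; ring)
  unfold fl
  rw [e1]
  have hs := sqrt_pos.2 hl
  have ha : 0 < (√l)⁻¹ ^ 3 := by positivity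
  have h4 := (abs_le.1 h2).1
  have h5 := (abs_le.1 h3).1
  have h6 : (χ * (∫ y, Q y ^ 5) - om) * (√l)⁻¹ ^ 3 ≤ ∫ x, u x ^ 5 * Φ' ((x - x0) / ρ) := by
    have h7 := mul_le_mul_of_nonneg_right hom ha.le
    have h8 : (χ * (∫ y, Q y ^ 5) - (1 + m) * (32 * Ce * exp (-(d / l)))) * (√l)⁻¹ ^ 3 =
      χ * (∫ y, Q y ^ 5) * (√l)⁻¹ ^ 3 - (1 + m) * (32 * Ce * exp (-(d / l))) * (√l)⁻¹ ^ 3 := by ring
    have h9 : (χ * (∫ y, Q y ^ 5) - om) * (√l)⁻¹ ^ 3 =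
      χ * (∫ y, Q y ^ 5) * (√l)⁻¹ ^ 3 - om * (√l)⁻¹ ^ 3 := by ring
    have h10 : ((1 + m) * (32 * Ce * exp (-(d / l))) +
        m * (K5 B (∫ x, r x ^ 2) (∫ x, dr x ^ 2) * ε)) * (√l)⁻¹ ^ 3 =
      (1 + m) * (32 * Ce * exp (-(d / l))) * (√l)⁻¹ ^ 3 +
        m * (K5 B (∫ x, r x ^ 2) (∫ x, dr x ^ 2) * ε * (√l)⁻¹ ^ 3) := by ring
    rw [h8] at h1
    rw [h9]
    rw [h10] at h7
    linarith
  have h11 := mul_le_mul_of_nonneg_left h6 (inv_pos.2 hρ).le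
  linarith

/-- the final comparison of powers -/
theorem final_powers {δ ν A Q5 W E0 CK q1 s0 : ℝ} (hδ : 0 < δ) (hs0 : s0 = (3 - 7 * ν) / 2)
    (h : q1 * δ * ((δ ^ (1 - 2 * ν))⁻¹ * (A * Q5 * δ ^ (-(2 * (3 * ν / 4))))) -
      (δ ^ (1 - 2 * ν))⁻¹ * W * (δ ^ (1 - 2 * (3 * ν / 4)) / (1 - 2 * (3 * ν / 4))) -
      E0 * ((δ ^ (1 - 2 * ν))⁻¹ ^ 3 * √(δ ^ (1 - 2 * ν))) * δ ≤
      8 * (δ ^ (1 - 2 * ν) * √(δ ^ (1 - 2 * ν))) * (CK * δ ^ (-(s0 / 2)))) :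
    q1 * (A * Q5) - W / (1 - 2 * (3 * ν / 4)) - E0 * δ ^ ((9 * ν - 3) / 2) ≤
      8 * CK * δ ^ ((3 - 7 * ν) / 4) := by
  have P : ∀ a : ℝ, 0 < δ ^ a := fun a => rpow_pos_of_pos hδ a
  have hsq : √(δ ^ (1 - 2 * ν)) = δ ^ ((1 - 2 * ν) / 2) := by
    rw [sqrt_eq_rpow, ← rpow_mul hδ.le]
    congr 1
    ring
  have hinv : (δ ^ (1 - 2 * ν))⁻¹ = δ ^ (-(1 - 2 * ν)) := (rpow_neg hδ.le _).symm
  have hinv3 : (δ ^ (1 - 2 * ν))⁻¹ ^ 3 = δ ^ (-3 * (1 - 2 * ν)) := by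
    rw [hinv, ← rpow_natCast, ← rpow_mul hδ.le]
    congr 1
    push_cast
    ring
  -- multiply by δ ^ b
  have hb := mul_le_mul_of_nonneg_right h (P ((1 - 2 * ν) - 1 + 3 * ν / 2)).le
  rw [hsq, hinv3, hinv] at hb
  have e1 : q1 * δ * (δ ^ (-(1 - 2 * ν)) * (A * Q5 * δ ^ (-(2 * (3 * ν / 4))))) *
      δ ^ ((1 - 2 * ν) - 1 + 3 * ν / 2) = q1 * (A * Q5) := by
    have : δ ^ (1 : ℝ) * δ ^ (-(1 - 2 * ν)) * δ ^ (-(2 * (3 * ν / 4))) *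
        δ ^ ((1 - 2 * ν) - 1 + 3 * ν / 2) = 1 := by
      rw [← rpow_add hδ, ← rpow_add hδ, ← rpow_add hδ]
      have : (1 : ℝ) + -(1 - 2 * ν) + -(2 * (3 * ν / 4)) + ((1 - 2 * ν) - 1 + 3 * ν / 2) = 0 := by
        ring
      rw [this, rpow_zero]
    rw [rpow_one] at this
    calc _ = q1 * (A * Q5) * (δ * δ ^ (-(1 - 2 * ν)) * δ ^ (-(2 * (3 * ν / 4))) *
        δ ^ ((1 - 2 * ν) - 1 + 3 * ν / 2)) := by ring
      _ = _ := by rw [this, mul_one]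
  have e2 : δ ^ (-(1 - 2 * ν)) * W * (δ ^ (1 - 2 * (3 * ν / 4)) / (1 - 2 * (3 * ν / 4))) *
      δ ^ ((1 - 2 * ν) - 1 + 3 * ν / 2) = W / (1 - 2 * (3 * ν / 4)) := by
    have : δ ^ (-(1 - 2 * ν)) * δ ^ (1 - 2 * (3 * ν / 4)) *
        δ ^ ((1 - 2 * ν) - 1 + 3 * ν / 2) = 1 := by
      rw [← rpow_add hδ, ← rpow_add hδ]
      have : -(1 - 2 * ν) + (1 - 2 * (3 * ν / 4)) + ((1 - 2 * ν) - 1 + 3 * ν / 2) = 0 := by
        ring
      rw [this, rpow_zero]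
    calc _ = W / (1 - 2 * (3 * ν / 4)) * (δ ^ (-(1 - 2 * ν)) * δ ^ (1 - 2 * (3 * ν / 4)) *
        δ ^ ((1 - 2 * ν) - 1 + 3 * ν / 2)) := by ring
      _ = _ := by rw [this, mul_one]
  have e3 : E0 * (δ ^ (-3 * (1 - 2 * ν)) * δ ^ ((1 - 2 * ν) / 2)) * δ *
      δ ^ ((1 - 2 * ν) - 1 + 3 * ν / 2) = E0 * δ ^ ((9 * ν - 3) / 2) := by
    have : δ ^ (-3 * (1 - 2 * ν)) * δ ^ ((1 - 2 * ν) / 2) * δ ^ (1 : ℝ) *
        δ ^ ((1 - 2 * ν) - 1 + 3 * ν / 2) = δ ^ ((9 * ν - 3) / 2) := by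
      rw [← rpow_add hδ, ← rpow_add hδ, ← rpow_add hδ]
      congr 1
      ring
    rw [rpow_one] at this
    rw [← this]
    ring
  have e4 : 8 * (δ ^ (1 - 2 * ν) * δ ^ ((1 - 2 * ν) / 2)) * (CK * δ ^ (-(s0 / 2))) *
      δ ^ ((1 - 2 * ν) - 1 + 3 * ν / 2) = 8 * CK * δ ^ ((3 - 7 * ν) / 4) := by
    have : δ ^ (1 - 2 * ν) * δ ^ ((1 - 2 * ν) / 2) * δ ^ (-(s0 / 2)) *
        δ ^ ((1 - 2 * ν) - 1 + 3 * ν / 2) = δ ^ ((3 - 7 * ν) / 4) := by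
      rw [← rpow_add hδ, ← rpow_add hδ, ← rpow_add hδ, hs0]
      congr 1
      ring
    rw [← this]
    ring
  rw [e4] at hb
  rw [sub_mul, sub_mul, e1, e2, e3] at hb
  exact hb

namespace Setup

variable {T ν x0 : ℝ} {u du : ℝ → ℝ → ℝ} {lam sig : ℝ → ℝ} {r dr : ℝ → ℝ}

theorem contra (S : Setup T ν x0 u du lam sig r dr) : False := by
  obtain ⟨cl, Cl, hcl, hCl, hlam⟩ := S.lam_bounds
  obtain ⟨B, hB0, hB⟩ := S.hr.bdd
  obtain ⟨c1, C1, hc1, hC1, hpos⟩ := S.pos_law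
  obtain ⟨κ0, hκ0, hahead⟩ := S.ahead_bound
  have hν1 := S.hν1
  have hν2 := S.hν2
  have hCe := Ce_nonneg
  set k := 1 - 2 * ν with hk
  have hk0 : 0 < k := by rw [hk]; linarith
  set s0 := (3 - 7 * ν) / 2 with hs0
  have hs0p : 0 < s0 := by rw [hs0]; linarith
  obtain ⟨CA, hCA, hA⟩ := hahead s0 hs0p
  set κ := min κ0 1 with hκ
  have hκp : 0 < κ := lt_min hκ0 one_pos
  have hκ1 : κ ≤ 1 := min_le_right _ _
  have hκκ : κ ≤ κ0 := min_le_left _ _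
  set q2 := min 1 ((κ / (2 * C1)) ^ (1 / k)) with hq2
  have hq2p : 0 < q2 := lt_min one_pos (by positivity)
  have hq21 : q2 ≤ 1 := min_le_left _ _
  have hq2k : C1 * q2 ^ k ≤ κ / 2 := by
    have h1 : q2 ^ k ≤ ((κ / (2 * C1)) ^ (1 / k)) ^ k :=
      rpow_le_rpow hq2p.le (min_le_right _ _) hk0.le
    rw [← rpow_mul (by positivity), one_div, inv_mul_cancel₀ hk0.ne', rpow_one] at h1
    rw [le_div_iff₀ (by positivity)] at h1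
    linarith
  set q1 := q2 / 2 with hq1
  have hq1p : 0 < q1 := by positivity
  set η := min (κ / 4) (c1 * q1 ^ k / 2) with hη
  have hq1k : 0 < q1 ^ k := rpow_pos_of_pos hq1p _
  have hηp : 0 < η := lt_min (by positivity) (by positivity)
  have hη1 : η ≤ κ / 4 := min_le_left _ _
  have hη2 : 2 * η ≤ c1 * q1 ^ k := by
    have : η ≤ c1 * q1 ^ k / 2 := min_le_right _ _
    linarith
  obtain ⟨Φ, Φ', Φ'', Φ''', Ψ, m, st⟩ := exists_tst (κ := κ) (η := η) hηp (by linarith) hκ1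
  have hm1 := st.hm
  have hQ5 : 0 < ∫ y, Q y ^ 5 := int_Q_pos 4
  set Q5 := ∫ y, Q y ^ 5 with hQ5d
  set nr := ∫ x, r x ^ 2 with hnr
  set nd := ∫ x, dr x ^ 2 with hnd
  have hnd0 : 0 ≤ nd := integral_nonneg fun x => sq_nonneg _
  have hnr0 : 0 ≤ nr := integral_nonneg fun x => sq_nonneg _
  set M := ∫ x, u 0 x ^ 2 with hM
  set A := (√Cl)⁻¹ ^ 3 with hAd
  set A' := (√cl)⁻¹ ^ 3 with hA'd
  have hsCl := sqrt_pos.2 hCl
  have hscl := sqrt_pos.2 hcl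
  have hAp : 0 < A := by positivity
  have hA'p : 0 < A' := by positivity
  set pp := 1 - 2 * (3 * ν / 4) with hpp
  have hppp : 0 < pp := by rw [hpp]; linarith
  have hK5 : 0 ≤ K5 B nr nd := by
    unfold K5
    have := sqrt_nonneg (∫ y, Q y ^ 2)
    positivity
  set Kom := (1 + m) * (32 * Ce * (Cl / η)) + m * K5 B nr nd + 1 with hKom
  have hKom0 : 0 < Kom := by
    have : 0 ≤ (1 + m) * (32 * Ce * (Cl / η)) := by positivity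
    have : 0 ≤ m * K5 B nr nd := by positivity
    linarith
  set G := q1 * (A * Q5) with hG
  have hG0 : 0 < G := by positivity
  set ε := min 1 (G * pp / (4 * (Kom * A'))) with hε
  have hεp : 0 < ε := lt_min one_pos (by positivity)
  have hε1 : ε ≤ 1 := min_le_left _ _
  set om := Kom * ε with hom
  have hom0 : 0 < om := by positivity
  have homG : om * A' / pp ≤ G / 4 := by
    have h1 : ε ≤ G * pp / (4 * (Kom * A')) := min_le_right _ _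
    rw [le_div_iff₀ (by positivity)] at h1
    rw [div_le_iff₀ hppp, hom]
    linarith
  set CK := √nd + √CA with hCK
  have hCK0 : 0 ≤ CK := by positivity
  set E0 := √M * (3 * m) with hE0
  have hE00 : 0 ≤ E0 := by positivity
  -- near times
  have hsm : ∀ᶠ t in 𝓝[<] T, √(lam t) ≤ ε ∧ lam t ≤ 1 := by
    have h2 : Tendsto (fun t => √(lam t)) (𝓝[<] T) (𝓝 (√0)) :=
      (continuous_sqrt.tendsto 0).comp S.l0
    rw [sqrt_zero] at h2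
    filter_upwards [h2.eventually (gt_mem_nhds hεp), S.l0.eventually (gt_mem_nhds one_pos)]
      with t a1 a2
    exact ⟨a1.le, a2.le⟩
  obtain ⟨t1, ht10, ht1T, hnear⟩ := ev_to_Ico S.hT
    ((S.near (cl := cl) (B := B) hCl hlam hεp).and (hpos.and (hsm.and hA)))
  -- eventual smallness
  have ev1 : ∀ᶠ t in 𝓝[<] T, (T - t) ^ ((9 * ν - 3) / 2) ≤ G / (4 * (E0 + 1)) :=
    ev_rpow_le T (by linarith) (by positivity)
  have ev2 : ∀ᶠ t in 𝓝[<] T, (T - t) ^ ((3 - 7 * ν) / 4) ≤ G / (4 * (8 * CK + 1)) :=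
    ev_rpow_le T (by linarith) (by positivity)
  have hTI : ∀ᶠ t in 𝓝[<] T, t ∈ Ico t1 T := Ico_mem_nhdsLT ht1T
  obtain ⟨t, ht, g1, g2⟩ := (hTI.and (ev1.and ev2)).exists
  have htT : t < T := ht.2
  obtain ⟨Nt, hpt, hst, hAt⟩ := hnear t ht
  set δ := T - t with hδ
  have hδ0 : 0 < δ := sub_pos.2 htT
  have hδ1 : δ ≤ 1 := Nt.d1
  set ρ := δ ^ k with hρ
  have hρ0 : 0 < ρ := rpow_pos_of_pos hδ0 _
  have hρ1 : ρ ≤ 1 := rpow_le_one hδ0.le hδ1 hk0.le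
  obtain ⟨f1, f2, f3, f4⟩ := rho_facts hν1 hν2 htT Nt.d1
  have hcut := st.cut.scale x0 hρ0 hρ1
  -- the test function
  have hcs : ∀ F : ℝ → ℝ, (∀ z, z ∉ Icc (-1 : ℝ) 7 → F z = 0) → Continuous F →
      MemLp (fun x => F ((x - x0) / ρ)) 2 volume := by
    intro F hF hFc
    have cc : Continuous (fun x => F ((x - x0) / ρ)) := by fun_prop
    refine cc.memLp_of_hasCompactSupport (HasCompactSupport.of_support_subset_isCompact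
      (isCompact_Icc (a := x0 - ρ) (b := x0 + 7 * ρ)) ?_)
    intro x hx
    by_contra hn
    apply hx
    apply hF
    rintro ⟨h1, h2⟩
    apply hn
    rw [le_div_iff₀ hρ0] at h1
    rw [div_le_iff₀ hρ0] at h2
    exact ⟨by linarith, by linarith⟩
  have mφ : MemLp (fun x => Φ ((x - x0) / ρ)) 2 volume := hcs Φ st.s0 st.cut.c0
  have mφ3 : MemLp (fun x => ρ⁻¹ ^ 3 * Φ''' ((x - x0) / ρ)) 2 volume :=
    (hcs Φ''' st.s3 st.cut.c3).const_mul _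
  have hweak : ∀ T' ∈ Ico t T, (∫ x, u T' x * Φ ((x - x0) / ρ)) - ∫ x, u t x * Φ ((x - x0) / ρ) =
      (∫ s in t..T', fl Φ' Φ''' x0 ρ (u s)) ∧
      ContinuousOn (fun s => fl Φ' Φ''' x0 ρ (u s)) (Icc t T') := by
    intro T' hT'
    exact S.sol.weak hcut mφ mφ3 (ht10.trans ht.1) hT'.1 hT'.2
  -- pointwise lower bounds
  set E := √M * (ρ⁻¹ ^ 3 * (3 * m * √ρ)) with hE
  have hE0' : 0 ≤ E := by positivity
  have hexp : ∀ s ∈ Ico t T, exp (-(η * ρ / lam s)) ≤ Cl / η * ε := by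
    intro s hs
    obtain ⟨Ns, -, -, -⟩ := hnear s ⟨ht.1.trans hs.1, hs.2⟩
    have hl := S.lpos s
    obtain ⟨a1, -⟩ := tail_small hν1 hν2 hCl hs.1 hs.2 Nt.d1 hl Ns.l2 Nt.sm (le_refl _)
    have a2 : 0 < η * ρ / lam s := by positivity
    refine (exp_neg_le a2).trans ?_
    rw [inv_div, div_le_iff₀ (by positivity)]
    calc lam s ≤ Cl * ε * ρ := a1
      _ = Cl / η * ε * (η * ρ) := by field_simp
  have hlow : ∀ s ∈ Ico t T, ∀ χ ≤ (1 : ℝ), (∀ x, |x - sig s| < η * ρ → χ ≤ Φ' ((x - x0) / ρ)) →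
      ρ⁻¹ * ((χ * Q5 - om) * (√(lam s))⁻¹ ^ 3) - E ≤ fl Φ' Φ''' x0 ρ (u s) := by
    intro s hs χ hχ1 hχ
    obtain ⟨Ns, -, hss, -⟩ := hnear s ⟨ht.1.trans hs.1, hs.2⟩
    refine fl_low st (S.sol.h1 s Ns.tI) S.hr (S.lpos s) hss.2 hεp hε1 hss.1 Ns.e hB Ns.rr Ns.dw
      (S.sol.mass Ns.tI).le hρ0 hχ1 hχ ?_
    have a1 := hexp s hs
    have a2 : (1 + m) * (32 * Ce * exp (-(η * ρ / lam s))) ≤
        (1 + m) * (32 * Ce * (Cl / η * ε)) := by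
      refine mul_le_mul_of_nonneg_left ?_ (by linarith)
      exact mul_le_mul_of_nonneg_left a1 (by positivity)
    have a3 : om = (1 + m) * (32 * Ce * (Cl / η * ε)) + m * (K5 B nr nd * ε) + ε := by
      rw [hom, hKom]; ring
    rw [a3]
    linarith
  have ha3 : ∀ s ∈ Ico t T, A * (T - s) ^ (-(2 * (3 * ν / 4))) ≤ (√(lam s))⁻¹ ^ 3 ∧
      (√(lam s))⁻¹ ^ 3 ≤ A' * (T - s) ^ (-(2 * (3 * ν / 4))) := by
    intro s hs
    obtain ⟨Ns, -, -, -⟩ := hnear s ⟨ht.1.trans hs.1, hs.2⟩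
    exact a3_bounds (sub_pos.2 hs.2) (S.lpos s) hcl hCl Ns.l1 Ns.l2
  have hρi : 0 < ρ⁻¹ := inv_pos.2 hρ0
  have low1 : ∀ s ∈ Ico t T, -(ρ⁻¹ * (om * A') * (T - s) ^ (-(2 * (3 * ν / 4)))) - E ≤
      fl Φ' Φ''' x0 ρ (u s) := by
    intro s hs
    obtain ⟨Ns, hps, -, -⟩ := hnear s ⟨ht.1.trans hs.1, hs.2⟩
    have h1 := hlow s hs 0 zero_le_one (fun x hx => by
      apply st.pos
      rw [div_le_iff₀ hρ0, one_mul]
      have b1 := (abs_lt.1 hx).2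
      have b2 : 0 ≤ c1 * (T - s) ^ k := by
        have := rpow_pos_of_pos (sub_pos.2 hs.2) k
        positivity
      have b3 : η * ρ ≤ 1 * ρ := mul_le_mul_of_nonneg_right (by linarith) hρ0.le
      linarith [hps.1])
    refine le_trans ?_ h1
    have h2 := (ha3 s hs).2
    have h3 : ρ⁻¹ * (om * (√(lam s))⁻¹ ^ 3) ≤ ρ⁻¹ * (om * (A' * (T - s) ^ (-(2 * (3 * ν / 4))))) := by
      gcongr
    linarith
  have low2 : ∀ s ∈ Icc (T - q2 * δ) (T - q1 * δ),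
      ρ⁻¹ * (A * Q5 * δ ^ (-(2 * (3 * ν / 4)))) - ρ⁻¹ * (om * A') * (T - s) ^ (-(2 * (3 * ν / 4))) - E
        ≤ fl Φ' Φ''' x0 ρ (u s) := by
    intro s hs
    have d1 : q1 * δ ≤ T - s := by linarith [hs.2]
    have d2 : T - s ≤ q2 * δ := by linarith [hs.1]
    have d3 : 0 < q1 * δ := by positivity
    have hsT : s < T := by linarith
    have d4 : q2 * δ ≤ δ := mul_le_of_le_one_left hδ0.le hq21
    have hs' : s ∈ Ico t T := ⟨by linarith, hsT⟩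
    obtain ⟨Ns, hps, -, -⟩ := hnear s ⟨ht.1.trans hs'.1, hs'.2⟩
    have hq1ρ : q1 ^ k * ρ ≤ (T - s) ^ k := by
      rw [hρ, ← mul_rpow hq1p.le hδ0.le]
      exact rpow_le_rpow d3.le d1 hk0.le
    have hq2ρ : (T - s) ^ k ≤ q2 ^ k * ρ := by
      rw [hρ, ← mul_rpow hq2p.le hδ0.le]
      exact rpow_le_rpow (by linarith) d2 hk0.le
    have h1 := hlow s hs' 1 le_rfl (fun x hx => by
      refine (st.one _ ⟨?_, ?_⟩).ge
      · rw [le_div_iff₀ hρ0]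
        have b1 := (abs_lt.1 hx).1
        have b2 := (abs_le.1 hps.2).1
        have b3 : C1 * (T - s) ^ k ≤ κ / 2 * ρ := by
          calc C1 * (T - s) ^ k ≤ C1 * (q2 ^ k * ρ) := mul_le_mul_of_nonneg_left hq2ρ hC1.le
            _ = C1 * q2 ^ k * ρ := by ring
            _ ≤ _ := mul_le_mul_of_nonneg_right hq2k hρ0.le
        have b4 : η * ρ ≤ κ / 4 * ρ := mul_le_mul_of_nonneg_right hη1 hρ0.le
        have b5 : (-κ + η) * ρ = -κ * ρ + η * ρ := by ring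
        rw [b5]
        linarith
      · rw [div_le_iff₀ hρ0]
        have b1 := (abs_lt.1 hx).2
        have b2 := hps.1
        have b3 : 2 * η * ρ ≤ c1 * (T - s) ^ k := by
          calc 2 * η * ρ ≤ c1 * q1 ^ k * ρ := mul_le_mul_of_nonneg_right hη2 hρ0.le
            _ = c1 * (q1 ^ k * ρ) := by ring
            _ ≤ _ := mul_le_mul_of_nonneg_left hq1ρ hc1.le
        linarith)
    refine le_trans ?_ h1
    obtain ⟨h2, h3⟩ := ha3 s hs'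
    have h4 : ρ⁻¹ * (om * (√(lam s))⁻¹ ^ 3) ≤ ρ⁻¹ * (om * (A' * (T - s) ^ (-(2 * (3 * ν / 4))))) := by
      gcongr
    have h5 : δ ^ (-(2 * (3 * ν / 4))) ≤ (T - s) ^ (-(2 * (3 * ν / 4))) :=
      rpow_le_rpow_of_nonpos (by linarith) (by linarith) (by linarith)
    have h6 : ρ⁻¹ * (Q5 * (A * δ ^ (-(2 * (3 * ν / 4))))) ≤ ρ⁻¹ * (Q5 * (√(lam s))⁻¹ ^ 3) := by
      have : A * δ ^ (-(2 * (3 * ν / 4))) ≤ (√(lam s))⁻¹ ^ 3 :=
        (mul_le_mul_of_nonneg_left h5 hAp.le).trans h2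
      gcongr
    linarith
  -- lower bound of the increment
  have incr : ∀ T' ∈ Ioo (T - q1 * δ) T,
      (T - q1 * δ - (T - q2 * δ)) * (ρ⁻¹ * (A * Q5 * δ ^ (-(2 * (3 * ν / 4))))) -
        ρ⁻¹ * (om * A') * (δ ^ (1 - 2 * (3 * ν / 4)) / (1 - 2 * (3 * ν / 4))) - E * δ ≤
      (∫ x, u T' x * Φ ((x - x0) / ρ)) - ∫ x, u t x * Φ ((x - x0) / ρ) := by
    intro T' hT'
    have d4 : q2 * δ ≤ δ := mul_le_of_le_one_left hδ0.le hq21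
    have d5 : q1 * δ ≤ q2 * δ := mul_le_mul_of_nonneg_right (by rw [hq1]; linarith) hδ0.le
    have hT'I : T' ∈ Ico t T := ⟨by linarith [hT'.1], hT'.2⟩
    obtain ⟨w1, w2⟩ := hweak T' hT'I
    rw [w1]
    exact time_lower (p := 3 * ν / 4) (by linarith) (by positivity) hE0' w2 (by linarith)
      (by linarith) hT'.1.le hT'.2 (fun s hs => low1 s ⟨hs.1, hs.2.trans_lt hT'.2⟩) low2
  have hlimT := S.lim_test hcut.c0 hcut.b0 mφ
  have hlim2 : (T - q1 * δ - (T - q2 * δ)) * (ρ⁻¹ * (A * Q5 * δ ^ (-(2 * (3 * ν / 4))))) -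
        ρ⁻¹ * (om * A') * (δ ^ (1 - 2 * (3 * ν / 4)) / (1 - 2 * (3 * ν / 4))) - E * δ ≤
      (∫ x, r x * Φ ((x - x0) / ρ)) - ∫ x, u t x * Φ ((x - x0) / ρ) := by
    refine ge_of_tendsto (hlimT.sub_const _) ?_
    filter_upwards [Ioo_mem_nhdsLT (show T - q1 * δ < T by
      have : 0 < q1 * δ := by positivity
      linarith)] with T' hT'
    exact incr T' hT'
  -- upper bound
  have up1 := st.lhs S.hr x0 hρ0 hκp hκ1
  have up2 := st.lhs (S.sol.h1 t Nt.tI) x0 hρ0 hκp hκ1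
  have up3 : √(∫ x in Ioi (x0 - κ * ρ), dr x ^ 2) ≤ √nd * δ ^ (-(s0 / 2)) := by
    have h1 : ∫ x in Ioi (x0 - κ * ρ), dr x ^ 2 ≤ nd :=
      setIntegral_le_integral S.hr.mem'.integrable_sq (ae_of_all _ fun x => sq_nonneg _)
    have h2 : 1 ≤ δ ^ (-(s0 / 2)) := one_le_rpow_of_pos_of_le_one_of_nonpos hδ0 hδ1 (by linarith)
    calc √(∫ x in Ioi (x0 - κ * ρ), dr x ^ 2) ≤ √nd := sqrt_le_sqrt h1
      _ ≤ _ := le_mul_of_one_le_right (sqrt_nonneg _) h2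
  have up4 : √(∫ x in Ioi (x0 - κ * ρ), du t x ^ 2) ≤ √CA * δ ^ (-(s0 / 2)) := by
    have h1 : ∫ x in Ioi (x0 - κ * ρ), du t x ^ 2 ≤ ∫ x in Ioi (x0 - κ0 * ρ), du t x ^ 2 := by
      refine setIntegral_mono_set (S.sol.h1 t Nt.tI).mem'.integrable_sq.integrableOn
        (ae_of_all _ fun x => sq_nonneg _) (HasSubset.Subset.eventuallyLE (Ioi_subset_Ioi ?_))
      have : κ * ρ ≤ κ0 * ρ := mul_le_mul_of_nonneg_right hκκ hρ0.le
      linarith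
    have h2 : √(CA * δ ^ (-s0)) = √CA * δ ^ (-(s0 / 2)) := by
      rw [sqrt_mul hCA.le]
      congr 1
      rw [sqrt_eq_rpow, ← rpow_mul hδ0.le]
      congr 1
      ring
    rw [← h2]
    exact sqrt_le_sqrt (h1.trans hAt)
  have hup : (∫ x, r x * Φ ((x - x0) / ρ)) - ∫ x, u t x * Φ ((x - x0) / ρ) ≤
      8 * (ρ * √ρ) * (CK * δ ^ (-(s0 / 2))) := by
    have h1 := (abs_le.1 up1).2
    have h2 := (abs_le.1 up2).1
    have h3 : 8 * (ρ * √ρ) * √(∫ x in Ioi (x0 - κ * ρ), dr x ^ 2) ≤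
        8 * (ρ * √ρ) * (√nd * δ ^ (-(s0 / 2))) := mul_le_mul_of_nonneg_left up3 (by positivity)
    have h4 : 8 * (ρ * √ρ) * √(∫ x in Ioi (x0 - κ * ρ), du t x ^ 2) ≤
        8 * (ρ * √ρ) * (√CA * δ ^ (-(s0 / 2))) := mul_le_mul_of_nonneg_left up4 (by positivity)
    have h5 : 8 * (ρ * √ρ) * (CK * δ ^ (-(s0 / 2))) = 8 * (ρ * √ρ) * (√nd * δ ^ (-(s0 / 2))) +
        8 * (ρ * √ρ) * (√CA * δ ^ (-(s0 / 2))) := by rw [hCK]; ring
    rw [h5]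
    linarith
  have hfin := hlim2.trans hup
  have e1 : T - q1 * δ - (T - q2 * δ) = q1 * δ := by rw [hq1]; ring
  have e2 : E * δ = E0 * (ρ⁻¹ ^ 3 * √ρ) * δ := by rw [hE, hE0]; ring
  rw [e1, e2] at hfin
  have hP := final_powers (A := A) (Q5 := Q5) (W := om * A') (E0 := E0) (CK := CK) (q1 := q1)
    (s0 := s0) hδ0 hs0 hfin
  have g3 : E0 * δ ^ ((9 * ν - 3) / 2) ≤ G / 4 := by
    have h1 : 0 < δ ^ ((9 * ν - 3) / 2) := rpow_pos_of_pos hδ0 _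
    rw [le_div_iff₀ (by positivity)] at g1
    have h2 : E0 * δ ^ ((9 * ν - 3) / 2) ≤ (E0 + 1) * δ ^ ((9 * ν - 3) / 2) :=
      mul_le_mul_of_nonneg_right (by linarith) h1.le
    linarith
  have g4 : 8 * CK * δ ^ ((3 - 7 * ν) / 4) ≤ G / 4 := by
    have h1 : 0 < δ ^ ((3 - 7 * ν) / 4) := rpow_pos_of_pos hδ0 _
    rw [le_div_iff₀ (by positivity)] at g2
    have h2 : 8 * CK * δ ^ ((3 - 7 * ν) / 4) ≤ (8 * CK + 1) * δ ^ ((3 - 7 * ν) / 4) :=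
      mul_le_mul_of_nonneg_right (by linarith) h1.le
    linarith
  have homG' : om * A' / (1 - 2 * (3 * ν / 4)) ≤ G / 4 := homG
  linarith

end Setup

end Pool.Agent.Helper44.Gkdv
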