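import Pool.Agent.Helper44.Gkdv.Cons

set_option autoImplicit false
set_option maxHeartbeats 4000000

open MeasureTheory Set Filter Topology Real
open scoped ENNReal ContDiff

namespace Pool.Agent.Helper44.Gkdv

/-- Localized Gagliardo-Nirenberg inequality. -/
theorem gn {f g k ϑ ϑ1 : ℝ → ℝ} {S : Set ℝ} {m η : ℝ} (hS : MeasurableSet S)
    (hf : ∀ x, HasDerivAt f (g x) x) (hg : ∀ x, HasDerivAt g (k x) x)
    (H : IsH1 f g) (H' : IsH1 g k) (hϑ : ∀ x, HasDerivAt ϑ (ϑ1 x) x) (hϑ1 : Continuous ϑ1)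
    (h0 : ∀ x, 0 ≤ ϑ x) (h1 : ∀ x, ϑ x ≤ 1) (hm : ∀ x, |ϑ1 x| ≤ m)
    (hs : ∀ x, x ∉ S → ϑ x = 0) (hη : ∫ x in S, f x ^ 2 ≤ η) :
    ∫ x, f x ^ 10 * ϑ x ^ 8 ≤ 512 * η ^ 4 * (∫ x, k x ^ 2 * ϑ x ^ 8) + 36992 * m ^ 4 * η ^ 5 := by
  have hm0 : 0 ≤ m := (abs_nonneg _).trans (hm 0)
  have cϑ : Continuous ϑ := continuous_iff_continuousAt.2 fun x => (hϑ x).continuousAt
  have cg : Continuous g := H'.cont
  have cf : Continuous f := H.cont
  have bϑ : ∀ n : ℕ, ∀ x, |ϑ x ^ n| ≤ 1 := fun n x => by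
    rw [abs_of_nonneg (pow_nonneg (h0 x) _)]
    exact pow_le_one₀ (h0 x) (h1 x)
  set F : ℝ → ℝ := S.indicator f with hF
  have mF : MemLp F 2 volume := H.mem.indicator hS
  have hFϑ : ∀ x, f x * ϑ x = F x * ϑ x := by
    intro x
    by_cases hx : x ∈ S
    · rw [hF, indicator_of_mem hx]
    · rw [hs x hx, mul_zero, mul_zero]
  have hFη : ∫ x, F x ^ 2 ≤ η := by
    have : ∀ x, F x ^ 2 = S.indicator (fun x => f x ^ 2) x := by
      intro x
      by_cases hx : x ∈ S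
      · rw [hF, indicator_of_mem hx, indicator_of_mem hx]
      · rw [hF, indicator_of_notMem hx, indicator_of_notMem hx]; norm_num
    simp only [this]
    rw [integral_indicator hS]
    exact hη
  have hη0 : 0 ≤ η := (integral_nonneg fun x => sq_nonneg (F x)).trans hFη
  set X := ∫ x, g x ^ 2 * ϑ x ^ 4 with hX
  set Z := ∫ x, k x ^ 2 * ϑ x ^ 8 with hZ
  have hX0 : 0 ≤ X := integral_nonneg fun x => mul_nonneg (sq_nonneg _) (pow_nonneg (h0 x) _)
  have hZ0 : 0 ≤ Z := integral_nonneg fun x => mul_nonneg (sq_nonneg _) (pow_nonneg (h0 x) _)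
  have mk4 : MemLp (fun x => k x * ϑ x ^ 4) 2 volume := by
    refine MemLp.of_le H'.mem' (H'.mem'.1.mul (cϑ.pow 4).aestronglyMeasurable)
      (ae_of_all _ fun x => ?_)
    rw [norm_mul, norm_eq_abs, norm_eq_abs]
    calc |k x| * |ϑ x ^ 4| ≤ |k x| * 1 := mul_le_mul_of_nonneg_left (bϑ 4 x) (abs_nonneg _)
      _ = |k x| := mul_one _
  have mg2 : MemLp (fun x => g x * ϑ x ^ 2) 2 volume := by
    refine MemLp.of_le H.mem' (H.mem'.1.mul (cϑ.pow 2).aestronglyMeasurable)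
      (ae_of_all _ fun x => ?_)
    rw [norm_mul, norm_eq_abs, norm_eq_abs]
    calc |g x| * |ϑ x ^ 2| ≤ |g x| * 1 := mul_le_mul_of_nonneg_left (bϑ 2 x) (abs_nonneg _)
      _ = |g x| := mul_one _
  have c1 : ∫ x, |F x * (k x * ϑ x ^ 4)| ≤ √η * √Z := by
    refine (cs mF mk4).trans ?_
    have e : ∀ x, (k x * ϑ x ^ 4) ^ 2 = k x ^ 2 * ϑ x ^ 8 := fun x => by ring
    simp only [e]
    exact mul_le_mul_of_nonneg_right (sqrt_le_sqrt hFη) (sqrt_nonneg _)
  have c2 : ∫ x, |F x * (g x * ϑ x ^ 2)| ≤ √η * √X := by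
    refine (cs mF mg2).trans ?_
    have e : ∀ x, (g x * ϑ x ^ 2) ^ 2 = g x ^ 2 * ϑ x ^ 4 := fun x => by ring
    simp only [e]
    exact mul_le_mul_of_nonneg_right (sqrt_le_sqrt hFη) (sqrt_nonneg _)
  -- first: bound of X
  have iX : Integrable (fun x => g x ^ 2 * ϑ x ^ 4) := intw H.mem'.integrable_sq (cϑ.pow 4) (bϑ 4)
  have hbm : ∀ n : ℕ, ∀ x, |ϑ x ^ n * ϑ1 x| ≤ m := fun n x => by
    rw [abs_mul]
    calc |ϑ x ^ n| * |ϑ1 x| ≤ 1 * m := mul_le_mul (bϑ n x) (hm x) (abs_nonneg _) zero_le_one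
      _ = m := one_mul _
  have iR : Integrable (fun x => f x * k x * ϑ x ^ 4 + 4 * (f x * g x * (ϑ x ^ 3 * ϑ1 x))) :=
    (intw (mul_int H.mem H'.mem') (cϑ.pow 4) (bϑ 4)).add
      ((intw (mul_int H.mem H.mem') ((cϑ.pow 3).mul hϑ1) (hbm 3)).const_mul 4)
  have d1 : ∀ x, HasDerivAt (fun x => f x * g x * ϑ x ^ 4)
      (g x ^ 2 * ϑ x ^ 4 + (f x * k x * ϑ x ^ 4 + 4 * (f x * g x * (ϑ x ^ 3 * ϑ1 x)))) x := by
    intro x
    refine (((hf x).mul (hg x)).mul ((hϑ x).pow 4)).congr_deriv ?_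
    simp only [Nat.cast_ofNat, Pi.mul_apply, Pi.pow_apply]
    ring
  have lim0 : ∀ l : Filter ℝ, Tendsto f l (𝓝 0) → Tendsto g l (𝓝 0) →
      Tendsto (fun x => f x * g x * ϑ x ^ 4) l (𝓝 0) := by
    intro l l1 l2
    have h3 : Tendsto (fun x => f x * g x) l (𝓝 0) := by simpa using l1.mul l2
    refine squeeze_zero_norm (fun x => ?_) (tendsto_zero_iff_norm_tendsto_zero.1 h3)
    rw [norm_mul]
    calc ‖f x * g x‖ * ‖ϑ x ^ 4‖ ≤ ‖f x * g x‖ * 1 :=
          mul_le_mul_of_nonneg_left (bϑ 4 x) (norm_nonneg _)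
      _ = _ := mul_one _
  have e1 := integral_of_hasDerivAt_of_tendsto d1 (iX.add iR)
    (lim0 _ H.tendsto_bot H'.tendsto_bot) (lim0 _ H.tendsto_top H'.tendsto_top)
  rw [integral_add iX iR, sub_zero] at e1
  have iF2 : Integrable (fun x => F x ^ 2) := mF.integrable_sq
  have e2 : -∫ x, (f x * k x * ϑ x ^ 4 + 4 * (f x * g x * (ϑ x ^ 3 * ϑ1 x))) ≤
      ∫ x, (|F x * (k x * ϑ x ^ 4)| + ((1 / 2) * (g x ^ 2 * ϑ x ^ 4) + 8 * m ^ 2 * F x ^ 2)) := by
    rw [← integral_neg]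
    refine integral_mono iR.neg ((mul_int mF mk4).abs.add ((iX.const_mul _).add
      (iF2.const_mul _))) (fun x => ?_)
    simp only
    have a1 : -(f x * k x * ϑ x ^ 4) ≤ |F x * (k x * ϑ x ^ 4)| := by
      have : f x * k x * ϑ x ^ 4 = F x * (k x * ϑ x ^ 4) := by
        calc f x * k x * ϑ x ^ 4 = (f x * ϑ x) * (k x * ϑ x ^ 3) := by ring
          _ = (F x * ϑ x) * (k x * ϑ x ^ 3) := by rw [hFϑ]
          _ = _ := by ring
      rw [this]
      exact neg_le_abs _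
    have a2 : -(4 * (f x * g x * (ϑ x ^ 3 * ϑ1 x))) ≤
        (1 / 2) * (g x ^ 2 * ϑ x ^ 4) + 8 * m ^ 2 * F x ^ 2 := by
      have e3 : f x * g x * (ϑ x ^ 3 * ϑ1 x) = (g x * ϑ x ^ 2) * (F x * (ϑ x * ϑ1 x)) := by
        calc f x * g x * (ϑ x ^ 3 * ϑ1 x) = (f x * ϑ x) * (g x * ϑ x ^ 2 * ϑ1 x) := by ring
          _ = (F x * ϑ x) * (g x * ϑ x ^ 2 * ϑ1 x) := by rw [hFϑ]
          _ = _ := by ring
      rw [e3]
      have e4 : (F x * (ϑ x * ϑ1 x)) ^ 2 ≤ m ^ 2 * F x ^ 2 := by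
        rw [mul_pow, mul_comm]
        refine mul_le_mul_of_nonneg_right ?_ (sq_nonneg _)
        have := hbm 1 x
        rw [pow_one] at this
        rw [← sq_abs]
        exact pow_le_pow_left₀ (abs_nonneg _) this 2
      nlinarith [sq_nonneg (g x * ϑ x ^ 2 + 4 * (F x * (ϑ x * ϑ1 x)))]
    linarith
  have e5 : X ≤ √η * √Z + ((1 / 2) * X + 8 * m ^ 2 * η) := by
    have j1 : Integrable (fun x => (1 / 2) * (g x ^ 2 * ϑ x ^ 4)) := iX.const_mul _
    have j2 : Integrable (fun x => 8 * m ^ 2 * F x ^ 2) := iF2.const_mul _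
    have j12 : Integrable (fun x => (1 / 2) * (g x ^ 2 * ϑ x ^ 4) + 8 * m ^ 2 * F x ^ 2) :=
      j1.add j2
    rw [integral_add (mul_int mF mk4).abs j12, integral_add j1 j2,
      integral_const_mul, integral_const_mul] at e2
    have : 8 * m ^ 2 * ∫ x, F x ^ 2 ≤ 8 * m ^ 2 * η :=
      mul_le_mul_of_nonneg_left hFη (by positivity)
    linarith
  have hXle : X ≤ 2 * (√η * √Z) + 16 * m ^ 2 * η := by linarith
  -- second: sup bound
  set A := 2 * (√η * √X) + 2 * m * η with hA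
  have hA0 : 0 ≤ A := by positivity
  have iD : Integrable (fun x => 2 * |F x * (g x * ϑ x ^ 2)| + 2 * m * F x ^ 2) :=
    ((mul_int mF mg2).abs.const_mul 2).add (iF2.const_mul _)
  have sup : ∀ x, f x ^ 2 * ϑ x ^ 2 ≤ A := by
    intro x
    have d2 : ∀ y ∈ Iic x, HasDerivAt (fun x => f x ^ 2 * ϑ x ^ 2)
        (2 * (f y * g y * ϑ y ^ 2) + 2 * (f y ^ 2 * (ϑ y * ϑ1 y))) y := by
      intro y _
      refine (((hf y).pow 2).mul ((hϑ y).pow 2)).congr_deriv ?_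
      simp only [Nat.cast_ofNat, Pi.pow_apply]
      ring
    have iE : Integrable (fun y => 2 * (f y * g y * ϑ y ^ 2) + 2 * (f y ^ 2 * (ϑ y * ϑ1 y))) :=
      ((intw (mul_int H.mem H.mem') (cϑ.pow 2) (bϑ 2)).const_mul 2).add
        ((intw H.mem.integrable_sq (cϑ.mul hϑ1) (fun x => by simpa using hbm 1 x)).const_mul 2)
    have l0 : Tendsto (fun x => f x ^ 2 * ϑ x ^ 2) atBot (𝓝 0) := by
      have h3 : Tendsto (fun x => f x ^ 2) atBot (𝓝 0) := by simpa using H.tendsto_bot.pow 2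
      refine squeeze_zero_norm (fun x => ?_) (tendsto_zero_iff_norm_tendsto_zero.1 h3)
      rw [norm_mul]
      calc ‖f x ^ 2‖ * ‖ϑ x ^ 2‖ ≤ ‖f x ^ 2‖ * 1 :=
            mul_le_mul_of_nonneg_left (bϑ 2 x) (norm_nonneg _)
        _ = _ := mul_one _
    have e6 := integral_Iic_of_hasDerivAt_of_tendsto' d2 iE.integrableOn l0
    rw [sub_zero] at e6
    rw [← e6]
    calc _ ≤ ∫ y in Iic x, (2 * |F y * (g y * ϑ y ^ 2)| + 2 * m * F y ^ 2) := by
          refine integral_mono iE.integrableOn iD.integrableOn (fun y => ?_)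
          simp only
          have a1 : f y * g y * ϑ y ^ 2 ≤ |F y * (g y * ϑ y ^ 2)| := by
            have : f y * g y * ϑ y ^ 2 = F y * (g y * ϑ y ^ 2) := by
              calc f y * g y * ϑ y ^ 2 = (f y * ϑ y) * (g y * ϑ y) := by ring
                _ = (F y * ϑ y) * (g y * ϑ y) := by rw [hFϑ]
                _ = _ := by ring
            rw [this]
            exact le_abs_self _
          have a2 : f y ^ 2 * (ϑ y * ϑ1 y) ≤ m * F y ^ 2 := by
            have : f y ^ 2 * (ϑ y * ϑ1 y) = F y ^ 2 * (ϑ y * ϑ1 y) := by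
              by_cases hy : y ∈ S
              · rw [hF, indicator_of_mem hy]
              · rw [hs y hy]; ring
            rw [this, mul_comm m]
            refine mul_le_mul_of_nonneg_left ?_ (sq_nonneg _)
            have := hbm 1 y
            rw [pow_one] at this
            exact (le_abs_self _).trans this
          linarith
      _ ≤ ∫ y, (2 * |F y * (g y * ϑ y ^ 2)| + 2 * m * F y ^ 2) :=
          setIntegral_le_integral iD (ae_of_all _ fun y => by positivity)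
      _ = 2 * (∫ y, |F y * (g y * ϑ y ^ 2)|) + 2 * m * ∫ y, F y ^ 2 := by
          rw [integral_add ((mul_int mF mg2).abs.const_mul 2) (iF2.const_mul _),
            integral_const_mul, integral_const_mul]
      _ ≤ _ := by
          have : 2 * m * ∫ y, F y ^ 2 ≤ 2 * m * η := mul_le_mul_of_nonneg_left hFη (by positivity)
          rw [hA]
          linarith
  -- third
  have fin : ∫ x, f x ^ 10 * ϑ x ^ 8 ≤ A ^ 4 * η := by
    calc ∫ x, f x ^ 10 * ϑ x ^ 8 ≤ ∫ x, A ^ 4 * F x ^ 2 := by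
          refine integral_mono (intw (H.pow_int (by norm_num)) (cϑ.pow 8) (bϑ 8))
            (iF2.const_mul _) (fun x => ?_)
          simp only
          by_cases hx : x ∈ S
          · rw [hF, indicator_of_mem hx]
            calc f x ^ 10 * ϑ x ^ 8 = (f x ^ 2 * ϑ x ^ 2) ^ 4 * f x ^ 2 := by ring
              _ ≤ _ := mul_le_mul_of_nonneg_right (pow_le_pow_left₀ (by positivity) (sup x) 4)
                  (sq_nonneg _)
          · rw [hs x hx]
            have : 0 ≤ A ^ 4 * F x ^ 2 := by positivity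
            simpa using this
      _ = A ^ 4 * ∫ x, F x ^ 2 := integral_const_mul _ _
      _ ≤ _ := mul_le_mul_of_nonneg_left hFη (by positivity)
  refine fin.trans ?_
  have sη := sq_sqrt hη0
  have sX := sq_sqrt hX0
  have sZ := sq_sqrt hZ0
  have hA2 : A ^ 2 ≤ 16 * η * (√η * √Z) + 136 * m ^ 2 * η ^ 2 := by
    have i1 : A ^ 2 ≤ 8 * η * X + 8 * m ^ 2 * η ^ 2 := by
      have : (√η * √X) ^ 2 = η * X := by rw [mul_pow, sη, sX]
      rw [hA]
      nlinarith [sq_nonneg (√η * √X - m * η)]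
    have i2 : 8 * η * X ≤ 8 * η * (2 * (√η * √Z) + 16 * m ^ 2 * η) :=
      mul_le_mul_of_nonneg_left hXle (by positivity)
    nlinarith
  have hA4 : A ^ 4 ≤ 512 * η ^ 3 * Z + 36992 * m ^ 4 * η ^ 4 := by
    have i1 : A ^ 4 ≤ (16 * η * (√η * √Z) + 136 * m ^ 2 * η ^ 2) ^ 2 := by
      calc A ^ 4 = (A ^ 2) ^ 2 := by ring
        _ ≤ _ := pow_le_pow_left₀ (sq_nonneg _) hA2 2
    have i2 : (16 * η * (√η * √Z)) ^ 2 = 256 * η ^ 3 * Z := by
      have : (√η * √Z) ^ 2 = η * Z := by rw [mul_pow, sη, sZ]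
      calc (16 * η * (√η * √Z)) ^ 2 = 256 * η ^ 2 * (√η * √Z) ^ 2 := by ring
        _ = _ := by rw [this]; ring
    nlinarith [sq_nonneg (16 * η * (√η * √Z) - 136 * m ^ 2 * η ^ 2)]
  calc A ^ 4 * η ≤ (512 * η ^ 3 * Z + 36992 * m ^ 4 * η ^ 4) * η :=
        mul_le_mul_of_nonneg_right hA4 hη0
    _ = _ := by ring

end Pool.Agent.Helper44.Gkdv
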