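import Mathlib

set_option autoImplicit false
set_option maxHeartbeats 4000000

open MeasureTheory Set Filter Topology Real
open scoped ENNReal

namespace Pool.Agent.Helper44.Gkdv

/-- `f` is the continuous representative of a function of `H^1(ℝ)` and `g` its weak derivative. -/
structure IsH1 (f g : ℝ → ℝ) : Prop where
  mem : MemLp f 2 volume
  mem' : MemLp g 2 volume
  ftc : ∀ x y, f y - f x = ∫ s in x..y, g s

theorem sq_int {μ : Measure ℝ} {f : ℝ → ℝ} (hf : MemLp f 2 μ) : Integrable (fun x => f x ^ 2) μ :=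
  hf.integrable_sq

theorem mul_int {μ : Measure ℝ} {f g : ℝ → ℝ} (hf : MemLp f 2 μ) (hg : MemLp g 2 μ) :
    Integrable (fun x => f x * g x) μ := hf.integrable_mul hg

/-- Cauchy-Schwarz. -/
theorem cs {μ : Measure ℝ} {f g : ℝ → ℝ} (hf : MemLp f 2 μ) (hg : MemLp g 2 μ) :
    ∫ x, |f x * g x| ∂μ ≤ √(∫ x, f x ^ 2 ∂μ) * √(∫ x, g x ^ 2 ∂μ) := by
  have h := integral_mul_norm_le_Lp_mul_Lq (μ := μ) (f := f) (g := g)
    (p := 2) (q := 2) (by constructor <;> norm_num) (by simpa using hf) (by simpa using hg)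
  simp only [norm_eq_abs] at h
  have e1 : ∀ x, |f x * g x| = |f x| * |g x| := fun x => abs_mul _ _
  simp only [e1]
  refine h.trans (le_of_eq ?_)
  have e2 : ∀ x : ℝ, |x| ^ (2 : ℝ) = x ^ 2 := fun x => by
    rw [show (2 : ℝ) = ((2 : ℕ) : ℝ) by norm_num, rpow_natCast, sq_abs]
  simp only [e2]
  rw [Real.sqrt_eq_rpow, Real.sqrt_eq_rpow]

theorem cs' {μ : Measure ℝ} {f g : ℝ → ℝ} (hf : MemLp f 2 μ) (hg : MemLp g 2 μ) :
    |∫ x, f x * g x ∂μ| ≤ √(∫ x, f x ^ 2 ∂μ) * √(∫ x, g x ^ 2 ∂μ) :=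
  (abs_integral_le_integral_abs).trans (cs hf hg)

namespace IsH1

variable {f g f₂ g₂ : ℝ → ℝ}

theorem locInt (h : IsH1 f g) : LocallyIntegrable g volume :=
  h.mem'.locallyIntegrable (by norm_num)

theorem iint (h : IsH1 f g) (a b : ℝ) : IntervalIntegrable g volume a b :=
  (h.locInt.integrableOn_isCompact isCompact_uIcc).intervalIntegrable

theorem eq_prim (h : IsH1 f g) : f = fun x => f 0 + ∫ s in (0 : ℝ)..x, g s := by
  funext x
  linarith [h.ftc 0 x]

theorem cont (h : IsH1 f g) : Continuous f := by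
  rw [h.eq_prim]
  exact continuous_const.add (intervalIntegral.continuous_primitive (fun a b => h.iint a b) 0)

theorem ac (h : IsH1 f g) (a b : ℝ) : AbsolutelyContinuousOnInterval f a b := by
  have h1 := (h.iint a b).absolutelyContinuousOnInterval_intervalIntegral (c := a) (by simp)
  have h2 : f = fun x => f a + ∫ s in a..x, g s := by
    funext x
    linarith [h.ftc a x]
  rw [h2]
  have h3 : AbsolutelyContinuousOnInterval (fun _ : ℝ => f a) a b :=
    ((contDiff_const (n := 1)).contDiffOn).absolutelyContinuousOnInterval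
  exact h3.add h1

theorem ae_deriv (h : IsH1 f g) : ∀ᵐ x, HasDerivAt f (g x) x := by
  filter_upwards [LocallyIntegrable.ae_hasDerivAt_integral h.locInt] with x hx
  have h1 := (hx 0).const_add (f 0)
  rwa [← h.eq_prim] at h1

theorem integral_mul (h : IsH1 f g) (h₂ : IsH1 f₂ g₂) (a b : ℝ) :
    ∫ x in a..b, (g x * f₂ x + f x * g₂ x) = f b * f₂ b - f a * f₂ a := by
  rw [← AbsolutelyContinuousOnInterval.integral_deriv_mul_eq_sub (h.ac a b) (h₂.ac a b)]
  apply intervalIntegral.integral_congr_ae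
  filter_upwards [h.ae_deriv, h₂.ae_deriv] with x hx hx₂ _
  rw [hx.deriv, hx₂.deriv]

theorem sq_sub (h : IsH1 f g) (a b : ℝ) :
    f b ^ 2 - f a ^ 2 = ∫ x in a..b, 2 * (f x * g x) := by
  have := h.integral_mul h a b
  rw [show f b ^ 2 - f a ^ 2 = f b * f b - f a * f a by ring, ← this]
  apply intervalIntegral.integral_congr
  intro x _
  simp only
  ring

theorem tendsto_top (h : IsH1 f g) : Tendsto f atTop (𝓝 0) := by
  have h1 : Tendsto (fun y => f y ^ 2) atTop
      (𝓝 (f 0 ^ 2 + ∫ x in Ioi (0 : ℝ), 2 * (f x * g x))) := by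
    have h2 := intervalIntegral_tendsto_integral_Ioi (μ := volume) (0 : ℝ)
      (f := fun x => 2 * (f x * g x)) ((mul_int h.mem h.mem').const_mul 2).integrableOn tendsto_id
    have h3 := h2.const_add (f 0 ^ 2)
    refine h3.congr (fun y => ?_)
    have := h.sq_sub 0 y
    simp only [id]
    linarith
  have h4 : f 0 ^ 2 + ∫ x in Ioi (0 : ℝ), 2 * (f x * g x) = 0 := by
    refine IntegrableAtFilter.eq_zero_of_tendsto (l := atTop) (μ := volume) (f := fun y => f y ^ 2)
      ?_ ?_ h1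
    · exact (h.mem.integrable_sq).integrableAtFilter _
    · intro s hs
      obtain ⟨a, ha⟩ := mem_atTop_sets.1 hs
      have : Ici a ⊆ s := fun x hx => ha x hx
      exact measure_mono_top this Real.volume_Ici
  rw [h4] at h1
  have h5 : Tendsto (fun y => √(f y ^ 2)) atTop (𝓝 (√0)) := (continuous_sqrt.tendsto 0).comp h1
  simp only [sqrt_sq_eq_abs, sqrt_zero] at h5
  exact (tendsto_zero_iff_abs_tendsto_zero _).2 h5

theorem comp_neg (h : IsH1 f g) : IsH1 (fun x => f (-x)) (fun x => - g (-x)) where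
  mem := h.mem.comp_measurePreserving (Measure.measurePreserving_neg volume)
  mem' := (h.mem'.comp_measurePreserving (Measure.measurePreserving_neg volume)).neg
  ftc x y := by
    rw [intervalIntegral.integral_neg, intervalIntegral.integral_comp_neg (fun s => g s),
      h.ftc (-x) (-y), intervalIntegral.integral_symm]

theorem tendsto_bot (h : IsH1 f g) : Tendsto f atBot (𝓝 0) := by
  have := h.comp_neg.tendsto_top.comp tendsto_neg_atBot_atTop
  simpa [Function.comp_def] using this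

/-- the main one sided bound -/
theorem sq_le (h : IsH1 f g) (x : ℝ) : f x ^ 2 ≤ 2 * ∫ y in Ioi x, |f y * g y| := by
  have h1 : Tendsto (fun y => f y ^ 2 - f x ^ 2) atTop (𝓝 (∫ y in Ioi x, 2 * (f y * g y))) := by
    have h2 := intervalIntegral_tendsto_integral_Ioi (μ := volume) x
      (f := fun x => 2 * (f x * g x)) ((mul_int h.mem h.mem').const_mul 2).integrableOn tendsto_id
    refine h2.congr (fun y => ?_)
    simp only [id]
    rw [h.sq_sub x y]
  have h3 : Tendsto (fun y => f y ^ 2 - f x ^ 2) atTop (𝓝 (0 ^ 2 - f x ^ 2)) :=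
    (h.tendsto_top.pow 2).sub_const _
  have h4 := tendsto_nhds_unique h3 h1
  rw [integral_const_mul] at h4
  have h5 : -∫ y in Ioi x, f y * g y ≤ ∫ y in Ioi x, |f y * g y| := by
    rw [← integral_neg]
    refine integral_mono (mul_int h.mem h.mem').integrableOn.neg
      (mul_int h.mem h.mem').abs.integrableOn (fun y => neg_le_abs _)
  linarith

theorem sq_le_cs (h : IsH1 f g) (x : ℝ) :
    f x ^ 2 ≤ 2 * (√(∫ y in Ioi x, f y ^ 2) * √(∫ y in Ioi x, g y ^ 2)) := by
  refine (h.sq_le x).trans ?_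
  have := cs (μ := volume.restrict (Ioi x)) (h.mem.restrict _) (h.mem'.restrict _)
  linarith

theorem sq_le_glob (h : IsH1 f g) (x : ℝ) :
    f x ^ 2 ≤ 2 * (√(∫ y, f y ^ 2) * √(∫ y, g y ^ 2)) := by
  refine (h.sq_le_cs x).trans ?_
  have h1 : ∫ y in Ioi x, f y ^ 2 ≤ ∫ y, f y ^ 2 :=
    setIntegral_le_integral h.mem.integrable_sq (ae_of_all _ fun y => sq_nonneg _)
  have h2 : ∫ y in Ioi x, g y ^ 2 ≤ ∫ y, g y ^ 2 :=
    setIntegral_le_integral h.mem'.integrable_sq (ae_of_all _ fun y => sq_nonneg _)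
  gcongr

theorem sq_le_add (h : IsH1 f g) (x : ℝ) : f x ^ 2 ≤ (∫ y, f y ^ 2) + ∫ y, g y ^ 2 := by
  refine (h.sq_le_glob x).trans ?_
  have h1 : 0 ≤ ∫ y, f y ^ 2 := integral_nonneg fun y => sq_nonneg _
  have h2 : 0 ≤ ∫ y, g y ^ 2 := integral_nonneg fun y => sq_nonneg _
  nlinarith [sq_nonneg (√(∫ y, f y ^ 2) - √(∫ y, g y ^ 2)), sq_sqrt h1, sq_sqrt h2]

theorem bdd (h : IsH1 f g) : ∃ B, 0 ≤ B ∧ ∀ x, |f x| ≤ B := by
  refine ⟨√((∫ y, f y ^ 2) + ∫ y, g y ^ 2), sqrt_nonneg _, fun x => ?_⟩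
  rw [← sqrt_sq_eq_abs]
  exact sqrt_le_sqrt (h.sq_le_add x)

theorem add (h : IsH1 f g) (h₂ : IsH1 f₂ g₂) :
    IsH1 (fun x => f x + f₂ x) (fun x => g x + g₂ x) where
  mem := h.mem.add h₂.mem
  mem' := h.mem'.add h₂.mem'
  ftc x y := by
    rw [intervalIntegral.integral_add (h.iint _ _) (h₂.iint _ _), ← h.ftc, ← h₂.ftc]
    ring

theorem neg (h : IsH1 f g) : IsH1 (fun x => - f x) (fun x => - g x) where
  mem := h.mem.neg
  mem' := h.mem'.neg
  ftc x y := by
    rw [intervalIntegral.integral_neg, ← h.ftc]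
    ring

theorem sub (h : IsH1 f g) (h₂ : IsH1 f₂ g₂) :
    IsH1 (fun x => f x - f₂ x) (fun x => g x - g₂ x) := by
  simpa [sub_eq_add_neg] using h.add h₂.neg

theorem const_mul (h : IsH1 f g) (c : ℝ) : IsH1 (fun x => c * f x) (fun x => c * g x) where
  mem := h.mem.const_mul c
  mem' := h.mem'.const_mul c
  ftc x y := by
    rw [intervalIntegral.integral_const_mul, ← h.ftc]
    ring

end IsH1

end Pool.Agent.Helper44.Gkdv
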