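import Pool.Agent.Helper44.Gkdv.H1

set_option autoImplicit false
set_option maxHeartbeats 4000000

open MeasureTheory Set Filter Topology Real
open scoped ENNReal

namespace Pool.Agent.Helper44.Gkdv

theorem intw {μ : Measure ℝ} {F φ : ℝ → ℝ} {C : ℝ} (hF : Integrable F μ) (hφ : Continuous φ)
    (hb : ∀ x, |φ x| ≤ C) : Integrable (fun x => F x * φ x) μ := by
  have := hF.bdd_mul (c := C) hφ.aestronglyMeasurable (ae_of_all _ fun x => by
    simpa [norm_eq_abs] using hb x)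
  exact this.congr (ae_of_all _ fun x => mul_comm _ _)

theorem intw' {μ : Measure ℝ} {F φ : ℝ → ℝ} {C : ℝ} (hF : Integrable F μ)
    (hφ : AEStronglyMeasurable φ μ)
    (hb : ∀ x, |φ x| ≤ C) : Integrable (fun x => F x * φ x) μ := by
  have := hF.bdd_mul (c := C) hφ (ae_of_all _ fun x => by
    simpa [norm_eq_abs] using hb x)
  exact this.congr (ae_of_all _ fun x => mul_comm _ _)

theorem abs_intw_le {μ : Measure ℝ} {F φ : ℝ → ℝ} {C : ℝ} (hF : Integrable F μ)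
    (hb : ∀ x, |φ x| ≤ C) : |∫ x, F x * φ x ∂μ| ≤ C * ∫ x, |F x| ∂μ := by
  refine (abs_integral_le_integral_abs).trans ?_
  rw [← integral_const_mul]
  refine integral_mono_of_nonneg (ae_of_all _ fun x => abs_nonneg _) (hF.abs.const_mul C)
    (ae_of_all _ fun x => ?_)
  simp only
  rw [abs_mul, mul_comm]
  exact mul_le_mul_of_nonneg_right (hb x) (abs_nonneg _)

namespace IsH1

variable {f g a b : ℝ → ℝ}

theorem pow_int (h : IsH1 f g) {k : ℕ} (hk : 2 ≤ k) : Integrable (fun x => f x ^ k) := by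
  obtain ⟨B, hB, hb⟩ := h.bdd
  have h1 : Integrable (fun x => f x ^ 2 * f x ^ (k - 2)) := by
    refine intw (C := B ^ (k - 2)) h.mem.integrable_sq (h.cont.pow _) (fun x => ?_)
    rw [abs_pow]
    exact pow_le_pow_left₀ (abs_nonneg _) (hb x) _
  refine h1.congr (ae_of_all _ fun x => ?_)
  simp only
  rw [← pow_add, Nat.add_sub_cancel' hk]

/-- the total `H^1` size -/
theorem abs_le_of_le (h : IsH1 f g) {K : ℝ} (hK : (∫ y, f y ^ 2) + ∫ y, g y ^ 2 ≤ K) (x : ℝ) :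
    |f x| ≤ √K := by
  rw [← sqrt_sq_eq_abs]
  exact sqrt_le_sqrt ((h.sq_le_add x).trans hK)

theorem comp_int (h : IsH1 f g) {K L : ℝ} (hK : (∫ y, f y ^ 2) + ∫ y, g y ^ 2 ≤ K) {F : ℝ → ℝ}
    (hF : Continuous F) (hF0 : F 0 = 0)
    (hL : ∀ y z, |y| ≤ √K → |z| ≤ √K → |F y - F z| ≤ L * (|y - z| * (|y| + |z|))) :
    Integrable (fun x => F (f x)) := by
  refine (h.mem.integrable_sq.const_mul L).mono'
    ((hF.comp h.cont).aestronglyMeasurable) (ae_of_all _ fun x => ?_)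
  have := hL (f x) 0 (h.abs_le_of_le hK x) (by simp)
  rw [hF0] at this
  simp only [sub_zero, abs_zero, add_zero] at this
  rw [norm_eq_abs]
  refine this.trans (le_of_eq ?_)
  rw [← sq_abs (f x)]
  ring

/-- Lipschitz dependence of weighted integrals. -/
theorem lip (h : IsH1 f g) (h' : IsH1 a b) {K L ε C : ℝ} (hL0 : 0 ≤ L) (hC0 : 0 ≤ C)
    (hK : (∫ y, f y ^ 2) + ∫ y, g y ^ 2 ≤ K)
    (hK' : (∫ y, a y ^ 2) + ∫ y, b y ^ 2 ≤ K)
    (hε : ∫ y, (f y - a y) ^ 2 ≤ ε) {F φ : ℝ → ℝ}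
    (hF : Continuous F) (hF0 : F 0 = 0)
    (hL : ∀ y z, |y| ≤ √K → |z| ≤ √K → |F y - F z| ≤ L * (|y - z| * (|y| + |z|)))
    (hφ : Continuous φ) (hφb : ∀ x, |φ x| ≤ C) :
    |(∫ x, F (f x) * φ x) - ∫ x, F (a x) * φ x| ≤ C * L * (2 * (√K * √ε)) := by
  have i1 := h.comp_int hK hF hF0 hL
  have i2 := h'.comp_int hK' hF hF0 hL
  rw [← integral_sub (intw i1 hφ hφb) (intw i2 hφ hφb)]
  have e1 : ∀ x, F (f x) * φ x - F (a x) * φ x = (F (f x) - F (a x)) * φ x := fun x => by ring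
  simp only [e1]
  refine (abs_intw_le (i1.sub i2) hφb).trans ?_
  have hd := (h.sub h')
  have c1 := cs hd.mem h.mem
  have c2 := cs hd.mem h'.mem
  have f1 : ∫ x, |F (f x) - F (a x)| ≤
      ∫ x, (L * |(f x - a x) * f x| + L * |(f x - a x) * a x|) := by
    refine integral_mono (i1.sub i2).abs
      (((mul_int hd.mem h.mem).abs.const_mul L).add ((mul_int hd.mem h'.mem).abs.const_mul L))
      (fun x => ?_)
    simp only [Pi.sub_apply]
    refine (hL _ _ (h.abs_le_of_le hK x) (h'.abs_le_of_le hK' x)).trans (le_of_eq ?_)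
    rw [abs_mul, abs_mul]
    ring
  rw [integral_add ((mul_int hd.mem h.mem).abs.const_mul L)
    ((mul_int hd.mem h'.mem).abs.const_mul L), integral_const_mul, integral_const_mul] at f1
  have g1 : ∫ y, f y ^ 2 ≤ K := by
    have : 0 ≤ ∫ y, g y ^ 2 := integral_nonneg fun y => sq_nonneg _
    linarith
  have g2 : ∫ y, a y ^ 2 ≤ K := by
    have : 0 ≤ ∫ y, b y ^ 2 := integral_nonneg fun y => sq_nonneg _
    linarith
  have k1 : ∫ x, |(f x - a x) * f x| ≤ √ε * √K :=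
    c1.trans (mul_le_mul (sqrt_le_sqrt hε) (sqrt_le_sqrt g1) (sqrt_nonneg _) (sqrt_nonneg _))
  have k2 : ∫ x, |(f x - a x) * a x| ≤ √ε * √K :=
    c2.trans (mul_le_mul (sqrt_le_sqrt hε) (sqrt_le_sqrt g2) (sqrt_nonneg _) (sqrt_nonneg _))
  have f2 : ∫ x, |F (f x) - F (a x)| ≤ L * (√ε * √K) + L * (√ε * √K) :=
    f1.trans (add_le_add (mul_le_mul_of_nonneg_left k1 hL0) (mul_le_mul_of_nonneg_left k2 hL0))
  calc C * ∫ x, |F (f x) - F (a x)| ≤ C * (L * (√ε * √K) + L * (√ε * √K)) :=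
        mul_le_mul_of_nonneg_left f2 hC0
    _ = _ := by ring

/-- the same for squares of `L²` functions. -/
theorem _root_.Pool.Agent.Helper44.Gkdv.lip_sq {f a φ : ℝ → ℝ} (hf : MemLp f 2 volume)
    (ha : MemLp a 2 volume) {K ε C : ℝ} (hC0 : 0 ≤ C)
    (hK : ∫ y, f y ^ 2 ≤ K) (hK' : ∫ y, a y ^ 2 ≤ K)
    (hε : ∫ y, (f y - a y) ^ 2 ≤ ε) (hφ : Continuous φ) (hφb : ∀ x, |φ x| ≤ C) :
    |(∫ x, f x ^ 2 * φ x) - ∫ x, a x ^ 2 * φ x| ≤ C * (2 * (√K * √ε)) := by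
  rw [← integral_sub (intw hf.integrable_sq hφ hφb) (intw ha.integrable_sq hφ hφb)]
  have e1 : ∀ x, f x ^ 2 * φ x - a x ^ 2 * φ x = (f x ^ 2 - a x ^ 2) * φ x := fun x => by ring
  simp only [e1]
  refine (abs_intw_le (hf.integrable_sq.sub ha.integrable_sq) hφb).trans ?_
  have hd := hf.sub ha
  have c1 := cs hd hf
  have c2 := cs hd ha
  simp only [Pi.sub_apply] at c1 c2
  have f1 : ∫ x, |f x ^ 2 - a x ^ 2| ≤
      ∫ x, (|(f x - a x) * f x| + |(f x - a x) * a x|) := by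
    refine integral_mono (hf.integrable_sq.sub ha.integrable_sq).abs
      ((mul_int hd hf).abs.add (mul_int hd ha).abs)
      (fun x => ?_)
    simp only [Pi.sub_apply]
    rw [show f x ^ 2 - a x ^ 2 = (f x - a x) * f x + (f x - a x) * a x by ring]
    exact abs_add_le _ _
  have f3 := integral_add (mul_int hd hf).abs (mul_int hd ha).abs
  simp only [Pi.sub_apply] at f3
  rw [f3] at f1
  have k1 : ∫ x, |(f x - a x) * f x| ≤ √ε * √K :=
    c1.trans (mul_le_mul (sqrt_le_sqrt hε) (sqrt_le_sqrt hK) (sqrt_nonneg _) (sqrt_nonneg _))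
  have k2 : ∫ x, |(f x - a x) * a x| ≤ √ε * √K :=
    c2.trans (mul_le_mul (sqrt_le_sqrt hε) (sqrt_le_sqrt hK') (sqrt_nonneg _) (sqrt_nonneg _))
  calc C * ∫ x, |f x ^ 2 - a x ^ 2| ≤ C * (√ε * √K + √ε * √K) :=
        mul_le_mul_of_nonneg_left (f1.trans (add_le_add k1 k2)) hC0
    _ = _ := by ring

/-- weighted sup bound: for a nondecreasing weight `ψ`, `0 ≤ ψ ≤ 1`, vanishing on `(-∞, p]`. -/
theorem sup_w (h : IsH1 f g) {ψ : ℝ → ℝ} {p : ℝ} (hm : Monotone ψ) (hc : Continuous ψ)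
    (h0 : ∀ x ≤ p, ψ x = 0) (h1 : ∀ x, ψ x ≤ 1) (x : ℝ) :
    f x ^ 2 * √(ψ x) ≤ 2 * (√(∫ y in Ioi p, f y ^ 2) * √(∫ y, g y ^ 2 * ψ y)) := by
  have hnn : ∀ x, 0 ≤ ψ x := by
    intro x
    rcases le_total x p with hx | hx
    · rw [h0 x hx]
    · rw [← h0 p le_rfl]; exact hm hx
  have hab : ∀ x, |√(ψ x)| ≤ 1 := fun x => by
    rw [abs_of_nonneg (sqrt_nonneg _)]
    exact sqrt_le_one.2 (h1 x)
  rcases le_total x p with hx | hx
  · rw [h0 x hx, sqrt_zero, mul_zero]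
    positivity
  have hgm : MemLp (fun y => g y * √(ψ y)) 2 (volume.restrict (Ioi p)) := by
    have : MemLp (fun y => √(ψ y) * g y) 2 (volume.restrict (Ioi p)) := by
      have := (h.mem'.restrict (Ioi p))
      refine MemLp.of_le this ((hc.sqrt.aestronglyMeasurable).mul this.1)
        (ae_of_all _ fun y => ?_)
      rw [norm_mul, norm_eq_abs, norm_eq_abs]
      calc |√(ψ y)| * |g y| ≤ 1 * |g y| := mul_le_mul_of_nonneg_right (hab y) (abs_nonneg _)
        _ = |g y| := one_mul _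
    simpa [mul_comm] using this
  have c1 := cs (μ := volume.restrict (Ioi p)) (h.mem.restrict _) hgm
  have e1 : ∀ y, (g y * √(ψ y)) ^ 2 = g y ^ 2 * ψ y := fun y => by
    rw [mul_pow, sq_sqrt (hnn y)]
  simp only [e1] at c1
  have c2 : ∫ y in Ioi p, g y ^ 2 * ψ y ≤ ∫ y, g y ^ 2 * ψ y := by
    refine setIntegral_le_integral (intw h.mem'.integrable_sq hc (C := 1) (fun y => ?_))
      (ae_of_all _ fun y => mul_nonneg (sq_nonneg _) (hnn y))
    rw [abs_of_nonneg (hnn y)]; exact h1 y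
  have c3 : (∫ y in Ioi x, |f y * g y|) * √(ψ x) ≤ ∫ y in Ioi p, |f y * (g y * √(ψ y))| := by
    rw [← integral_mul_const]
    have i1 : IntegrableOn (fun y => |f y * (g y * √(ψ y))|) (Ioi p) :=
      (mul_int (h.mem.restrict _) hgm).abs
    calc ∫ y in Ioi x, |f y * g y| * √(ψ x) ≤ ∫ y in Ioi x, |f y * (g y * √(ψ y))| := by
          refine setIntegral_mono_on ((mul_int h.mem h.mem').abs.mul_const _).integrableOn
            (i1.mono_set (Ioi_subset_Ioi hx)) measurableSet_Ioi (fun y hy => ?_)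
          rw [← mul_assoc, abs_mul (f y * g y), abs_of_nonneg (sqrt_nonneg (ψ y))]
          exact mul_le_mul_of_nonneg_left (sqrt_le_sqrt (hm (le_of_lt hy))) (abs_nonneg _)
      _ ≤ _ := setIntegral_mono_set i1 (ae_of_all _ fun y => abs_nonneg _)
          (Ioi_subset_Ioi hx).eventuallyLE
  calc f x ^ 2 * √(ψ x) ≤ (2 * ∫ y in Ioi x, |f y * g y|) * √(ψ x) :=
        mul_le_mul_of_nonneg_right (h.sq_le x) (sqrt_nonneg _)
    _ = 2 * ((∫ y in Ioi x, |f y * g y|) * √(ψ x)) := by ring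
    _ ≤ 2 * (√(∫ y in Ioi p, f y ^ 2) * √(∫ y in Ioi p, g y ^ 2 * ψ y)) := by
        linarith [c3.trans c1]
    _ ≤ _ := by gcongr

/-- weighted sixth power bound. -/
theorem six_w (h : IsH1 f g) {ψ : ℝ → ℝ} {p : ℝ} (hm : Monotone ψ) (hc : Continuous ψ)
    (h0 : ∀ x ≤ p, ψ x = 0) (h1 : ∀ x, ψ x ≤ 1) :
    ∫ x, f x ^ 6 * ψ x ≤ 4 * (∫ y in Ioi p, f y ^ 2) ^ 2 * ∫ y, g y ^ 2 * ψ y := by
  have hnn : ∀ x, 0 ≤ ψ x := by
    intro x
    rcases le_total x p with hx | hx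
    · rw [h0 x hx]
    · rw [← h0 p le_rfl]; exact hm hx
  have hab : ∀ x, |ψ x| ≤ 1 := fun x => by
    rw [abs_of_nonneg (hnn x)]; exact h1 x
  set A := ∫ y in Ioi p, f y ^ 2 with hA
  set G := ∫ y, g y ^ 2 * ψ y with hG
  have hA0 : 0 ≤ A := integral_nonneg fun y => sq_nonneg _
  have hG0 : 0 ≤ G := integral_nonneg fun y => mul_nonneg (sq_nonneg _) (hnn y)
  have key : ∀ x, f x ^ 6 * ψ x ≤ 4 * (A * G) * (Ioi p).indicator (fun y => f y ^ 2) x := by
    intro x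
    rcases le_or_gt x p with hx | hx
    · rw [h0 x hx, mul_zero, indicator_of_notMem (by simpa using hx), mul_zero]
    · rw [indicator_of_mem (by simpa using hx)]
      have hs := h.sup_w hm hc h0 h1 x
      have hs2 : (f x ^ 2 * √(ψ x)) ^ 2 ≤ (2 * (√A * √G)) ^ 2 :=
        pow_le_pow_left₀ (mul_nonneg (sq_nonneg _) (sqrt_nonneg _)) hs 2
      have e1 : (f x ^ 2 * √(ψ x)) ^ 2 = f x ^ 4 * ψ x := by
        rw [mul_pow, sq_sqrt (hnn x)]; ring
      have e2 : (2 * (√A * √G)) ^ 2 = 4 * (A * G) := by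
        rw [mul_pow, mul_pow, sq_sqrt hA0, sq_sqrt hG0]; ring
      rw [e1, e2] at hs2
      calc f x ^ 6 * ψ x = (f x ^ 4 * ψ x) * f x ^ 2 := by ring
        _ ≤ _ := mul_le_mul_of_nonneg_right hs2 (sq_nonneg _)
  calc ∫ x, f x ^ 6 * ψ x ≤ ∫ x, 4 * (A * G) * (Ioi p).indicator (fun y => f y ^ 2) x := by
        refine integral_mono (intw (h.pow_int (by norm_num)) hc hab)
          ((h.mem.integrable_sq.indicator measurableSet_Ioi).const_mul _) key
    _ = 4 * (A * G) * A := by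
        rw [integral_const_mul, integral_indicator measurableSet_Ioi]
    _ = _ := by ring

/-- global sixth power bound -/
theorem six (h : IsH1 f g) : ∫ x, f x ^ 6 ≤ 4 * (∫ y, f y ^ 2) ^ 2 * ∫ y, g y ^ 2 := by
  set A := ∫ y, f y ^ 2 with hA
  set G := ∫ y, g y ^ 2 with hG
  have hA0 : 0 ≤ A := integral_nonneg fun y => sq_nonneg _
  have hG0 : 0 ≤ G := integral_nonneg fun y => sq_nonneg _
  have key : ∀ x, f x ^ 6 ≤ 4 * (A * G) * f x ^ 2 := by
    intro x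
    have hs := h.sq_le_glob x
    have hs2 : (f x ^ 2) ^ 2 ≤ (2 * (√A * √G)) ^ 2 := pow_le_pow_left₀ (sq_nonneg _) hs 2
    have e2 : (2 * (√A * √G)) ^ 2 = 4 * (A * G) := by
      rw [mul_pow, mul_pow, sq_sqrt hA0, sq_sqrt hG0]; ring
    rw [e2] at hs2
    calc f x ^ 6 = (f x ^ 2) ^ 2 * f x ^ 2 := by ring
      _ ≤ _ := mul_le_mul_of_nonneg_right hs2 (sq_nonneg _)
  calc ∫ x, f x ^ 6 ≤ ∫ x, 4 * (A * G) * f x ^ 2 :=
        integral_mono (h.pow_int (by norm_num)) (h.mem.integrable_sq.const_mul _) key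
    _ = 4 * (A * G) * A := by rw [integral_const_mul]
    _ = _ := by ring

end IsH1

end Pool.Agent.Helper44.Gkdv
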