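import Pool.Agent.Helper44.Gkdv.Smooth

set_option autoImplicit false
set_option maxHeartbeats 4000000

open MeasureTheory Set Filter Topology Real
open scoped ENNReal ContDiff

namespace Pool.Agent.Helper44.Gkdv

def Dec (τ : ℝ) (f : ℝ → ℝ → ℝ) : Prop :=
  ∃ C, 0 ≤ C ∧ ∀ t ∈ Icc 0 τ, ∀ x, |f t x| ≤ C * (1 + x ^ 2)⁻¹

namespace Dec

variable {τ : ℝ} {f g : ℝ → ℝ → ℝ}

theorem mk' {C : ℝ} (h : ∀ t ∈ Icc 0 τ, ∀ x, |f t x| ≤ C * (1 + x ^ 2)⁻¹) : Dec τ f := by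
  refine ⟨|C|, abs_nonneg _, fun t ht x => (h t ht x).trans ?_⟩
  exact mul_le_mul_of_nonneg_right (le_abs_self _) (by positivity)

theorem add (hf : Dec τ f) (hg : Dec τ g) : Dec τ (fun t x => f t x + g t x) := by
  obtain ⟨C, hC, h⟩ := hf
  obtain ⟨D, hD, h'⟩ := hg
  refine ⟨C + D, by positivity, fun t ht x => ?_⟩
  calc |f t x + g t x| ≤ |f t x| + |g t x| := abs_add_le _ _
    _ ≤ _ := by rw [add_mul]; exact add_le_add (h t ht x) (h' t ht x)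

theorem neg (hf : Dec τ f) : Dec τ (fun t x => - f t x) := by
  obtain ⟨C, hC, h⟩ := hf
  exact ⟨C, hC, fun t ht x => by rw [abs_neg]; exact h t ht x⟩

theorem sub (hf : Dec τ f) (hg : Dec τ g) : Dec τ (fun t x => f t x - g t x) := by
  simpa [sub_eq_add_neg] using hf.add hg.neg

theorem mul (hf : Dec τ f) (hg : Dec τ g) : Dec τ (fun t x => f t x * g t x) := by
  obtain ⟨C, hC, h⟩ := hf
  obtain ⟨D, hD, h'⟩ := hg
  refine ⟨C * D, by positivity, fun t ht x => ?_⟩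
  have h1 : (1 + x ^ 2)⁻¹ ≤ 1 := inv_le_one_of_one_le₀ (by nlinarith [sq_nonneg x])
  have h0 : 0 ≤ (1 + x ^ 2)⁻¹ := by positivity
  rw [abs_mul]
  calc |f t x| * |g t x| ≤ (C * (1 + x ^ 2)⁻¹) * (D * (1 + x ^ 2)⁻¹) :=
        mul_le_mul (h t ht x) (h' t ht x) (abs_nonneg _) (by positivity)
    _ = C * D * (1 + x ^ 2)⁻¹ * (1 + x ^ 2)⁻¹ := by ring
    _ ≤ C * D * (1 + x ^ 2)⁻¹ * 1 := mul_le_mul_of_nonneg_left h1 (by positivity)
    _ = _ := mul_one _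

theorem cmul (c : ℝ) (hf : Dec τ f) : Dec τ (fun t x => c * f t x) := by
  obtain ⟨C, hC, h⟩ := hf
  refine ⟨|c| * C, by positivity, fun t ht x => ?_⟩
  rw [abs_mul, mul_assoc]
  exact mul_le_mul_of_nonneg_left (h t ht x) (abs_nonneg _)

theorem congr (hf : Dec τ f) (h : ∀ t x, g t x = f t x) : Dec τ g := by
  have : g = f := by funext t x; exact h t x
  rwa [this]

theorem pow (hf : Dec τ f) (k : ℕ) : Dec τ (fun t x => f t x ^ (k + 1)) := by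
  induction k with
  | zero => simpa using hf
  | succ k ih => exact (ih.mul hf).congr (fun t x => by ring)

theorem bmul {φ : ℝ → ℝ} {B : ℝ} (hf : Dec τ f) (hb : ∀ x, |φ x| ≤ B) :
    Dec τ (fun t x => f t x * φ x) := by
  obtain ⟨C, hC, h⟩ := hf
  have hB : 0 ≤ B := (abs_nonneg _).trans (hb 0)
  refine ⟨C * B, by positivity, fun t ht x => ?_⟩
  rw [abs_mul]
  calc |f t x| * |φ x| ≤ (C * (1 + x ^ 2)⁻¹) * B :=
        mul_le_mul (h t ht x) (hb x) (abs_nonneg _) (by positivity)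
    _ = _ := by ring

end Dec

theorem law' {τ : ℝ} {e et P G : ℝ → ℝ → ℝ}
    (he : ∀ t ∈ Icc 0 τ, ∀ x, HasDerivAt (fun s => e s x) (et t x) t)
    (hG : ∀ t ∈ Icc 0 τ, ∀ x, HasDerivAt (G t) (et t x - P t x) x)
    (be : Dec τ e) (bet : Dec τ et) (bP : Dec τ P) (bG : Dec τ G)
    (ce : ∀ t ∈ Icc 0 τ, Continuous (e t)) (cet : ∀ t ∈ Icc 0 τ, Continuous (et t))
    (cP : ∀ t ∈ Icc 0 τ, Continuous (P t))
    (cPt : ∀ x, ContinuousOn (fun t => P t x) (Icc 0 τ))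
    {a b : ℝ} (ha : 0 ≤ a) (hab : a ≤ b) (hb : b ≤ τ) :
    (∫ x, e b x) - ∫ x, e a x = ∫ s in a..b, ∫ x, P s x := by
  obtain ⟨C1, h1, b1⟩ := be
  obtain ⟨C2, h2, b2⟩ := bet
  obtain ⟨C3, h3, b3⟩ := bP
  obtain ⟨C4, h4, b4⟩ := bG
  have mono : ∀ (c C x y : ℝ), c ≤ C → y ≤ c * (1 + x ^ 2)⁻¹ → y ≤ C * (1 + x ^ 2)⁻¹ := by
    intro c C x y hc hy
    exact hy.trans (mul_le_mul_of_nonneg_right hc (by positivity))
  exact law (C := C1 + C2 + C3 + C4) he hG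
    (fun t ht x => mono C1 _ x _ (by linarith) (b1 t ht x))
    (fun t ht x => mono C2 _ x _ (by linarith) (b2 t ht x))
    (fun t ht x => mono C3 _ x _ (by linarith) (b3 t ht x))
    (fun t ht x => mono C4 _ x _ (by linarith) (b4 t ht x)) ce cet cP cPt ha hab hb

/-- weights with three bounded derivatives -/
structure Cut (φ φ1 φ2 φ3 : ℝ → ℝ) (B : ℝ) : Prop where
  d0 : ∀ x, HasDerivAt φ (φ1 x) x
  d1 : ∀ x, HasDerivAt φ1 (φ2 x) x
  d2 : ∀ x, HasDerivAt φ2 (φ3 x) x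
  c3 : Continuous φ3
  b0 : ∀ x, |φ x| ≤ B
  b1 : ∀ x, |φ1 x| ≤ B
  b2 : ∀ x, |φ2 x| ≤ B
  b3 : ∀ x, |φ3 x| ≤ B

namespace Cut
variable {φ φ1 φ2 φ3 : ℝ → ℝ} {B : ℝ}
theorem c0 (h : Cut φ φ1 φ2 φ3 B) : Continuous φ :=
  continuous_iff_continuousAt.2 fun x => (h.d0 x).continuousAt
theorem c1 (h : Cut φ φ1 φ2 φ3 B) : Continuous φ1 :=
  continuous_iff_continuousAt.2 fun x => (h.d1 x).continuousAt
theorem c2 (h : Cut φ φ1 φ2 φ3 B) : Continuous φ2 :=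
  continuous_iff_continuousAt.2 fun x => (h.d2 x).continuousAt
end Cut

namespace SD

variable {τ : ℝ} {W Wt : ℕ → ℝ → ℝ → ℝ} {φ φ1 φ2 φ3 : ℝ → ℝ} {B : ℝ}

theorem Dec' (h : SD τ W Wt) (k : ℕ) : Dec τ (W k) := by
  obtain ⟨C, hC⟩ := h.dec k
  exact Dec.mk' hC

theorem cx (h : SD τ W Wt) (k : ℕ) (t : ℝ) : Continuous (W k t) :=
  (h.cont k).comp (Continuous.prodMk continuous_const continuous_id)

theorem ct (h : SD τ W Wt) (k : ℕ) (x : ℝ) : Continuous (fun t => W k t x) :=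
  (h.cont k).comp (Continuous.prodMk continuous_id continuous_const)

/-- weak form of the equation -/
theorem lin_law (h : SD τ W Wt) (hφ : Cut φ φ1 φ2 φ3 B) {a b : ℝ} (ha : 0 ≤ a) (hab : a ≤ b)
    (hb : b ≤ τ) :
    (∫ x, W 0 b x * φ x) - ∫ x, W 0 a x * φ x =
      ∫ s in a..b, ∫ x, (W 0 s x ^ 5 * φ1 x + W 0 s x * φ3 x) := by
  have D := h.Dec'
  refine law' (τ := τ) (e := fun t x => W 0 t x * φ x)
    (et := fun t x => -(W 3 t x + 5 * W 0 t x ^ 4 * W 1 t x) * φ x)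
    (P := fun t x => W 0 t x ^ 5 * φ1 x + W 0 t x * φ3 x)
    (G := fun t x => -(W 2 t x + W 0 t x ^ 5) * φ x + W 1 t x * φ1 x - W 0 t x * φ2 x)
    ?_ ?_ ?_ ?_ ?_ ?_ ?_ ?_ ?_ ?_ ha hab hb
  · intro t ht x
    have := (h.dt 0 t x).mul_const (φ x)
    rwa [h.eq0 t ht x] at this
  · intro t ht x
    have := ((((h.dx 2 t x).add ((h.dx 0 t x).pow 5)).neg.mul (hφ.d0 x)).add
      ((h.dx 1 t x).mul (hφ.d1 x))).sub ((h.dx 0 t x).mul (hφ.d2 x))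
    refine this.congr_deriv ?_
    simp only [Nat.cast_ofNat, Pi.pow_apply, Pi.add_apply, Pi.neg_apply]
    ring
  · exact (D 0).bmul hφ.b0
  · exact (((D 3).add (((D 0).pow 3).mul (D 1) |>.cmul 5)).neg.bmul hφ.b0).congr
      (fun t x => by ring)
  · exact (((D 0).pow 4).bmul hφ.b1).add ((D 0).bmul hφ.b3)
  · exact ((((D 2).add ((D 0).pow 4)).neg.bmul hφ.b0).add ((D 1).bmul hφ.b1)).sub
      ((D 0).bmul hφ.b2)
  · intro t ht
    exact (h.cx 0 t).mul hφ.c0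
  · intro t ht
    exact (((h.cx 3 t).add ((continuous_const.mul ((h.cx 0 t).pow 4)).mul (h.cx 1 t))).neg).mul hφ.c0
  · intro t ht
    exact (((h.cx 0 t).pow 5).mul hφ.c1).add ((h.cx 0 t).mul hφ.c3)
  · intro x
    exact ((((h.ct 0 x).pow 5).mul continuous_const).add
      ((h.ct 0 x).mul continuous_const)).continuousOn

/-- local mass identity -/
theorem mass_law (h : SD τ W Wt) (hφ : Cut φ φ1 φ2 φ3 B) {a b : ℝ} (ha : 0 ≤ a) (hab : a ≤ b)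
    (hb : b ≤ τ) :
    (∫ x, W 0 b x ^ 2 * φ x) - ∫ x, W 0 a x ^ 2 * φ x =
      ∫ s in a..b, ∫ x, ((5 / 3) * (W 0 s x ^ 6 * φ1 x) - 3 * (W 1 s x ^ 2 * φ1 x)
        + W 0 s x ^ 2 * φ3 x) := by
  have D := h.Dec'
  refine law' (τ := τ) (e := fun t x => W 0 t x ^ 2 * φ x)
    (et := fun t x => 2 * (W 0 t x * -(W 3 t x + 5 * W 0 t x ^ 4 * W 1 t x)) * φ x)
    (P := fun t x => (5 / 3) * (W 0 t x ^ 6 * φ1 x) - 3 * (W 1 t x ^ 2 * φ1 x)
        + W 0 t x ^ 2 * φ3 x)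
    (G := fun t x => (W 1 t x ^ 2 - 2 * (W 0 t x * W 2 t x) - (5 / 3) * W 0 t x ^ 6) * φ x
      + 2 * (W 0 t x * W 1 t x) * φ1 x - W 0 t x ^ 2 * φ2 x)
    ?_ ?_ ?_ ?_ ?_ ?_ ?_ ?_ ?_ ?_ ha hab hb
  · intro t ht x
    have := ((h.dt 0 t x).pow 2).mul_const (φ x)
    rw [h.eq0 t ht x] at this
    refine this.congr_deriv ?_
    simp only [Nat.cast_ofNat]
    ring
  · intro t ht x
    have := (((((h.dx 1 t x).pow 2).sub (((h.dx 0 t x).mul (h.dx 2 t x)).const_mul 2)).sub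
      (((h.dx 0 t x).pow 6).const_mul (5 / 3))).mul (hφ.d0 x)).add
      ((((h.dx 0 t x).mul (h.dx 1 t x)).const_mul 2).mul (hφ.d1 x)) |>.sub
      (((h.dx 0 t x).pow 2).mul (hφ.d2 x))
    refine this.congr_deriv ?_
    simp only [Nat.cast_ofNat, Pi.pow_apply, Pi.add_apply, Pi.neg_apply, Pi.sub_apply, Pi.mul_apply]
    ring
  · exact ((D 0).pow 1).bmul hφ.b0
  · exact (((D 0).mul ((D 3).add (((D 0).pow 3).mul (D 1) |>.cmul 5)).neg).cmul 2 |>.bmul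
      hφ.b0).congr (fun t x => by ring)
  · exact (((((D 0).pow 5).bmul hφ.b1).cmul (5 / 3)).sub ((((D 1).pow 1).bmul hφ.b1).cmul 3)).add
      (((D 0).pow 1).bmul hφ.b3)
  · exact ((((((D 1).pow 1).sub (((D 0).mul (D 2)).cmul 2)).sub (((D 0).pow 5).cmul (5 / 3))).bmul
      hφ.b0).add ((((D 0).mul (D 1)).cmul 2).bmul hφ.b1)).sub (((D 0).pow 1).bmul hφ.b2)
  · intro t ht
    exact ((h.cx 0 t).pow 2).mul hφ.c0
  · intro t ht
    exact (continuous_const.mul ((h.cx 0 t).mul (((h.cx 3 t).add ((continuous_const.mul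
      ((h.cx 0 t).pow 4)).mul (h.cx 1 t))).neg))).mul hφ.c0
  · intro t ht
    exact ((continuous_const.mul (((h.cx 0 t).pow 6).mul hφ.c1)).sub
      (continuous_const.mul (((h.cx 1 t).pow 2).mul hφ.c1))).add (((h.cx 0 t).pow 2).mul hφ.c3)
  · intro x
    exact (((continuous_const.mul (((h.ct 0 x).pow 6).mul continuous_const)).sub
      (continuous_const.mul (((h.ct 1 x).pow 2).mul continuous_const))).add
      (((h.ct 0 x).pow 2).mul continuous_const)).continuousOn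

/-- local energy identity -/
theorem energy_law (h : SD τ W Wt) (hφ : Cut φ φ1 φ2 φ3 B) {a b : ℝ} (ha : 0 ≤ a) (hab : a ≤ b)
    (hb : b ≤ τ) :
    (∫ x, (W 1 b x ^ 2 - (1 / 3) * W 0 b x ^ 6) * φ x) -
        ∫ x, (W 1 a x ^ 2 - (1 / 3) * W 0 a x ^ 6) * φ x =
      ∫ s in a..b, ∫ x, (-((W 2 s x + W 0 s x ^ 5) * (3 * W 2 s x + W 0 s x ^ 5)) * φ1 x
        + (W 1 s x ^ 2 + (1 / 3) * W 0 s x ^ 6) * φ3 x) := by
  have D := h.Dec'
  have D5 : Dec τ (fun t x => W 2 t x + W 0 t x ^ 5) := (D 2).add ((D 0).pow 4)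
  have D6 : Dec τ (fun t x => W 3 t x + 5 * W 0 t x ^ 4 * W 1 t x) :=
    ((D 3).add ((((D 0).pow 3).mul (D 1)).cmul 5)).congr (fun t x => by ring)
  have D7 : Dec τ (fun t x => W 4 t x + 20 * W 0 t x ^ 3 * W 1 t x ^ 2
      + 5 * W 0 t x ^ 4 * W 2 t x) :=
    (((D 4).add ((((D 0).pow 2).mul ((D 1).pow 1)).cmul 20)).add
      ((((D 0).pow 3).mul (D 2)).cmul 5)).congr (fun t x => by ring)
  refine law' (τ := τ) (e := fun t x => (W 1 t x ^ 2 - (1 / 3) * W 0 t x ^ 6) * φ x)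
    (et := fun t x => (2 * (W 1 t x * -(W 4 t x + 20 * W 0 t x ^ 3 * W 1 t x ^ 2
      + 5 * W 0 t x ^ 4 * W 2 t x)) - 2 * (W 0 t x ^ 5 * -(W 3 t x + 5 * W 0 t x ^ 4 * W 1 t x)))
        * φ x)
    (P := fun t x => -((W 2 t x + W 0 t x ^ 5) * (3 * W 2 t x + W 0 t x ^ 5)) * φ1 x
        + (W 1 t x ^ 2 + (1 / 3) * W 0 t x ^ 6) * φ3 x)
    (G := fun t x => (-2 * (W 1 t x * (W 3 t x + 5 * W 0 t x ^ 4 * W 1 t x))
        + (W 2 t x + W 0 t x ^ 5) ^ 2) * φ x + 2 * (W 1 t x * (W 2 t x + W 0 t x ^ 5)) * φ1 x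
      - (W 1 t x ^ 2 + (1 / 3) * W 0 t x ^ 6) * φ2 x)
    ?_ ?_ ?_ ?_ ?_ ?_ ?_ ?_ ?_ ?_ ha hab hb
  · intro t ht x
    have := ((((h.dt 1 t x).pow 2).sub (((h.dt 0 t x).pow 6).const_mul (1 / 3)))).mul_const (φ x)
    rw [h.eq0 t ht x, h.eq1 t ht x] at this
    refine this.congr_deriv ?_
    simp only [Nat.cast_ofNat]
    ring
  · intro t ht x
    have hW := (h.dx 2 t x).add ((h.dx 0 t x).pow 5)
    have hW' := (h.dx 3 t x).add ((((h.dx 0 t x).pow 4).const_mul 5).mul (h.dx 1 t x))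
    have := (((((h.dx 1 t x).mul hW').const_mul (-2)).add (hW.pow 2)).mul (hφ.d0 x)).add
      ((((h.dx 1 t x).mul hW).const_mul 2).mul (hφ.d1 x)) |>.sub
      ((((h.dx 1 t x).pow 2).add (((h.dx 0 t x).pow 6).const_mul (1 / 3))).mul (hφ.d2 x))
    refine this.congr_deriv ?_
    simp only [Nat.cast_ofNat, Pi.pow_apply, Pi.add_apply, Pi.neg_apply, Pi.sub_apply, Pi.mul_apply]
    ring
  · exact (((D 1).pow 1).sub (((D 0).pow 5).cmul (1 / 3))).bmul hφ.b0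
  · exact ((((D 1).mul D7.neg).cmul 2).sub ((((D 0).pow 4).mul D6.neg).cmul 2)).bmul hφ.b0
  · exact ((D5.mul (((D 2).cmul 3).add ((D 0).pow 4))).neg.bmul hφ.b1).add
      ((((D 1).pow 1).add (((D 0).pow 5).cmul (1 / 3))).bmul hφ.b3)
  · exact ((((((D 1).mul D6).cmul (-2)).add (D5.pow 1)).bmul hφ.b0).add
      ((((D 1).mul D5).cmul 2).bmul hφ.b1)).sub
      ((((D 1).pow 1).add (((D 0).pow 5).cmul (1 / 3))).bmul hφ.b2)
  · intro t ht
    exact ((((h.cx 1 t).pow 2).sub (continuous_const.mul ((h.cx 0 t).pow 6)))).mul hφ.c0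
  · intro t ht
    have c0 := h.cx 0 t
    have c1 := h.cx 1 t
    have c2 := h.cx 2 t
    have c3 := h.cx 3 t
    have c4 := h.cx 4 t
    have cφ := hφ.c0
    fun_prop
  · intro t ht
    have c0 := h.cx 0 t
    have c1 := h.cx 1 t
    have c2 := h.cx 2 t
    have cφ1 := hφ.c1
    have cφ3 := hφ.c3
    fun_prop
  · intro x
    have c0 := h.ct 0 x
    have c1 := h.ct 1 x
    have c2 := h.ct 2 x
    refine Continuous.continuousOn ?_
    fun_prop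

end SD

end Pool.Agent.Helper44.Gkdv
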