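import Pool.Agent.Helper44.Gkdv.H1

set_option autoImplicit false
set_option maxHeartbeats 4000000

open MeasureTheory Set Filter Topology Real
open scoped ENNReal

namespace Pool.Agent.Helper44.Gkdv

theorem int_dec : Integrable (fun x : ℝ => (1 + x ^ 2)⁻¹) := integrable_inv_one_add_sq

theorem int_of_dec {f : ℝ → ℝ} {C : ℝ} (hf : Continuous f) (hb : ∀ x, |f x| ≤ C * (1 + x ^ 2)⁻¹) :
    Integrable f :=
  (int_dec.const_mul C).mono' hf.aestronglyMeasurable (ae_of_all _ fun x => by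
    simpa [norm_eq_abs] using hb x)

theorem tendsto_dec_top (C : ℝ) : Tendsto (fun x : ℝ => C * (1 + x ^ 2)⁻¹) atTop (𝓝 0) := by
  have : Tendsto (fun x : ℝ => (1 + x ^ 2)⁻¹) atTop (𝓝 0) :=
    tendsto_inv_atTop_zero.comp (tendsto_atTop_add_const_left _ _ (tendsto_pow_atTop (by norm_num)))
  simpa using this.const_mul C

theorem tendsto_dec_bot (C : ℝ) : Tendsto (fun x : ℝ => C * (1 + x ^ 2)⁻¹) atBot (𝓝 0) := by
  have := (tendsto_dec_top C).comp tendsto_neg_atBot_atTop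
  refine this.congr (fun x => ?_)
  simp

theorem lim_of_dec_top {f : ℝ → ℝ} {C : ℝ} (hb : ∀ x, |f x| ≤ C * (1 + x ^ 2)⁻¹) :
    Tendsto f atTop (𝓝 0) :=
  squeeze_zero_norm (fun x => by simpa [norm_eq_abs] using hb x) (tendsto_dec_top C)

theorem lim_of_dec_bot {f : ℝ → ℝ} {C : ℝ} (hb : ∀ x, |f x| ≤ C * (1 + x ^ 2)⁻¹) :
    Tendsto f atBot (𝓝 0) :=
  squeeze_zero_norm (fun x => by simpa [norm_eq_abs] using hb x) (tendsto_dec_bot C)

/-- integral of a derivative of a decaying function -/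
theorem int_deriv_zero {G G' : ℝ → ℝ} {C : ℝ} (hG : ∀ x, HasDerivAt G (G' x) x)
    (hG' : Integrable G') (hb : ∀ x, |G x| ≤ C * (1 + x ^ 2)⁻¹) : ∫ x, G' x = 0 := by
  rw [integral_of_hasDerivAt_of_tendsto hG hG' (lim_of_dec_bot hb) (lim_of_dec_top hb), sub_zero]

/-- The integrated form of a local conservation law. -/
theorem law {τ C : ℝ} {e et P G : ℝ → ℝ → ℝ}
    (he : ∀ t ∈ Icc 0 τ, ∀ x, HasDerivAt (fun s => e s x) (et t x) t)
    (hG : ∀ t ∈ Icc 0 τ, ∀ x, HasDerivAt (G t) (et t x - P t x) x)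
    (be : ∀ t ∈ Icc 0 τ, ∀ x, |e t x| ≤ C * (1 + x ^ 2)⁻¹)
    (bet : ∀ t ∈ Icc 0 τ, ∀ x, |et t x| ≤ C * (1 + x ^ 2)⁻¹)
    (bP : ∀ t ∈ Icc 0 τ, ∀ x, |P t x| ≤ C * (1 + x ^ 2)⁻¹)
    (bG : ∀ t ∈ Icc 0 τ, ∀ x, |G t x| ≤ C * (1 + x ^ 2)⁻¹)
    (ce : ∀ t ∈ Icc 0 τ, Continuous (e t)) (cet : ∀ t ∈ Icc 0 τ, Continuous (et t))
    (cP : ∀ t ∈ Icc 0 τ, Continuous (P t))
    (cPt : ∀ x, ContinuousOn (fun t => P t x) (Icc 0 τ))
    {a b : ℝ} (ha : 0 ≤ a) (hab : a ≤ b) (hb : b ≤ τ) :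
    (∫ x, e b x) - ∫ x, e a x = ∫ s in a..b, ∫ x, P s x := by
  have sub : Icc a b ⊆ Icc 0 τ := Icc_subset_Icc ha hb
  have hiG : ∀ t ∈ Icc 0 τ, ∫ x, et t x = ∫ x, P t x := by
    intro t ht
    have h1 := int_deriv_zero (hG t ht) ((int_of_dec (cet t ht) (bet t ht)).sub
      (int_of_dec (cP t ht) (bP t ht))) (bG t ht)
    rw [integral_sub (int_of_dec (cet t ht) (bet t ht)) (int_of_dec (cP t ht) (bP t ht))] at h1
    linarith
  have hcont : ContinuousOn (fun t => ∫ x, e t x) (Icc a b) := by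
    refine continuousOn_of_dominated (bound := fun x => C * (1 + x ^ 2)⁻¹) ?_ ?_ ?_ ?_
    · intro t ht
      exact (ce t (sub ht)).aestronglyMeasurable
    · intro t ht
      exact ae_of_all _ fun x => by simpa [norm_eq_abs] using be t (sub ht) x
    · exact int_dec.const_mul C
    · exact ae_of_all _ fun x t ht => (he t (sub ht) x).continuousAt.continuousWithinAt
  have hcontP : ContinuousOn (fun t => ∫ x, P t x) (Icc a b) := by
    refine continuousOn_of_dominated (bound := fun x => C * (1 + x ^ 2)⁻¹) ?_ ?_ ?_ ?_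
    · intro t ht
      exact (cP t (sub ht)).aestronglyMeasurable
    · intro t ht
      exact ae_of_all _ fun x => by simpa [norm_eq_abs] using bP t (sub ht) x
    · exact int_dec.const_mul C
    · exact ae_of_all _ fun x => (cPt x).mono sub
  have hder : ∀ t ∈ Ioo a b, HasDerivWithinAt (fun t => ∫ x, e t x) (∫ x, P t x) (Ioi t) t := by
    intro t ht
    have htI : t ∈ Icc 0 τ := sub (Ioo_subset_Icc_self ht)
    have hsubI : Ioo a b ⊆ Icc 0 τ := fun s hs => sub (Ioo_subset_Icc_self hs)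
    have h1 := hasDerivAt_integral_of_dominated_loc_of_deriv_le (μ := volume)
      (F := fun t x => e t x) (F' := fun t x => et t x) (x₀ := t)
      (bound := fun x => C * (1 + x ^ 2)⁻¹) (s := Ioo a b) (Ioo_mem_nhds ht.1 ht.2) ?_ ?_ ?_ ?_ ?_ ?_
    · have h2 := h1.2
      rw [hiG t htI] at h2
      exact h2.hasDerivWithinAt
    · filter_upwards [Ioo_mem_nhds ht.1 ht.2] with s hs
      exact (ce s (hsubI hs)).aestronglyMeasurable
    · exact int_of_dec (ce t htI) (be t htI)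
    · exact (cet t htI).aestronglyMeasurable
    · exact ae_of_all _ fun x s hs => by simpa [norm_eq_abs] using bet s (hsubI hs) x
    · exact int_dec.const_mul C
    · exact ae_of_all _ fun x s hs => he s (hsubI hs) x
  have hint : IntervalIntegrable (fun t => ∫ x, P t x) volume a b := by
    rw [← uIcc_of_le hab] at hcontP
    exact hcontP.intervalIntegrable
  exact (intervalIntegral.integral_eq_sub_of_hasDeriv_right_of_le hab hcont hder hint).symm

end Pool.Agent.Helper44.Gkdv
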