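import Pool.Agent.Helper44.Gkdv.Ident
import Pool.Agent.Helper44.Gkdv.H1b

set_option autoImplicit false
set_option maxHeartbeats 4000000

open MeasureTheory Set Filter Topology Real
open scoped ENNReal ContDiff

namespace Pool.Agent.Helper44.Gkdv

/-- `u ∈ C([0,T), H^1)` is a solution: it is, on every compact subinterval, a uniform limit in
`H^1` of smooth rapidly decaying solutions. -/
structure H1Sol (T : ℝ) (u du : ℝ → ℝ → ℝ) : Prop where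
  h1 : ∀ t ∈ Ico 0 T, IsH1 (u t) (du t)
  approx : ∀ τ ∈ Ico 0 T, ∀ ε > 0, ∃ V, SmoothSol τ V ∧ ∀ t ∈ Icc 0 τ,
    (∫ x, (V t x - u t x) ^ 2) + ∫ x, (deriv (V t) x - du t x) ^ 2 ≤ ε

/-- `H^1` size. -/
noncomputable def sz (f g : ℝ → ℝ) : ℝ := (∫ y, f y ^ 2) + ∫ y, g y ^ 2

theorem sz_nonneg (f g : ℝ → ℝ) : 0 ≤ sz f g :=
  add_nonneg (integral_nonneg fun y => sq_nonneg _) (integral_nonneg fun y => sq_nonneg _)

/-- `H^1` distance squared. -/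
noncomputable def dst (f g a b : ℝ → ℝ) : ℝ := (∫ y, (f y - a y) ^ 2) + ∫ y, (g y - b y) ^ 2

theorem dst_l {f g a b : ℝ → ℝ} {ε : ℝ} (h : dst f g a b ≤ ε) : ∫ y, (f y - a y) ^ 2 ≤ ε := by
  have : 0 ≤ ∫ y, (g y - b y) ^ 2 := integral_nonneg fun y => sq_nonneg _
  unfold dst at h; linarith

theorem dst_r {f g a b : ℝ → ℝ} {ε : ℝ} (h : dst f g a b ≤ ε) : ∫ y, (g y - b y) ^ 2 ≤ ε := by
  have : 0 ≤ ∫ y, (f y - a y) ^ 2 := integral_nonneg fun y => sq_nonneg _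
  unfold dst at h; linarith

theorem int_sq_le_of_dst {f a : ℝ → ℝ} {μ : Measure ℝ} (hf : MemLp f 2 μ) (ha : MemLp a 2 μ) :
    ∫ y, f y ^ 2 ∂μ ≤ 2 * (∫ y, a y ^ 2 ∂μ) + 2 * ∫ y, (f y - a y) ^ 2 ∂μ := by
  have hd : MemLp (fun y => f y - a y) 2 μ := hf.sub ha
  rw [← integral_const_mul, ← integral_const_mul,
    ← integral_add (ha.integrable_sq.const_mul 2) (hd.integrable_sq.const_mul 2)]
  refine integral_mono hf.integrable_sq
    ((ha.integrable_sq.const_mul 2).add (hd.integrable_sq.const_mul 2)) (fun y => ?_)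
  simp only [Pi.add_apply]
  nlinarith [sq_nonneg (f y - 2 * a y)]

theorem sz_le_of_dst {f g a b : ℝ → ℝ} (h : IsH1 f g) (h' : IsH1 a b) :
    sz f g ≤ 2 * sz a b + 2 * dst f g a b := by
  have h1 := int_sq_le_of_dst h.mem h'.mem
  have h2 := int_sq_le_of_dst h.mem' h'.mem'
  unfold sz dst
  linarith

/-- functionals of an `H^1` function that are Lipschitz on bounded sets -/
def LipF (Φ : (ℝ → ℝ) → (ℝ → ℝ) → ℝ) : Prop :=
  ∀ K, ∃ L, 0 ≤ L ∧ ∀ f g a b ε, IsH1 f g → IsH1 a b → sz f g ≤ K → sz a b ≤ K →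
    dst f g a b ≤ ε → |Φ f g - Φ a b| ≤ L * √ε

namespace LipF

variable {Φ Ψ : (ℝ → ℝ) → (ℝ → ℝ) → ℝ}

theorem add (h : LipF Φ) (h' : LipF Ψ) : LipF (fun f g => Φ f g + Ψ f g) := by
  intro K
  obtain ⟨L, hL, h⟩ := h K
  obtain ⟨L', hL', h'⟩ := h' K
  refine ⟨L + L', by positivity, fun f g a b ε hf ha s1 s2 hd => ?_⟩
  have e : Φ f g + Ψ f g - (Φ a b + Ψ a b) = (Φ f g - Φ a b) + (Ψ f g - Ψ a b) := by ring
  rw [e, add_mul]
  exact (abs_add_le _ _).trans (add_le_add (h f g a b ε hf ha s1 s2 hd)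
    (h' f g a b ε hf ha s1 s2 hd))

theorem cmul (c : ℝ) (h : LipF Φ) : LipF (fun f g => c * Φ f g) := by
  intro K
  obtain ⟨L, hL, h⟩ := h K
  refine ⟨|c| * L, by positivity, fun f g a b ε hf ha s1 s2 hd => ?_⟩
  rw [← mul_sub, abs_mul, mul_assoc]
  exact mul_le_mul_of_nonneg_left (h f g a b ε hf ha s1 s2 hd) (abs_nonneg _)

theorem congr (h : LipF Φ) (he : ∀ f g, IsH1 f g → Ψ f g = Φ f g) : LipF Ψ := by
  intro K
  obtain ⟨L, hL, h⟩ := h K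
  refine ⟨L, hL, fun f g a b ε hf ha s1 s2 hd => ?_⟩
  rw [he f g hf, he a b ha]
  exact h f g a b ε hf ha s1 s2 hd

end LipF

theorem sqrt_abs_le {K y : ℝ} (h : |y| ≤ √K) : |y| ^ 2 ≤ |K| := by
  have h1 : |y| ^ 2 ≤ √K ^ 2 := pow_le_pow_left₀ (abs_nonneg _) h 2
  have h2 : √K ^ 2 ≤ |K| := by
    rcases le_total 0 K with hK | hK
    · rw [sq_sqrt hK]; exact le_abs_self _
    · rw [sqrt_eq_zero_of_nonpos hK]; simp
  exact h1.trans h2

theorem pow_lip (n : ℕ) (R : ℝ) (hR : 0 ≤ R) : ∀ y z : ℝ, |y| ≤ R → |z| ≤ R →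
    |y ^ (n + 2) - z ^ (n + 2)| ≤ ((n + 2) * R ^ n) * (|y - z| * (|y| + |z|)) := by
  induction n with
  | zero =>
    intro y z hy hz
    rw [show y ^ (0 + 2) - z ^ (0 + 2) = (y - z) * (y + z) by ring, abs_mul]
    have h1 := abs_add_le y z
    have h2 := mul_le_mul_of_nonneg_left h1 (abs_nonneg (y - z))
    have h3 : 0 ≤ |y - z| * (|y| + |z|) := by positivity
    simp only [CharP.cast_eq_zero, pow_zero, zero_add, mul_one]
    linarith
  | succ n ih =>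
    intro y z hy hz
    have e : y ^ (n + 1 + 2) - z ^ (n + 1 + 2) =
        y * (y ^ (n + 2) - z ^ (n + 2)) + z ^ (n + 2) * (y - z) := by ring
    rw [e]
    refine (abs_add_le _ _).trans ?_
    rw [abs_mul, abs_mul, abs_pow]
    have h1 := ih y z hy hz
    have h2 : |y| * |y ^ (n + 2) - z ^ (n + 2)| ≤
        R * (((n + 2) * R ^ n) * (|y - z| * (|y| + |z|))) :=
      mul_le_mul hy h1 (abs_nonneg _) hR
    have h3 : |z| ^ (n + 2) ≤ R ^ (n + 1) * |z| := by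
      rw [show n + 2 = (n + 1) + 1 by ring, pow_succ]
      exact mul_le_mul_of_nonneg_right (pow_le_pow_left₀ (abs_nonneg _) hz _) (abs_nonneg _)
    have h4 : |z| ^ (n + 2) * |y - z| ≤ R ^ (n + 1) * (|y - z| * (|y| + |z|)) := by
      calc |z| ^ (n + 2) * |y - z| ≤ (R ^ (n + 1) * |z|) * |y - z| :=
            mul_le_mul_of_nonneg_right h3 (abs_nonneg _)
        _ = R ^ (n + 1) * (|y - z| * |z|) := by ring
        _ ≤ _ := by
            refine mul_le_mul_of_nonneg_left ?_ (by positivity)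
            exact mul_le_mul_of_nonneg_left (by linarith [abs_nonneg y]) (abs_nonneg _)
    calc _ ≤ R * (((n + 2) * R ^ n) * (|y - z| * (|y| + |z|)))
          + R ^ (n + 1) * (|y - z| * (|y| + |z|)) := add_le_add h2 h4
      _ = _ := by push_cast; ring

theorem lipF_pow (n : ℕ) {φ : ℝ → ℝ} {C : ℝ} (hφ : Continuous φ) (hb : ∀ x, |φ x| ≤ C) :
    LipF (fun f _ => ∫ x, f x ^ (n + 2) * φ x) := by
  intro K
  have hC : 0 ≤ C := (abs_nonneg _).trans (hb 0)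
  refine ⟨C * ((n + 2) * √K ^ n) * (2 * √K), by positivity, ?_⟩
  intro f g a b ε hf ha s1 s2 hd
  have := hf.lip ha (L := (n + 2) * √K ^ n) (C := C) (by positivity) hC s1 s2 (dst_l hd)
    (F := fun y => y ^ (n + 2)) (φ := φ) (continuous_pow _) (by simp)
    (pow_lip n (√K) (sqrt_nonneg _)) hφ hb
  refine this.trans (le_of_eq ?_)
  ring

theorem lipF_gsq {φ : ℝ → ℝ} {C : ℝ} (hφ : Continuous φ) (hb : ∀ x, |φ x| ≤ C) :
    LipF (fun _ g => ∫ x, g x ^ 2 * φ x) := by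
  intro K
  have hC : 0 ≤ C := (abs_nonneg _).trans (hb 0)
  refine ⟨C * (2 * √K), by positivity, ?_⟩
  intro f g a b ε hf ha s1 s2 hd
  have g1 : ∫ y, g y ^ 2 ≤ K := by
    have : 0 ≤ ∫ y, f y ^ 2 := integral_nonneg fun y => sq_nonneg _
    unfold sz at s1; linarith
  have g2 : ∫ y, b y ^ 2 ≤ K := by
    have : 0 ≤ ∫ y, a y ^ 2 := integral_nonneg fun y => sq_nonneg _
    unfold sz at s2; linarith
  refine (lip_sq hf.mem' ha.mem' hC g1 g2 (dst_r hd) hφ hb).trans (le_of_eq ?_)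
  ring

theorem lipF_lin {φ : ℝ → ℝ} (hφ : MemLp φ 2 volume) :
    LipF (fun f _ => ∫ x, f x * φ x) := by
  intro K
  refine ⟨√(∫ x, φ x ^ 2), sqrt_nonneg _, ?_⟩
  intro f g a b ε hf ha s1 s2 hd
  rw [← integral_sub (mul_int hf.mem hφ) (mul_int ha.mem hφ)]
  have e : ∀ x, f x * φ x - a x * φ x = (f x - a x) * φ x := fun x => by ring
  simp only [e]
  refine (cs' (hf.mem.sub ha.mem) hφ).trans ?_
  rw [mul_comm]
  exact mul_le_mul_of_nonneg_left (sqrt_le_sqrt (dst_l hd)) (sqrt_nonneg _)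

theorem SD.isH1 {τ : ℝ} {W Wt : ℕ → ℝ → ℝ → ℝ} (h : SD τ W Wt) (k : ℕ) {t : ℝ}
    (ht : t ∈ Icc 0 τ) : IsH1 (W k t) (W (k + 1) t) := by
  have hm : ∀ k, MemLp (W k t) 2 volume := by
    intro k
    rw [memLp_two_iff_integrable_sq (h.cx k t).aestronglyMeasurable]
    obtain ⟨C, hC, hb⟩ := ((h.Dec' k).pow 1)
    exact int_of_dec ((h.cx k t).pow 2) (fun x => hb t ht x)
  refine ⟨hm k, hm (k + 1), fun x y => ?_⟩
  rw [intervalIntegral.integral_eq_sub_of_hasDerivAt (fun z _ => h.dx k t z)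
    ((h.cx (k + 1) t).intervalIntegrable _ _)]

theorem H1Sol.sd {T : ℝ} {u du : ℝ → ℝ → ℝ} (h : H1Sol T u du) {τ : ℝ} (hτ : τ ∈ Ico 0 T)
    {ε : ℝ} (hε : 0 < ε) : ∃ W Wt, SD τ W Wt ∧ ∀ t ∈ Icc 0 τ,
      dst (W 0 t) (W 1 t) (u t) (du t) ≤ ε := by
  obtain ⟨V, hV, hd⟩ := h.approx τ hτ ε hε
  refine ⟨_, _, hV.sd, fun t ht => ?_⟩
  have h1 := hd t ht
  have e : deriv (V t) = fun x => Wk V 1 (t, x) := by
    rw [← hV.iter 1 t, iteratedDeriv_one]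
  rw [e] at h1
  exact h1

/-- local boundedness in `H^1` -/
theorem H1Sol.bdd {T : ℝ} {u du : ℝ → ℝ → ℝ} (h : H1Sol T u du) {τ : ℝ} (hτ : τ ∈ Ico 0 T) :
    ∃ K, ∀ t ∈ Icc 0 τ, sz (u t) (du t) ≤ K := by
  obtain ⟨W, Wt, hW, hd⟩ := h.sd hτ one_pos
  obtain ⟨C0, hC0, b0⟩ := ((hW.Dec' 0).pow 1)
  obtain ⟨C1, hC1, b1⟩ := ((hW.Dec' 1).pow 1)
  refine ⟨2 * (C0 * (∫ x : ℝ, (1 + x ^ 2)⁻¹) + C1 * ∫ x : ℝ, (1 + x ^ 2)⁻¹) + 2, fun t ht => ?_⟩
  have htT : t ∈ Ico 0 T := ⟨ht.1, ht.2.trans_lt hτ.2⟩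
  have e : dst (u t) (du t) (W 0 t) (W 1 t) = dst (W 0 t) (W 1 t) (u t) (du t) := by
    unfold dst
    congr 1 <;> exact integral_congr_ae (ae_of_all _ fun x => by ring)
  have h1 := sz_le_of_dst (h.h1 t htT) (hW.isH1 0 ht)
  simp only [zero_add] at h1
  rw [e] at h1
  have h2 := hd t ht
  have h3 : sz (W 0 t) (W 1 t) ≤ C0 * (∫ x : ℝ, (1 + x ^ 2)⁻¹) + C1 * ∫ x : ℝ, (1 + x ^ 2)⁻¹ := by
    unfold sz
    refine add_le_add ?_ ?_
    · rw [← integral_const_mul]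
      exact integral_mono (hW.isH1 0 ht).mem.integrable_sq (int_dec.const_mul _)
        (fun x => (le_abs_self _).trans (b0 t ht x))
    · rw [← integral_const_mul]
      exact integral_mono (hW.isH1 0 ht).mem'.integrable_sq (int_dec.const_mul _)
        (fun x => (le_abs_self _).trans (b1 t ht x))
  linarith

/-- passing to the limit in an integrated identity -/
theorem H1Sol.limit {T : ℝ} {u du : ℝ → ℝ → ℝ} (h : H1Sol T u du)
    {Φ Ψ : (ℝ → ℝ) → (ℝ → ℝ) → ℝ} (hΦ : LipF Φ) (hΨ : LipF Ψ) {a b : ℝ} (ha : 0 ≤ a) (hab : a ≤ b)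
    (hb : b < T)
    (hlaw : ∀ W Wt, SD b W Wt → Φ (W 0 b) (W 1 b) - Φ (W 0 a) (W 1 a) =
      ∫ s in a..b, Ψ (W 0 s) (W 1 s))
    (hcont : ∀ W Wt, SD b W Wt → ContinuousOn (fun s => Ψ (W 0 s) (W 1 s)) (Icc a b)) :
    Φ (u b) (du b) - Φ (u a) (du a) = ∫ s in a..b, Ψ (u s) (du s) ∧
      ContinuousOn (fun s => Ψ (u s) (du s)) (Icc a b) := by
  have hbI : b ∈ Ico 0 T := ⟨ha.trans hab, hb⟩
  obtain ⟨K, hK⟩ := h.bdd hbI
  obtain ⟨L1, hL1, l1⟩ := hΦ (2 * K + 2)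
  obtain ⟨L2, hL2, l2⟩ := hΨ (2 * K + 2)
  have hK0 : 0 ≤ K := (sz_nonneg _ _).trans (hK a ⟨ha, hab⟩)
  have sub : Icc a b ⊆ Icc 0 b := Icc_subset_Icc ha le_rfl
  -- approximation at level ε
  have key : ∀ ε, 0 < ε → ε ≤ 1 → ∃ W Wt, SD b W Wt ∧
      (∀ s ∈ Icc a b, |Φ (W 0 s) (W 1 s) - Φ (u s) (du s)| ≤ L1 * √ε) ∧
      (∀ s ∈ Icc a b, |Ψ (W 0 s) (W 1 s) - Ψ (u s) (du s)| ≤ L2 * √ε) := by
    intro ε hε hε1
    obtain ⟨W, Wt, hW, hd⟩ := h.sd hbI hε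
    refine ⟨W, Wt, hW, fun s hs => ?_, fun s hs => ?_⟩
    · have hs' := sub hs
      have hsT : s ∈ Ico 0 T := ⟨hs'.1, hs'.2.trans_lt hb⟩
      have := sz_le_of_dst (hW.isH1 0 hs') (h.h1 s hsT)
      simp only [zero_add] at this
      exact l1 _ _ _ _ ε (hW.isH1 0 hs') (h.h1 s hsT)
        (by linarith [hd s hs', hK s hs']) (by linarith [hK s hs']) (hd s hs')
    · have hs' := sub hs
      have hsT : s ∈ Ico 0 T := ⟨hs'.1, hs'.2.trans_lt hb⟩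
      have := sz_le_of_dst (hW.isH1 0 hs') (h.h1 s hsT)
      simp only [zero_add] at this
      exact l2 _ _ _ _ ε (hW.isH1 0 hs') (h.h1 s hsT)
        (by linarith [hd s hs', hK s hs']) (by linarith [hK s hs']) (hd s hs')
  have small : ∀ L : ℝ, 0 ≤ L → ∀ δ > 0, ∃ ε, 0 < ε ∧ ε ≤ 1 ∧ L * √ε < δ := by
    intro L hL δ hδ
    refine ⟨min 1 ((δ / (2 * (L + 1))) ^ 2), by positivity, min_le_left _ _, ?_⟩
    have h1 : √(min 1 ((δ / (2 * (L + 1))) ^ 2)) ≤ δ / (2 * (L + 1)) := by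
      calc √(min 1 ((δ / (2 * (L + 1))) ^ 2)) ≤ √((δ / (2 * (L + 1))) ^ 2) :=
            sqrt_le_sqrt (min_le_right _ _)
        _ = _ := sqrt_sq (by positivity)
    calc L * √(min 1 ((δ / (2 * (L + 1))) ^ 2)) ≤ L * (δ / (2 * (L + 1))) :=
          mul_le_mul_of_nonneg_left h1 hL
      _ ≤ (L + 1) * (δ / (2 * (L + 1))) :=
          mul_le_mul_of_nonneg_right (by linarith) (by positivity)
      _ = δ / 2 := by field_simp
      _ < δ := by linarith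
  have hcu : ContinuousOn (fun s => Ψ (u s) (du s)) (Icc a b) := by
    refine continuousOn_of_uniform_approx_of_continuousOn (fun v hv => ?_)
    obtain ⟨δ, hδ, hv'⟩ := Metric.mem_uniformity_dist.1 hv
    obtain ⟨ε, he, he1, hlt⟩ := small L2 hL2 δ hδ
    obtain ⟨W, Wt, hW, -, h2⟩ := key ε he he1
    refine ⟨_, hcont W Wt hW, fun s hs => hv' ?_⟩
    rw [Real.dist_eq, abs_sub_comm]
    exact (h2 s hs).trans_lt hlt
  refine ⟨?_, hcu⟩
  have hiu : IntervalIntegrable (fun s => Ψ (u s) (du s)) volume a b := by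
    refine ContinuousOn.intervalIntegrable ?_
    rwa [uIcc_of_le hab]
  by_contra hne
  set E := Φ (u b) (du b) - Φ (u a) (du a) - ∫ s in a..b, Ψ (u s) (du s) with hE
  have hE0 : 0 < |E| := abs_pos.2 (sub_ne_zero.2 hne)
  obtain ⟨ε, he, he1, hlt⟩ := small (2 * L1 + L2 * (b - a)) (by
    have : 0 ≤ b - a := sub_nonneg.2 hab
    positivity) |E| hE0
  obtain ⟨W, Wt, hW, h1, h2⟩ := key ε he he1
  have hiW : IntervalIntegrable (fun s => Ψ (W 0 s) (W 1 s)) volume a b := by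
    refine ContinuousOn.intervalIntegrable ?_
    rw [uIcc_of_le hab]
    exact hcont W Wt hW
  have h3 := hlaw W Wt hW
  have h4 : |(∫ s in a..b, Ψ (W 0 s) (W 1 s)) - ∫ s in a..b, Ψ (u s) (du s)| ≤
      L2 * √ε * (b - a) := by
    rw [← intervalIntegral.integral_sub hiW hiu]
    have := intervalIntegral.norm_integral_le_of_norm_le_const (a := a) (b := b)
      (f := fun s => Ψ (W 0 s) (W 1 s) - Ψ (u s) (du s)) (C := L2 * √ε) (fun s hs => by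
        rw [uIoc_of_le hab] at hs
        exact h2 s ⟨hs.1.le, hs.2⟩)
    rwa [norm_eq_abs, abs_of_nonneg (sub_nonneg.2 hab)] at this
  have h5 := h1 b ⟨hab, le_rfl⟩
  have h6 := h1 a ⟨le_rfl, hab⟩
  have h7 : |E| ≤ L1 * √ε + L1 * √ε + L2 * √ε * (b - a) := by
    have e : E = -(Φ (W 0 b) (W 1 b) - Φ (u b) (du b)) + (Φ (W 0 a) (W 1 a) - Φ (u a) (du a))
        + ((∫ s in a..b, Ψ (W 0 s) (W 1 s)) - ∫ s in a..b, Ψ (u s) (du s)) := by
      rw [hE, ← h3]; ring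
    rw [e]
    refine (abs_add_le _ _).trans (add_le_add ((abs_add_le _ _).trans (add_le_add ?_ h6)) h4)
    rw [abs_neg]; exact h5
  nlinarith [h7, hlt]

end Pool.Agent.Helper44.Gkdv
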