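import Pool.Agent.Helper44.Gkdv.Red1

set_option autoImplicit false
set_option maxHeartbeats 4000000

open MeasureTheory Set Filter Topology Real
open scoped ENNReal ContDiff

namespace Pool.Agent.Helper44.Gkdv

variable {T ν x0 : ℝ} {u du : ℝ → ℝ → ℝ}

/-- the power rate -/
def Rate (T ν : ℝ) (du : ℝ → ℝ → ℝ) : Prop :=
  ∃ c C : ℝ, 0 < c ∧ 0 < C ∧ ∀ᶠ t in 𝓝[<] T,
    c * (T - t) ^ (-ν) ≤ √(∫ x, du t x ^ 2) ∧ √(∫ x, du t x ^ 2) ≤ C * (T - t) ^ (-ν)

theorem Rate.blow (h : Rate T ν du) (hν : 0 < ν) :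
    Tendsto (fun t => ∫ x, du t x ^ 2) (𝓝[<] T) atTop := by
  obtain ⟨c, C, hc, hC, hr⟩ := h
  have h1 : Tendsto (fun t => (T - t) ^ (-ν)) (𝓝[<] T) atTop :=
    (tendsto_rpow_neg_nhdsGT_zero (by linarith)).comp (tendsto_sub_left T)
  have h2 : Tendsto (fun t => (c * (T - t) ^ (-ν)) ^ 2) (𝓝[<] T) atTop :=
    (tendsto_pow_atTop (by norm_num)).comp (h1.const_mul_atTop hc)
  refine tendsto_atTop_mono' _ ?_ h2
  filter_upwards [hr, self_mem_nhdsWithin] with t ht htT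
  have hX : 0 ≤ ∫ x, du t x ^ 2 := integral_nonneg fun x => sq_nonneg _
  have hd : 0 < T - t := sub_pos.2 htT
  have hp : 0 < (T - t) ^ (-ν) := rpow_pos_of_pos hd _
  calc (c * (T - t) ^ (-ν)) ^ 2 ≤ √(∫ x, du t x ^ 2) ^ 2 :=
        pow_le_pow_left₀ (by positivity) ht.1 2
    _ = _ := sq_sqrt hX

theorem main_plus (hT : 0 < T) (hν1 : 1 / 3 < ν) (hν2 : ν < 3 / 7) (sol : H1Sol T u du)
    (fp : FinPt T x0 u du) (rate : Rate T ν du) {lam sig : ℝ → ℝ} {r dr : ℝ → ℝ}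
    (lpos : ∀ t ∈ Ico 0 T, 0 < lam t) (hr : IsH1 r dr)
    (conv : Tendsto (fun t => ∫ x, (u t x - R (lam t) (sig t) x - r x) ^ 2) (𝓝[<] T) (𝓝 0)) :
    False := by
  classical
  have l0 := lam_tendsto hT sol hr lpos conv (rate.blow (by linarith))
  have s0 := sig_tendsto hT sol hr lpos l0 conv fp
  set lam' : ℝ → ℝ := fun t => if t ∈ Ico 0 T then lam t else 1 with hl'
  have heq : lam' =ᶠ[𝓝[<] T] lam := by
    filter_upwards [ev_Ico hT] with t ht
    simp only [hl', if_pos ht]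
  have S : Setup T ν x0 u du lam' sig r dr := by
    refine ⟨hT, hν1, hν2, sol, hr, fun t => ?_, l0.congr' heq.symm, s0, ?_, rate⟩
    · by_cases h : t ∈ Ico 0 T
      · simp only [hl', if_pos h]; exact lpos t h
      · simp only [hl', if_neg h]; exact one_pos
    · refine conv.congr' ?_
      filter_upwards [heq] with t ht
      rw [ht]
  exact S.contra

theorem main (hT : 0 < T) (hν1 : 1 / 3 < ν) (hν2 : ν < 3 / 7) (sol : H1Sol T u du)
    (fp : FinPt T x0 u du) (rate : Rate T ν du) :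
    ¬ ∃ (lam sig : ℝ → ℝ) (e : ℝ) (r dr : ℝ → ℝ), (e = 1 ∨ e = -1) ∧
      (∀ t ∈ Ico 0 T, 0 < lam t) ∧ IsH1 r dr ∧
      Tendsto (fun t => ∫ x, (u t x - e * R (lam t) (sig t) x - r x) ^ 2) (𝓝[<] T) (𝓝 0) := by
  rintro ⟨lam, sig, e, r, dr, he, lpos, hr, conv⟩
  rcases he with rfl | rfl
  · simp only [one_mul] at conv
    exact main_plus hT hν1 hν2 sol fp rate lpos hr conv
  · refine main_plus hT hν1 hν2 sol.neg fp.neg (ν := ν) ?_ lpos hr.neg (sig := sig) ?_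
    · obtain ⟨c, C, hc, hC, h⟩ := rate
      refine ⟨c, C, hc, hC, ?_⟩
      filter_upwards [h] with t ht
      simpa using ht
    · refine conv.congr (fun t => ?_)
      exact integral_congr_ae (ae_of_all _ fun x => by simp only; ring)

end Pool.Agent.Helper44.Gkdv
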