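import Pool.Agent.Helper44.Gkdv.Setup

set_option autoImplicit false
set_option maxHeartbeats 4000000

open MeasureTheory Set Filter Topology Real
open scoped ENNReal ContDiff

namespace Pool.Agent.Helper44.Gkdv

/-- a truncation of the identity -/
structure Lin (Φ Φ1 Φ2 Φ3 : ℝ → ℝ) (m : ℝ) : Prop where
  cut : Cut Φ Φ1 Φ2 Φ3 m
  hm : 1 ≤ m
  id2 : ∀ z, |z| ≤ 2 → Φ z = z
  p0 : ∀ z, 0 ≤ Φ1 z
  p1 : ∀ z, Φ1 z ≤ 1
  pe : ∀ z, |z| ≤ 2 → Φ1 z = 1

theorem exists_lin : ∃ (Φ Φ1 Φ2 Φ3 : ℝ → ℝ) (m : ℝ), Lin Φ Φ1 Φ2 Φ3 m := by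
  obtain ⟨θ, θ1, θ2, m, hd, hd1, hc2, h0, h1, hm1, hm2, hs, hm0, hone⟩ :=
    exists_bump (-4) 4 (by norm_num)
  have cθ : Continuous θ := continuous_iff_continuousAt.2 fun x => (hd x).continuousAt
  have hone' : ∀ z, |z| ≤ 2 → θ z = 1 := by
    intro z hz
    rw [abs_le] at hz
    exact hone z ⟨by linarith [hz.1], by linarith [hz.2]⟩
  have hint : Integrable θ := by
    have : HasCompactSupport θ := by
      refine HasCompactSupport.of_support_subset_isCompact (isCompact_Icc (a := (-4 : ℝ)) (b := 4)) ?_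
      intro z hz
      by_contra hn
      exact hz (hs z (fun h => hn ⟨h.1.le, h.2.le⟩))
    exact cθ.integrable_of_hasCompactSupport this
  have hbd : ∀ z, |∫ y in (0 : ℝ)..z, θ y| ≤ ∫ y, θ y := by
    intro z
    have h3 := intervalIntegral.norm_integral_le_integral_norm_uIoc (a := 0) (b := z) (f := θ)
      (μ := volume)
    rw [norm_eq_abs] at h3
    refine h3.trans ?_
    have h4 : ∫ x in uIoc 0 z, ‖θ x‖ = ∫ x in uIoc 0 z, θ x :=
      integral_congr_ae (ae_of_all _ fun x => by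
        simp only [norm_eq_abs]; exact abs_of_nonneg (h0 x))
    rw [h4]
    exact setIntegral_le_integral hint (ae_of_all _ h0)
  refine ⟨fun z => ∫ y in (0 : ℝ)..z, θ y, θ, θ1, θ2, 1 + m + ∫ y, θ y, ?_⟩
  have hi0 : 0 ≤ ∫ y, θ y := integral_nonneg h0
  refine ⟨⟨?_, hd, hd1, hc2, ?_, ?_, ?_, ?_⟩, by linarith, ?_, h0, h1, hone'⟩
  · intro z
    exact intervalIntegral.integral_hasDerivAt_right (cθ.intervalIntegrable 0 z)
      (cθ.stronglyMeasurableAtFilter _ _) cθ.continuousAt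
  · intro z
    linarith [hbd z]
  · intro z
    rw [abs_of_nonneg (h0 z)]
    linarith [h1 z]
  · intro z
    linarith [hm1 z]
  · intro z
    linarith [hm2 z]
  · intro z hz
    have : ∫ y in (0 : ℝ)..z, θ y = ∫ y in (0 : ℝ)..z, (1 : ℝ) := by
      refine intervalIntegral.integral_congr (fun y hy => hone' y ?_)
      rw [abs_le] at hz ⊢
      rcases le_total 0 z with h | h
      · rw [uIcc_of_le h] at hy
        exact ⟨by linarith [hy.1], by linarith [hy.2, hz.2]⟩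
      · rw [uIcc_of_ge h] at hy
        exact ⟨by linarith [hy.1, hz.1], by linarith [hy.2]⟩
    simp only [this]
    simp

theorem Lin.cut' {Φ Φ1 Φ2 Φ3 : ℝ → ℝ} {m : ℝ} (h : Lin Φ Φ1 Φ2 Φ3 m) (x0 : ℝ) {ρ : ℝ}
    (hρ : 0 < ρ) (hρ1 : ρ ≤ 1) :
    Cut (fun x => ρ * Φ ((x - x0) / ρ)) (fun x => Φ1 ((x - x0) / ρ))
      (fun x => ρ⁻¹ * Φ2 ((x - x0) / ρ)) (fun x => ρ⁻¹ ^ 2 * Φ3 ((x - x0) / ρ))
      (ρ⁻¹ ^ 2 * m) := by
  have hm0 : 0 ≤ m := by linarith [h.hm]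
  have h1 : 1 ≤ ρ⁻¹ := (one_le_inv₀ hρ).2 hρ1
  have h2 : 1 ≤ ρ⁻¹ ^ 2 := one_le_pow₀ h1
  have lin : ∀ x, HasDerivAt (fun x => (x - x0) / ρ) ρ⁻¹ x := fun x => by
    simpa using ((hasDerivAt_id x).sub_const x0).div_const ρ
  refine ⟨?_, ?_, ?_, ?_, ?_, ?_, ?_, ?_⟩
  · intro x
    refine (((h.cut.d0 _).comp x (lin x)).const_mul ρ).congr_deriv ?_
    field_simp
  · intro x
    refine ((h.cut.d1 _).comp x (lin x)).congr_deriv (by ring)
  · intro x
    refine (((h.cut.d2 _).comp x (lin x)).const_mul ρ⁻¹).congr_deriv (by ring)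
  · have := h.cut.c3
    fun_prop
  · intro x
    rw [abs_mul, abs_of_pos hρ]
    exact mul_le_mul (hρ1.trans h2) (h.cut.b0 _) (abs_nonneg _) (by positivity)
  · intro x
    calc |Φ1 ((x - x0) / ρ)| ≤ 1 * m := by rw [one_mul]; exact h.cut.b1 _
      _ ≤ _ := mul_le_mul_of_nonneg_right h2 hm0
  · intro x
    rw [abs_mul, abs_of_pos (by positivity)]
    refine mul_le_mul ?_ (h.cut.b2 _) (abs_nonneg _) (by positivity)
    calc ρ⁻¹ = ρ⁻¹ ^ 1 := (pow_one _).symm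
      _ ≤ ρ⁻¹ ^ 2 := pow_le_pow_right₀ h1 (by norm_num)
  · intro x
    rw [abs_mul, abs_of_pos (by positivity)]
    exact mul_le_mul_of_nonneg_left (h.cut.b3 _) (by positivity)

/-- constant -/
noncomputable def K1 (m nr : ℝ) : ℝ :=
  2 * m + 2 * m * √(∫ y, Q y ^ 2) + m * (2 * √nr + 1) + ∫ y, Q y ^ 2 * |y|

/-- the mass centre -/
theorem N_est {u du r dr Φ Φ1 Φ2 Φ3 : ℝ → ℝ} {l s x0 ρ ε m B : ℝ} (hu : IsH1 u du)
    (hr : IsH1 r dr) (hΦ : Lin Φ Φ1 Φ2 Φ3 m) (hl : 0 < l) (hρ : 0 < ρ) (hρ1 : ρ ≤ 1)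
    (hs : |s - x0| ≤ ρ) (hε : 0 < ε) (hε1 : ε ≤ 1)
    (he : ∫ x, (u x - R l s x - r x) ^ 2 ≤ ε ^ 2)
    (hB : ∀ x, |r x| ≤ B) (hB2 : B * (√l * ∫ y, Q y) ≤ ε) (hlρ : l ≤ ε * ρ) :
    |(∫ x, u x ^ 2 * (ρ * Φ ((x - x0) / ρ))) - (∫ y, Q y ^ 2) * (s - x0) -
      ∫ x, r x ^ 2 * (ρ * Φ ((x - x0) / ρ))| ≤ K1 m (∫ x, r x ^ 2) * (ε * ρ) := by
  have hR := isH1_R hl s
  have hE := (hu.sub hR).sub hr
  have hcut := hΦ.cut' x0 hρ hρ1
  set φ : ℝ → ℝ := fun x => ρ * Φ ((x - x0) / ρ) with hφ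
  have hm0 : 0 ≤ m := by linarith [hΦ.hm]
  have bφ : ∀ x, |φ x| ≤ m * ρ := fun x => by
    simp only [hφ]
    rw [abs_mul, abs_of_pos hρ, mul_comm]
    exact mul_le_mul_of_nonneg_right (hΦ.cut.b0 _) hρ.le
  have cφ : Continuous φ := hcut.c0
  set e : ℝ → ℝ := fun x => u x - R l s x - r x with hed
  have lipφ : ∀ x y, |φ x - φ y| ≤ |x - y| := by
    intro x y
    have := Convex.norm_image_sub_le_of_norm_hasDerivWithin_le (f := φ)
      (f' := fun x => Φ1 ((x - x0) / ρ)) (s := univ) (C := 1) (x := y) (y := x)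
      (fun z _ => (hcut.d0 z).hasDerivWithinAt) (fun z _ => by
        rw [norm_eq_abs, abs_of_nonneg (hΦ.p0 _)]; exact hΦ.p1 _) convex_univ trivial trivial
    simpa [norm_eq_abs] using this
  have φs : φ s = s - x0 := by
    simp only [hφ]
    rw [hΦ.id2]
    · field_simp
    · rw [abs_div, abs_of_pos hρ, div_le_iff₀ hρ]
      linarith
  have i1 : Integrable (fun x => R l s x ^ 2 * φ x) := intw hR.mem.integrable_sq cφ bφ
  have i2 : Integrable (fun x => 2 * (R l s x * r x * φ x)) :=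
    (intw (mul_int hR.mem hr.mem) cφ bφ).const_mul 2
  have i3 : Integrable (fun x => 2 * (R l s x * e x * φ x)) :=
    (intw (mul_int hR.mem hE.mem) cφ bφ).const_mul 2
  have i4 : Integrable (fun x => 2 * (r x * e x * φ x)) :=
    (intw (mul_int hr.mem hE.mem) cφ bφ).const_mul 2
  have i5 : Integrable (fun x => e x ^ 2 * φ x) := intw hE.mem.integrable_sq cφ bφ
  have i6 : Integrable (fun x => r x ^ 2 * φ x) := intw hr.mem.integrable_sq cφ bφ
  have dec : ∫ x, u x ^ 2 * φ x = (∫ x, R l s x ^ 2 * φ x) + (∫ x, 2 * (R l s x * r x * φ x)) +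
      (∫ x, 2 * (R l s x * e x * φ x)) + (∫ x, 2 * (r x * e x * φ x)) + (∫ x, e x ^ 2 * φ x) +
      ∫ x, r x ^ 2 * φ x := by
    have j1 : Integrable (fun x => R l s x ^ 2 * φ x + 2 * (R l s x * r x * φ x)) := i1.add i2
    have j2 : Integrable (fun x => R l s x ^ 2 * φ x + 2 * (R l s x * r x * φ x) +
      2 * (R l s x * e x * φ x)) := j1.add i3
    have j3 : Integrable (fun x => R l s x ^ 2 * φ x + 2 * (R l s x * r x * φ x) +
      2 * (R l s x * e x * φ x) + 2 * (r x * e x * φ x)) := j2.add i4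
    have j4 : Integrable (fun x => R l s x ^ 2 * φ x + 2 * (R l s x * r x * φ x) +
      2 * (R l s x * e x * φ x) + 2 * (r x * e x * φ x) + e x ^ 2 * φ x) := j3.add i5
    rw [← integral_add i1 i2, ← integral_add j1 i3, ← integral_add j2 i4, ← integral_add j3 i5,
      ← integral_add j4 i6]
    refine integral_congr_ae (ae_of_all _ fun x => ?_)
    simp only [hed]
    ring
  -- main term
  obtain ⟨ia, ea⟩ := int_R_abs hl s
  have t1 : |(∫ x, R l s x ^ 2 * φ x) - (∫ y, Q y ^ 2) * (s - x0)| ≤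
      (∫ y, Q y ^ 2 * |y|) * (ε * ρ) := by
    have e1 : (∫ y, Q y ^ 2) * (s - x0) = ∫ x, R l s x ^ 2 * φ s := by
      rw [integral_mul_const, int_R_sq hl s, φs]
    rw [e1, ← integral_sub i1 (hR.mem.integrable_sq.mul_const _)]
    have h0 : 0 ≤ ∫ y, Q y ^ 2 * |y| := integral_nonneg fun y => by positivity
    calc |∫ x, (R l s x ^ 2 * φ x - R l s x ^ 2 * φ s)| ≤
          ∫ x, |R l s x ^ 2 * φ x - R l s x ^ 2 * φ s| := abs_integral_le_integral_abs
      _ ≤ ∫ x, R l s x ^ 2 * |x - s| := by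
          refine integral_mono (i1.sub (hR.mem.integrable_sq.mul_const _)).abs ia (fun x => ?_)
          simp only
          rw [← mul_sub, abs_mul, abs_of_nonneg (sq_nonneg (R l s x))]
          exact mul_le_mul_of_nonneg_left (lipφ x s) (sq_nonneg _)
      _ = l * ∫ y, Q y ^ 2 * |y| := ea
      _ ≤ (ε * ρ) * ∫ y, Q y ^ 2 * |y| := mul_le_mul_of_nonneg_right hlρ h0
      _ = _ := mul_comm _ _
  have absb : ∀ F : ℝ → ℝ, Integrable F → |∫ x, 2 * (F x * φ x)| ≤ 2 * (m * ρ) * ∫ x, |F x| := by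
    intro F hF
    rw [integral_const_mul, abs_mul, abs_of_pos (by norm_num : (0 : ℝ) < 2), mul_assoc]
    exact mul_le_mul_of_nonneg_left (abs_intw_le hF bφ) (by norm_num)
  have he' : √(∫ x, e x ^ 2) ≤ ε := by
    rw [← sqrt_sq hε.le]
    exact sqrt_le_sqrt he
  have t2 : |∫ x, 2 * (R l s x * r x * φ x)| ≤ 2 * (m * ρ) * ε := by
    refine (absb _ (mul_int hR.mem hr.mem)).trans ?_
    exact mul_le_mul_of_nonneg_left ((int_R_mul_le hl s hr hB).trans hB2) (by positivity)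
  have t3 : |∫ x, 2 * (R l s x * e x * φ x)| ≤ 2 * (m * ρ) * (√(∫ y, Q y ^ 2) * ε) := by
    refine (absb _ (mul_int hR.mem hE.mem)).trans ?_
    refine mul_le_mul_of_nonneg_left ?_ (by positivity)
    refine (cs hR.mem hE.mem).trans ?_
    rw [int_R_sq hl s]
    exact mul_le_mul_of_nonneg_left he' (sqrt_nonneg _)
  have t4 : |∫ x, 2 * (r x * e x * φ x)| ≤ 2 * (m * ρ) * (√(∫ x, r x ^ 2) * ε) := by
    refine (absb _ (mul_int hr.mem hE.mem)).trans ?_
    refine mul_le_mul_of_nonneg_left ?_ (by positivity)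
    refine (cs hr.mem hE.mem).trans ?_
    exact mul_le_mul_of_nonneg_left he' (sqrt_nonneg _)
  have t5 : |∫ x, e x ^ 2 * φ x| ≤ (m * ρ) * ε := by
    refine (abs_intw_le hE.mem.integrable_sq bφ).trans ?_
    refine mul_le_mul_of_nonneg_left ?_ (by positivity)
    have : ∫ x, |e x ^ 2| = ∫ x, e x ^ 2 :=
      integral_congr_ae (ae_of_all _ fun x => abs_of_nonneg (sq_nonneg _))
    rw [this]
    refine he.trans ?_
    nlinarith
  have fin : (∫ x, u x ^ 2 * φ x) - (∫ y, Q y ^ 2) * (s - x0) - ∫ x, r x ^ 2 * φ x =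
      ((∫ x, R l s x ^ 2 * φ x) - (∫ y, Q y ^ 2) * (s - x0)) +
      (∫ x, 2 * (R l s x * r x * φ x)) + (∫ x, 2 * (R l s x * e x * φ x)) +
      (∫ x, 2 * (r x * e x * φ x)) + (∫ x, e x ^ 2 * φ x) := by rw [dec]; ring
  rw [fin]
  have a1 := abs_le.1 t1
  have a2 := abs_le.1 t2
  have a3 := abs_le.1 t3
  have a4 := abs_le.1 t4
  have a5 := abs_le.1 t5
  have eK : K1 m (∫ x, r x ^ 2) * (ε * ρ) = (∫ y, Q y ^ 2 * |y|) * (ε * ρ) + 2 * (m * ρ) * ε
      + 2 * (m * ρ) * (√(∫ y, Q y ^ 2) * ε) + 2 * (m * ρ) * (√(∫ x, r x ^ 2) * ε)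
      + (m * ρ) * ε := by
    unfold K1; ring
  rw [eK, abs_le]
  constructor
  · linarith [a1.1, a2.1, a3.1, a4.1, a5.1]
  · linarith [a1.2, a2.2, a3.2, a4.2, a5.2]

/-- constant -/
noncomputable def K2 (nr : ℝ) : ℝ := (5 / 3) * (96 + 128 * (2 * nr + 2) ^ 2) + 12

/-- the flux of mass -/
theorem flux_est {u du r dr Φ Φ1 Φ2 Φ3 : ℝ → ℝ} {l s x0 ρ ε m E M : ℝ} (hu : IsH1 u du)
    (hr : IsH1 r dr) (hΦ : Lin Φ Φ1 Φ2 Φ3 m) (hl : 0 < l) (hρ : 0 < ρ)
    (hs : |s - x0| ≤ ρ) (hε : 0 < ε) (hε1 : ε ≤ 1)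
    (he : ∫ x, (u x - R l s x - r x) ^ 2 ≤ ε ^ 2)
    (hdw : l ^ 2 * ∫ x, (du x - dR l s x) ^ 2 ≤ ε)
    (htail : 4 * Ce * exp (-(ρ / l)) ≤ ε)
    (hE : (∫ x, du x ^ 2) - (1 / 3) * (∫ x, u x ^ 6) = E) (hM : ∫ x, u x ^ 2 ≤ M) :
    |((5 / 3) * (∫ x, u x ^ 6 * Φ1 ((x - x0) / ρ)) + ((-3) * (∫ x, du x ^ 2 * Φ1 ((x - x0) / ρ))
        + ∫ x, u x ^ 2 * (ρ⁻¹ ^ 2 * Φ3 ((x - x0) / ρ)))) - 2 * ∫ x, du x ^ 2| ≤
      5 * |E| + K2 (∫ x, r x ^ 2) * ε * l⁻¹ ^ 2 + m * M * ρ⁻¹ ^ 2 := by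
  have hR := isH1_R hl s
  have hw := hu.sub hR
  have hE' := hw.sub hr
  have hi : 0 < l⁻¹ := inv_pos.2 hl
  have hm0 : 0 ≤ m := by linarith [hΦ.hm]
  set φ1 : ℝ → ℝ := fun x => Φ1 ((x - x0) / ρ) with hφ1
  have cφ1 : Continuous φ1 := by
    have := hΦ.cut.c1
    fun_prop
  have bφ1 : ∀ x, |1 - φ1 x| ≤ 1 := fun x => by
    have h0 := hΦ.p0 ((x - x0) / ρ)
    have h1 := hΦ.p1 ((x - x0) / ρ)
    rw [abs_le]
    simp only [hφ1]
    constructor <;> linarith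
  set A : Set ℝ := {x | 2 * ρ ≤ |x - x0|} with hA
  have mA : MeasurableSet A := by
    have : IsClosed A := isClosed_le continuous_const (by fun_prop)
    exact this.measurableSet
  have indA : ∀ x, 1 - φ1 x ≤ A.indicator (fun _ => 1) x ∧ 0 ≤ 1 - φ1 x := by
    intro x
    have h0 := hΦ.p0 ((x - x0) / ρ)
    have h1 := hΦ.p1 ((x - x0) / ρ)
    refine ⟨?_, by simp only [hφ1]; linarith⟩
    by_cases hx : x ∈ A
    · rw [indicator_of_mem hx]; simp only [hφ1]; linarith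
    · rw [indicator_of_notMem hx]
      have : φ1 x = 1 := by
        simp only [hφ1]
        apply hΦ.pe
        rw [abs_div, abs_of_pos hρ, div_le_iff₀ hρ]
        have : |x - x0| < 2 * ρ := not_le.1 hx
        linarith
      rw [this]; simp
  have hdist : ∀ x ∈ A, ρ ≤ |x - s| := by
    intro x hx
    have h1 : 2 * ρ ≤ |x - x0| := hx
    have h2 : |x - x0| ≤ |x - s| + |s - x0| := abs_sub_le x s x0
    linarith
  have hAR : ∫ x in A, R l s x ^ 2 ≤ ε := (tail_R hl s mA hdist).trans htail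
  have D0 : 0 ≤ ∫ x, (du x - dR l s x) ^ 2 := integral_nonneg fun x => sq_nonneg _
  have hD : ∫ x, (du x - dR l s x) ^ 2 ≤ ε * l⁻¹ ^ 2 := by
    have : (l ^ 2 * ∫ x, (du x - dR l s x) ^ 2) * l⁻¹ ^ 2 ≤ ε * l⁻¹ ^ 2 :=
      mul_le_mul_of_nonneg_right hdw (by positivity)
    calc ∫ x, (du x - dR l s x) ^ 2 = (l ^ 2 * ∫ x, (du x - dR l s x) ^ 2) * l⁻¹ ^ 2 := by
          field_simp
      _ ≤ _ := this
  -- the two error integrals
  have g1 : ∫ x, du x ^ 2 * (1 - φ1 x) ≤ 4 * (ε * l⁻¹ ^ 2) := by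
    calc ∫ x, du x ^ 2 * (1 - φ1 x) ≤ ∫ x, A.indicator (fun x => du x ^ 2) x := by
          refine integral_mono (intw hu.mem'.integrable_sq (continuous_const.sub cφ1) bφ1)
            (hu.mem'.integrable_sq.indicator mA) (fun x => ?_)
          simp only
          have h1 := (indA x).1
          by_cases hx : x ∈ A
          · rw [indicator_of_mem hx] at h1 ⊢
            nlinarith [sq_nonneg (du x)]
          · rw [indicator_of_notMem hx] at h1 ⊢
            nlinarith [sq_nonneg (du x)]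
      _ = ∫ x in A, du x ^ 2 := integral_indicator mA
      _ ≤ 2 * (∫ x in A, dR l s x ^ 2) + 2 * ∫ x in A, (du x - dR l s x) ^ 2 :=
          int_sq_le_of_dst (hu.mem'.restrict A) (hR.mem'.restrict A)
      _ ≤ 2 * (ε * l⁻¹ ^ 2) + 2 * (ε * l⁻¹ ^ 2) := by
          have h1 : ∫ x in A, dR l s x ^ 2 ≤ l⁻¹ ^ 2 * ∫ x in A, R l s x ^ 2 := by
            rw [← integral_const_mul]
            exact integral_mono hR.mem'.integrable_sq.integrableOn
              (hR.mem.integrable_sq.const_mul _).integrableOn (fun x => dR_sq_le hl s x)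
          have h2 : l⁻¹ ^ 2 * ∫ x in A, R l s x ^ 2 ≤ l⁻¹ ^ 2 * ε :=
            mul_le_mul_of_nonneg_left hAR (by positivity)
          have h3 : ∫ x in A, (du x - dR l s x) ^ 2 ≤ ∫ x, (du x - dR l s x) ^ 2 :=
            setIntegral_le_integral hw.mem'.integrable_sq (ae_of_all _ fun x => sq_nonneg _)
          linarith
      _ = _ := by ring
  have hMw : ∫ x, (u x - R l s x) ^ 2 ≤ 2 * (∫ x, r x ^ 2) + 2 := by
    have h1 := int_sq_le_of_dst hw.mem hr.mem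
    have h2 : ε ^ 2 ≤ 1 := pow_le_one₀ hε.le hε1
    linarith
  have hw6 : ∫ x, (u x - R l s x) ^ 6 ≤ 4 * (2 * (∫ x, r x ^ 2) + 2) ^ 2 * (ε * l⁻¹ ^ 2) := by
    refine hw.six.trans ?_
    refine mul_le_mul ?_ hD D0 (by positivity)
    refine mul_le_mul_of_nonneg_left ?_ (by norm_num)
    exact pow_le_pow_left₀ (integral_nonneg fun x => sq_nonneg _) hMw 2
  have g2 : ∫ x, u x ^ 6 * (1 - φ1 x) ≤ (96 + 128 * (2 * (∫ x, r x ^ 2) + 2) ^ 2) *
      (ε * l⁻¹ ^ 2) := by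
    have s1 := int_add_six hR hw (ψ := fun x => 1 - φ1 x) (continuous_const.sub cφ1)
      (fun x => (indA x).2) bφ1
    have e1 : ∀ x, R l s x + (u x - R l s x) = u x := fun x => by ring
    simp only [e1] at s1
    have s2 : ∫ x, R l s x ^ 6 * (1 - φ1 x) ≤ 3 * (ε * l⁻¹ ^ 2) := by
      calc ∫ x, R l s x ^ 6 * (1 - φ1 x) ≤
            ∫ x, 3 * l⁻¹ ^ 2 * A.indicator (fun x => R l s x ^ 2) x := by
            refine integral_mono (intw (hR.pow_int (by norm_num)) (continuous_const.sub cφ1) bφ1)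
              ((hR.mem.integrable_sq.indicator mA).const_mul _) (fun x => ?_)
            simp only
            have h1 := (indA x).1
            have h4 := R_four_le hl s x
            by_cases hx : x ∈ A
            · rw [indicator_of_mem hx] at h1 ⊢
              calc R l s x ^ 6 * (1 - φ1 x) ≤ R l s x ^ 6 * 1 :=
                    mul_le_mul_of_nonneg_left h1 (by positivity)
                _ = R l s x ^ 4 * R l s x ^ 2 := by ring
                _ ≤ _ := mul_le_mul_of_nonneg_right h4 (sq_nonneg _)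
            · rw [indicator_of_notMem hx] at h1 ⊢
              have h5 : 1 - φ1 x = 0 := le_antisymm h1 (indA x).2
              rw [h5]; simp
        _ = 3 * l⁻¹ ^ 2 * ∫ x in A, R l s x ^ 2 := by
            rw [integral_const_mul, integral_indicator mA]
        _ ≤ 3 * l⁻¹ ^ 2 * ε := mul_le_mul_of_nonneg_left hAR (by positivity)
        _ = _ := by ring
    have s3 : ∫ x, (u x - R l s x) ^ 6 * (1 - φ1 x) ≤ ∫ x, (u x - R l s x) ^ 6 := by
      refine integral_mono (intw (hw.pow_int (by norm_num)) (continuous_const.sub cφ1) bφ1)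
        (hw.pow_int (by norm_num)) (fun x => ?_)
      have h1 : 1 - φ1 x ≤ 1 := (le_abs_self _).trans (bφ1 x)
      have h2 : 0 ≤ (u x - R l s x) ^ 6 := by positivity
      simp only
      nlinarith
    linarith
  have g1' : 0 ≤ ∫ x, du x ^ 2 * (1 - φ1 x) :=
    integral_nonneg fun x => mul_nonneg (sq_nonneg _) (indA x).2
  have g2' : 0 ≤ ∫ x, u x ^ 6 * (1 - φ1 x) :=
    integral_nonneg fun x => mul_nonneg (by positivity) (indA x).2
  have f1 : ∫ x, du x ^ 2 * φ1 x = (∫ x, du x ^ 2) - ∫ x, du x ^ 2 * (1 - φ1 x) := by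
    have ij : Integrable (fun x => du x ^ 2 * (1 - φ1 x)) :=
      intw hu.mem'.integrable_sq (continuous_const.sub cφ1) bφ1
    rw [← integral_sub hu.mem'.integrable_sq ij]
    exact integral_congr_ae (ae_of_all _ fun x => by simp only; ring)
  have f2 : ∫ x, u x ^ 6 * φ1 x = (∫ x, u x ^ 6) - ∫ x, u x ^ 6 * (1 - φ1 x) := by
    have i6 := hu.pow_int (k := 6) (by norm_num)
    have ij : Integrable (fun x => u x ^ 6 * (1 - φ1 x)) :=
      intw i6 (continuous_const.sub cφ1) bφ1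
    rw [← integral_sub i6 ij]
    exact integral_congr_ae (ae_of_all _ fun x => by simp only; ring)
  have f3 : |∫ x, u x ^ 2 * (ρ⁻¹ ^ 2 * Φ3 ((x - x0) / ρ))| ≤ m * M * ρ⁻¹ ^ 2 := by
    have h1 := abs_intw_le (φ := fun x => ρ⁻¹ ^ 2 * Φ3 ((x - x0) / ρ)) (C := ρ⁻¹ ^ 2 * m)
      hu.mem.integrable_sq (fun x => by
        rw [abs_mul, abs_of_nonneg (by positivity)]
        exact mul_le_mul_of_nonneg_left (hΦ.cut.b3 _) (by positivity))
    refine h1.trans ?_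
    have : ∫ x, |u x ^ 2| = ∫ x, u x ^ 2 :=
      integral_congr_ae (ae_of_all _ fun x => abs_of_nonneg (sq_nonneg _))
    rw [this]
    calc ρ⁻¹ ^ 2 * m * ∫ x, u x ^ 2 ≤ ρ⁻¹ ^ 2 * m * M :=
          mul_le_mul_of_nonneg_left hM (by positivity)
      _ = _ := by ring
  have hE3 : ∫ x, u x ^ 6 = 3 * (∫ x, du x ^ 2) - 3 * E := by linarith
  rw [f1, f2, hE3]
  have a3 := abs_le.1 f3
  have aE := abs_le.1 (le_refl |E|)
  have eK : K2 (∫ x, r x ^ 2) * ε * l⁻¹ ^ 2 =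
      (5 / 3) * ((96 + 128 * (2 * (∫ x, r x ^ 2) + 2) ^ 2) * (ε * l⁻¹ ^ 2))
      + 3 * (4 * (ε * l⁻¹ ^ 2)) := by unfold K2; ring
  rw [eK, abs_le]
  constructor
  · linarith [a3.1, a3.2, aE.1, aE.2]
  · linarith [a3.1, a3.2, aE.1, aE.2]

end Pool.Agent.Helper44.Gkdv
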