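import Mathlib

set_option autoImplicit false
set_option maxHeartbeats 4000000

open MeasureTheory Set Filter Topology Real

namespace Pool.Agent.Helper44.Gkdv

theorem tendsto_sub_left (T : ℝ) : Tendsto (fun t => T - t) (𝓝[<] T) (𝓝[>] 0) := by
  refine tendsto_nhdsWithin_iff.2 ⟨?_, ?_⟩
  · have : Tendsto (fun t => T - t) (𝓝 T) (𝓝 (T - T)) := by
      exact (continuous_const.sub continuous_id).tendsto T
    rw [sub_self] at this
    exact this.mono_left nhdsWithin_le_nhds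
  · filter_upwards [self_mem_nhdsWithin] with t ht
    have h : t < T := ht
    change (0 : ℝ) < T - t
    linarith

theorem tendsto_rpow_sub (T : ℝ) {a : ℝ} (ha : 0 < a) :
    Tendsto (fun t => (T - t) ^ a) (𝓝[<] T) (𝓝 0) := by
  have h1 : Tendsto (fun t => T - t) (𝓝[<] T) (𝓝 0) :=
    (tendsto_sub_left T).mono_right nhdsWithin_le_nhds
  have h2 := h1.rpow_const (p := a) (Or.inr ha.le)
  rwa [zero_rpow ha.ne'] at h2

theorem ev_rpow_le (T : ℝ) {a ε : ℝ} (ha : 0 < a) (hε : 0 < ε) :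
    ∀ᶠ t in 𝓝[<] T, (T - t) ^ a ≤ ε := by
  filter_upwards [(tendsto_rpow_sub T ha).eventually (gt_mem_nhds hε)] with t h
  exact h.le

theorem ev_sub_le (T : ℝ) {ε : ℝ} (hε : 0 < ε) : ∀ᶠ t in 𝓝[<] T, T - t ≤ ε := by
  filter_upwards [ev_rpow_le T one_pos hε] with t h
  simpa using h

theorem time_integral {T ν a b : ℝ} (hν : ν < 1 / 2) (hab : a ≤ b) (hb : b < T) :
    IntervalIntegrable (fun s => (T - s) ^ (-(2 * ν))) volume a b ∧
    ∫ s in a..b, (T - s) ^ (-(2 * ν)) =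
      ((T - a) ^ (1 - 2 * ν) - (T - b) ^ (1 - 2 * ν)) / (1 - 2 * ν) := by
  have hc : ContinuousOn (fun s => (T - s) ^ (-(2 * ν))) (uIcc a b) := by
    refine ContinuousOn.rpow_const (by fun_prop) (fun s hs => Or.inl ?_)
    rw [uIcc_of_le hab] at hs
    have := hs.2
    have : 0 < T - s := by linarith
    exact this.ne'
  refine ⟨hc.intervalIntegrable, ?_⟩
  have h1 : ∫ s in a..b, (T - s) ^ (-(2 * ν)) = ∫ s in (T - b)..(T - a), s ^ (-(2 * ν)) :=
    intervalIntegral.integral_comp_sub_left (fun s => s ^ (-(2 * ν))) T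
  rw [h1, integral_rpow (Or.inl (by linarith))]
  have e : -(2 * ν) + 1 = 1 - 2 * ν := by ring
  rw [e]

theorem exp_neg_le {X : ℝ} (hX : 0 < X) : exp (-X) ≤ X⁻¹ := by
  rw [exp_neg]
  refine inv_anti₀ hX ?_
  have := add_one_le_exp X
  linarith

end Pool.Agent.Helper44.Gkdv
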