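import Pool.Agent.Helper44.Gkdv.Pos1
import Pool.Agent.Helper44.Gkdv.Time

set_option autoImplicit false
set_option maxHeartbeats 4000000

open MeasureTheory Set Filter Topology Real
open scoped ENNReal ContDiff

namespace Pool.Agent.Helper44.Gkdv

namespace Setup

variable {T ν x0 : ℝ} {u du : ℝ → ℝ → ℝ} {lam sig : ℝ → ℝ} {r dr : ℝ → ℝ}

/-- everything that holds at times close to `T` -/
structure Near (T ν x0 : ℝ) (u du : ℝ → ℝ → ℝ) (lam sig : ℝ → ℝ) (r dr : ℝ → ℝ)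
    (cl Cl B ε t : ℝ) : Prop where
  tI : t ∈ Ico 0 T
  d1 : T - t ≤ 1
  e : ∫ x, (u t x - R (lam t) (sig t) x - r x) ^ 2 ≤ ε ^ 2
  rr : B * (√(lam t) * ∫ y, Q y) ≤ ε
  dw : lam t ^ 2 * ∫ x, (du t x - dR (lam t) (sig t) x) ^ 2 ≤ ε
  q1 : (1 / 4) * (∫ x, dQ x ^ 2) ≤ lam t ^ 2 * ∫ x, du t x ^ 2
  q2 : lam t ^ 2 * (∫ x, du t x ^ 2) ≤ 3 * ∫ x, dQ x ^ 2
  l1 : cl * (T - t) ^ ν ≤ lam t
  l2 : lam t ≤ Cl * (T - t) ^ ν
  sg : |sig t - x0| ≤ 1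
  en : 5 * |E2 u du| * (T - t) ^ (2 * ν) ≤ (1 / 8) * (∫ x, dQ x ^ 2) * Cl⁻¹ ^ 2
  sm : (T - t) ^ (3 * ν - 1) ≤ ε

theorem near (S : Setup T ν x0 u du lam sig r dr) {cl Cl B ε : ℝ} (hCl : 0 < Cl)
    (hlam : ∀ᶠ t in 𝓝[<] T, cl * (T - t) ^ ν ≤ lam t ∧ lam t ≤ Cl * (T - t) ^ ν) (hε : 0 < ε) :
    ∀ᶠ t in 𝓝[<] T, Near T ν x0 u du lam sig r dr cl Cl B ε t := by
  have hq := int_dQ_pos
  have h1 := S.conv.eventually (gt_mem_nhds (by positivity : 0 < ε ^ 2))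
  have h2 : ∀ᶠ t in 𝓝[<] T, B * (√(lam t) * ∫ y, Q y) < ε := by
    have h3 : Tendsto (fun t => B * (√(lam t) * ∫ y, Q y)) (𝓝[<] T) (𝓝 (B * (√0 * ∫ y, Q y))) :=
      (((continuous_sqrt.tendsto 0).comp S.l0).mul_const _).const_mul _
    simp only [sqrt_zero, zero_mul, mul_zero] at h3
    exact h3.eventually (gt_mem_nhds hε)
  have h3 := S.dw_small.eventually (gt_mem_nhds hε)
  have h4 : ∀ᶠ t in 𝓝[<] T, |sig t - x0| < 1 := by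
    have h5 : Tendsto (fun t => |sig t - x0|) (𝓝[<] T) (𝓝 |x0 - x0|) := (S.s0.sub_const x0).abs
    simp only [sub_self, abs_zero] at h5
    exact h5.eventually (gt_mem_nhds one_pos)
  have h5 : ∀ᶠ t in 𝓝[<] T, 5 * |E2 u du| * (T - t) ^ (2 * ν) ≤
      (1 / 8) * (∫ x, dQ x ^ 2) * Cl⁻¹ ^ 2 := by
    have h6 : Tendsto (fun t => 5 * |E2 u du| * (T - t) ^ (2 * ν)) (𝓝[<] T)
        (𝓝 (5 * |E2 u du| * 0)) :=
      (tendsto_rpow_sub T (by linarith [S.hν1])).const_mul _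
    rw [mul_zero] at h6
    filter_upwards [h6.eventually (gt_mem_nhds (by positivity :
      0 < (1 / 8) * (∫ x, dQ x ^ 2) * Cl⁻¹ ^ 2))] with t ht
    exact ht.le
  filter_upwards [ev_Ico S.hT, ev_sub_le T one_pos, h1, h2, h3, S.du_sq_bounds, hlam, h4, h5,
    ev_rpow_le T (by linarith [S.hν1] : 0 < 3 * ν - 1) hε] with t a1 a2 a3 a4 a5 a6 a7 a8 a9 a10
  exact ⟨a1, a2, a3.le, a4.le, a5.le, a6.1, a6.2, a7.1, a7.2, a8.le, a9, a10⟩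

theorem rho_facts {T ν t : ℝ} (hν1 : 1 / 3 < ν) (hν2 : ν < 3 / 7) (ht : t < T) (h1 : T - t ≤ 1) :
    0 < (T - t) ^ (1 - 2 * ν) ∧ (T - t) ^ (1 - 2 * ν) ≤ 1 ∧
    (T - t) ^ ν = (T - t) ^ (3 * ν - 1) * (T - t) ^ (1 - 2 * ν) ∧
    (T - t) = (T - t) ^ (3 * ν - 1) * (T - t) ^ (3 * ν - 1) *
      ((T - t) ^ (1 - 2 * ν) * (T - t) ^ (1 - 2 * ν) * (T - t) ^ (1 - 2 * ν)) := by
  have hd : 0 < T - t := sub_pos.2 ht
  refine ⟨rpow_pos_of_pos hd _, rpow_le_one hd.le h1 (by linarith), ?_, ?_⟩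
  · rw [← rpow_add hd]; congr 1; ring
  · rw [← rpow_add hd, ← rpow_add hd, ← rpow_add hd, ← rpow_add hd]
    have : 3 * ν - 1 + (3 * ν - 1) + (1 - 2 * ν + (1 - 2 * ν) + (1 - 2 * ν)) = 1 := by ring
    rw [this, rpow_one]

/-- smallness of the tail at a later time, seen from distance `ρ0 ≥ (T-t)^{1-2ν}` -/
theorem tail_small {T ν t s Cl ε ls ρ0 : ℝ} (hν1 : 1 / 3 < ν) (hν2 : ν < 3 / 7) (hCl : 0 < Cl)
    (hts : t ≤ s) (hs : s < T) (h1 : T - t ≤ 1) (hls : 0 < ls) (hl2 : ls ≤ Cl * (T - s) ^ ν)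
    (hsm : (T - t) ^ (3 * ν - 1) ≤ ε) (hρ0 : (T - t) ^ (1 - 2 * ν) ≤ ρ0) :
    ls ≤ Cl * ε * ρ0 ∧ 4 * Ce * exp (-(ρ0 / ls)) ≤ 4 * Ce * (Cl * ε) := by
  have ht : t < T := hts.trans_lt hs
  obtain ⟨f1, f2, f3, f4⟩ := rho_facts hν1 hν2 ht h1
  have hd : 0 < T - t := sub_pos.2 ht
  have hds : 0 < T - s := sub_pos.2 hs
  have hρpos : 0 < ρ0 := f1.trans_le hρ0
  have g1 : (T - s) ^ ν ≤ (T - t) ^ ν := rpow_le_rpow hds.le (by linarith) (by linarith)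
  have hε : 0 < ε := (rpow_pos_of_pos hd _).trans_le hsm
  have g2 : ls ≤ Cl * ε * ρ0 := by
    calc ls ≤ Cl * (T - s) ^ ν := hl2
      _ ≤ Cl * (T - t) ^ ν := mul_le_mul_of_nonneg_left g1 hCl.le
      _ = Cl * ((T - t) ^ (3 * ν - 1) * (T - t) ^ (1 - 2 * ν)) := by rw [f3]
      _ ≤ Cl * (ε * ρ0) := by
          refine mul_le_mul_of_nonneg_left ?_ hCl.le
          exact mul_le_mul hsm hρ0 f1.le hε.le
      _ = _ := by ring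
  refine ⟨g2, ?_⟩
  refine mul_le_mul_of_nonneg_left ?_ (by have := Ce_nonneg; positivity)
  have hX : 0 < ρ0 / ls := div_pos hρpos hls
  refine (exp_neg_le hX).trans ?_
  rw [inv_div, div_le_iff₀ hρpos]
  exact g2

end Setup

end Pool.Agent.Helper44.Gkdv
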