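import Pool.Agent.Helper44.Gkdv.Pos2

set_option autoImplicit false
set_option maxHeartbeats 4000000

open MeasureTheory Set Filter Topology Real
open scoped ENNReal ContDiff

namespace Pool.Agent.Helper44.Gkdv

namespace Setup

variable {T ν x0 : ℝ} {u du : ℝ → ℝ → ℝ} {lam sig : ℝ → ℝ} {r dr : ℝ → ℝ}

/-- the flux functional -/
noncomputable def Fl (u du : ℝ → ℝ → ℝ) (Φ1 Φ3 : ℝ → ℝ) (x0 ρ s : ℝ) : ℝ :=
  (5 / 3) * (∫ x, u s x ^ 6 * Φ1 ((x - x0) / ρ)) + ((-3) * (∫ x, du s x ^ 2 * Φ1 ((x - x0) / ρ))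
        + ∫ x, u s x ^ 2 * (ρ⁻¹ ^ 2 * Φ3 ((x - x0) / ρ)))

theorem flux_bounds (S : Setup T ν x0 u du lam sig r dr) {Φ Φ1 Φ2 Φ3 : ℝ → ℝ}
    {m cl Cl B ε ε' s ρ0 M : ℝ} (hΦ : Lin Φ Φ1 Φ2 Φ3 m) (hcl : 0 < cl) (hCl : 0 < Cl)
    (N : Near T ν x0 u du lam sig r dr cl Cl B ε s) (hε : 0 < ε) (hεε : ε ≤ ε') (hε1 : ε' ≤ 1)
    (hρ : 0 < ρ0) (hsig : |sig s - x0| ≤ ρ0) (htail : 4 * Ce * exp (-(ρ0 / lam s)) ≤ ε')
    (hK : K2 (∫ x, r x ^ 2) * ε' ≤ (1 / 4) * ∫ x, dQ x ^ 2) (hM : ∫ x, u s x ^ 2 ≤ M) :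
    (1 / 8) * (∫ x, dQ x ^ 2) * Cl⁻¹ ^ 2 * (T - s) ^ (-(2 * ν)) - m * M * ρ0⁻¹ ^ 2 ≤
        Fl u du Φ1 Φ3 x0 ρ0 s ∧
      Fl u du Φ1 Φ3 x0 ρ0 s ≤
        7 * (∫ x, dQ x ^ 2) * cl⁻¹ ^ 2 * (T - s) ^ (-(2 * ν)) + m * M * ρ0⁻¹ ^ 2 := by
  have hl := S.lpos s
  have hu := S.sol.h1 s N.tI
  have hE := S.sol.energy N.tI
  have hq := int_dQ_pos
  have hε' : 0 < ε' := hε.trans_le hεε
  have h1 := flux_est hu S.hr hΦ hl hρ hsig hε' hε1 (N.e.trans (pow_le_pow_left₀ hε.le hεε 2))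
    (N.dw.trans hεε) htail hE hM
  have hfl : Fl u du Φ1 Φ3 x0 ρ0 s = (5 / 3) * (∫ x, u s x ^ 6 * Φ1 ((x - x0) / ρ0)) +
      ((-3) * (∫ x, du s x ^ 2 * Φ1 ((x - x0) / ρ0))
        + ∫ x, u s x ^ 2 * (ρ0⁻¹ ^ 2 * Φ3 ((x - x0) / ρ0))) := rfl
  rw [← hfl] at h1
  have h2 := abs_le.1 h1
  have hd : 0 < T - s := sub_pos.2 N.tI.2
  set q := ∫ x, dQ x ^ 2 with hqd
  set D := ∫ x, du s x ^ 2 with hD
  set δ := (T - s) ^ (-(2 * ν)) with hδ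
  have hδ0 : 0 < δ := rpow_pos_of_pos hd _
  have hδ2 : δ = ((T - s) ^ ν)⁻¹ ^ 2 := by
    rw [hδ, rpow_neg hd.le, inv_pow, two_mul, rpow_add hd]
    ring
  have hδ3 : (T - s) ^ (2 * ν) = δ⁻¹ := by
    rw [hδ, rpow_neg hd.le, inv_inv]
  have hp : 0 < (T - s) ^ ν := rpow_pos_of_pos hd _
  have hi : 0 < (lam s)⁻¹ := inv_pos.2 hl
  have b1 : (1 / 4) * q * (lam s)⁻¹ ^ 2 ≤ D := by
    have := mul_le_mul_of_nonneg_right N.q1 (by positivity : 0 ≤ (lam s)⁻¹ ^ 2)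
    calc (1 / 4) * q * (lam s)⁻¹ ^ 2 ≤ (lam s ^ 2 * D) * (lam s)⁻¹ ^ 2 := this
      _ = D := by field_simp
  have b2 : D ≤ 3 * q * (lam s)⁻¹ ^ 2 := by
    have := mul_le_mul_of_nonneg_right N.q2 (by positivity : 0 ≤ (lam s)⁻¹ ^ 2)
    calc D = (lam s ^ 2 * D) * (lam s)⁻¹ ^ 2 := by field_simp
      _ ≤ _ := this
  have b3 : Cl⁻¹ ^ 2 * δ ≤ (lam s)⁻¹ ^ 2 := by
    rw [hδ2, ← mul_pow]
    refine pow_le_pow_left₀ (by positivity) ?_ 2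
    rw [← mul_inv]
    exact inv_anti₀ hl N.l2
  have b4 : (lam s)⁻¹ ^ 2 ≤ cl⁻¹ ^ 2 * δ := by
    rw [hδ2, ← mul_pow]
    refine pow_le_pow_left₀ hi.le ?_ 2
    rw [← mul_inv]
    exact inv_anti₀ (by positivity) N.l1
  have b5 : 5 * |E2 u du| ≤ (1 / 8) * q * Cl⁻¹ ^ 2 * δ := by
    have h3 := N.en
    rw [hδ3] at h3
    have := mul_le_mul_of_nonneg_right h3 hδ0.le
    calc 5 * |E2 u du| = 5 * |E2 u du| * δ⁻¹ * δ := by field_simp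
      _ ≤ _ := this
  have b6 : K2 (∫ x, r x ^ 2) * ε' * (lam s)⁻¹ ^ 2 ≤ (1 / 4) * q * (lam s)⁻¹ ^ 2 :=
    mul_le_mul_of_nonneg_right hK (by positivity)
  have b7 : (1 / 4) * q * (Cl⁻¹ ^ 2 * δ) ≤ (1 / 4) * q * (lam s)⁻¹ ^ 2 :=
    mul_le_mul_of_nonneg_left b3 (by positivity)
  have b8 : q * (lam s)⁻¹ ^ 2 ≤ q * (cl⁻¹ ^ 2 * δ) := mul_le_mul_of_nonneg_left b4 hq.le
  have b9 : q * (Cl⁻¹ ^ 2 * δ) ≤ q * (lam s)⁻¹ ^ 2 := mul_le_mul_of_nonneg_left b3 hq.le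
  have e2 : |(∫ x, du 0 x ^ 2) - 1 / 3 * ∫ x, u 0 x ^ 6| = |E2 u du| := rfl
  rw [e2] at h2
  have hb0 : 0 ≤ q * (cl⁻¹ ^ 2 * δ) := by positivity
  constructor
  · nlinarith [h2.1]
  · nlinarith [h2.2]

/-- increments of the mass centre over a time interval -/
theorem N_incr (S : Setup T ν x0 u du lam sig r dr) {Φ Φ1 Φ2 Φ3 : ℝ → ℝ}
    {m ρ0 M a b cL cU : ℝ} (hΦ : Lin Φ Φ1 Φ2 Φ3 m)
    (hρ : 0 < ρ0) (hρ1 : ρ0 ≤ 1) (ha : 0 ≤ a) (hab : a ≤ b) (hb : b < T)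
    (hfl : ∀ s ∈ Icc a b, cL * (T - s) ^ (-(2 * ν)) - M ≤ Fl u du Φ1 Φ3 x0 ρ0 s ∧
      Fl u du Φ1 Φ3 x0 ρ0 s ≤ cU * (T - s) ^ (-(2 * ν)) + M) :
    cL / (1 - 2 * ν) * ((T - a) ^ (1 - 2 * ν) - (T - b) ^ (1 - 2 * ν)) - M * (b - a) ≤
      (∫ x, u b x ^ 2 * (ρ0 * Φ ((x - x0) / ρ0))) - (∫ x, u a x ^ 2 * (ρ0 * Φ ((x - x0) / ρ0))) ∧
    (∫ x, u b x ^ 2 * (ρ0 * Φ ((x - x0) / ρ0))) - (∫ x, u a x ^ 2 * (ρ0 * Φ ((x - x0) / ρ0))) ≤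
      cU / (1 - 2 * ν) * ((T - a) ^ (1 - 2 * ν) - (T - b) ^ (1 - 2 * ν)) + M * (b - a) := by
  have hν : ν < 1 / 2 := by linarith [S.hν2]
  obtain ⟨i1, e1⟩ := time_integral (T := T) hν hab hb
  obtain ⟨h1, hc⟩ := S.sol.flux (hΦ.cut' x0 hρ hρ1) ha hab hb
  have i2 : IntervalIntegrable (fun s => Fl u du Φ1 Φ3 x0 ρ0 s) volume a b := by
    refine ContinuousOn.intervalIntegrable ?_
    rw [uIcc_of_le hab]
    exact hc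
  rw [h1]
  constructor
  · calc _ = ∫ s in a..b, (cL * (T - s) ^ (-(2 * ν)) - M) := by
          rw [intervalIntegral.integral_sub (i1.const_mul _) intervalIntegrable_const,
            intervalIntegral.integral_const_mul, e1, intervalIntegral.integral_const, smul_eq_mul]
          ring
      _ ≤ ∫ s in a..b, Fl u du Φ1 Φ3 x0 ρ0 s :=
          intervalIntegral.integral_mono_on hab ((i1.const_mul _).sub intervalIntegrable_const) i2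
            (fun s hs => (hfl s hs).1)
      _ = _ := rfl
  · calc _ = ∫ s in a..b, Fl u du Φ1 Φ3 x0 ρ0 s := rfl
      _ ≤ ∫ s in a..b, (cU * (T - s) ^ (-(2 * ν)) + M) :=
          intervalIntegral.integral_mono_on hab i2 ((i1.const_mul _).add intervalIntegrable_const)
            (fun s hs => (hfl s hs).2)
      _ = _ := by
          rw [intervalIntegral.integral_add (i1.const_mul _) intervalIntegrable_const,
            intervalIntegral.integral_const_mul, e1, intervalIntegral.integral_const, smul_eq_mul]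
          ring

end Setup

end Pool.Agent.Helper44.Gkdv
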