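import Pool.Agent.Helper44.Gkdv.Pos3

set_option autoImplicit false
set_option maxHeartbeats 4000000

open MeasureTheory Set Filter Topology Real
open scoped ENNReal ContDiff

namespace Pool.Agent.Helper44.Gkdv

theorem K1_pos {m nr : ℝ} (hm : 1 ≤ m) : 0 < K1 m nr := by
  unfold K1
  have h0 : 0 ≤ ∫ y, Q y ^ 2 * |y| := integral_nonneg fun y => by positivity
  have h1 : 0 ≤ √(∫ y, Q y ^ 2) := sqrt_nonneg _
  have h2 : 0 ≤ √nr := sqrt_nonneg _
  have h3 : 0 < m := by linarith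
  positivity

theorem K2_pos {nr : ℝ} : 0 < K2 nr := by
  unfold K2
  positivity

namespace Setup

variable {T ν x0 : ℝ} {u du : ℝ → ℝ → ℝ} {lam sig : ℝ → ℝ} {r dr : ℝ → ℝ}

/-- limits of one sided inequalities for the position -/
theorem lim_pos (S : Setup T ν x0 u du lam sig r dr) {m0 s cL cU a b : ℝ} (hs : s < T)
    (hcL : 0 ≤ cL) (hcU : 0 ≤ cU)
    (h : ∀ t ∈ Ioo s T, cL * ((T - s) ^ (1 - 2 * ν) - (T - t) ^ (1 - 2 * ν)) - a ≤
        m0 * (sig t - sig s) ∧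
      m0 * (sig t - sig s) ≤ cU * ((T - s) ^ (1 - 2 * ν) - (T - t) ^ (1 - 2 * ν)) + b) :
    cL * (T - s) ^ (1 - 2 * ν) - a ≤ m0 * (x0 - sig s) ∧
      m0 * (x0 - sig s) ≤ cU * (T - s) ^ (1 - 2 * ν) + b := by
  have hk : 0 < 1 - 2 * ν := by linarith [S.hν2]
  have hev : ∀ᶠ t in 𝓝[<] T, t ∈ Ioo s T := Ioo_mem_nhdsLT hs
  have l1 : Tendsto (fun t => m0 * (sig t - sig s)) (𝓝[<] T) (𝓝 (m0 * (x0 - sig s))) :=
    (S.s0.sub_const _).const_mul _
  have l2 := tendsto_rpow_sub T hk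
  have l3 : Tendsto (fun t => cL * ((T - s) ^ (1 - 2 * ν) - (T - t) ^ (1 - 2 * ν)) - a) (𝓝[<] T)
      (𝓝 (cL * ((T - s) ^ (1 - 2 * ν) - 0) - a)) :=
    ((l2.const_sub _).const_mul _).sub_const _
  have l4 : Tendsto (fun t => cU * ((T - s) ^ (1 - 2 * ν) - (T - t) ^ (1 - 2 * ν)) + b) (𝓝[<] T)
      (𝓝 (cU * ((T - s) ^ (1 - 2 * ν) - 0) + b)) :=
    ((l2.const_sub _).const_mul _).add_const _
  rw [sub_zero] at l3 l4
  exact ⟨le_of_tendsto_of_tendsto l3 l1 (hev.mono fun t ht => (h t ht).1),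
    le_of_tendsto_of_tendsto l1 l4 (hev.mono fun t ht => (h t ht).2)⟩

theorem pos_law (S : Setup T ν x0 u du lam sig r dr) :
    ∃ c1 C1 : ℝ, 0 < c1 ∧ 0 < C1 ∧ ∀ᶠ t in 𝓝[<] T, c1 * (T - t) ^ (1 - 2 * ν) ≤ x0 - sig t ∧
      |sig t - x0| ≤ C1 * (T - t) ^ (1 - 2 * ν) := by
  obtain ⟨cl, Cl, hcl, hCl, hlam⟩ := S.lam_bounds
  obtain ⟨B, hB0, hB⟩ := S.hr.bdd
  obtain ⟨Φ, Φ1, Φ2, Φ3, m, hΦ⟩ := exists_lin
  have hν1 := S.hν1
  have hν2 := S.hν2
  have hq := int_dQ_pos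
  have hm0 : 0 < ∫ y, Q y ^ 2 := int_Q_pos 1
  have hm1 := hΦ.hm
  set q := ∫ x, dQ x ^ 2 with hqd
  set m0 := ∫ y, Q y ^ 2 with hm0d
  set nr := ∫ x, r x ^ 2 with hnr
  set M := ∫ x, u 0 x ^ 2 with hMd
  have hM0 : 0 ≤ M := integral_nonneg fun x => sq_nonneg _
  set k := 1 - 2 * ν with hk
  have hk0 : 0 < k := by rw [hk]; linarith
  set cL := (1 / 8) * q * Cl⁻¹ ^ 2 with hcL
  set cU := 7 * q * cl⁻¹ ^ 2 with hcU
  have hcL0 : 0 < cL := by positivity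
  have hcU0 : 0 < cU := by positivity
  have hK1 : 0 < K1 m nr := K1_pos hm1
  have hK2 : 0 < K2 nr := K2_pos
  have hCe := Ce_nonneg
  set Kc := 1 + Cl + 4 * Ce * Cl with hKc
  have hKc1 : 1 ≤ Kc := by
    have : 0 ≤ 4 * Ce * Cl := by positivity
    linarith
  set A1 := cU / k + m * M + 2 * K1 m nr with hA1
  have hA10 : 0 < A1 := by positivity
  set C1 := 2 * A1 / m0 with hC1
  have hC10 : 0 < C1 := by positivity
  set G := m * M + 2 * K1 m nr * (C1 + 1) with hG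
  have hG0 : 0 < G := by positivity
  set ε' := min 1 (min (q / (4 * K2 nr)) (min (m0 / (4 * K1 m nr)) (cL / k / (2 * G)))) with hε'
  have hε'0 : 0 < ε' := by
    refine lt_min one_pos (lt_min (by positivity) (lt_min (by positivity) (by positivity)))
  have hε'1 : ε' ≤ 1 := min_le_left _ _
  have c1 : K2 nr * ε' ≤ (1 / 4) * q := by
    have h1 : ε' ≤ q / (4 * K2 nr) := (min_le_right _ _).trans (min_le_left _ _)
    rw [le_div_iff₀ (by positivity)] at h1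
    linarith
  have c2 : 2 * K1 m nr * ε' ≤ m0 / 2 := by
    have h1 : ε' ≤ m0 / (4 * K1 m nr) :=
      (min_le_right _ _).trans ((min_le_right _ _).trans (min_le_left _ _))
    rw [le_div_iff₀ (by positivity)] at h1
    linarith
  have c3 : G * ε' ≤ cL / k / 2 := by
    have h1 : ε' ≤ cL / k / (2 * G) :=
      (min_le_right _ _).trans ((min_le_right _ _).trans (min_le_right _ _))
    rw [le_div_iff₀ (by positivity)] at h1
    linarith
  set ε := ε' / Kc with hε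
  have hε0 : 0 < ε := by positivity
  have hKε : Kc * ε = ε' := by rw [hε]; field_simp
  have hεε : ε ≤ ε' := by rw [← hKε]; exact le_mul_of_one_le_left hε0.le hKc1
  have hClε : Cl * ε ≤ ε' := by
    rw [← hKε, hKc]
    have h1 : 0 ≤ 4 * Ce * Cl * ε := by positivity
    have h2 : (1 + Cl + 4 * Ce * Cl) * ε = ε + Cl * ε + 4 * Ce * Cl * ε := by ring
    rw [h2]
    linarith
  have hCeε : 4 * Ce * (Cl * ε) ≤ ε' := by
    rw [← hKε, hKc]
    have h1 : 0 ≤ Cl * ε := by positivity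
    have h2 : (1 + Cl + 4 * Ce * Cl) * ε = ε + Cl * ε + 4 * Ce * (Cl * ε) := by ring
    rw [h2]
    linarith
  refine ⟨cL / k / 2 / m0, C1, by positivity, hC10, ?_⟩
  obtain ⟨t1, ht10, ht1T, hnear⟩ := ev_to_Ico S.hT (S.near (cl := cl) (B := B) hCl hlam hε0)
  filter_upwards [Ico_mem_nhdsLT ht1T] with t ht
  have htT : t < T := ht.2
  have Nt := hnear t ht
  have hnear' : ∀ s ∈ Ico t T, Near T ν x0 u du lam sig r dr cl Cl B ε s :=
    fun s hs => hnear s ⟨ht.1.trans hs.1, hs.2⟩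
  set ρ := (T - t) ^ k with hρ
  obtain ⟨f1, f2, f3, f4⟩ := rho_facts hν1 hν2 htT Nt.d1
  set St := sSup ((fun s => |sig s - x0|) '' Ico t T) with hSt
  have hbdd : BddAbove ((fun s => |sig s - x0|) '' Ico t T) :=
    ⟨1, by rintro _ ⟨s, hs, rfl⟩; exact (hnear' s hs).sg⟩
  have hne : ((fun s => |sig s - x0|) '' Ico t T).Nonempty := ⟨_, t, ⟨le_rfl, htT⟩, rfl⟩
  have hle : ∀ s ∈ Ico t T, |sig s - x0| ≤ St := fun s hs => le_csSup hbdd ⟨s, hs, rfl⟩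
  have hSt1 : St ≤ 1 := csSup_le hne (by rintro _ ⟨s, hs, rfl⟩; exact (hnear' s hs).sg)
  have hSt0 : 0 ≤ St := (abs_nonneg _).trans (hle t ⟨le_rfl, htT⟩)
  set ρ0 := max St ρ with hρ0
  have hρρ0 : ρ ≤ ρ0 := le_max_right _ _
  have hρ0pos : 0 < ρ0 := f1.trans_le hρρ0
  have hρ01 : ρ0 ≤ 1 := max_le hSt1 f2
  have hρ0le : ρ0 ≤ St + ρ := max_le (by linarith) (by linarith)
  -- smallness of ρ0⁻² (T - t)
  have hsmall : ρ0⁻¹ ^ 2 * (T - t) ≤ ε' * ρ := by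
    have hθ0 : 0 < (T - t) ^ (3 * ν - 1) := rpow_pos_of_pos (sub_pos.2 htT) _
    have hθ := Nt.sm
    have h1 : ρ0⁻¹ ^ 2 ≤ ρ⁻¹ ^ 2 :=
      pow_le_pow_left₀ (by positivity) (inv_anti₀ f1 hρρ0) 2
    have h2 : ρ⁻¹ ^ 2 * (T - t) = (T - t) ^ (3 * ν - 1) * (T - t) ^ (3 * ν - 1) * ρ := by
      calc ρ⁻¹ ^ 2 * (T - t) = ρ⁻¹ ^ 2 * ((T - t) ^ (3 * ν - 1) * (T - t) ^ (3 * ν - 1) *
            (ρ * ρ * ρ)) := by rw [← f4]
        _ = _ := by field_simp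
    calc ρ0⁻¹ ^ 2 * (T - t) ≤ ρ⁻¹ ^ 2 * (T - t) :=
          mul_le_mul_of_nonneg_right h1 (sub_pos.2 htT).le
      _ = (T - t) ^ (3 * ν - 1) * (T - t) ^ (3 * ν - 1) * ρ := h2
      _ ≤ ε' * 1 * ρ := by
          refine mul_le_mul_of_nonneg_right ?_ f1.le
          exact mul_le_mul (hθ.trans hεε) ((hθ.trans hεε).trans hε'1) hθ0.le hε'0.le
      _ = _ := by ring
  -- the estimates at each time
  have Nest : ∀ s ∈ Ico t T, |(∫ x, u s x ^ 2 * (ρ0 * Φ ((x - x0) / ρ0))) - m0 * (sig s - x0) -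
      ∫ x, r x ^ 2 * (ρ0 * Φ ((x - x0) / ρ0))| ≤ K1 m nr * (ε' * ρ0) := by
    intro s hs
    have Ns := hnear' s hs
    obtain ⟨g1, g2⟩ := tail_small hν1 hν2 hCl hs.1 hs.2 Nt.d1 (S.lpos s) Ns.l2 Nt.sm hρρ0
    refine N_est (S.sol.h1 s Ns.tI) S.hr hΦ (S.lpos s) hρ0pos hρ01
      ((hle s hs).trans (le_max_left _ _)) hε'0 hε'1
      (Ns.e.trans (pow_le_pow_left₀ hε0.le hεε 2)) hB (Ns.rr.trans hεε) ?_
    exact g1.trans (mul_le_mul_of_nonneg_right hClε hρ0pos.le)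
  have Fest : ∀ s ∈ Ico t T,
      cL * (T - s) ^ (-(2 * ν)) - m * M * ρ0⁻¹ ^ 2 ≤ Fl u du Φ1 Φ3 x0 ρ0 s ∧
      Fl u du Φ1 Φ3 x0 ρ0 s ≤ cU * (T - s) ^ (-(2 * ν)) + m * M * ρ0⁻¹ ^ 2 := by
    intro s hs
    have Ns := hnear' s hs
    obtain ⟨g1, g2⟩ := tail_small hν1 hν2 hCl hs.1 hs.2 Nt.d1 (S.lpos s) Ns.l2 Nt.sm hρρ0
    exact S.flux_bounds hΦ hcl hCl Ns hε0 hεε hε'1 hρ0pos ((hle s hs).trans (le_max_left _ _))
      (g2.trans hCeε) c1 (S.sol.mass Ns.tI).le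
  have hpos : ∀ s ∈ Ico t T,
      cL / k * (T - s) ^ k - (m * M * (ε' * ρ) + 2 * (K1 m nr * (ε' * ρ0))) ≤ m0 * (x0 - sig s) ∧
      m0 * (x0 - sig s) ≤ cU / k * (T - s) ^ k + (m * M * (ε' * ρ) +
        2 * (K1 m nr * (ε' * ρ0))) := by
    intro s hs
    refine S.lim_pos hs.2 (by positivity) (by positivity) (fun b hb => ?_)
    have hbI : b ∈ Ico t T := ⟨hs.1.trans hb.1.le, hb.2⟩
    have h1 := S.N_incr hΦ hρ0pos hρ01 (ht10.trans (ht.1.trans hs.1)) hb.1.le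
      hb.2 (fun s' hs' => Fest s' ⟨hs.1.trans hs'.1, hs'.2.trans_lt hb.2⟩)
    have h2 := abs_le.1 (Nest s hs)
    have h3 := abs_le.1 (Nest b hbI)
    have h4 : m * M * ρ0⁻¹ ^ 2 * (b - s) ≤ m * M * (ε' * ρ) := by
      rw [mul_assoc (m * M)]
      refine mul_le_mul_of_nonneg_left ?_ (by positivity)
      refine le_trans ?_ hsmall
      refine mul_le_mul_of_nonneg_left ?_ (by positivity)
      linarith [hs.1, hb.2]
    have h5 : m0 * (sig b - sig s) = m0 * (sig b - x0) - m0 * (sig s - x0) := by ring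
    constructor
    · linarith [h1.1, h2.1, h2.2, h3.1, h3.2]
    · linarith [h1.2, h2.1, h2.2, h3.1, h3.2]
  have hρs : ∀ s ∈ Ico t T, (T - s) ^ k ≤ ρ := fun s hs =>
    rpow_le_rpow (sub_pos.2 hs.2).le (by linarith [hs.1]) hk0.le
  have hStle : St ≤ C1 * ρ := by
    have h1 : ∀ s ∈ Ico t T, m0 * |sig s - x0| ≤ A1 * ρ + (m0 / 2) * St := by
      intro s hs
      obtain ⟨g1, g2⟩ := hpos s hs
      have h2 : cU / k * (T - s) ^ k ≤ cU / k * ρ :=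
        mul_le_mul_of_nonneg_left (hρs s hs) (by positivity)
      have h3 : 0 ≤ cL / k * (T - s) ^ k := by
        have := rpow_pos_of_pos (sub_pos.2 hs.2) k
        positivity
      have h4 : m * M * (ε' * ρ) ≤ m * M * ρ := by
        refine mul_le_mul_of_nonneg_left ?_ (by positivity)
        exact mul_le_of_le_one_left f1.le hε'1
      have h5 : 2 * (K1 m nr * (ε' * ρ0)) ≤ 2 * K1 m nr * ρ + (m0 / 2) * St := by
        have h6 : 2 * (K1 m nr * (ε' * ρ0)) ≤ 2 * (K1 m nr * (ε' * (St + ρ))) := by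
          have := mul_le_mul_of_nonneg_left hρ0le (by positivity : 0 ≤ K1 m nr * ε')
          linarith
        have h7 : 2 * K1 m nr * ε' * St ≤ (m0 / 2) * St := mul_le_mul_of_nonneg_right c2 hSt0
        have h8 : 2 * K1 m nr * ε' * ρ ≤ 2 * K1 m nr * 1 * ρ := by
          refine mul_le_mul_of_nonneg_right ?_ f1.le
          exact mul_le_mul_of_nonneg_left hε'1 (by positivity)
        linarith
      have h9 : m0 * |sig s - x0| = |m0 * (x0 - sig s)| := by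
        rw [abs_mul, abs_of_pos hm0, abs_sub_comm]
      have h10 : 0 ≤ cU / k * ρ := by positivity
      rw [h9, abs_le, hA1]
      constructor
      · linarith
      · linarith
    have h2 : m0 * St ≤ A1 * ρ + (m0 / 2) * St := by
      have h3 : St ≤ (A1 * ρ + (m0 / 2) * St) / m0 := by
        refine csSup_le hne ?_
        rintro _ ⟨s, hs, rfl⟩
        rw [le_div_iff₀ hm0]
        linarith [h1 s hs]
      rw [le_div_iff₀ hm0] at h3
      linarith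
    rw [hC1, div_mul_eq_mul_div, le_div_iff₀ hm0]
    linarith
  constructor
  · have h1 := (hpos t ⟨le_rfl, htT⟩).1
    have h2 : 2 * (K1 m nr * (ε' * ρ0)) ≤ 2 * K1 m nr * (C1 + 1) * ε' * ρ := by
      have h3 : ρ0 ≤ (C1 + 1) * ρ := by linarith
      have := mul_le_mul_of_nonneg_left h3 (by positivity : 0 ≤ 2 * K1 m nr * ε')
      linarith
    have h4 : G * ε' * ρ ≤ cL / k / 2 * ρ := mul_le_mul_of_nonneg_right c3 f1.le
    rw [div_mul_eq_mul_div, div_le_iff₀ hm0]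
    rw [hG] at h4
    have h5 : cL / k / 2 * (T - t) ^ k = cL / k / 2 * ρ := rfl
    have h6 : (x0 - sig t) * m0 = m0 * (x0 - sig t) := mul_comm _ _
    have h7 : cL / k * (T - t) ^ k = cL / k * ρ := rfl
    rw [h6, h5]
    rw [h7] at h1
    linarith
  · exact (hle t ⟨le_rfl, htT⟩).trans hStle

end Setup

end Pool.Agent.Helper44.Gkdv
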