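import Pool.Agent.Helper44.Gkdv.Fin4

set_option autoImplicit false
set_option maxHeartbeats 4000000

open MeasureTheory Set Filter Topology Real
open scoped ENNReal ContDiff

namespace Pool.Agent.Helper44.Gkdv

theorem SmoothSol.neg {τ : ℝ} {V : ℝ → ℝ → ℝ} (h : SmoothSol τ V) :
    SmoothSol τ (fun t x => -V t x) where
  smooth := h.smooth.neg
  decay k m := by
    obtain ⟨C, hC⟩ := h.decay k m
    refine ⟨C, fun t ht x => ?_⟩
    have e : iteratedDeriv k (fun x => -V t x) x = -iteratedDeriv k (V t) x := by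
      rw [iteratedDeriv_fun_neg]
    rw [e, abs_neg]
    exact hC t ht x
  eqn t ht x := by
    have h1 := h.eqn t ht x
    have e1 : deriv (fun s => -V s x) t = -deriv (fun s => V s x) t := deriv.fun_neg
    have e2 : (fun y => iteratedDeriv 2 (fun x => -V t x) y + (-V t y) ^ 5) =
        fun y => -(iteratedDeriv 2 (V t) y + V t y ^ 5) := by
      funext y
      rw [iteratedDeriv_fun_neg]
      ring
    rw [e1, e2, deriv.fun_neg]
    linarith

theorem H1Sol.neg {T : ℝ} {u du : ℝ → ℝ → ℝ} (h : H1Sol T u du) :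
    H1Sol T (fun t x => -u t x) (fun t x => -du t x) where
  h1 t ht := (h.h1 t ht).neg
  approx τ hτ ε hε := by
    obtain ⟨V, hV, hd⟩ := h.approx τ hτ ε hε
    refine ⟨_, hV.neg, fun t ht => ?_⟩
    refine le_trans (le_of_eq ?_) (hd t ht)
    congr 1
    · exact integral_congr_ae (ae_of_all _ fun x => by simp only; ring)
    · refine integral_congr_ae (ae_of_all _ fun x => ?_)
      simp only
      rw [deriv.fun_neg]
      ring

/-- blow-up at the finite point `x0` -/
def FinPt (T x0 : ℝ) (u du : ℝ → ℝ → ℝ) : Prop :=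
  ∃ (lam sig : ℝ → ℝ) (e : ℝ), (e = 1 ∨ e = -1) ∧ (∀ t ∈ Ico 0 T, 0 < lam t) ∧
    Tendsto lam (𝓝[<] T) (𝓝 0) ∧ Tendsto sig (𝓝[<] T) (𝓝 x0) ∧
    ∀ φ dφ : ℝ → ℝ, IsH1 φ dφ → Tendsto (fun t => ∫ y,
      (√(lam t) * u t (lam t * y + sig t) * φ y +
        √(lam t) * (lam t * du t (lam t * y + sig t)) * dφ y))
      (𝓝[<] T) (𝓝 (e * ∫ y, (Q y * φ y + dQ y * dφ y)))

theorem FinPt.neg {T x0 : ℝ} {u du : ℝ → ℝ → ℝ} (h : FinPt T x0 u du) :
    FinPt T x0 (fun t x => -u t x) (fun t x => -du t x) := by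
  obtain ⟨lam, sig, e, he, hl, h1, h2, h3⟩ := h
  refine ⟨lam, sig, -e, ?_, hl, h1, h2, fun φ dφ hφ => ?_⟩
  · rcases he with rfl | rfl
    · right; rfl
    · left; norm_num
  · have h4 := (h3 φ dφ hφ).neg
    have e1 : -(e * ∫ y, (Q y * φ y + dQ y * dφ y)) = -e * ∫ y, (Q y * φ y + dQ y * dφ y) := by ring
    rw [e1] at h4
    refine h4.congr (fun t => ?_)
    rw [← integral_neg]
    exact integral_congr_ae (ae_of_all _ fun x => by simp only; ring)

theorem sqrt_le_one_add_sq (l : ℝ) : √l ≤ 1 + l ^ 2 := by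
  rw [sqrt_le_left (by positivity)]
  nlinarith [sq_nonneg (l ^ 2), sq_nonneg (l - 1)]

variable {T ν x0 : ℝ} {u du : ℝ → ℝ → ℝ} {lam sig : ℝ → ℝ} {r dr : ℝ → ℝ}

/-- the scale of the bubble tends to zero when the gradient blows up -/
theorem lam_tendsto (hT : 0 < T) (sol : H1Sol T u du) (hr : IsH1 r dr)
    (lpos : ∀ t ∈ Ico 0 T, 0 < lam t)
    (conv : Tendsto (fun t => ∫ x, (u t x - R (lam t) (sig t) x - r x) ^ 2) (𝓝[<] T) (𝓝 0))
    (blow : Tendsto (fun t => ∫ x, du t x ^ 2) (𝓝[<] T) atTop) :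
    Tendsto lam (𝓝[<] T) (𝓝 0) := by
  obtain ⟨B, hB0, hB⟩ := hr.bdd
  set K := 2 * |Setup.E2 u du| + 4096 * (∫ x, r x ^ 6) + ∫ x, dr x ^ 2 with hK
  set a := 800 * (B * ∫ y, Q y) with ha
  set b := 800 * √(∫ y, Q y ^ 2) + 2 * ∫ x, dQ x ^ 2 with hb
  have hQ0 : 0 ≤ ∫ y, Q y := integral_nonneg fun y => (Q_pos y).le
  have hq := int_dQ_pos
  have ha0 : 0 ≤ a := by positivity
  have hb0 : 0 < b := by
    have := sqrt_nonneg (∫ y, Q y ^ 2)
    linarith
  have hev : ∀ᶠ t in 𝓝[<] T, ∫ x, (u t x - R (lam t) (sig t) x - r x) ^ 2 < 1 / 200 :=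
    conv.eventually (gt_mem_nhds (by norm_num))
  -- `l^2 (X - 2K - a) ≤ a + b`
  have key : ∀ᶠ t in 𝓝[<] T,
      lam t ^ 2 * ((∫ x, du t x ^ 2) - (2 * K + a)) ≤ a + b := by
    filter_upwards [hev, ev_Ico hT] with t h1 h2
    have hl := lpos t h2
    have hE := sol.energy h2
    have hu := sol.h1 t h2
    have hR := isH1_R hl (sig t)
    have w := w_small hu hr hl hE hB h1.le le_rfl
    have h3 := int_sq_le_of_dst hu.mem' hR.mem'
    have e2 : lam t ^ 2 * ∫ x, dR (lam t) (sig t) x ^ 2 = ∫ x, dQ x ^ 2 := by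
      rw [int_dR_sq hl]
      field_simp
    have hl2 : 0 < lam t ^ 2 := by positivity
    have b1 := mul_le_mul_of_nonneg_left h3 hl2.le
    have s1 : √(1 / 200 : ℝ) ≤ 1 := by
      rw [sqrt_le_one]
      norm_num
    have s2 : √(∫ y, Q y ^ 2) * √(1 / 200 : ℝ) ≤ √(∫ y, Q y ^ 2) * 1 :=
      mul_le_mul_of_nonneg_left s1 (sqrt_nonneg _)
    have s3 := sqrt_le_one_add_sq (lam t)
    have s4 : a * √(lam t) ≤ a * (1 + lam t ^ 2) := mul_le_mul_of_nonneg_left s3 ha0
    have e3 : 2 * (400 * (B * (√(lam t) * ∫ y, Q y) + √(∫ y, Q y ^ 2) * √(1 / 200 : ℝ))) =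
      a * √(lam t) + 800 * (√(∫ y, Q y ^ 2) * √(1 / 200 : ℝ)) := by rw [ha]; ring
    have e4 : lam t ^ 2 * (2 * (∫ x, dR (lam t) (sig t) x ^ 2) +
      2 * ∫ x, (du t x - dR (lam t) (sig t) x) ^ 2) = 2 * (∫ x, dQ x ^ 2) +
      2 * (lam t ^ 2 * ∫ x, (du t x - dR (lam t) (sig t) x) ^ 2) := by
      rw [← e2]; ring
    rw [e4] at b1
    have w' : lam t ^ 2 * ∫ x, (du t x - dR (lam t) (sig t) x) ^ 2 ≤
      lam t ^ 2 * K + 400 * (B * (√(lam t) * ∫ y, Q y) + √(∫ y, Q y ^ 2) * √(1 / 200 : ℝ)) := w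
    have e5 : lam t ^ 2 * ((∫ x, du t x ^ 2) - (2 * K + a)) =
      lam t ^ 2 * (∫ x, du t x ^ 2) - 2 * (lam t ^ 2 * K) - a * lam t ^ 2 := by ring
    rw [e5]
    linarith
  rw [Metric.tendsto_nhds]
  intro ε hε
  have hX := blow.eventually (eventually_ge_atTop (2 * K + a + 2 * (a + b) / ε ^ 2))
  filter_upwards [key, hX, ev_Ico hT] with t h1 h2 h3
  have hl := lpos t h3
  rw [dist_zero_right, norm_eq_abs, abs_of_pos hl]
  by_contra hlt
  push Not at hlt
  have h4 : 2 * (a + b) / ε ^ 2 ≤ (∫ x, du t x ^ 2) - (2 * K + a) := by linarith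
  have h5 : ε ^ 2 ≤ lam t ^ 2 := pow_le_pow_left₀ hε.le hlt 2
  have h6 : 0 < 2 * (a + b) / ε ^ 2 := by positivity
  have h7 : ε ^ 2 * (2 * (a + b) / ε ^ 2) ≤ lam t ^ 2 * ((∫ x, du t x ^ 2) - (2 * K + a)) :=
    mul_le_mul h5 h4 h6.le (by positivity)
  have h8 : ε ^ 2 * (2 * (a + b) / ε ^ 2) = 2 * (a + b) := by field_simp
  rw [h8] at h7
  linarith

/-- two bubbles at distance at least `2 d` -/
theorem overlap {l l' : ℝ} (hl : 0 < l) (hl' : 0 < l') {s s' d : ℝ} (hd : 2 * d ≤ |s - s'|) :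
    ∫ x, R l s x * R l' s' x ≤ √(∫ y, Q y ^ 2) * √(4 * Ce * exp (-(d / l))) +
      √(∫ y, Q y ^ 2) * √(4 * Ce * exp (-(d / l'))) := by
  have hR := isH1_R hl s
  have hR' := isH1_R hl' s'
  set A : Set ℝ := {x | d ≤ |x - s|} with hA
  have mA : MeasurableSet A := by
    have : IsClosed A := isClosed_le continuous_const (by fun_prop)
    exact this.measurableSet
  have iRR := mul_int hR.mem hR'.mem
  rw [← integral_add_compl mA iRR]
  have c1 : ∫ x in A, R l s x * R l' s' x ≤ √(∫ y, Q y ^ 2) * √(4 * Ce * exp (-(d / l))) := by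
    have h1 := cs' (hR.mem.restrict A) (hR'.mem.restrict A)
    refine (le_abs_self _).trans (h1.trans ?_)
    rw [mul_comm]
    refine mul_le_mul ?_ (sqrt_le_sqrt (tail_R hl s mA (fun x hx => hx))) (sqrt_nonneg _)
      (sqrt_nonneg _)
    refine sqrt_le_sqrt ?_
    rw [← int_R_sq hl' s']
    exact setIntegral_le_integral hR'.mem.integrable_sq (ae_of_all _ fun x => sq_nonneg _)
  have c2 : ∫ x in Aᶜ, R l s x * R l' s' x ≤ √(∫ y, Q y ^ 2) * √(4 * Ce * exp (-(d / l'))) := by
    have h1 := cs' (hR.mem.restrict Aᶜ) (hR'.mem.restrict Aᶜ)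
    refine (le_abs_self _).trans (h1.trans ?_)
    refine mul_le_mul ?_ (sqrt_le_sqrt (tail_R hl' s' mA.compl (fun x hx => ?_))) (sqrt_nonneg _)
      (sqrt_nonneg _)
    · refine sqrt_le_sqrt ?_
      rw [← int_R_sq hl s]
      exact setIntegral_le_integral hR.mem.integrable_sq (ae_of_all _ fun x => sq_nonneg _)
    · have h2 : |x - s| < d := not_le.1 hx
      have h3 : |s - s'| ≤ |s - x| + |x - s'| := abs_sub_le s x s'
      rw [abs_sub_comm s x] at h3
      linarith
  exact add_le_add c1 c2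

/-- the centre of the bubble tends to the blow-up point -/
theorem sig_tendsto (hT : 0 < T) (sol : H1Sol T u du) (hr : IsH1 r dr)
    (lpos : ∀ t ∈ Ico 0 T, 0 < lam t) (l0 : Tendsto lam (𝓝[<] T) (𝓝 0))
    (conv : Tendsto (fun t => ∫ x, (u t x - R (lam t) (sig t) x - r x) ^ 2) (𝓝[<] T) (𝓝 0))
    (fp : FinPt T x0 u du) :
    Tendsto sig (𝓝[<] T) (𝓝 x0) := by
  obtain ⟨B, hB0, hB⟩ := hr.bdd
  obtain ⟨lam', sig', e, he, lpos', l0', s0', hweak⟩ := fp
  have hQ6 : 0 < ∫ y, Q y ^ 6 := int_Q_pos 5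
  -- testing with `Q`
  have h1 := hweak Q dQ isH1_Q
  have e1 : ∫ y, (Q y * Q y + dQ y * dQ y) = ∫ y, Q y ^ 6 := by
    have h2 := isH1_Q.ibp isH1_dQ
    have i1 : Integrable (fun x => Q x * Q x + dQ x * dQ x) :=
      (mul_int memLp_Q memLp_Q).add (mul_int memLp_dQ memLp_dQ)
    have i2 : Integrable (fun x => Q x ^ 6) := int_Q_pow 5
    have e2 : ∀ x, dQ x * dQ x + Q x * (Q x - Q x ^ 5) = (Q x * Q x + dQ x * dQ x) - Q x ^ 6 :=
      fun x => by ring
    simp only [e2] at h2
    rw [integral_sub i1 i2] at h2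
    linarith
  rw [e1] at h1
  -- the tested quantity
  have h2 : ∀ t ∈ Ico 0 T, |∫ y, (√(lam' t) * u t (lam' t * y + sig' t) * Q y +
      √(lam' t) * (lam' t * du t (lam' t * y + sig' t)) * dQ y)| ≤
      3 * ((∫ x, R (lam t) (sig t) x * R (lam' t) (sig' t) x) + B * (√(lam' t) * ∫ y, Q y) +
        √(∫ y, Q y ^ 2) * √(∫ x, (u t x - R (lam t) (sig t) x - r x) ^ 2)) := by
    intro t ht
    have hl := lpos t ht
    have hl' := lpos' t ht
    have hu := sol.h1 t ht
    set l := lam t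
    set l' := lam' t
    set s := sig t
    set s' := sig' t
    have hR := isH1_R hl s
    have hR' := isH1_R hl' s'
    have hE := (hu.sub hR).sub hr
    have hs' := sqrt_pos.2 hl'
    have k1 : ∫ y, (√l' * u t (l' * y + s') * Q y + √l' * (l' * du t (l' * y + s')) * dQ y) =
        ∫ x, (u t x * R l' s' x + l' ^ 2 * (du t x * dR l' s' x)) := by
      have h3 := int_scale (fun y => √l' * u t (l' * y + s') * Q y +
        √l' * (l' * du t (l' * y + s')) * dQ y) hl' s'
      have h4 : ∫ y, (√l' * u t (l' * y + s') * Q y + √l' * (l' * du t (l' * y + s')) * dQ y) =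
          l'⁻¹ * ∫ x, (fun y => √l' * u t (l' * y + s') * Q y +
            √l' * (l' * du t (l' * y + s')) * dQ y) ((x - s') / l') := by
        rw [h3]; field_simp
      rw [h4, ← integral_const_mul]
      refine integral_congr_ae (ae_of_all _ fun x => ?_)
      simp only
      have h5 : l' * ((x - s') / l') + s' = x := by field_simp; ring
      rw [h5]
      unfold R dR
      have h6 : √l' ^ 2 = l' := sq_sqrt hl'.le
      have h7 : l'⁻¹ * √l' = (√l')⁻¹ := by
        refine eq_inv_of_mul_eq_one_left ?_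
        calc l'⁻¹ * √l' * √l' = l'⁻¹ * √l' ^ 2 := by ring
          _ = 1 := by rw [h6, inv_mul_cancel₀ hl'.ne']
      have h8 : l' ^ 2 * (du t x * (dQ ((x - s') / l') / (l' * √l'))) =
          √l' * (du t x * dQ ((x - s') / l')) := by
        have : l' ^ 2 / (l' * √l') = √l' := by
          rw [div_eq_iff (by positivity)]
          calc l' ^ 2 = l' * (√l' ^ 2) := by rw [h6]; ring
            _ = _ := by ring
        calc l' ^ 2 * (du t x * (dQ ((x - s') / l') / (l' * √l'))) =
              l' ^ 2 / (l' * √l') * (du t x * dQ ((x - s') / l')) := by ring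
          _ = _ := by rw [this]
      rw [h8]
      calc l'⁻¹ * (√l' * u t x * Q ((x - s') / l') + √l' * (l' * du t x) * dQ ((x - s') / l')) =
            (l'⁻¹ * √l') * (u t x * Q ((x - s') / l')) +
              (l'⁻¹ * l') * (√l' * (du t x * dQ ((x - s') / l'))) := by ring
        _ = _ := by
            rw [h7, inv_mul_cancel₀ hl'.ne', one_mul]
            ring
    have k2 : ∫ x, (u t x * R l' s' x + l' ^ 2 * (du t x * dR l' s' x)) =
        ∫ x, u t x * (l' ^ 2 * R l' s' x ^ 5) := by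
      have h3 := (isH1_dR hl' s').ibp hu
      have i1 := mul_int hu.mem hR'.mem
      have i2 := (mul_int hu.mem' hR'.mem').const_mul (l' ^ 2)
      have i3 := mul_int hu.mem hR'.mem_pow5
      have i4 : Integrable (fun x => u t x * (l' ^ 2 * R l' s' x ^ 5)) := by
        refine (i3.const_mul (l' ^ 2)).congr (ae_of_all _ fun x => ?_)
        simp only
        ring
      have e3 : ∀ x, (l'⁻¹ ^ 2 * R l' s' x - R l' s' x ^ 5) * u t x + dR l' s' x * du t x =
          l'⁻¹ ^ 2 * ((u t x * R l' s' x + l' ^ 2 * (du t x * dR l' s' x)) -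
            u t x * (l' ^ 2 * R l' s' x ^ 5)) := by
        intro x
        field_simp
        ring
      simp only [e3] at h3
      rw [integral_const_mul, mul_eq_zero] at h3
      rcases h3 with h3 | h3
      · have : 0 < l'⁻¹ ^ 2 := by positivity
        exact absurd h3 this.ne'
      · have i12 : Integrable (fun x => u t x * R l' s' x + l' ^ 2 * (du t x * dR l' s' x)) :=
          i1.add i2
        rw [integral_sub i12 i4] at h3
        linarith
    rw [k1, k2]
    have k3 : ∀ x, 0 ≤ l' ^ 2 * R l' s' x ^ 5 ∧ l' ^ 2 * R l' s' x ^ 5 ≤ 3 * R l' s' x := by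
      intro x
      have hp := R_pos hl' s' x
      refine ⟨by positivity, ?_⟩
      have h4 := R_four_le hl' s' x
      calc l' ^ 2 * R l' s' x ^ 5 = l' ^ 2 * R l' s' x ^ 4 * R l' s' x := by ring
        _ ≤ l' ^ 2 * (3 * l'⁻¹ ^ 2) * R l' s' x := by gcongr
        _ = 3 * R l' s' x := by field_simp
    have i5 : Integrable (fun x => R l s x * R l' s' x) := mul_int hR.mem hR'.mem
    have i6 := (mul_int hR'.mem hr.mem).abs
    have i7 := (mul_int hR'.mem hE.mem).abs
    have i8 : Integrable (fun x => R l s x * R l' s' x + |R l' s' x * r x|) := i5.add i6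
    have i9 : Integrable (fun x => R l s x * R l' s' x + |R l' s' x * r x| +
      |R l' s' x * (u t x - R l s x - r x)|) := i8.add i7
    have i4 : Integrable (fun x => u t x * (l' ^ 2 * R l' s' x ^ 5)) := by
      refine ((mul_int hu.mem hR'.mem_pow5).const_mul (l' ^ 2)).congr (ae_of_all _ fun x => ?_)
      simp only
      ring
    calc |∫ x, u t x * (l' ^ 2 * R l' s' x ^ 5)| ≤ ∫ x, |u t x * (l' ^ 2 * R l' s' x ^ 5)| :=
          abs_integral_le_integral_abs
      _ ≤ ∫ x, 3 * (R l s x * R l' s' x + |R l' s' x * r x| +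
            |R l' s' x * (u t x - R l s x - r x)|) := by
          refine integral_mono i4.abs (i9.const_mul 3) (fun x => ?_)
          simp only
          rw [abs_mul, abs_of_nonneg (k3 x).1, abs_mul, abs_mul, abs_of_pos (R_pos hl' s' x)]
          have hp := R_pos hl s x
          have hp' := R_pos hl' s' x
          have h4 : |u t x| ≤ R l s x + |r x| + |u t x - R l s x - r x| := by
            calc |u t x| = |R l s x + r x + (u t x - R l s x - r x)| := by congr 1; ring
              _ ≤ |R l s x + r x| + |u t x - R l s x - r x| := abs_add_le _ _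
              _ ≤ |R l s x| + |r x| + |u t x - R l s x - r x| := by
                  linarith [abs_add_le (R l s x) (r x)]
              _ = _ := by rw [abs_of_pos hp]
          calc |u t x| * (l' ^ 2 * R l' s' x ^ 5) ≤
                (R l s x + |r x| + |u t x - R l s x - r x|) * (3 * R l' s' x) :=
                mul_le_mul h4 (k3 x).2 (k3 x).1 (by positivity)
            _ = _ := by ring
      _ = 3 * ((∫ x, R l s x * R l' s' x) + (∫ x, |R l' s' x * r x|) +
            ∫ x, |R l' s' x * (u t x - R l s x - r x)|) := by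
          rw [integral_const_mul, integral_add i8 i7, integral_add i5 i6]
      _ ≤ _ := by
          have h5 := int_R_mul_le hl' s' hr hB
          have h6 := cs hR'.mem hE.mem
          rw [int_R_sq hl' s'] at h6
          linarith
  -- limits of the small terms
  have lim1 : Tendsto (fun t => B * (√(lam' t) * ∫ y, Q y) +
      √(∫ y, Q y ^ 2) * √(∫ x, (u t x - R (lam t) (sig t) x - r x) ^ 2)) (𝓝[<] T) (𝓝 0) := by
    have a1 : Tendsto (fun t => √(lam' t)) (𝓝[<] T) (𝓝 (√0)) :=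
      (continuous_sqrt.tendsto 0).comp l0'
    have a2 : Tendsto (fun t => √(∫ x, (u t x - R (lam t) (sig t) x - r x) ^ 2)) (𝓝[<] T)
        (𝓝 (√0)) := (continuous_sqrt.tendsto 0).comp conv
    have a3 := ((a1.mul_const (∫ y, Q y)).const_mul B).add (a2.const_mul (√(∫ y, Q y ^ 2)))
    simpa using a3
  have habs : Tendsto (fun t => |∫ y, (√(lam' t) * u t (lam' t * y + sig' t) * Q y +
      √(lam' t) * (lam' t * du t (lam' t * y + sig' t)) * dQ y)|) (𝓝[<] T) (𝓝 (∫ y, Q y ^ 6)) := by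
    have h3 := h1.abs
    have e3 : |e * ∫ y, Q y ^ 6| = ∫ y, Q y ^ 6 := by
      rw [abs_mul, abs_of_pos hQ6]
      rcases he with rfl | rfl
      · simp
      · simp
    rw [e3] at h3
    exact h3
  have low : ∀ᶠ t in 𝓝[<] T, (1 / 12) * (∫ y, Q y ^ 6) ≤
      ∫ x, R (lam t) (sig t) x * R (lam' t) (sig' t) x := by
    filter_upwards [ev_Ico hT, habs.eventually (lt_mem_nhds (by linarith :
      (1 / 2) * (∫ y, Q y ^ 6) < ∫ y, Q y ^ 6)), lim1.eventually (gt_mem_nhds (by positivity :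
      0 < (1 / 12) * ∫ y, Q y ^ 6))] with t a1 a2 a3
    have a4 := h2 t a1
    linarith
  have dd : Tendsto (fun t => sig t - sig' t) (𝓝[<] T) (𝓝 0) := by
    rw [Metric.tendsto_nhds]
    intro ε hε
    have small : ∀ L : ℝ → ℝ, (∀ t ∈ Ico 0 T, 0 < L t) → Tendsto L (𝓝[<] T) (𝓝 0) →
        Tendsto (fun t => √(∫ y, Q y ^ 2) * √(4 * Ce * exp (-(ε / 2 / L t)))) (𝓝[<] T) (𝓝 0) := by
      intro L hL hL0
      have hCe := Ce_nonneg
      have b1 : Tendsto (fun t => √(∫ y, Q y ^ 2) * √(4 * Ce * (2 / ε * L t))) (𝓝[<] T)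
          (𝓝 (√(∫ y, Q y ^ 2) * √(4 * Ce * (2 / ε * 0)))) :=
        (((hL0.const_mul (2 / ε)).const_mul (4 * Ce)).sqrt).const_mul _
      simp only [mul_zero, sqrt_zero] at b1
      refine squeeze_zero' (Eventually.of_forall fun t => by positivity) ?_ b1
      filter_upwards [ev_Ico hT] with t ht
      have hl := hL t ht
      refine mul_le_mul_of_nonneg_left (sqrt_le_sqrt ?_) (sqrt_nonneg _)
      refine mul_le_mul_of_nonneg_left ?_ (by positivity)
      have b2 : 0 < ε / 2 / L t := by positivity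
      refine (exp_neg_le b2).trans (le_of_eq ?_)
      field_simp
    have b3 := (small lam lpos l0).add (small lam' lpos' l0')
    rw [add_zero] at b3
    filter_upwards [ev_Ico hT, low, b3.eventually (gt_mem_nhds (by positivity :
      0 < (1 / 12) * ∫ y, Q y ^ 6))] with t a1 a2 a3
    rw [dist_zero_right, norm_eq_abs]
    by_contra hge
    push Not at hge
    have a4 := overlap (lpos t a1) (lpos' t a1) (s := sig t) (s' := sig' t) (d := ε / 2)
      (by linarith)
    linarith
  have := dd.add s0'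
  simpa using this

end Pool.Agent.Helper44.Gkdv
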