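import Pool.Agent.Helper44.Gkdv.Sol

set_option autoImplicit false
set_option maxHeartbeats 4000000

open MeasureTheory Set Filter Topology Real
open scoped ENNReal ContDiff

namespace Pool.Agent.Helper44.Gkdv

/-- the rescaled and translated ground state -/
noncomputable def R (l s x : ℝ) : ℝ := Q ((x - s) / l) / √l

noncomputable def dR (l s x : ℝ) : ℝ := dQ ((x - s) / l) / (l * √l)

theorem int_scale (F : ℝ → ℝ) {l : ℝ} (hl : 0 < l) (s : ℝ) :
    ∫ x, F ((x - s) / l) = l * ∫ y, F y := by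
  rw [integral_sub_right_eq_self (fun x => F (x / l)) s, Measure.integral_comp_div F l,
    abs_of_pos hl, smul_eq_mul]

theorem integrable_scale {F : ℝ → ℝ} (hF : Integrable F) {l : ℝ} (hl : 0 < l) (s : ℝ) :
    Integrable (fun x => F ((x - s) / l)) :=
  (hF.comp_div hl.ne').comp_sub_right s

variable {l : ℝ}

theorem R_pos (hl : 0 < l) (s x : ℝ) : 0 < R l s x := div_pos (Q_pos _) (sqrt_pos.2 hl)

theorem cont_R (s : ℝ) : Continuous (R l s) := by
  unfold R
  have := cont_Q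
  fun_prop

theorem cont_dR (s : ℝ) : Continuous (dR l s) := by
  unfold dR
  have := cont_dQ
  fun_prop

theorem hasDerivAt_R (hl : 0 < l) (s x : ℝ) : HasDerivAt (R l s) (dR l s x) x := by
  have lin : HasDerivAt (fun x => (x - s) / l) l⁻¹ x := by
    simpa using ((hasDerivAt_id x).sub_const s).div_const l
  have := ((hasDerivAt_Q ((x - s) / l)).comp x lin).div_const (√l)
  refine this.congr_deriv ?_
  unfold dR
  have h1 := sqrt_pos.2 hl
  field_simp

theorem hasDerivAt_dR (hl : 0 < l) (s x : ℝ) :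
    HasDerivAt (dR l s) (l⁻¹ ^ 2 * R l s x - R l s x ^ 5) x := by
  have lin : HasDerivAt (fun x => (x - s) / l) l⁻¹ x := by
    simpa using ((hasDerivAt_id x).sub_const s).div_const l
  have := ((hasDerivAt_dQ ((x - s) / l)).comp x lin).div_const (l * √l)
  refine this.congr_deriv ?_
  unfold R
  have h1 := sqrt_pos.2 hl
  have h2 : √l ^ 2 = l := sq_sqrt hl.le
  have h3 : √l ^ 5 = l ^ 2 * √l := by
    calc √l ^ 5 = (√l ^ 2) ^ 2 * √l := by ring
      _ = _ := by rw [h2]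
  rw [div_pow, h3]
  field_simp

theorem R_sq (hl : 0 < l) (s x : ℝ) : R l s x ^ 2 = l⁻¹ * Q ((x - s) / l) ^ 2 := by
  unfold R
  rw [div_pow, sq_sqrt hl.le]
  ring

theorem R_four_le (hl : 0 < l) (s x : ℝ) : R l s x ^ 4 ≤ 3 * l⁻¹ ^ 2 := by
  have : R l s x ^ 4 = (R l s x ^ 2) ^ 2 := by ring
  rw [this, R_sq hl, mul_pow]
  have h1 := Q_four_le ((x - s) / l)
  have h2 : (Q ((x - s) / l) ^ 2) ^ 2 = Q ((x - s) / l) ^ 4 := by ring
  rw [h2]
  nlinarith [sq_nonneg l⁻¹]

theorem dR_sq_le (hl : 0 < l) (s x : ℝ) : dR l s x ^ 2 ≤ l⁻¹ ^ 2 * R l s x ^ 2 := by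
  have e : dR l s x ^ 2 = l⁻¹ ^ 2 * (l⁻¹ * dQ ((x - s) / l) ^ 2) := by
    unfold dR
    rw [div_pow, mul_pow, sq_sqrt hl.le]
    field_simp
  rw [e, R_sq hl]
  have h1 : dQ ((x - s) / l) ^ 2 ≤ Q ((x - s) / l) ^ 2 := by
    rw [← sq_abs (dQ _)]
    exact pow_le_pow_left₀ (abs_nonneg _) (abs_dQ_le _) 2
  have h2 : 0 < l⁻¹ := inv_pos.2 hl
  gcongr

theorem int_R (hl : 0 < l) (s : ℝ) : ∫ x, R l s x = √l * ∫ y, Q y := by
  unfold R
  rw [integral_div, int_scale Q hl s]
  have h1 := sqrt_pos.2 hl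
  have h2 : √l ^ 2 = l := sq_sqrt hl.le
  field_simp
  rw [h2]
  ring

theorem integrable_R (hl : 0 < l) (s : ℝ) : Integrable (R l s) := by
  have := int_Q_pow 0
  simp only [zero_add, pow_one] at this
  exact (integrable_scale this hl s).div_const _

theorem int_R_sq (hl : 0 < l) (s : ℝ) : ∫ x, R l s x ^ 2 = ∫ y, Q y ^ 2 := by
  simp only [R_sq hl]
  rw [integral_const_mul, int_scale (fun y => Q y ^ 2) hl s]
  field_simp

theorem int_R_six (hl : 0 < l) (s : ℝ) : ∫ x, R l s x ^ 6 = l⁻¹ ^ 2 * ∫ y, Q y ^ 6 := by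
  have e : ∀ x, R l s x ^ 6 = l⁻¹ ^ 3 * Q ((x - s) / l) ^ 6 := by
    intro x
    have : R l s x ^ 6 = (R l s x ^ 2) ^ 3 := by ring
    rw [this, R_sq hl, mul_pow]; ring
  simp only [e]
  rw [integral_const_mul, int_scale (fun y => Q y ^ 6) hl s]
  field_simp

theorem int_dR_sq (hl : 0 < l) (s : ℝ) : ∫ x, dR l s x ^ 2 = l⁻¹ ^ 2 * ∫ y, dQ y ^ 2 := by
  have e : ∀ x, dR l s x ^ 2 = l⁻¹ ^ 3 * dQ ((x - s) / l) ^ 2 := by
    intro x
    unfold dR
    rw [div_pow, mul_pow, sq_sqrt hl.le]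
    field_simp
  simp only [e]
  rw [integral_const_mul, int_scale (fun y => dQ y ^ 2) hl s]
  field_simp

theorem memLp_R (hl : 0 < l) (s : ℝ) : MemLp (R l s) 2 volume := by
  rw [memLp_two_iff_integrable_sq (cont_R s).aestronglyMeasurable]
  simp only [R_sq hl]
  have := int_Q_pow 1
  simp only [Nat.reduceAdd] at this
  exact (integrable_scale this hl s).const_mul _

theorem memLp_dR (hl : 0 < l) (s : ℝ) : MemLp (dR l s) 2 volume := by
  refine MemLp.of_le ((memLp_R hl s).const_mul l⁻¹) (cont_dR s).aestronglyMeasurable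
    (ae_of_all _ fun x => ?_)
  rw [norm_eq_abs, norm_eq_abs, abs_mul]
  have h1 := dR_sq_le hl s x
  have h2 : 0 < l⁻¹ := inv_pos.2 hl
  have h3 : dR l s x ^ 2 ≤ (|l⁻¹| * |R l s x|) ^ 2 := by
    rw [mul_pow, sq_abs, sq_abs]; exact h1
  exact abs_le_of_sq_le_sq h3 (by positivity)

theorem isH1_R (hl : 0 < l) (s : ℝ) : IsH1 (R l s) (dR l s) := by
  refine ⟨memLp_R hl s, memLp_dR hl s, fun x y => ?_⟩
  rw [intervalIntegral.integral_eq_sub_of_hasDerivAt (fun z _ => hasDerivAt_R hl s z)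
    ((cont_dR s).intervalIntegrable _ _)]

theorem isH1_dR (hl : 0 < l) (s : ℝ) :
    IsH1 (dR l s) (fun x => l⁻¹ ^ 2 * R l s x - R l s x ^ 5) := by
  refine ⟨memLp_dR hl s, ?_, fun x y => ?_⟩
  · refine ((memLp_R hl s).const_mul _).sub ?_
    refine MemLp.of_le ((memLp_R hl s).const_mul (3 * l⁻¹ ^ 2)) ((cont_R s).pow 5).aestronglyMeasurable
      (ae_of_all _ fun x => ?_)
    have hp := R_pos hl s x
    rw [norm_eq_abs, norm_eq_abs, abs_of_pos (pow_pos hp _), abs_of_nonneg (by positivity)]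
    calc R l s x ^ 5 = R l s x ^ 4 * R l s x := by ring
      _ ≤ _ := mul_le_mul_of_nonneg_right (R_four_le hl s x) hp.le
  · have hc : Continuous (fun x => l⁻¹ ^ 2 * R l s x - R l s x ^ 5) := by
      have := cont_R (l := l) s
      fun_prop
    rw [intervalIntegral.integral_eq_sub_of_hasDerivAt (fun z _ => hasDerivAt_dR hl s z)
      (hc.intervalIntegrable _ _)]

/-- the constant `∫ e^{-|y|}` -/
noncomputable def Ce : ℝ := ∫ y : ℝ, exp (-|y|)

theorem Ce_nonneg : 0 ≤ Ce := integral_nonneg fun y => (exp_pos _).le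

theorem int_exp1 : Integrable (fun x : ℝ => exp (-|x|)) := by
  simpa using int_exp_abs one_pos

theorem tail_R (hl : 0 < l) (s : ℝ) {d : ℝ} {A : Set ℝ} (hA : MeasurableSet A)
    (hd : ∀ x ∈ A, d ≤ |x - s|) : ∫ x in A, R l s x ^ 2 ≤ 4 * Ce * exp (-(d / l)) := by
  have h2 : 0 < l⁻¹ := inv_pos.2 hl
  have i1 : Integrable (fun x : ℝ => exp (-|(x - s) / l|)) := integrable_scale int_exp1 hl s
  calc ∫ x in A, R l s x ^ 2 ≤
        ∫ x in A, (4 * exp (-(d / l)) * l⁻¹) * exp (-|(x - s) / l|) := by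
        refine setIntegral_mono_on (memLp_R hl s).integrable_sq.integrableOn
          (i1.const_mul _).integrableOn hA (fun x hx => ?_)
        rw [R_sq hl]
        have e1 : Q ((x - s) / l) ^ 2 ≤ 4 * (exp (-(d / l)) * exp (-|(x - s) / l|)) := by
          have q1 := Q_le ((x - s) / l)
          have q2 : Q ((x - s) / l) ^ 2 ≤ (2 * exp (-|(x - s) / l|)) ^ 2 :=
            pow_le_pow_left₀ (Q_pos _).le q1 2
          have q3 : exp (-|(x - s) / l|) ≤ exp (-(d / l)) := by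
            rw [exp_le_exp, abs_div, abs_of_pos hl]
            have := div_le_div_of_nonneg_right (hd x hx) hl.le
            linarith
          have q4 : exp (-|(x - s) / l|) * exp (-|(x - s) / l|) ≤
              exp (-(d / l)) * exp (-|(x - s) / l|) :=
            mul_le_mul_of_nonneg_right q3 (exp_pos _).le
          nlinarith
        calc l⁻¹ * Q ((x - s) / l) ^ 2 ≤ l⁻¹ * (4 * (exp (-(d / l)) * exp (-|(x - s) / l|))) :=
              mul_le_mul_of_nonneg_left e1 h2.le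
          _ = _ := by ring
    _ ≤ ∫ x, (4 * exp (-(d / l)) * l⁻¹) * exp (-|(x - s) / l|) :=
        setIntegral_le_integral (i1.const_mul _) (ae_of_all _ fun x => by positivity)
    _ = _ := by
        rw [integral_const_mul, int_scale (fun y => exp (-|y|)) hl s]
        unfold Ce
        field_simp

theorem int_R_abs (hl : 0 < l) (s : ℝ) :
    Integrable (fun x => R l s x ^ 2 * |x - s|) ∧
    ∫ x, R l s x ^ 2 * |x - s| = l * ∫ y, Q y ^ 2 * |y| := by
  have e : ∀ x, R l s x ^ 2 * |x - s| = Q ((x - s) / l) ^ 2 * |(x - s) / l| := by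
    intro x
    rw [R_sq hl, abs_div, abs_of_pos hl]
    field_simp
  simp only [e]
  have i1 : Integrable (fun y => Q y ^ 2 * |y|) := by
    refine (int_exp1.const_mul 4).mono' ((cont_Q.pow 2).mul continuous_abs).aestronglyMeasurable
      (ae_of_all _ fun y => ?_)
    rw [norm_eq_abs, abs_of_nonneg (by positivity)]
    have q1 : Q y ^ 2 ≤ (2 * exp (-|y|)) ^ 2 := pow_le_pow_left₀ (Q_pos _).le (Q_le y) 2
    have q2 : |y| * exp (-|y|) ≤ 1 := by
      have h1 := add_one_le_exp |y|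
      have h2 := exp_pos (-|y|)
      have h3 : exp |y| * exp (-|y|) = 1 := by rw [← exp_add]; simp
      nlinarith
    calc Q y ^ 2 * |y| ≤ (2 * exp (-|y|)) ^ 2 * |y| := mul_le_mul_of_nonneg_right q1 (abs_nonneg _)
      _ = 4 * exp (-|y|) * (|y| * exp (-|y|)) := by ring
      _ ≤ 4 * exp (-|y|) * 1 := mul_le_mul_of_nonneg_left q2 (by positivity)
      _ = _ := mul_one _
  exact ⟨integrable_scale i1 hl s, int_scale (fun y => Q y ^ 2 * |y|) hl s⟩

theorem sixth_diff {a w : ℝ} (ha : 0 ≤ a) : |(a + w) ^ 6 - a ^ 6| ≤ 192 * (a ^ 5 * |w| + w ^ 6) := by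
  have hw := abs_nonneg w
  have e6 : w ^ 6 = |w| ^ 6 := by
    rw [← abs_pow, abs_of_nonneg (by positivity)]
  rcases le_total |w| a with h | h
  · -- |w| ≤ a
    have hb : |a + w| ≤ 2 * a := by
      calc |a + w| ≤ |a| + |w| := abs_add_le _ _
        _ ≤ 2 * a := by rw [abs_of_nonneg ha]; linarith
    have e : (a + w) ^ 6 - a ^ 6 = w * ((a + w) ^ 5 + (a + w) ^ 4 * a + (a + w) ^ 3 * a ^ 2
        + (a + w) ^ 2 * a ^ 3 + (a + w) * a ^ 4 + a ^ 5) := by ring
    rw [e, abs_mul]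
    have k : ∀ i j : ℕ, i + j = 5 → |(a + w) ^ i * a ^ j| ≤ 32 * a ^ 5 := by
      intro i j hij
      rw [abs_mul, abs_pow, abs_of_nonneg (pow_nonneg ha j)]
      have hi : i ≤ 5 := by omega
      calc |a + w| ^ i * a ^ j ≤ (2 * a) ^ i * a ^ j :=
            mul_le_mul_of_nonneg_right (pow_le_pow_left₀ (abs_nonneg _) hb i) (pow_nonneg ha j)
        _ = 2 ^ i * a ^ (i + j) := by rw [mul_pow, pow_add]; ring
        _ ≤ 32 * a ^ 5 := by
            rw [hij]
            refine mul_le_mul_of_nonneg_right ?_ (pow_nonneg ha 5)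
            calc (2 : ℝ) ^ i ≤ 2 ^ 5 := pow_le_pow_right₀ (by norm_num) hi
              _ = 32 := by norm_num
    have k5 := k 5 0 rfl
    have k4 := k 4 1 rfl
    have k3 := k 3 2 rfl
    have k2 := k 2 3 rfl
    have k1 := k 1 4 rfl
    have k0 := k 0 5 rfl
    simp only [pow_zero, mul_one, pow_one, one_mul] at k5 k4 k1 k0
    have tot : |(a + w) ^ 5 + (a + w) ^ 4 * a + (a + w) ^ 3 * a ^ 2
        + (a + w) ^ 2 * a ^ 3 + (a + w) * a ^ 4 + a ^ 5| ≤ 192 * a ^ 5 := by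
      rw [abs_le] at k5 k4 k3 k2 k1 k0 ⊢
      constructor <;> linarith [k5.1, k4.1, k3.1, k2.1, k1.1, k0.1, k5.2, k4.2, k3.2, k2.2, k1.2, k0.2]
    calc |w| * _ ≤ |w| * (192 * a ^ 5) := mul_le_mul_of_nonneg_left tot hw
      _ ≤ _ := by
        have : 0 ≤ w ^ 6 := by positivity
        nlinarith
  · have h1 : |a + w| ≤ 2 * |w| := by
      calc |a + w| ≤ |a| + |w| := abs_add_le _ _
        _ ≤ 2 * |w| := by rw [abs_of_nonneg ha]; linarith
    have h2 : (a + w) ^ 6 ≤ 64 * w ^ 6 := by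
      rw [e6]
      calc (a + w) ^ 6 = |a + w| ^ 6 := by rw [← abs_pow, abs_of_nonneg (by positivity)]
        _ ≤ (2 * |w|) ^ 6 := pow_le_pow_left₀ (abs_nonneg _) h1 6
        _ = _ := by ring
    have h3 : a ^ 6 ≤ w ^ 6 := by
      rw [e6]; exact pow_le_pow_left₀ ha h 6
    have h4 : 0 ≤ (a + w) ^ 6 := by positivity
    have h5 : 0 ≤ a ^ 6 := by positivity
    have h6 : 0 ≤ a ^ 5 * |w| := by positivity
    rw [abs_le]
    constructor <;> nlinarith

end Pool.Agent.Helper44.Gkdv
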