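import Pool.Agent.Helper44.Gkdv.WSmall
import Pool.Agent.Helper44.Gkdv.EStepU

set_option autoImplicit false
set_option maxHeartbeats 4000000

open MeasureTheory Set Filter Topology Real
open scoped ENNReal ContDiff

namespace Pool.Agent.Helper44.Gkdv

/-- The situation to be excluded. -/
structure Setup (T ν x0 : ℝ) (u du : ℝ → ℝ → ℝ) (lam sig : ℝ → ℝ) (r dr : ℝ → ℝ) : Prop where
  hT : 0 < T
  hν1 : 1 / 3 < ν
  hν2 : ν < 3 / 7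
  sol : H1Sol T u du
  hr : IsH1 r dr
  lpos : ∀ t, 0 < lam t
  l0 : Tendsto lam (𝓝[<] T) (𝓝 0)
  s0 : Tendsto sig (𝓝[<] T) (𝓝 x0)
  conv : Tendsto (fun t => ∫ x, (u t x - R (lam t) (sig t) x - r x) ^ 2) (𝓝[<] T) (𝓝 0)
  rate : ∃ c C : ℝ, 0 < c ∧ 0 < C ∧ ∀ᶠ t in 𝓝[<] T,
    c * (T - t) ^ (-ν) ≤ √(∫ x, du t x ^ 2) ∧ √(∫ x, du t x ^ 2) ≤ C * (T - t) ^ (-ν)

variable {T ν x0 : ℝ} {u du : ℝ → ℝ → ℝ} {lam sig : ℝ → ℝ} {r dr : ℝ → ℝ}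

theorem ev_Ico (hT : 0 < T) : ∀ᶠ t in 𝓝[<] T, t ∈ Ico 0 T := by
  have h1 : ∀ᶠ t in 𝓝[<] T, t < T := self_mem_nhdsWithin
  have h2 : ∀ᶠ t in 𝓝[<] T, 0 < t :=
    nhdsWithin_le_nhds (lt_mem_nhds hT)
  filter_upwards [h1, h2] with t h1 h2
  exact ⟨h2.le, h1⟩

/-- from eventually to a left neighbourhood -/
theorem ev_to_Ico (hT : 0 < T) {p : ℝ → Prop} (h : ∀ᶠ t in 𝓝[<] T, p t) :
    ∃ t1, 0 ≤ t1 ∧ t1 < T ∧ ∀ t ∈ Ico t1 T, p t := by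
  obtain ⟨l, hl, hsub⟩ := (mem_nhdsLT_iff_exists_Ioo_subset' hT).1 h
  refine ⟨max 0 ((l + T) / 2), le_max_left _ _, max_lt hT (by
    have : l < T := hl
    linarith), fun t ht => hsub ⟨?_, ht.2⟩⟩
  have h1 : (l + T) / 2 ≤ t := (le_max_right _ _).trans ht.1
  have h2 : l < T := hl
  linarith

namespace Setup

/-- the double energy -/
noncomputable def E2 (u du : ℝ → ℝ → ℝ) : ℝ := (∫ x, du 0 x ^ 2) - (1 / 3) * ∫ x, u 0 x ^ 6

theorem dw_small (S : Setup T ν x0 u du lam sig r dr) :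
    Tendsto (fun t => lam t ^ 2 * ∫ x, (du t x - dR (lam t) (sig t) x) ^ 2) (𝓝[<] T) (𝓝 0) := by
  obtain ⟨B, hB0, hB⟩ := S.hr.bdd
  set K := 2 * |E2 u du| + 4096 * (∫ x, r x ^ 6) + ∫ x, dr x ^ 2
  have hlim : Tendsto (fun t => lam t ^ 2 * K + 400 * (B * (√(lam t) * ∫ y, Q y) +
      √(∫ y, Q y ^ 2) * √(∫ x, (u t x - R (lam t) (sig t) x - r x) ^ 2))) (𝓝[<] T) (𝓝 0) := by
    have h1 : Tendsto (fun t => lam t ^ 2 * K) (𝓝[<] T) (𝓝 (0 ^ 2 * K)) :=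
      (S.l0.pow 2).mul_const K
    have h2 : Tendsto (fun t => √(lam t)) (𝓝[<] T) (𝓝 (√0)) :=
      (continuous_sqrt.tendsto 0).comp S.l0
    have h3 : Tendsto (fun t => √(∫ x, (u t x - R (lam t) (sig t) x - r x) ^ 2)) (𝓝[<] T)
        (𝓝 (√0)) := (continuous_sqrt.tendsto 0).comp S.conv
    have h4 := h1.add ((((h2.mul_const (∫ y, Q y)).const_mul B).add
      (h3.const_mul (√(∫ y, Q y ^ 2)))).const_mul 400)
    simpa using h4
  have hev : ∀ᶠ t in 𝓝[<] T, ∫ x, (u t x - R (lam t) (sig t) x - r x) ^ 2 < 1 / 200 :=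
    S.conv.eventually (gt_mem_nhds (by norm_num))
  refine squeeze_zero' (Eventually.of_forall fun t => ?_) ?_ hlim
  · have : 0 ≤ ∫ x, (du t x - dR (lam t) (sig t) x) ^ 2 := integral_nonneg fun x => sq_nonneg _
    positivity
  · filter_upwards [hev, ev_Ico S.hT] with t h1 h2
    have hE := S.sol.energy h2
    exact w_small (S.sol.h1 t h2) S.hr (S.lpos t) hE hB le_rfl h1.le

theorem du_sq_bounds (S : Setup T ν x0 u du lam sig r dr) :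
    ∀ᶠ t in 𝓝[<] T, (1 / 4) * (∫ x, dQ x ^ 2) ≤ lam t ^ 2 * ∫ x, du t x ^ 2 ∧
      lam t ^ 2 * (∫ x, du t x ^ 2) ≤ 3 * ∫ x, dQ x ^ 2 := by
  have hq := int_dQ_pos
  have hev := S.dw_small.eventually (gt_mem_nhds (by positivity : 0 < (1 / 8) * ∫ x, dQ x ^ 2))
  filter_upwards [hev, ev_Ico S.hT] with t h1 h2
  have hl := S.lpos t
  have hu := S.sol.h1 t h2
  have hR := isH1_R hl (sig t)
  have a1 := int_sq_le_of_dst hu.mem' hR.mem'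
  have a2 := int_sq_le_of_dst hR.mem' hu.mem'
  have e1 : ∫ x, (dR (lam t) (sig t) x - du t x) ^ 2 = ∫ x, (du t x - dR (lam t) (sig t) x) ^ 2 :=
    integral_congr_ae (ae_of_all _ fun x => by ring)
  rw [e1] at a2
  have e2 : lam t ^ 2 * ∫ x, dR (lam t) (sig t) x ^ 2 = ∫ x, dQ x ^ 2 := by
    rw [int_dR_sq hl]
    field_simp
  have hl2 : 0 < lam t ^ 2 := by positivity
  have b1 := mul_le_mul_of_nonneg_left a1 hl2.le
  have b2 := mul_le_mul_of_nonneg_left a2 hl2.le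
  constructor
  · linarith [b1, b2]
  · linarith [b1, b2]

/-- two sided bounds for the scale -/
theorem lam_bounds (S : Setup T ν x0 u du lam sig r dr) :
    ∃ c C : ℝ, 0 < c ∧ 0 < C ∧ ∀ᶠ t in 𝓝[<] T,
      c * (T - t) ^ ν ≤ lam t ∧ lam t ≤ C * (T - t) ^ ν := by
  obtain ⟨c, C, hc, hC, hrate⟩ := S.rate
  have hq := int_dQ_pos
  refine ⟨√((1 / 4) * ∫ x, dQ x ^ 2) / C, √(3 * ∫ x, dQ x ^ 2) / c, by positivity, by positivity, ?_⟩
  filter_upwards [hrate, S.du_sq_bounds, ev_Ico S.hT] with t h1 h2 h3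
  have hl := S.lpos t
  have hd : 0 < T - t := sub_pos.2 h3.2
  have hp : 0 < (T - t) ^ ν := rpow_pos_of_pos hd _
  have hpn : (T - t) ^ (-ν) = ((T - t) ^ ν)⁻¹ := rpow_neg hd.le ν
  have e1 : √(lam t ^ 2 * ∫ x, du t x ^ 2) = lam t * √(∫ x, du t x ^ 2) := by
    rw [sqrt_mul (by positivity), sqrt_sq hl.le]
  have k1 : √((1 / 4) * ∫ x, dQ x ^ 2) ≤ lam t * √(∫ x, du t x ^ 2) := by
    rw [← e1]; exact sqrt_le_sqrt h2.1
  have k2 : lam t * √(∫ x, du t x ^ 2) ≤ √(3 * ∫ x, dQ x ^ 2) := by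
    rw [← e1]; exact sqrt_le_sqrt h2.2
  rw [hpn] at h1
  constructor
  · have k3 : √((1 / 4) * ∫ x, dQ x ^ 2) ≤ lam t * (C * ((T - t) ^ ν)⁻¹) :=
      k1.trans (mul_le_mul_of_nonneg_left h1.2 hl.le)
    rw [div_mul_eq_mul_div, div_le_iff₀ hC]
    calc √((1 / 4) * ∫ x, dQ x ^ 2) * (T - t) ^ ν ≤
          lam t * (C * ((T - t) ^ ν)⁻¹) * (T - t) ^ ν := mul_le_mul_of_nonneg_right k3 hp.le
      _ = lam t * C := by field_simp
  · have k3 : lam t * (c * ((T - t) ^ ν)⁻¹) ≤ √(3 * ∫ x, dQ x ^ 2) :=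
      (mul_le_mul_of_nonneg_left h1.1 hl.le).trans k2
    rw [div_mul_eq_mul_div, le_div_iff₀ hc]
    calc lam t * c = lam t * (c * ((T - t) ^ ν)⁻¹) * (T - t) ^ ν := by field_simp
      _ ≤ _ := mul_le_mul_of_nonneg_right k3 hp.le

end Setup

end Pool.Agent.Helper44.Gkdv
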