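import Pool.Agent.Helper44.Gkdv.Law

set_option autoImplicit false
set_option maxHeartbeats 4000000

open MeasureTheory Set Filter Topology Real
open scoped ENNReal ContDiff

namespace Pool.Agent.Helper44.Gkdv

/-- A smooth rapidly decaying solution of the critical generalized Korteweg - de Vries equation on
the time interval `[0, τ]`. -/
structure SmoothSol (τ : ℝ) (V : ℝ → ℝ → ℝ) : Prop where
  smooth : ContDiff ℝ ∞ (fun p : ℝ × ℝ => V p.1 p.2)
  decay : ∀ k m : ℕ, ∃ C : ℝ, ∀ t ∈ Icc 0 τ, ∀ x, |x| ^ m * |iteratedDeriv k (V t) x| ≤ C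
  eqn : ∀ t ∈ Icc 0 τ, ∀ x,
    deriv (fun s => V s x) t + deriv (fun y => iteratedDeriv 2 (V t) y + V t y ^ 5) x = 0

/-- the space derivatives -/
noncomputable def Wk (V : ℝ → ℝ → ℝ) : ℕ → ℝ × ℝ → ℝ
  | 0 => fun p => V p.1 p.2
  | k + 1 => fun p => fderiv ℝ (Wk V k) p (0, 1)

/-- the time derivative of the space derivatives -/
noncomputable def Wt (V : ℝ → ℝ → ℝ) (k : ℕ) : ℝ × ℝ → ℝ := fun p => fderiv ℝ (Wk V k) p (1, 0)

theorem contDiff_dir {W : ℝ × ℝ → ℝ} (hW : ContDiff ℝ ∞ W) (v : ℝ × ℝ) :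
    ContDiff ℝ ∞ (fun p => fderiv ℝ W p v) :=
  (hW.fderiv_right (m := ∞) (by simp)).clm_apply contDiff_const

theorem contDiff_Wk {V : ℝ → ℝ → ℝ} (hV : ContDiff ℝ ∞ (fun p : ℝ × ℝ => V p.1 p.2)) (k : ℕ) :
    ContDiff ℝ ∞ (Wk V k) := by
  induction k with
  | zero => exact hV
  | succ k ih => exact contDiff_dir ih _

theorem hasDerivAt_snd {W : ℝ × ℝ → ℝ} (hW : ContDiff ℝ ∞ W) (t x : ℝ) :
    HasDerivAt (fun y => W (t, y)) (fderiv ℝ W (t, x) (0, 1)) x := by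
  have h1 : HasFDerivAt W (fderiv ℝ W (t, x)) (t, x) :=
    (hW.differentiable (by simp) _).hasFDerivAt
  have h2 : HasDerivAt (fun y : ℝ => (t, y)) ((0 : ℝ), (1 : ℝ)) x :=
    (hasDerivAt_const x t).prodMk (hasDerivAt_id x)
  exact h1.comp_hasDerivAt x h2

theorem hasDerivAt_fst {W : ℝ × ℝ → ℝ} (hW : ContDiff ℝ ∞ W) (t x : ℝ) :
    HasDerivAt (fun s => W (s, x)) (fderiv ℝ W (t, x) (1, 0)) t := by
  have h1 : HasFDerivAt W (fderiv ℝ W (t, x)) (t, x) :=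
    (hW.differentiable (by simp) _).hasFDerivAt
  have h2 : HasDerivAt (fun y : ℝ => (y, x)) ((1 : ℝ), (0 : ℝ)) t :=
    (hasDerivAt_id t).prodMk (hasDerivAt_const t x)
  exact h1.comp_hasDerivAt t h2

theorem dir_symm {W : ℝ × ℝ → ℝ} (hW : ContDiff ℝ ∞ W) (p v w : ℝ × ℝ) :
    fderiv ℝ (fun q => fderiv ℝ W q v) p w = fderiv ℝ (fun q => fderiv ℝ W q w) p v := by
  have hd : Differentiable ℝ (fderiv ℝ W) :=
    (hW.fderiv_right (m := ∞) (by simp)).differentiable (by simp)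
  have h1 : ∀ v : ℝ × ℝ, HasFDerivAt (fun q => fderiv ℝ W q v)
      ((fderiv ℝ (fderiv ℝ W) p).flip v) p := by
    intro v
    have := (hd p).hasFDerivAt.clm_apply (hasFDerivAt_const v p)
    refine this.congr_fderiv ?_
    ext
    · simp
    · simp
  rw [(h1 v).fderiv, (h1 w).fderiv]
  have hs : IsSymmSndFDerivAt ℝ W p :=
    (hW.contDiffAt).isSymmSndFDerivAt (by
      rw [minSmoothness_of_isRCLikeNormedField]
      exact WithTop.coe_le_coe.2 le_top)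
  exact hs w v

/-- All that is needed of a smooth solution. -/
structure SD (τ : ℝ) (W Wt : ℕ → ℝ → ℝ → ℝ) : Prop where
  dx : ∀ k t x, HasDerivAt (W k t) (W (k + 1) t x) x
  dt : ∀ k t x, HasDerivAt (fun s => W k s x) (Wt k t x) t
  cont : ∀ k, Continuous (fun p : ℝ × ℝ => W k p.1 p.2)
  eq0 : ∀ t ∈ Icc 0 τ, ∀ x, Wt 0 t x = -(W 3 t x + 5 * W 0 t x ^ 4 * W 1 t x)
  eq1 : ∀ t ∈ Icc 0 τ, ∀ x, Wt 1 t x =
    -(W 4 t x + 20 * W 0 t x ^ 3 * W 1 t x ^ 2 + 5 * W 0 t x ^ 4 * W 2 t x)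
  dec : ∀ k, ∃ C, ∀ t ∈ Icc 0 τ, ∀ x, |W k t x| ≤ C * (1 + x ^ 2)⁻¹

theorem SmoothSol.iter {τ : ℝ} {V : ℝ → ℝ → ℝ} (h : SmoothSol τ V) (k : ℕ) (t : ℝ) :
    iteratedDeriv k (V t) = fun x => Wk V k (t, x) := by
  induction k with
  | zero => simp [Wk]
  | succ k ih =>
    rw [iteratedDeriv_succ, ih]
    funext x
    exact (hasDerivAt_snd (contDiff_Wk h.smooth k) t x).deriv

theorem SmoothSol.sd {τ : ℝ} {V : ℝ → ℝ → ℝ} (h : SmoothSol τ V) :
    SD τ (fun k t x => Wk V k (t, x)) (fun k t x => Wt V k (t, x)) := by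
  have hW := contDiff_Wk h.smooth
  have hdx : ∀ k t x, HasDerivAt (fun y => Wk V k (t, y)) (Wk V (k + 1) (t, x)) x :=
    fun k t x => hasDerivAt_snd (hW k) t x
  have hdt : ∀ k t x, HasDerivAt (fun s => Wk V k (s, x)) (Wt V k (t, x)) t :=
    fun k t x => hasDerivAt_fst (hW k) t x
  have heq0 : ∀ t ∈ Icc 0 τ, ∀ x, Wt V 0 (t, x) =
      -(Wk V 3 (t, x) + 5 * Wk V 0 (t, x) ^ 4 * Wk V 1 (t, x)) := by
    intro t ht x
    have h1 := h.eqn t ht x
    have h2 : deriv (fun s => V s x) t = Wt V 0 (t, x) := (hdt 0 t x).deriv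
    have h3 : HasDerivAt (fun y => iteratedDeriv 2 (V t) y + V t y ^ 5)
        (Wk V 3 (t, x) + 5 * Wk V 0 (t, x) ^ 4 * Wk V 1 (t, x)) x := by
      rw [h.iter 2 t]
      have a1 := (hdx 2 t x).add ((hdx 0 t x).pow 5)
      refine a1.congr_deriv ?_
      norm_num
    rw [h2, h3.deriv] at h1
    linarith
  refine ⟨hdx, hdt, fun k => (hW k).continuous, heq0, ?_, ?_⟩
  · intro t ht x
    have h1 : HasDerivAt (fun y => Wt V 0 (t, y)) (Wt V 1 (t, x)) x := by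
      have a1 := hasDerivAt_snd (W := Wt V 0) (contDiff_dir (hW 0) _) t x
      have a2 : fderiv ℝ (Wt V 0) (t, x) (0, 1) = Wt V 1 (t, x) := by
        have := dir_symm (hW 0) (t, x) (1, 0) (0, 1)
        exact this
      rwa [a2] at a1
    have h2 : HasDerivAt (fun y => Wt V 0 (t, y))
        (-(Wk V 4 (t, x) + 20 * Wk V 0 (t, x) ^ 3 * Wk V 1 (t, x) ^ 2
          + 5 * Wk V 0 (t, x) ^ 4 * Wk V 2 (t, x))) x := by
      have e : (fun y => Wt V 0 (t, y)) =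
          fun y => -(Wk V 3 (t, y) + 5 * Wk V 0 (t, y) ^ 4 * Wk V 1 (t, y)) := by
        funext y; exact heq0 t ht y
      rw [e]
      have a1 := ((hdx 3 t x).add ((((hdx 0 t x).pow 4).const_mul 5).mul (hdx 1 t x))).neg
      refine a1.congr_deriv ?_
      simp only [Nat.cast_ofNat, Pi.pow_apply]
      ring
    exact h1.unique h2
  · intro k
    obtain ⟨C0, hC0⟩ := h.decay k 0
    obtain ⟨C2, hC2⟩ := h.decay k 2
    refine ⟨C0 + C2, fun t ht x => ?_⟩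
    have h0 := hC0 t ht x
    have h2 := hC2 t ht x
    rw [h.iter k t] at h0 h2
    simp only [pow_zero, one_mul, sq_abs] at h0 h2
    have hp : 0 < 1 + x ^ 2 := by positivity
    rw [← div_eq_mul_inv, le_div_iff₀ hp]
    nlinarith

end Pool.Agent.Helper44.Gkdv
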