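import Pool.Agent.Helper44.Gkdv.H1b

set_option autoImplicit false
set_option maxHeartbeats 4000000

open MeasureTheory Set Filter Topology Real
open scoped ENNReal ContDiff

namespace Pool.Agent.Helper44.Gkdv

/-- The ground state `Q(x) = (3 sech² (2x))^{1/4}`. -/
noncomputable def Q (x : ℝ) : ℝ := (3 / cosh (2 * x) ^ 2) ^ ((1 : ℝ) / 4)

/-- its derivative -/
noncomputable def dQ (x : ℝ) : ℝ := - Q x * (sinh (2 * x) / cosh (2 * x))

theorem base_pos (x : ℝ) : 0 < 3 / cosh (2 * x) ^ 2 := by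
  have := cosh_pos (2 * x)
  positivity

theorem Q_pos (x : ℝ) : 0 < Q x := rpow_pos_of_pos (base_pos x) _

theorem Q_four (x : ℝ) : Q x ^ 4 = 3 / cosh (2 * x) ^ 2 := by
  unfold Q
  rw [← rpow_natCast, ← rpow_mul (base_pos x).le]
  norm_num

theorem Q_eq_exp (x : ℝ) : Q x = exp ((1 / 4) * log 3 - (1 / 2) * log (cosh (2 * x))) := by
  unfold Q
  rw [rpow_def_of_pos (base_pos x), log_div (by norm_num) (by have := cosh_pos (2 * x); positivity),
    log_pow]
  congr 1
  push_cast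
  ring

theorem hasDerivAt_Q (x : ℝ) : HasDerivAt Q (dQ x) x := by
  have e : Q = fun x => exp ((1 / 4) * log 3 - (1 / 2) * log (cosh (2 * x))) := by
    funext y; exact Q_eq_exp y
  have hc := cosh_pos (2 * x)
  have h1 : HasDerivAt (fun x => cosh (2 * x)) (sinh (2 * x) * 2) x := by
    have := (hasDerivAt_id x).const_mul (2 : ℝ)
    exact ((Real.hasDerivAt_cosh (2 * x)).comp x this).congr_deriv (by simp)
  have h2 := (((h1.log hc.ne').const_mul (1 / 2)).const_sub ((1 / 4) * log 3)).exp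
  rw [← e] at h2
  refine h2.congr_deriv ?_
  unfold dQ
  rw [← Q_eq_exp x]
  field_simp

theorem tanh_sq (x : ℝ) : (sinh (2 * x) / cosh (2 * x)) ^ 2 = 1 - (1 / 3) * Q x ^ 4 := by
  rw [Q_four, div_pow]
  have hc := cosh_pos (2 * x)
  have := cosh_sq (2 * x)
  field_simp
  linarith

theorem dQ_sq (x : ℝ) : dQ x ^ 2 = Q x ^ 2 - (1 / 3) * Q x ^ 6 := by
  unfold dQ
  have : (-Q x * (sinh (2 * x) / cosh (2 * x))) ^ 2 =
    Q x ^ 2 * (sinh (2 * x) / cosh (2 * x)) ^ 2 := by ring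
  rw [this, tanh_sq]
  ring

theorem hasDerivAt_dQ (x : ℝ) : HasDerivAt dQ (Q x - Q x ^ 5) x := by
  have hc := cosh_pos (2 * x)
  have h1 : HasDerivAt (fun x => cosh (2 * x)) (sinh (2 * x) * 2) x := by
    have := (hasDerivAt_id x).const_mul (2 : ℝ)
    exact ((Real.hasDerivAt_cosh (2 * x)).comp x this).congr_deriv (by simp)
  have h2 : HasDerivAt (fun x => sinh (2 * x)) (cosh (2 * x) * 2) x := by
    have := (hasDerivAt_id x).const_mul (2 : ℝ)
    exact ((Real.hasDerivAt_sinh (2 * x)).comp x this).congr_deriv (by simp)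
  have h3 := (hasDerivAt_Q x).neg.mul (h2.div h1 hc.ne')
  refine h3.congr_deriv ?_
  have e1 := tanh_sq x
  have e2 : (cosh (2 * x) * 2 * cosh (2 * x) - sinh (2 * x) * (sinh (2 * x) * 2)) /
      cosh (2 * x) ^ 2 = 2 - 2 * (sinh (2 * x) / cosh (2 * x)) ^ 2 := by
    field_simp
  simp only [Pi.neg_apply]
  rw [e2]
  unfold dQ
  have e3 : -(-Q x * (sinh (2 * x) / cosh (2 * x))) * (sinh (2 * x) / cosh (2 * x)) =
    Q x * (sinh (2 * x) / cosh (2 * x)) ^ 2 := by ring
  change -(-Q x * (sinh (2 * x) / cosh (2 * x))) * (sinh (2 * x) / cosh (2 * x)) + _ = _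
  rw [e3, e1]
  ring

theorem cosh_lower (y : ℝ) : exp |y| / 2 ≤ cosh y := by
  rw [← cosh_abs y, cosh_eq]
  have := exp_pos (-|y|)
  linarith

theorem Q_le (x : ℝ) : Q x ≤ 2 * exp (-|x|) := by
  have h1 := cosh_lower (2 * x)
  have h2 : 0 < exp |2 * x| / 2 := by positivity
  have h3 : (exp |2 * x| / 2) ^ 2 ≤ cosh (2 * x) ^ 2 := pow_le_pow_left₀ h2.le h1 2
  have h4 : Q x ^ 4 ≤ (2 * exp (-|x|)) ^ 4 := by
    rw [Q_four]
    have e1 : (exp |2 * x| / 2) ^ 2 = exp (4 * |x|) / 4 := by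
      rw [div_pow, ← exp_nat_mul, abs_mul, abs_of_pos (by norm_num : (0 : ℝ) < 2)]
      push_cast
      congr 1
      · congr 1; ring
      · norm_num
    rw [e1] at h3
    have e2 : (2 * exp (-|x|)) ^ 4 = 16 * exp (-(4 * |x|)) := by
      rw [mul_pow, ← exp_nat_mul]
      push_cast
      congr 1
      · norm_num
      · congr 1; ring
    rw [e2]
    have hc := cosh_pos (2 * x)
    rw [div_le_iff₀ (by positivity)]
    have e3 : exp (-(4 * |x|)) * exp (4 * |x|) = 1 := by rw [← exp_add]; simp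
    have e4 := exp_pos (-(4 * |x|))
    nlinarith
  exact le_of_pow_le_pow_left₀ (by norm_num) (by positivity) h4

theorem Q_four_le (x : ℝ) : Q x ^ 4 ≤ 3 := by
  rw [Q_four]
  have h1 := one_le_cosh (2 * x)
  have h2 : 1 ≤ cosh (2 * x) ^ 2 := one_le_pow₀ h1
  rw [div_le_iff₀ (by positivity)]
  linarith

theorem abs_dQ_le (x : ℝ) : |dQ x| ≤ Q x := by
  have h1 : dQ x ^ 2 ≤ Q x ^ 2 := by
    rw [dQ_sq]
    have := pow_pos (Q_pos x) 6
    linarith
  exact abs_le_of_sq_le_sq h1 (Q_pos x).le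

theorem cont_Q : Continuous Q := continuous_iff_continuousAt.2 fun x => (hasDerivAt_Q x).continuousAt
theorem cont_dQ : Continuous dQ :=
  continuous_iff_continuousAt.2 fun x => (hasDerivAt_dQ x).continuousAt

theorem int_exp_abs {a : ℝ} (ha : 0 < a) : Integrable (fun x : ℝ => exp (-(a * |x|))) := by
  have h1 : IntegrableOn (fun x : ℝ => exp (-(a * |x|))) (Ioi 0) := by
    refine (integrableOn_exp_mul_Ioi (a := -a) (by linarith) 0).congr_fun (fun x hx => ?_)
      measurableSet_Ioi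
    simp only
    rw [abs_of_pos hx]
    congr 1; ring
  have h2 : IntegrableOn (fun x : ℝ => exp (-(a * |x|))) (Iic 0) := by
    refine (integrableOn_exp_mul_Iic (a := a) ha 0).congr_fun (fun x hx => ?_)
      measurableSet_Iic
    simp only
    rw [abs_of_nonpos hx]
    congr 1; ring
  rw [← integrableOn_univ, ← Iic_union_Ioi (a := (0 : ℝ))]
  exact h2.union h1

theorem int_Q_pow (n : ℕ) : Integrable (fun x => Q x ^ (n + 1)) := by
  refine ((int_exp_abs one_pos).const_mul (2 ^ (n + 1))).mono'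
    (cont_Q.pow _).aestronglyMeasurable (ae_of_all _ fun x => ?_)
  rw [norm_eq_abs, abs_of_pos (pow_pos (Q_pos x) _)]
  calc Q x ^ (n + 1) ≤ (2 * exp (-|x|)) ^ (n + 1) := pow_le_pow_left₀ (Q_pos x).le (Q_le x) _
    _ = 2 ^ (n + 1) * (exp (-|x|) ^ n * exp (-|x|)) := by rw [mul_pow, pow_succ (exp (-|x|))]
    _ ≤ 2 ^ (n + 1) * (1 * exp (-(1 * |x|))) := by
        rw [one_mul (|x|)]
        gcongr
        exact pow_le_one₀ (exp_pos _).le (exp_le_one_iff.2 (by simp))
    _ = _ := by rw [one_mul (exp _)]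

theorem memLp_Q : MemLp Q 2 volume := by
  rw [memLp_two_iff_integrable_sq cont_Q.aestronglyMeasurable]
  exact int_Q_pow 1

theorem memLp_dQ : MemLp dQ 2 volume := by
  refine MemLp.of_le memLp_Q cont_dQ.aestronglyMeasurable (ae_of_all _ fun x => ?_)
  rw [norm_eq_abs, norm_eq_abs, abs_of_pos (Q_pos x)]
  exact abs_dQ_le x

theorem isH1_Q : IsH1 Q dQ := by
  refine ⟨memLp_Q, memLp_dQ, fun x y => ?_⟩
  rw [intervalIntegral.integral_eq_sub_of_hasDerivAt (fun z _ => hasDerivAt_Q z)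
    (cont_dQ.intervalIntegrable _ _)]

theorem isH1_dQ : IsH1 dQ (fun x => Q x - Q x ^ 5) := by
  refine ⟨memLp_dQ, ?_, fun x y => ?_⟩
  · refine memLp_Q.sub ?_
    refine MemLp.of_le (memLp_Q.const_mul 3) (cont_Q.pow 5).aestronglyMeasurable
      (ae_of_all _ fun x => ?_)
    rw [norm_eq_abs, norm_eq_abs, abs_of_pos (pow_pos (Q_pos x) _), abs_mul,
      abs_of_pos (by norm_num : (0 : ℝ) < 3), abs_of_pos (Q_pos x)]
    have := Q_four_le x
    calc Q x ^ 5 = Q x ^ 4 * Q x := by ring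
      _ ≤ 3 * Q x := mul_le_mul_of_nonneg_right this (Q_pos x).le
  · rw [intervalIntegral.integral_eq_sub_of_hasDerivAt (fun z _ => hasDerivAt_dQ z)
      ((cont_Q.sub (cont_Q.pow 5)).intervalIntegrable _ _)]

/-- integration by parts on the line -/
theorem IsH1.ibp {f g a b : ℝ → ℝ} (h : IsH1 f g) (h' : IsH1 a b) :
    ∫ x, (g x * a x + f x * b x) = 0 := by
  have i1 : Integrable (fun x => g x * a x + f x * b x) :=
    (mul_int h.mem' h'.mem).add (mul_int h.mem h'.mem')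
  have t1 := intervalIntegral_tendsto_integral (μ := volume) (l := atTop) (a := fun n : ℝ => -n)
    (b := fun n : ℝ => n) i1 tendsto_neg_atTop_atBot tendsto_id
  have t2 : Tendsto (fun n : ℝ => f n * a n - f (-n) * a (-n)) atTop (𝓝 (0 * 0 - 0 * 0)) :=
    (h.tendsto_top.mul h'.tendsto_top).sub
      ((h.tendsto_bot.comp tendsto_neg_atTop_atBot).mul
        (h'.tendsto_bot.comp tendsto_neg_atTop_atBot))
  have e : ∀ n : ℝ, ∫ x in (-n)..n, (g x * a x + f x * b x) = f n * a n - f (-n) * a (-n) :=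
    fun n => h.integral_mul h' (-n) n
  simp only [e] at t1
  have := tendsto_nhds_unique t1 t2
  simpa using this

theorem Q_energy : ∫ x, dQ x ^ 2 = (1 / 3) * ∫ x, Q x ^ 6 := by
  have h1 := isH1_Q.ibp isH1_dQ
  have e1 : ∀ x, dQ x * dQ x + Q x * (Q x - Q x ^ 5) = dQ x ^ 2 + (Q x ^ 2 - Q x ^ 6) :=
    fun x => by ring
  simp only [e1] at h1
  have i2 := int_Q_pow 1
  have i6 := int_Q_pow 5
  simp only [Nat.reduceAdd] at i2 i6
  have i26 : Integrable (fun x => Q x ^ 2 - Q x ^ 6) := i2.sub i6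
  rw [integral_add memLp_dQ.integrable_sq i26, integral_sub i2 i6] at h1
  have h2 : ∫ x, dQ x ^ 2 = (∫ x, Q x ^ 2) - (1 / 3) * ∫ x, Q x ^ 6 := by
    simp only [dQ_sq]
    rw [integral_sub i2 (i6.const_mul _), integral_const_mul]
  linarith

theorem int_Q_pos (n : ℕ) : 0 < ∫ x, Q x ^ (n + 1) := by
  rw [integral_pos_iff_support_of_nonneg (fun x => (pow_pos (Q_pos x) _).le) (int_Q_pow n)]
  have : Function.support (fun x => Q x ^ (n + 1)) = univ := by
    ext x; simp [(Q_pos x).ne']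
  rw [this]
  simp

theorem int_dQ_pos : 0 < ∫ x, dQ x ^ 2 := by
  rw [Q_energy]
  have := int_Q_pos 5
  simp only [Nat.reduceAdd] at this
  positivity

end Pool.Agent.Helper44.Gkdv
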