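import Pool.Agent.Helper44.Gkdv.Scal
import Pool.Agent.Helper44.Gkdv.Limit

set_option autoImplicit false
set_option maxHeartbeats 4000000

open MeasureTheory Set Filter Topology Real
open scoped ENNReal ContDiff

namespace Pool.Agent.Helper44.Gkdv

theorem IsH1.mem_pow5 {f g : ℝ → ℝ} (h : IsH1 f g) : MemLp (fun x => f x ^ 5) 2 := by
  obtain ⟨B, hB, hb⟩ := h.bdd
  refine MemLp.of_le (h.mem.const_mul (B ^ 4)) (h.cont.pow _).aestronglyMeasurable
    (ae_of_all _ fun x => ?_)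
  rw [norm_eq_abs, norm_eq_abs, abs_pow, abs_mul, abs_of_nonneg (pow_nonneg hB 4), pow_succ]
  exact mul_le_mul_of_nonneg_right (pow_le_pow_left₀ (abs_nonneg _) (hb x) 4) (abs_nonneg _)

theorem sixth_convex (a b : ℝ) : (a + b) ^ 6 ≤ 32 * a ^ 6 + 32 * b ^ 6 := by
  have h1 : (a + b) ^ 2 ≤ 2 * a ^ 2 + 2 * b ^ 2 := by nlinarith [sq_nonneg (a - b)]
  have h2 : ((a + b) ^ 2) ^ 3 ≤ (2 * a ^ 2 + 2 * b ^ 2) ^ 3 :=
    pow_le_pow_left₀ (sq_nonneg _) h1 3
  have h3 : (2 * a ^ 2 + 2 * b ^ 2) ^ 3 ≤ 32 * (a ^ 2) ^ 3 + 32 * (b ^ 2) ^ 3 := by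
    have hx := sq_nonneg a
    have hy := sq_nonneg b
    nlinarith [mul_nonneg (add_nonneg hx hy) (sq_nonneg (a ^ 2 - b ^ 2))]
  calc (a + b) ^ 6 = ((a + b) ^ 2) ^ 3 := by ring
    _ ≤ _ := h2.trans h3
    _ = _ := by ring

theorem int_add_six {f a f' a' : ℝ → ℝ} (h : IsH1 f f') (h' : IsH1 a a') {ψ : ℝ → ℝ}
    (hc : Continuous ψ) (h0 : ∀ x, 0 ≤ ψ x) {C : ℝ} (hb : ∀ x, |ψ x| ≤ C) :
    ∫ x, (f x + a x) ^ 6 * ψ x ≤ 32 * (∫ x, f x ^ 6 * ψ x) + 32 * ∫ x, a x ^ 6 * ψ x := by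
  have i1 := intw (h.pow_int (k := 6) (by norm_num)) hc hb
  have i2 := intw (h'.pow_int (k := 6) (by norm_num)) hc hb
  rw [← integral_const_mul, ← integral_const_mul, ← integral_add (i1.const_mul _) (i2.const_mul _)]
  refine integral_mono (intw ((h.add h').pow_int (by norm_num)) hc hb)
    ((i1.const_mul _).add (i2.const_mul _)) (fun x => ?_)
  simp only
  have := mul_le_mul_of_nonneg_right (sixth_convex (f x) (a x)) (h0 x)
  linarith

theorem int_add_six' {f a f' a' : ℝ → ℝ} (h : IsH1 f f') (h' : IsH1 a a') :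
    ∫ x, (f x + a x) ^ 6 ≤ 32 * (∫ x, f x ^ 6) + 32 * ∫ x, a x ^ 6 := by
  have := int_add_six h h' (ψ := fun _ => 1) continuous_const (fun _ => zero_le_one) (C := 1)
    (fun _ => by simp)
  simpa using this

theorem int_R_mul_le {l : ℝ} (hl : 0 < l) (s : ℝ) {r dr : ℝ → ℝ} {B : ℝ}
    (hr : IsH1 r dr) (hB : ∀ x, |r x| ≤ B) :
    ∫ x, |R l s x * r x| ≤ B * (√l * ∫ y, Q y) := by
  rw [← int_R hl s, ← integral_const_mul]
  refine integral_mono (mul_int (memLp_R hl s) hr.mem).abs ((integrable_R hl s).const_mul B)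
    (fun x => ?_)
  simp only
  rw [abs_mul, abs_of_pos (R_pos hl s x), mul_comm]
  exact mul_le_mul_of_nonneg_right (hB x) (R_pos hl s x).le

/-- The energy expansion around the rescaled ground state. -/
theorem w_small {u du r dr : ℝ → ℝ} (hu : IsH1 u du) (hr : IsH1 r dr) {l s E B ς : ℝ} (hl : 0 < l)
    (hE : (∫ x, du x ^ 2) - (1 / 3) * (∫ x, u x ^ 6) = E) (hB : ∀ x, |r x| ≤ B)
    (hς : ∫ x, (u x - R l s x - r x) ^ 2 ≤ ς) (hς1 : ς ≤ 1 / 200) :
    l ^ 2 * ∫ x, (du x - dR l s x) ^ 2 ≤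
      l ^ 2 * (2 * |E| + 4096 * (∫ x, r x ^ 6) + ∫ x, dr x ^ 2) +
        400 * (B * (√l * ∫ y, Q y) + √(∫ y, Q y ^ 2) * √ς) := by
  have hR := isH1_R hl s
  have hRR := isH1_dR hl s
  have hw := hu.sub hR
  have he := hw.sub hr
  have hς0 : 0 ≤ ς := (integral_nonneg fun x => sq_nonneg _).trans hς
  have hi : 0 < l⁻¹ := inv_pos.2 hl
  set w : ℝ → ℝ := fun x => u x - R l s x with hwd
  set dw : ℝ → ℝ := fun x => du x - dR l s x with hdwd
  set D := ∫ x, dw x ^ 2 with hD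
  have hD0 : 0 ≤ D := integral_nonneg fun x => sq_nonneg _
  -- integrability
  have iRw : Integrable (fun x => R l s x * w x) := mul_int hR.mem hw.mem
  have mR5 : MemLp (fun x => R l s x ^ 5) 2 volume := by
    have := hR.mem_pow5
    exact this
  have iR5w : Integrable (fun x => R l s x ^ 5 * w x) := mul_int mR5 hw.mem
  have iu6 := hu.pow_int (k := 6) (by norm_num)
  have iR6 := hR.pow_int (k := 6) (by norm_num)
  have iw6 := hw.pow_int (k := 6) (by norm_num)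
  -- identity
  have e1 : ∫ x, du x ^ 2 = (∫ x, dR l s x ^ 2) + 2 * (∫ x, dR l s x * dw x) + D := by
    have i1 := hR.mem'.integrable_sq
    have i2 := (mul_int hR.mem' hw.mem').const_mul 2
    have i3 := hw.mem'.integrable_sq
    have i12 : Integrable (fun x => dR l s x ^ 2 + 2 * (dR l s x * dw x)) := i1.add i2
    rw [hD, ← integral_const_mul, ← integral_add i1 i2, ← integral_add i12 i3]
    refine integral_congr_ae (ae_of_all _ fun x => ?_)
    simp only [hdwd]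
    ring
  have e2 : ∫ x, dR l s x * dw x = -(l⁻¹ ^ 2 * ∫ x, R l s x * w x) + ∫ x, R l s x ^ 5 * w x := by
    have h1 := hRR.ibp hw
    have e : ∀ x, (l⁻¹ ^ 2 * R l s x - R l s x ^ 5) * w x + dR l s x * dw x =
      (l⁻¹ ^ 2 * (R l s x * w x) - R l s x ^ 5 * w x) + dR l s x * dw x := fun x => by ring
    simp only [e] at h1
    have i1 : Integrable (fun x => l⁻¹ ^ 2 * (R l s x * w x)) := iRw.const_mul _
    have i12 : Integrable (fun x => l⁻¹ ^ 2 * (R l s x * w x) - R l s x ^ 5 * w x) := i1.sub iR5w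
    rw [integral_add i12 (mul_int hR.mem' hw.mem'), integral_sub i1 iR5w,
      integral_const_mul] at h1
    linarith
  have e3 : ∫ x, dR l s x ^ 2 = (1 / 3) * ∫ x, R l s x ^ 6 := by
    rw [int_dR_sq hl, int_R_six hl, Q_energy]; ring
  have ident : D = E + (1 / 3) * ((∫ x, u x ^ 6) - ∫ x, R l s x ^ 6) +
      2 * (l⁻¹ ^ 2 * ∫ x, R l s x * w x) - 2 * ∫ x, R l s x ^ 5 * w x := by
    rw [← hE, e1, e2, e3]; ring
  -- estimates
  set J := ∫ x, |R l s x * w x| with hJ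
  have hJ0 : 0 ≤ J := integral_nonneg fun x => abs_nonneg _
  have b1 : |∫ x, R l s x * w x| ≤ J := abs_integral_le_integral_abs
  have i5 : Integrable (fun x => R l s x ^ 5 * |w x|) := by
    refine iR5w.abs.congr (ae_of_all _ fun x => ?_)
    simp only
    rw [abs_mul, abs_of_pos (pow_pos (R_pos hl s x) 5)]
  have b2 : ∫ x, R l s x ^ 5 * |w x| ≤ 3 * l⁻¹ ^ 2 * J := by
    rw [hJ, ← integral_const_mul]
    refine integral_mono i5 (iRw.abs.const_mul _) (fun x => ?_)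
    simp only
    have hp := R_pos hl s x
    rw [abs_mul, abs_of_pos hp]
    calc R l s x ^ 5 * |w x| = R l s x ^ 4 * (R l s x * |w x|) := by ring
      _ ≤ _ := mul_le_mul_of_nonneg_right (R_four_le hl s x) (by positivity)
  have b3 : |∫ x, R l s x ^ 5 * w x| ≤ 3 * l⁻¹ ^ 2 * J := by
    refine (abs_integral_le_integral_abs).trans (le_trans (le_of_eq ?_) b2)
    refine integral_congr_ae (ae_of_all _ fun x => ?_)
    simp only
    rw [abs_mul, abs_of_pos (pow_pos (R_pos hl s x) 5)]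
  have b4 : |(∫ x, u x ^ 6) - ∫ x, R l s x ^ 6| ≤
      192 * ((∫ x, R l s x ^ 5 * |w x|) + ∫ x, w x ^ 6) := by
    rw [← integral_sub iu6 iR6, ← integral_add i5 iw6, ← integral_const_mul]
    refine (abs_integral_le_integral_abs).trans ?_
    refine integral_mono (iu6.sub iR6).abs ((i5.add iw6).const_mul 192) (fun x => ?_)
    simp only [Pi.add_apply]
    have h1 := sixth_diff (w := w x) (R_pos hl s x).le
    have h2 : R l s x + w x = u x := by simp only [hwd]; ring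
    rw [h2] at h1
    exact h1
  have b5 : ∫ x, w x ^ 6 ≤ 32 * (∫ x, r x ^ 6) + 256 * ς ^ 2 * (D + ∫ x, dr x ^ 2) := by
    have h1 := int_add_six' hr he
    have h2 : ∀ x, r x + (u x - R l s x - r x) = w x := fun x => by simp only [hwd]; ring
    simp only [h2] at h1
    have h3 := he.six
    have h4 : (∫ x, (w x - r x) ^ 2) ^ 2 ≤ ς ^ 2 :=
      pow_le_pow_left₀ (integral_nonneg fun x => sq_nonneg _) hς 2
    have h5 : ∫ x, (dw x - dr x) ^ 2 ≤ 2 * D + 2 * ∫ x, dr x ^ 2 := by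
      have i1 := hw.mem'.integrable_sq.const_mul 2
      have i2 := hr.mem'.integrable_sq.const_mul 2
      rw [hD, ← integral_const_mul, ← integral_const_mul, ← integral_add i1 i2]
      refine integral_mono he.mem'.integrable_sq (i1.add i2) (fun x => ?_)
      simp only
      nlinarith [sq_nonneg (dw x + dr x)]
    have h6 : 0 ≤ ∫ x, (dw x - dr x) ^ 2 := integral_nonneg fun x => sq_nonneg _
    have h7 : 4 * (∫ x, (w x - r x) ^ 2) ^ 2 * ∫ x, (dw x - dr x) ^ 2 ≤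
        4 * ς ^ 2 * (2 * D + 2 * ∫ x, dr x ^ 2) := by
      refine mul_le_mul (by linarith) h5 h6 (by positivity)
    have h8 := h3.trans h7
    linarith
  have b6 : J ≤ B * (√l * ∫ y, Q y) + √(∫ y, Q y ^ 2) * √ς := by
    have h1 := int_R_mul_le hl s hr hB
    have h2 := cs hR.mem he.mem
    rw [int_R_sq hl s] at h2
    have h3 : √(∫ y, Q y ^ 2) * √(∫ x, (w x - r x) ^ 2) ≤ √(∫ y, Q y ^ 2) * √ς :=
      mul_le_mul_of_nonneg_left (sqrt_le_sqrt hς) (sqrt_nonneg _)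
    have h4 : J ≤ (∫ x, |R l s x * r x|) + ∫ x, |R l s x * (w x - r x)| := by
      have i1 := (mul_int hR.mem hr.mem).abs
      have i2 := (mul_int hR.mem he.mem).abs
      rw [← integral_add i1 i2]
      refine integral_mono iRw.abs (i1.add i2) (fun x => ?_)
      simp only
      have : R l s x * w x = R l s x * r x + R l s x * (w x - r x) := by ring
      rw [this]
      exact abs_add_le _ _
    linarith
  -- conclusion
  have hdr0 : 0 ≤ ∫ x, dr x ^ 2 := integral_nonneg fun x => sq_nonneg _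
  have hς2 : 64 * (256 * ς ^ 2) ≤ 1 / 2 := by nlinarith
  have c1 : l ^ 2 * l⁻¹ ^ 2 = 1 := by field_simp
  have c2 : D ≤ |E| + 64 * (3 * l⁻¹ ^ 2 * J) + 64 * (32 * (∫ x, r x ^ 6)
      + 256 * ς ^ 2 * (D + ∫ x, dr x ^ 2)) + 2 * (l⁻¹ ^ 2 * J) + 2 * (3 * l⁻¹ ^ 2 * J) := by
    have a1 := le_abs_self E
    have a2 := le_abs_self ((∫ x, u x ^ 6) - ∫ x, R l s x ^ 6)
    have a3 := le_abs_self (∫ x, R l s x * w x)
    have a4 := neg_abs_le (∫ x, R l s x ^ 5 * w x)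
    have a5 : l⁻¹ ^ 2 * ∫ x, R l s x * w x ≤ l⁻¹ ^ 2 * J :=
      mul_le_mul_of_nonneg_left (a3.trans b1) (by positivity)
    linarith [ident]
  have c3 : 64 * (256 * ς ^ 2 * (D + ∫ x, dr x ^ 2)) ≤ (1 / 2) * (D + ∫ x, dr x ^ 2) := by
    have : 64 * (256 * ς ^ 2 * (D + ∫ x, dr x ^ 2)) = 64 * (256 * ς ^ 2) * (D + ∫ x, dr x ^ 2) := by
      ring
    rw [this]
    exact mul_le_mul_of_nonneg_right hς2 (by positivity)
  have c4 : D ≤ 2 * |E| + 400 * (l⁻¹ ^ 2 * J) + 4096 * (∫ x, r x ^ 6) + ∫ x, dr x ^ 2 := by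
    linarith
  have c5 : l ^ 2 * D ≤ l ^ 2 * (2 * |E| + 400 * (l⁻¹ ^ 2 * J) + 4096 * (∫ x, r x ^ 6)
      + ∫ x, dr x ^ 2) := mul_le_mul_of_nonneg_left c4 (by positivity)
  have c6 : l ^ 2 * (2 * |E| + 400 * (l⁻¹ ^ 2 * J) + 4096 * (∫ x, r x ^ 6) + ∫ x, dr x ^ 2) =
      l ^ 2 * (2 * |E| + 4096 * (∫ x, r x ^ 6) + ∫ x, dr x ^ 2) + 400 * J := by
    calc _ = l ^ 2 * (2 * |E| + 4096 * (∫ x, r x ^ 6) + ∫ x, dr x ^ 2)
          + 400 * (l ^ 2 * l⁻¹ ^ 2) * J := by ring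
      _ = _ := by rw [c1]; ring
  linarith

end Pool.Agent.Helper44.Gkdv
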